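import Pool.Agent.NH99.WZ.Defs

set_option autoImplicit false

/-! Walsh functions and thresholds (copy of the lemmas of NH99/WZ/Thr.lean, light imports):
`wal_xor`, `wal_zero`, `wal_pm`, `Rep`, `Rep.add`, `Rep.mulw`, `rep_lt`, `rep_le`. -/

namespace Pool.Agent.NH44.AD.Wal

open Finset
open Pool.Agent.NH99.WZ (wal)

theorem wal_xor (m a b i : ℕ) : wal m (a ^^^ b) i = wal m a i * wal m b i := by
  unfold wal
  rw [← prod_mul_distrib]
  refine prod_congr rfl fun k _ => ?_
  rw [Nat.testBit_xor]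
  cases a.testBit k <;> cases b.testBit k <;> cases i.testBit k <;> norm_num

theorem wal_zero (m i : ℕ) : wal m 0 i = 1 := by
  unfold wal
  refine prod_eq_one fun k _ => ?_
  rw [Nat.zero_testBit]
  simp

theorem wal_pm (m a i : ℕ) : wal m a i = 1 ∨ wal m a i = -1 := by
  induction m with
  | zero =>
    left
    unfold wal
    simp
  | succ m ih =>
    have h : wal (m + 1) a i = wal m a i *
        (if (a.testBit m && i.testBit m) = true then (-1 : ℝ) else 1) := by
      unfold wal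
      rw [prod_range_succ]
    rw [h]
    split_ifs with h1
    · rcases ih with h2 | h2
      · right
        rw [h2]
        norm_num
      · left
        rw [h2]
        norm_num
    · rw [mul_one]
      exact ih

theorem wal_low {m a : ℕ} (ha : a < 2 ^ m) (i : ℕ) : wal (m + 1) a i = wal m a (i % 2 ^ m) := by
  unfold wal
  rw [prod_range_succ, Nat.testBit_lt_two_pow ha]
  simp only [Bool.false_and, Bool.false_eq_true, if_false, mul_one]
  refine prod_congr rfl fun k hk => ?_
  rw [Nat.testBit_mod_two_pow]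
  have h : decide (k < m) = true := decide_eq_true (mem_range.1 hk)
  rw [h, Bool.true_and]

theorem wal_top {m i : ℕ} (hi : i < 2 ^ (m + 1)) :
    wal (m + 1) (2 ^ m) i = if i < 2 ^ m then 1 else -1 := by
  unfold wal
  rw [prod_range_succ]
  have h1 : ∏ k ∈ range m, (if ((2 ^ m).testBit k && i.testBit k) = true then (-1 : ℝ) else 1) =
      1 := by
    refine prod_eq_one fun k hk => ?_
    rw [Nat.testBit_two_pow]
    have h : decide (m = k) = false := decide_eq_false (by
      have := mem_range.1 hk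
      omega)
    rw [h]
    simp
  rw [h1, one_mul, Nat.testBit_two_pow]
  have h2 : decide (m = m) = true := decide_eq_true rfl
  rw [h2, Bool.true_and]
  by_cases h : i < 2 ^ m
  · rw [if_pos h, Nat.testBit_lt_two_pow h]
    simp
  · rw [if_neg h]
    have h3 : i.testBit m = true := by
      rw [Nat.testBit_eq_decide_div_mod_eq]
      apply decide_eq_true
      have h4 : i / 2 ^ m = 1 := by
        rw [Nat.div_eq_iff (Nat.two_pow_pos m)]
        rw [pow_succ] at hi
        omega
      rw [h4]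
    rw [if_pos h3]

/-- representations -/
def Rep (m : ℕ) (F : ℕ → ℕ → ℝ) (κ : ℝ) : Prop :=
  ∃ c : ℕ → ℕ → ℝ, ∑ a ∈ range (2 ^ m), ∑ b ∈ range (2 ^ m), |c a b| ≤ κ ∧
    ∀ i j, i < 2 ^ m → j < 2 ^ m → F i j =
      ∑ a ∈ range (2 ^ m), ∑ b ∈ range (2 ^ m), c a b * (wal m a i * wal m b j)

theorem Rep.add {m : ℕ} {F G : ℕ → ℕ → ℝ} {κ κ' : ℝ} (h : Rep m F κ) (h' : Rep m G κ') :
    Rep m (fun i j => F i j + G i j) (κ + κ') := by
  obtain ⟨c, hc, hF⟩ := h
  obtain ⟨c', hc', hG⟩ := h'
  refine ⟨fun a b => c a b + c' a b, ?_, ?_⟩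
  · refine le_trans ?_ (add_le_add hc hc')
    rw [← sum_add_distrib]
    refine sum_le_sum fun a _ => ?_
    rw [← sum_add_distrib]
    exact sum_le_sum fun b _ => abs_add_le _ _
  · intro i j hi hj
    change F i j + G i j = _
    rw [hF i j hi hj, hG i j hi hj, ← sum_add_distrib]
    refine sum_congr rfl fun a _ => ?_
    rw [← sum_add_distrib]
    refine sum_congr rfl fun b _ => ?_
    ring

theorem Rep.smul {m : ℕ} {F : ℕ → ℕ → ℝ} {κ : ℝ} (h : Rep m F κ) (t : ℝ) :
    Rep m (fun i j => t * F i j) (|t| * κ) := by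
  obtain ⟨c, hc, hF⟩ := h
  refine ⟨fun a b => t * c a b, ?_, ?_⟩
  · refine le_trans (le_of_eq ?_) (mul_le_mul_of_nonneg_left hc (abs_nonneg t))
    rw [mul_sum]
    refine sum_congr rfl fun a _ => ?_
    rw [mul_sum]
    exact sum_congr rfl fun b _ => abs_mul _ _
  · intro i j hi hj
    change t * F i j = _
    rw [hF i j hi hj, mul_sum]
    refine sum_congr rfl fun a _ => ?_
    rw [mul_sum]
    refine sum_congr rfl fun b _ => ?_
    ring

theorem sum_xor {m a0 : ℕ} (h : a0 < 2 ^ m) (f : ℕ → ℝ) :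
    ∑ a ∈ range (2 ^ m), f (a ^^^ a0) = ∑ a ∈ range (2 ^ m), f a := by
  refine sum_nbij' (fun a => a ^^^ a0) (fun a => a ^^^ a0) ?_ ?_ ?_ ?_ ?_
  · intro a ha
    exact mem_range.2 (Nat.xor_lt_two_pow (mem_range.1 ha) h)
  · intro a ha
    exact mem_range.2 (Nat.xor_lt_two_pow (mem_range.1 ha) h)
  · intro a _
    rw [Nat.xor_assoc, Nat.xor_self, Nat.xor_zero]
  · intro a _
    rw [Nat.xor_assoc, Nat.xor_self, Nat.xor_zero]
  · intro a _
    rfl

theorem Rep.mulw {m : ℕ} {F : ℕ → ℕ → ℝ} {κ : ℝ} (h : Rep m F κ) {a0 b0 : ℕ} (ha : a0 < 2 ^ m)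
    (hb : b0 < 2 ^ m) : Rep m (fun i j => wal m a0 i * wal m b0 j * F i j) κ := by
  obtain ⟨c, hc, hF⟩ := h
  refine ⟨fun a b => c (a ^^^ a0) (b ^^^ b0), ?_, ?_⟩
  · refine le_trans (le_of_eq ?_) hc
    rw [← sum_xor ha (fun a => ∑ b ∈ range (2 ^ m), |c a b|)]
    refine sum_congr rfl fun a _ => ?_
    exact sum_xor hb (fun b => |c (a ^^^ a0) b|)
  · intro i j hi hj
    change wal m a0 i * wal m b0 j * F i j = _
    rw [hF i j hi hj, mul_sum, ← sum_xor ha]
    refine sum_congr rfl fun a _ => ?_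
    rw [mul_sum, ← sum_xor hb]
    refine sum_congr rfl fun b _ => ?_
    rw [wal_xor, wal_xor]
    have h1 : wal m a0 i * wal m a0 i = 1 := by
      rcases wal_pm m a0 i with h | h <;> rw [h] <;> norm_num
    have h2 : wal m b0 j * wal m b0 j = 1 := by
      rcases wal_pm m b0 j with h | h <;> rw [h] <;> norm_num
    calc wal m a0 i * wal m b0 j * (c (a ^^^ a0) (b ^^^ b0) *
          (wal m a i * wal m a0 i * (wal m b j * wal m b0 j)))
        = (wal m a0 i * wal m a0 i) * (wal m b0 j * wal m b0 j) *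
          (c (a ^^^ a0) (b ^^^ b0) * (wal m a i * wal m b j)) := by ring
      _ = c (a ^^^ a0) (b ^^^ b0) * (wal m a i * wal m b j) := by rw [h1, h2]; ring

theorem Rep.one (m : ℕ) : Rep m (fun _ _ => 1) 1 := by
  have hp : 0 < 2 ^ m := Nat.two_pow_pos m
  refine ⟨fun a b => if a = 0 ∧ b = 0 then 1 else 0, ?_, ?_⟩
  · beta_reduce
    rw [sum_eq_single_of_mem 0 (mem_range.2 hp), sum_eq_single_of_mem 0 (mem_range.2 hp)]
    · simp
    · intro b _ hb
      rw [if_neg (fun h => hb h.2), abs_zero]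
    · intro a _ ha
      refine sum_eq_zero fun b _ => ?_
      rw [if_neg (fun h => ha h.1), abs_zero]
  · intro i j _ _
    beta_reduce
    rw [sum_eq_single_of_mem 0 (mem_range.2 hp), sum_eq_single_of_mem 0 (mem_range.2 hp)]
    · rw [if_pos ⟨rfl, rfl⟩, wal_zero, wal_zero]
      norm_num
    · intro b _ hb
      rw [if_neg (fun h => hb h.2), zero_mul]
    · intro a _ ha
      refine sum_eq_zero fun b _ => ?_
      rw [if_neg (fun h => ha h.1), zero_mul]

theorem sum_lift {m : ℕ} {f : ℕ → ℝ} (h : ∀ a, ¬ a < 2 ^ m → f a = 0) :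
    ∑ a ∈ range (2 ^ (m + 1)), f a = ∑ a ∈ range (2 ^ m), f a := by
  symm
  refine sum_subset ?_ ?_
  · intro a ha
    rw [mem_range] at ha ⊢
    rw [pow_succ]
    omega
  · intro a _ ha
    exact h a (fun h1 => ha (mem_range.2 h1))

theorem Rep.lift {m : ℕ} {F : ℕ → ℕ → ℝ} {κ : ℝ} (h : Rep m F κ) :
    Rep (m + 1) (fun i j => F (i % 2 ^ m) (j % 2 ^ m)) κ := by
  obtain ⟨c, hc, hF⟩ := h
  refine ⟨fun a b => if a < 2 ^ m ∧ b < 2 ^ m then c a b else 0, ?_, ?_⟩
  · refine le_trans (le_of_eq ?_) hc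
    beta_reduce
    rw [sum_lift]
    · refine sum_congr rfl fun a ha => ?_
      rw [sum_lift]
      · refine sum_congr rfl fun b hb => ?_
        rw [if_pos ⟨mem_range.1 ha, mem_range.1 hb⟩]
      · intro b hb
        rw [if_neg (fun h => hb h.2), abs_zero]
    · intro a ha
      refine sum_eq_zero fun b _ => ?_
      rw [if_neg (fun h => ha h.1), abs_zero]
  · intro i j _ _
    have hp : 0 < 2 ^ m := Nat.two_pow_pos m
    beta_reduce
    rw [hF _ _ (Nat.mod_lt _ hp) (Nat.mod_lt _ hp), sum_lift]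
    · refine sum_congr rfl fun a ha => ?_
      rw [sum_lift]
      · refine sum_congr rfl fun b hb => ?_
        rw [if_pos ⟨mem_range.1 ha, mem_range.1 hb⟩, wal_low (mem_range.1 ha),
          wal_low (mem_range.1 hb)]
      · intro b hb
        rw [if_neg (fun h => hb h.2), zero_mul]
    · intro a ha
      refine sum_eq_zero fun b _ => ?_
      rw [if_neg (fun h => ha h.1), zero_mul]

theorem Rep.congr {m : ℕ} {F G : ℕ → ℕ → ℝ} {κ κ' : ℝ} (h : Rep m F κ)
    (hFG : ∀ i j, i < 2 ^ m → j < 2 ^ m → G i j = F i j) (hκ : κ ≤ κ') : Rep m G κ' := by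
  obtain ⟨c, hc, hF⟩ := h
  exact ⟨c, hc.trans hκ, fun i j hi hj => (hFG i j hi hj).trans (hF i j hi hj)⟩

theorem step {m : ℕ} {F G : ℕ → ℕ → ℝ} {κ : ℝ} (h : Rep m F κ)
    (h00 : ∀ i j, i < 2 ^ m → j < 2 ^ m → G i j = F i j)
    (h01 : ∀ i j, i < 2 ^ m → G i (2 ^ m + j) = 1)
    (h10 : ∀ i j, j < 2 ^ m → G (2 ^ m + i) j = 0)
    (h11 : ∀ i j, i < 2 ^ m → j < 2 ^ m → G (2 ^ m + i) (2 ^ m + j) = F i j) :
    Rep (m + 1) G (κ + 1) := by
  have hp : 0 < 2 ^ m := Nat.two_pow_pos m
  have h0 : 0 < 2 ^ (m + 1) := Nat.two_pow_pos _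
  have ht : 2 ^ m < 2 ^ (m + 1) := by
    rw [pow_succ]
    omega
  have R := ((((((Rep.one (m + 1)).smul (1 / 4)).add (((Rep.one (m + 1)).mulw h0 ht).smul
    (-(1 / 4)))).add (((Rep.one (m + 1)).mulw ht h0).smul (1 / 4))).add
    (((Rep.one (m + 1)).mulw ht ht).smul (-(1 / 4)))).add (h.lift.smul (1 / 2))).add
    ((h.lift.mulw ht ht).smul (1 / 2))
  refine R.congr ?_ ?_
  · intro i j hi hj
    simp only [wal_zero]
    rw [wal_top hi, wal_top hj]
    by_cases h1 : i < 2 ^ m
    · by_cases h2 : j < 2 ^ m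
      · rw [if_pos h1, if_pos h2, Nat.mod_eq_of_lt h1, Nat.mod_eq_of_lt h2, h00 i j h1 h2]
        ring
      · rw [if_pos h1, if_neg h2]
        obtain ⟨j', rfl⟩ := Nat.exists_eq_add_of_le (not_lt.1 h2)
        rw [h01 i j' h1]
        ring
    · obtain ⟨i', rfl⟩ := Nat.exists_eq_add_of_le (not_lt.1 h1)
      by_cases h2 : j < 2 ^ m
      · rw [if_neg h1, if_pos h2, h10 i' j h2]
        ring
      · rw [if_neg h1, if_neg h2]
        obtain ⟨j', rfl⟩ := Nat.exists_eq_add_of_le (not_lt.1 h2)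
        rw [pow_succ] at hi hj
        have hi' : i' < 2 ^ m := by omega
        have hj' : j' < 2 ^ m := by omega
        rw [h11 i' j' hi' hj', Nat.add_mod_left, Nat.add_mod_left, Nat.mod_eq_of_lt hi',
          Nat.mod_eq_of_lt hj']
        ring
  · norm_num
    linarith

theorem rep_lt (m : ℕ) : Rep m (fun i j => if i < j then (1 : ℝ) else 0) m := by
  induction m with
  | zero =>
    refine ⟨fun _ _ => 0, ?_, ?_⟩
    · simp
    · intro i j hi hj
      rw [pow_zero] at hi hj
      have h : ¬ i < j := by omega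
      change (if i < j then (1 : ℝ) else 0) = _
      rw [if_neg h]
      simp
  | succ m ih =>
    have h := step (G := fun i j => if i < j then (1 : ℝ) else 0) ih (fun i j _ _ => rfl) ?_ ?_ ?_
    · refine h.congr (fun _ _ _ _ => rfl) ?_
      push_cast
      exact le_refl _
    · intro i j hi
      exact if_pos (by omega)
    · intro i j hj
      exact if_neg (by omega)
    · intro i j hi hj
      by_cases h : i < j
      · rw [if_pos h, if_pos (by omega)]
      · rw [if_neg h, if_neg (by omega)]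

theorem rep_le (m : ℕ) : Rep m (fun i j => if i ≤ j then (1 : ℝ) else 0) (m + 1) := by
  induction m with
  | zero =>
    refine (Rep.one 0).congr ?_ ?_
    · intro i j hi hj
      rw [pow_zero] at hi hj
      exact if_pos (by omega)
    · norm_num
  | succ m ih =>
    have h := step (G := fun i j => if i ≤ j then (1 : ℝ) else 0) ih (fun i j _ _ => rfl) ?_ ?_ ?_
    · refine h.congr (fun _ _ _ _ => rfl) ?_
      push_cast
      exact le_refl _
    · intro i j hi
      exact if_pos (by omega)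
    · intro i j hj
      exact if_neg (by omega)
    · intro i j hi hj
      by_cases h : i ≤ j
      · rw [if_pos h, if_pos (by omega)]
      · rw [if_neg h, if_neg (by omega)]

end Pool.Agent.NH44.AD.Wal
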