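import Pool.Agent.NH44.AD.StmM
import Pool.Agent.NH44.AD.Wal

set_option autoImplicit false

/-!
# AM-19: the norm of one step of the chain
-/

namespace Pool.Agent.NH44.AD

open Finset
open Pool.Agent.NH99.WZ (wal)

namespace ChnH89

variable {d : ℕ}

theorem mem_box {Q q : Fin d → ℕ} : q ∈ box Q ↔ ∀ i, q i ≤ Q i := by
  unfold box
  simp only [Fintype.mem_piFinset, mem_range, Nat.lt_succ_iff]

/-- the cell on the path in the step `c` -/
def rr (Q : Fin d → ℕ) (τ c : Fin d) (w : ℕ) (q : Fin d → ℕ) : Fin d → ℕ := fun i =>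
  if i = c then w else if i = τ then q i else if i < c then Q i else q i

theorem rr_box {Q : Fin d → ℕ} {τ c : Fin d} {w : ℕ} {q : Fin d → ℕ} (hq : q ∈ box Q)
    (hw : w ≤ Q c) : rr Q τ c w q ∈ box Q := by
  rw [mem_box] at hq ⊢
  intro i
  unfold rr
  split_ifs with h1 h2 h3
  · subst h1
    exact hw
  · exact hq i
  · exact le_rfl
  · exact hq i

theorem rr_c (Q : Fin d → ℕ) (τ c : Fin d) (w : ℕ) (q : Fin d → ℕ) : rr Q τ c w q c = w := by
  unfold rr
  rw [if_pos rfl]

theorem rr_τ (Q : Fin d → ℕ) {τ c : Fin d} (hc : c ≠ τ) (w : ℕ) (q : Fin d → ℕ) :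
    rr Q τ c w q τ = q τ := by
  unfold rr
  rw [if_neg (fun h => hc h.symm), if_pos rfl]

theorem rr_of_ne (Q : Fin d → ℕ) {τ c i : Fin d} (hi : i ≠ c) (w w' : ℕ) (q : Fin d → ℕ) :
    rr Q τ c w q i = rr Q τ c w' q i := by
  unfold rr
  rw [if_neg hi, if_neg hi]

/-- the condition on the cell `r` -/
def CA (Q : Fin d → ℕ) (τ c : Fin d) (r : Fin d → ℕ) : Prop :=
  r τ < Q τ ∧ ∀ i, i < c → i ≠ τ → r i = Q i

/-- the condition on the cells `r`, `s` -/
def CB (τ c : Fin d) (r s : Fin d → ℕ) : Prop :=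
  s τ = r τ ∧ s c ≤ r c ∧ ∀ i, c < i → i ≠ τ → s i = r i

open Classical in
/-- the summed kernel -/
noncomputable def GS (Q : Fin d → ℕ) (τ c : Fin d) (Γ : Kn d) : Kn d := fun r a e =>
  if CA Q τ c r then ∑ s ∈ box Q, (if CB τ c r s then Γ s a e else 0) else 0

open Classical in
theorem sum_r {P Q : Fin d → ℕ} {τ c : Fin d} (hc : c ≠ τ) (hPQ : ∀ i, i < c → i ≠ τ → P i = Q i)
    {s : Fin d → ℕ} (hs : s ∈ box P) (G : (Fin d → ℕ) → ℝ) :
    ∑ r ∈ box P, (if CA Q τ c r ∧ CB τ c r s then G r else 0) =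
      if s τ < Q τ then ∑ w ∈ Ico (s c) (P c + 1), G (rr P τ c w s) else 0 := by
  rw [← Finset.sum_filter]
  by_cases hτ : s τ < Q τ
  · rw [if_pos hτ]
    have hkey : ∀ r : Fin d → ℕ, CA Q τ c r → CB τ c r s → rr P τ c (r c) s = r := by
      intro r h1 h2
      funext i
      unfold rr
      by_cases h3 : i = c
      · subst h3
        rw [if_pos rfl]
      · rw [if_neg h3]
        by_cases h4 : i = τ
        · rw [if_pos h4, h4]
          exact h2.1
        · rw [if_neg h4]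
          by_cases h5 : i < c
          · rw [if_pos h5, hPQ i h5 h4]
            exact (h1.2 i h5 h4).symm
          · rw [if_neg h5]
            exact h2.2.2 i (lt_of_le_of_ne (not_lt.1 h5) (fun h => h3 h.symm)) h4
    refine Finset.sum_bij' (fun r _ => r c) (fun w _ => rr P τ c w s) ?_ ?_ ?_ ?_ ?_
    · intro r hr
      obtain ⟨h0, h1, h2⟩ := mem_filter.1 hr
      exact mem_Ico.2 ⟨h2.2.1, Nat.lt_succ_of_le (mem_box.1 h0 c)⟩
    · intro w hw
      obtain ⟨hw1, hw2⟩ := mem_Ico.1 hw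
      refine mem_filter.2 ⟨rr_box hs (Nat.le_of_lt_succ hw2), ⟨?_, ?_⟩, ?_, ?_, ?_⟩
      · rw [rr_τ P hc]; exact hτ
      · intro i hi hiτ
        unfold rr
        rw [if_neg hi.ne, if_neg hiτ, if_pos hi]
        exact hPQ i hi hiτ
      · rw [rr_τ P hc]
      · rw [rr_c]; exact hw1
      · intro i hi hiτ
        unfold rr
        rw [if_neg hi.ne', if_neg hiτ, if_neg (not_lt.2 hi.le)]
    · intro r hr
      obtain ⟨-, h1, h2⟩ := mem_filter.1 hr
      exact hkey r h1 h2
    · intro w hw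
      exact rr_c P τ c w s
    · intro r hr
      obtain ⟨-, h1, h2⟩ := mem_filter.1 hr
      rw [hkey r h1 h2]
  · rw [if_neg hτ]
    refine Finset.sum_eq_zero fun r hr => ?_
    obtain ⟨-, h1, h2⟩ := mem_filter.1 hr
    exact absurd (h2.1 ▸ h1.1) hτ

/-- telescoping of the difference weights -/
theorem sum_dw (m p a : ℕ) {v : ℕ} (hv : v ≤ p) :
    ∑ w ∈ Ico v (p + 1), dw m p a w = wal m a v := by
  induction hk : p - v generalizing v with
  | zero =>
    have : v = p := by omega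
    subst this
    rw [Nat.Ico_succ_singleton, sum_singleton]
    unfold dw
    rw [if_neg (lt_irrefl _), sub_zero]
  | succ k ih =>
    have h1 : v < p := by omega
    rw [Finset.sum_eq_sum_Ico_succ_bot (by omega), ih (v := v + 1) (by omega) (by omega)]
    unfold dw
    rw [if_pos h1]
    ring

/-- the sign -/
noncomputable def sg (m : ℕ) (P θ : Fin d → ℕ) (τ c : Fin d) : ℝ :=
  ∏ i, if i < c ∧ i ≠ τ then wal m (θ i) (P i) else 1

/-- the index -/
def tt (θ : Fin d → ℕ) (τ c : Fin d) : Fin d → ℕ := fun i => if i < c ∧ i ≠ τ then 0 else θ i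

theorem sg_sq (m : ℕ) (P θ : Fin d → ℕ) (τ c : Fin d) : sg m P θ τ c ^ 2 = 1 := by
  unfold sg
  rw [← Finset.prod_pow]
  refine prod_eq_one fun i _ => ?_
  split_ifs
  · rcases Wal.wal_pm m (θ i) (P i) with h | h
    · rw [h]; norm_num
    · rw [h]; norm_num
  · norm_num

theorem tt_mem {m : ℕ} {θ : Fin d → ℕ} (hθ : θ ∈ Th d m) (τ c : Fin d) : tt θ τ c ∈ Th d m := by
  unfold Th at *
  rw [Fintype.mem_piFinset] at *
  intro i
  unfold tt
  split_ifs
  · exact mem_range.2 (by positivity)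
  · exact hθ i

theorem sum_ww (m : ℕ) {P : Fin d → ℕ} {τ c : Fin d} (hc : c ≠ τ) (θ : Fin d → ℕ)
    {s : Fin d → ℕ} (hs : s ∈ box P) :
    ∑ w ∈ Ico (s c) (P c + 1), ww m P {c} θ (rr P τ c w s) =
      sg m P θ τ c * ww m P ∅ (tt θ τ c) s := by
  have h1 : ∀ w ∈ Ico (s c) (P c + 1), ww m P {c} θ (rr P τ c w s) =
      dw m (P c) (θ c) w * ∏ i ∈ univ.erase c, wal m (θ i) (rr P τ c (s c) s i) := by
    intro w _
    unfold ww
    rw [← Finset.mul_prod_erase univ _ (mem_univ c), if_pos (mem_singleton_self c), rr_c]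
    congr 1
    refine prod_congr rfl fun i hi => ?_
    have hi' : i ≠ c := (mem_erase.1 hi).1
    rw [if_neg (fun h => hi' (mem_singleton.1 h)), rr_of_ne P hi' w (s c)]
  rw [sum_congr rfl h1, ← sum_mul, sum_dw m (P c) (θ c) (mem_box.1 hs c)]
  have h2 : wal m (θ c) (s c) * ∏ i ∈ univ.erase c, wal m (θ i) (rr P τ c (s c) s i) =
      ∏ i, wal m (θ i) (rr P τ c (s c) s i) := by
    rw [← Finset.mul_prod_erase univ (fun i => wal m (θ i) (rr P τ c (s c) s i)) (mem_univ c), rr_c]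
  rw [h2]
  unfold sg ww tt
  rw [← prod_mul_distrib]
  refine prod_congr rfl fun i _ => ?_
  rw [if_neg (Finset.notMem_empty i)]
  unfold rr
  by_cases h3 : i = c
  · subst h3
    have h4 : ¬ (i < i ∧ i ≠ τ) := fun h => lt_irrefl _ h.1
    rw [if_pos rfl, if_neg h4, if_neg h4, one_mul]
  · rw [if_neg h3]
    by_cases h4 : i = τ
    · have h5 : ¬ (i < c ∧ i ≠ τ) := fun h => h.2 h4
      rw [if_pos h4, if_neg h5, if_neg h5, one_mul]
    · rw [if_neg h4]
      by_cases h5 : i < c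
      · have h6 : i < c ∧ i ≠ τ := ⟨h5, h4⟩
        rw [if_pos h5, if_pos h6, if_pos h6, Wal.wal_zero, mul_one]
      · have h6 : ¬ (i < c ∧ i ≠ τ) := fun h => h5 h.1
        rw [if_neg h5, if_neg h6, if_neg h6, one_mul]

/-- the exchange of the sums -/
theorem exch (m : ℕ) {P Q : Fin d → ℕ} (hle : ∀ i, P i ≤ Q i) {τ c : Fin d} (hc : c ≠ τ)
    (hPQ : ∀ i, i < c → i ≠ τ → P i = Q i) (θ : Fin d → ℕ) (Γ : Kn d) (a e : Fin d → ℕ)
    (f : ℕ → ℝ) :
    ∑ r ∈ box P, f (r τ) * (ww m P {c} θ r * GS Q τ c Γ r a e) =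
      ∑ s ∈ box P, (sg m P θ τ c * (if s τ < Q τ then f (s τ) else 0)) *
        (ww m P ∅ (tt θ τ c) s * Γ s a e) := by
  classical
  have hsub : box P ⊆ box Q := fun s hs => mem_box.2 fun i => (mem_box.1 hs i).trans (hle i)
  have h1 : ∀ r ∈ box P, f (r τ) * (ww m P {c} θ r * GS Q τ c Γ r a e) =
      ∑ s ∈ box P, if CA Q τ c r ∧ CB τ c r s then (f (s τ) * Γ s a e) * ww m P {c} θ r else 0 := by
    intro r hr
    unfold GS
    by_cases h2 : CA Q τ c r
    · rw [if_pos h2]
      have h3 : ∑ s ∈ box Q, (if CB τ c r s then Γ s a e else 0) =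
          ∑ s ∈ box P, (if CB τ c r s then Γ s a e else 0) := by
        refine (Finset.sum_subset hsub fun s hs hs' => ?_).symm
        rw [if_neg]
        intro h4
        apply hs'
        rw [mem_box]
        intro i
        by_cases h5 : i = τ
        · subst h5
          rw [h4.1]
          exact mem_box.1 hr i
        · rcases lt_trichotomy i c with h6 | h6 | h6
          · rw [hPQ i h6 h5]
            exact mem_box.1 hs i
          · subst h6
            exact h4.2.1.trans (mem_box.1 hr i)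
          · rw [h4.2.2 i h6 h5]
            exact mem_box.1 hr i
      rw [h3, mul_sum, mul_sum]
      refine sum_congr rfl fun s _ => ?_
      by_cases h4 : CB τ c r s
      · rw [if_pos h4, if_pos ⟨h2, h4⟩, h4.1]
        ring
      · rw [if_neg h4, if_neg (fun h => h4 h.2)]
        ring
    · rw [if_neg h2, mul_zero, mul_zero]
      refine (sum_eq_zero fun s _ => ?_).symm
      rw [if_neg (fun h => h2 h.1)]
  rw [sum_congr rfl h1, sum_comm]
  refine sum_congr rfl fun s hs => ?_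
  rw [sum_r hc hPQ hs (fun r => (f (s τ) * Γ s a e) * ww m P {c} θ r)]
  by_cases h2 : s τ < Q τ
  · rw [if_pos h2, if_pos h2, ← mul_sum, sum_ww m hc θ hs]
    ring
  · rw [if_neg h2, if_neg h2]
    ring

theorem GS_zero {P Q : Fin d → ℕ} {τ c i : Fin d} (hi : i < c) (hiτ : i ≠ τ) (hP : P i < Q i)
    (Γ : Kn d) {r : Fin d → ℕ} (hr : r ∈ box P) (a e : Fin d → ℕ) : GS Q τ c Γ r a e = 0 := by
  unfold GS
  rw [if_neg]
  intro h
  have h1 := h.2 i hi hiτ
  have h2 := mem_box.1 hr i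
  omega

theorem n1_sg (R : Finset (Fin d → ℕ)) (x : (Fin d → ℕ) → ℝ) {σ : ℝ} (hσ : σ ^ 2 = 1) :
    n1 R (fun a => σ * x a) = n1 R x := by
  unfold n1
  congr 1
  refine sum_congr rfl fun a _ => ?_
  rw [mul_pow, hσ, one_mul]

theorem n2_le (C : Finset (Fin d → ℕ)) (V q : ℕ) (z : (Fin d → ℕ) → ℕ → ℝ) :
    n2 C V (fun e v => if v < q then z e v else 0) ≤ n2 C V z := by
  unfold n2
  apply Real.sqrt_le_sqrt
  refine sum_le_sum fun e _ => sum_le_sum fun v _ => ?_
  dsimp only
  split_ifs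
  · exact le_rfl
  · rw [zero_pow two_ne_zero]
    exact sq_nonneg _

theorem n1_nonneg (R : Finset (Fin d → ℕ)) (x : (Fin d → ℕ) → ℝ) : 0 ≤ n1 R x := Real.sqrt_nonneg _

theorem n2_nonneg (C : Finset (Fin d → ℕ)) (V : ℕ) (z : (Fin d → ℕ) → ℕ → ℝ) : 0 ≤ n2 C V z :=
  Real.sqrt_nonneg _

/-- the norm of the summed kernel -/
theorem KN_GS {m : ℕ} {P Q : Fin d → ℕ} {R C : Finset (Fin d → ℕ)} {τ c : Fin d} (hc : c ≠ τ)
    (hle : ∀ i, P i ≤ Q i) {Γ : Kn d} {κ : ℝ} (hκ : 0 ≤ κ) (hΓ : KN m P R C τ ∅ Γ κ) :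
    KN m P R C τ {c} (GS Q τ c Γ) κ := by
  intro θ hθ x z
  by_cases hcase : ∀ i, i < c → i ≠ τ → P i = Q i
  · set σ := sg m P θ τ c with hσ
    have hσ2 : σ ^ 2 = 1 := sg_sq m P θ τ c
    obtain ⟨k1, -⟩ := hΓ (tt θ τ c) (tt_mem hθ τ c) (fun a => σ * x a)
      (fun e v => if v < Q τ then z e v else 0)
    obtain ⟨-, k2⟩ := hΓ (tt θ τ c) (tt_mem hθ τ c) (fun a => σ * x a)
      (fun e v => if v < Q τ then z e v else 0)
    constructor
    · have e1 : ∑ q ∈ box P, ∑ a ∈ R, ∑ e ∈ C, x a * z e (q τ) *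
          (ww m P {c} θ q * GS Q τ c Γ q a e) =
          ∑ q ∈ box P, ∑ a ∈ R, ∑ e ∈ C, (σ * x a) * (if q τ < Q τ then z e (q τ) else 0) *
            (ww m P ∅ (tt θ τ c) q * Γ q a e) := by
        rw [sum_comm]
        conv_rhs => rw [sum_comm]
        refine sum_congr rfl fun a _ => ?_
        rw [sum_comm]
        conv_rhs => rw [sum_comm]
        refine sum_congr rfl fun e _ => ?_
        rw [exch m hle hc hcase θ Γ a e (fun v => x a * z e v)]
        refine sum_congr rfl fun s _ => ?_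
        split_ifs
        · ring
        · ring
      rw [e1]
      refine k1.trans ?_
      rw [n1_sg R x hσ2]
      exact mul_le_mul_of_nonneg_left (mul_le_mul_of_nonneg_left (n2_le C _ _ z) (n1_nonneg R x)) hκ
    · have e1 : ∑ q ∈ box P, ∑ a ∈ R, ∑ e ∈ C, x e * z a (q τ) *
          (ww m P {c} θ q * GS Q τ c Γ q a e) =
          ∑ q ∈ box P, ∑ a ∈ R, ∑ e ∈ C, (σ * x e) * (if q τ < Q τ then z a (q τ) else 0) *
            (ww m P ∅ (tt θ τ c) q * Γ q a e) := by
        rw [sum_comm]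
        conv_rhs => rw [sum_comm]
        refine sum_congr rfl fun a _ => ?_
        rw [sum_comm]
        conv_rhs => rw [sum_comm]
        refine sum_congr rfl fun e _ => ?_
        rw [exch m hle hc hcase θ Γ a e (fun v => x e * z a v)]
        refine sum_congr rfl fun s _ => ?_
        split_ifs
        · ring
        · ring
      rw [e1]
      refine k2.trans ?_
      rw [n1_sg C x hσ2]
      exact mul_le_mul_of_nonneg_left (mul_le_mul_of_nonneg_left (n2_le R _ _ z) (n1_nonneg C x)) hκ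
  · push Not at hcase
    obtain ⟨i, hi, hiτ, hne⟩ := hcase
    have hlt : P i < Q i := lt_of_le_of_ne (hle i) hne
    constructor
    · have e1 : ∑ q ∈ box P, ∑ a ∈ R, ∑ e ∈ C, x a * z e (q τ) *
          (ww m P {c} θ q * GS Q τ c Γ q a e) = 0 := by
        refine sum_eq_zero fun q hq => sum_eq_zero fun a _ => sum_eq_zero fun e _ => ?_
        rw [GS_zero hi hiτ hlt Γ hq, mul_zero, mul_zero]
      rw [e1, abs_zero]
      exact mul_nonneg hκ (mul_nonneg (n1_nonneg _ _) (n2_nonneg _ _ _))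
    · have e1 : ∑ q ∈ box P, ∑ a ∈ R, ∑ e ∈ C, x e * z a (q τ) *
          (ww m P {c} θ q * GS Q τ c Γ q a e) = 0 := by
        refine sum_eq_zero fun q hq => sum_eq_zero fun a _ => sum_eq_zero fun e _ => ?_
        rw [GS_zero hi hiτ hlt Γ hq, mul_zero, mul_zero]
      rw [e1, abs_zero]
      exact mul_nonneg hκ (mul_nonneg (n1_nonneg _ _) (n2_nonneg _ _ _))

end ChnH89

open ChnH89 in
theorem t_CHN (h1 : S_KNT) (h2 : S_ST) : S_CHN := by
  intro d m P Q R C h γ hP hPQ hγ hh Γ κ hκ hΓ c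
  have hcd : 0 ≤ cd d m := by
    unfold cd
    positivity
  obtain ⟨-, kc, kz, -, -, ks, -, -⟩ := h1 d m P R C c ∅
  have hB : 0 ≤ cd d m * γ * κ := mul_nonneg (mul_nonneg hcd hγ) hκ
  have h3 := ks (Fin d) univ (fun τ => fun r a e => if τ = c then 0 else ch1 h Q c τ (Γ τ) r a e)
    (cd d m * γ * κ) hB (by
      intro τ _
      by_cases hτ : τ = c
      · have e1 : (fun r a e => if τ = c then (0 : ℝ) else ch1 h Q c τ (Γ τ) r a e) =
            (fun _ _ _ => 0 : Kn d) := by
          funext r a e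
          rw [if_pos hτ]
        rw [e1]
        exact kz _ hB
      · have hc : c ≠ τ := fun h => hτ h.symm
        have h4 := h2 d m P R C c τ {c} (GS Q τ c (Γ τ)) (h c τ) (fun v => if v < Q c then 1 else 0)
          γ κ hP hc (mem_singleton_self c) (fun h => hτ (mem_singleton.1 h)) hκ hγ (by
            intro v
            split_ifs <;> norm_num) (hh c τ hc) (KN_GS hc hPQ hκ (hΓ τ))
        have e1 : ({c} : Finset (Fin d)).erase c = ∅ := by simp
        rw [e1, ← mul_assoc] at h4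
        refine kc _ _ _ ?_ h4
        intro r _ a _ e _
        rw [if_neg hτ]
        unfold ch1 GS CA
        by_cases h5 : r c < Q c
        · rw [if_pos h5]
          by_cases h6 : r τ < Q τ ∧ ∀ i, i < c → i ≠ τ → r i = Q i
          · rw [if_pos h6, if_pos ⟨h5, h6⟩, one_mul]
            congr 1
            refine sum_congr rfl fun s _ => ?_
            unfold CB
            congr 1
          · rw [if_neg h6, if_neg (fun h => h6 h.2)]
            ring
        · rw [if_neg h5, zero_mul, zero_mul]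
          exact (if_neg (fun h => h5 h.1)).symm)
  rw [card_univ, Fintype.card_fin] at h3
  have e2 : (d : ℝ) * (cd d m * γ) * κ = (d : ℝ) * (cd d m * γ * κ) := by ring
  rw [e2]
  exact h3

end Pool.Agent.NH44.AD
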