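import Pool.Agent.NH44.AD.StmM

set_option autoImplicit false

/-!
# Project AD: composition of tensors
-/

namespace Pool.Agent.NH44.AD

open Finset

namespace Cmp68

variable {d : ℕ} {P : Fin d → ℕ}

theorem mem_bx {A : Finset (Fin d)} {s : Fin d → ℕ} :
    s ∈ bx A P ↔ ∀ i, (i ∈ A → s i ≤ P i) ∧ (i ∉ A → s i = P i) := by
  unfold bx
  rw [Fintype.mem_piFinset]
  refine forall_congr' fun i => ?_
  by_cases h : i ∈ A
  · simp [h, Nat.lt_succ_iff]
  · simp [h]

/-- gluing of cells -/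
def gl (I : Finset (Fin d)) (a b : Fin d → ℕ) : Fin d → ℕ := fun i => if i ∈ I then a i else b i

theorem sum_split {I J U : Finset (Fin d)} (hU : ∀ i, i ∈ U ↔ i ∈ I ∨ i ∈ J)
    (hd : ∀ i ∈ I, i ∉ J) (f : (Fin d → ℕ) → ℝ) :
    ∑ s ∈ bx U P, f s = ∑ a ∈ bx I P, ∑ b ∈ bx J P, f (gl I a b) := by
  rw [← Finset.sum_product']
  symm
  refine Finset.sum_bij' (fun z _ => gl I z.1 z.2) (fun s _ => (pr I P s, pr J P s)) ?_ ?_ ?_ ?_ ?_
  · rintro ⟨a, b⟩ h
    have h1 := mem_bx.1 (Finset.mem_product.1 h).1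
    have h2 := mem_bx.1 (Finset.mem_product.1 h).2
    refine mem_bx.2 fun i => ⟨fun hi => ?_, fun hi => ?_⟩
    · show (if i ∈ I then a i else b i) ≤ P i
      split_ifs with h3
      · exact (h1 i).1 h3
      · exact (h2 i).1 (((hU i).1 hi).resolve_left h3)
    · show (if i ∈ I then a i else b i) = P i
      have h3 : i ∉ I := fun h => hi ((hU i).2 (Or.inl h))
      rw [if_neg h3]
      exact (h2 i).2 fun h => hi ((hU i).2 (Or.inr h))
  · intro s hs
    have h1 := mem_bx.1 hs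
    refine Finset.mem_product.2 ⟨mem_bx.2 fun i => ⟨fun hi => ?_, fun hi => ?_⟩,
      mem_bx.2 fun i => ⟨fun hi => ?_, fun hi => ?_⟩⟩
    · show (if i ∈ I then s i else P i) ≤ P i
      rw [if_pos hi]
      exact (h1 i).1 ((hU i).2 (Or.inl hi))
    · show (if i ∈ I then s i else P i) = P i
      rw [if_neg hi]
    · show (if i ∈ J then s i else P i) ≤ P i
      rw [if_pos hi]
      exact (h1 i).1 ((hU i).2 (Or.inr hi))
    · show (if i ∈ J then s i else P i) = P i
      rw [if_neg hi]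
  · rintro ⟨a, b⟩ h
    have h1 := mem_bx.1 (Finset.mem_product.1 h).1
    have h2 := mem_bx.1 (Finset.mem_product.1 h).2
    refine Prod.ext ?_ ?_
    · funext i
      show (if i ∈ I then (if i ∈ I then a i else b i) else P i) = a i
      by_cases h3 : i ∈ I
      · rw [if_pos h3, if_pos h3]
      · rw [if_neg h3]
        exact ((h1 i).2 h3).symm
    · funext i
      show (if i ∈ J then (if i ∈ I then a i else b i) else P i) = b i
      by_cases h3 : i ∈ J
      · rw [if_pos h3, if_neg fun h => hd i h h3]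
      · rw [if_neg h3]
        exact ((h2 i).2 h3).symm
  · intro s hs
    have h1 := mem_bx.1 hs
    funext i
    show (if i ∈ I then (if i ∈ I then s i else P i) else (if i ∈ J then s i else P i)) = s i
    by_cases h3 : i ∈ I
    · rw [if_pos h3, if_pos h3]
    · rw [if_neg h3]
      by_cases h4 : i ∈ J
      · rw [if_pos h4]
      · rw [if_neg h4]
        exact ((h1 i).2 fun h => ((hU i).1 h).elim h3 h4).symm
  · intro z _
    rfl

theorem nm_nonneg68 (A : Finset (Fin d)) (P : Fin d → ℕ) (x : (Fin d → ℕ) → ℝ) :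
    0 ≤ nm A P x := Real.sqrt_nonneg _

theorem kappa_nonneg {A : Finset (Fin d)} {X : (Fin d → ℕ) → ℝ} {κ : ℝ} (hA : A.Nonempty)
    (h : FB P A X κ) : 0 ≤ κ := by
  have h1 := h A A hA hA (Finset.union_self A) (fun _ => 1) (fun _ => 1)
  have h2 : 0 < nm A P (fun _ => 1) := by
    unfold nm
    apply Real.sqrt_pos.2
    have h3 : P ∈ bx A P := mem_bx.2 fun i => ⟨fun _ => le_rfl, fun _ => rfl⟩
    have h4 : ∑ a ∈ bx A P, (1 : ℝ) ^ 2 = ((bx A P).card : ℝ) := by simp
    rw [h4]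
    exact_mod_cast Finset.card_pos.2 ⟨P, h3⟩
  have h3 : 0 ≤ κ * (nm A P (fun _ => 1) * nm A P (fun _ => 1)) := (abs_nonneg _).trans h1
  exact nonneg_of_mul_nonneg_left h3 (mul_pos h2 h2)

/-- the inequality with spectators -/
theorem spect {A A' N M : Finset (Fin d)} {X : (Fin d → ℕ) → ℝ} {κ : ℝ} (hX : FB P A X κ)
    (hκ : 0 ≤ κ) (hM : ∀ i, i ∈ M ↔ (i ∈ A ∨ i ∈ A') ∧ i ∉ N) (hN : ∀ i ∈ N, i ∈ A ∧ i ∈ A')
    (h1 : (A ∩ A').Nonempty) (h2 : (A \ N).Nonempty) (x y : (Fin d → ℕ) → ℝ) :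
    |∑ s ∈ bx (A ∪ A') P, x (pr A' P s) * X (pr A P s) * y (pr M P s)| ≤
      κ * (nm A' P x * nm M P y) := by
  have hAA : (A ∩ A') ∪ (A \ N) = A := by
    ext i
    have := hN i
    simp only [Finset.mem_union, Finset.mem_inter, Finset.mem_sdiff]
    tauto
  rw [sum_split (I := A' \ A) (J := A) (fun i => by
    simp only [Finset.mem_union, Finset.mem_sdiff]; tauto) (fun i hi => (Finset.mem_sdiff.1 hi).2)]
  have key : ∀ b ∈ bx (A' \ A) P, |∑ t ∈ bx A P, x (pr A' P (gl (A' \ A) b t)) *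
      X (pr A P (gl (A' \ A) b t)) * y (pr M P (gl (A' \ A) b t))| ≤
      κ * (Real.sqrt (∑ u ∈ bx (A ∩ A') P, x (gl (A' \ A) b u) ^ 2) *
        Real.sqrt (∑ u ∈ bx (A \ N) P, y (gl (A' \ A) b u) ^ 2)) := by
    intro b hb
    have hb' := mem_bx.1 hb
    have h3 := hX (A ∩ A') (A \ N) h1 h2 hAA (fun u => x (pr A' P (gl (A' \ A) b u)))
      (fun u => y (pr M P (gl (A' \ A) b u)))
    have e1 : nm (A ∩ A') P (fun u => x (pr A' P (gl (A' \ A) b u))) =
        Real.sqrt (∑ u ∈ bx (A ∩ A') P, x (gl (A' \ A) b u) ^ 2) := by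
      unfold nm
      congr 1
      refine Finset.sum_congr rfl fun u hu => ?_
      have hu' := mem_bx.1 hu
      have hpt : pr A' P (gl (A' \ A) b u) = gl (A' \ A) b u := ?_
      · show x (pr A' P (gl (A' \ A) b u)) ^ 2 = x (gl (A' \ A) b u) ^ 2
        rw [hpt]
      funext i
      unfold pr gl
      by_cases h4 : i ∈ A' \ A
      · rw [if_pos h4, if_pos (Finset.mem_sdiff.1 h4).1]
      · rw [if_neg h4]
        by_cases h5 : i ∈ A'
        · rw [if_pos h5]
        · rw [if_neg h5]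
          exact ((hu' i).2 fun h => h5 (Finset.mem_inter.1 h).2).symm
    have e2 : nm (A \ N) P (fun u => y (pr M P (gl (A' \ A) b u))) =
        Real.sqrt (∑ u ∈ bx (A \ N) P, y (gl (A' \ A) b u) ^ 2) := by
      unfold nm
      congr 1
      refine Finset.sum_congr rfl fun u hu => ?_
      have hu' := mem_bx.1 hu
      have hpt : pr M P (gl (A' \ A) b u) = gl (A' \ A) b u := ?_
      · show y (pr M P (gl (A' \ A) b u)) ^ 2 = y (gl (A' \ A) b u) ^ 2
        rw [hpt]
      funext i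
      unfold pr gl
      by_cases h4 : i ∈ A' \ A
      · have h6 : i ∈ M := (hM i).2 ⟨Or.inr (Finset.mem_sdiff.1 h4).1, fun h =>
          (Finset.mem_sdiff.1 h4).2 (hN i h).1⟩
        rw [if_pos h4, if_pos h6]
      · rw [if_neg h4]
        by_cases h5 : i ∈ M
        · rw [if_pos h5]
        · rw [if_neg h5]
          refine ((hu' i).2 fun h => h5 ?_).symm
          have h6 := Finset.mem_sdiff.1 h
          exact (hM i).2 ⟨Or.inl h6.1, h6.2⟩
    rw [e1, e2] at h3
    refine le_trans (le_of_eq ?_) h3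
    congr 1
    refine Finset.sum_congr rfl fun t ht => ?_
    have ht' := mem_bx.1 ht
    have a1 : pr A P (gl (A' \ A) b t) = t := by
      funext i
      unfold pr gl
      by_cases h4 : i ∈ A
      · rw [if_pos h4, if_neg fun h => (Finset.mem_sdiff.1 h).2 h4]
      · rw [if_neg h4]
        exact ((ht' i).2 h4).symm
    have a2 : pr A' P (gl (A' \ A) b (pr (A ∩ A') P t)) = pr A' P (gl (A' \ A) b t) := by
      funext i
      unfold pr gl
      by_cases h4 : i ∈ A'
      · rw [if_pos h4, if_pos h4]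
        by_cases h5 : i ∈ A' \ A
        · rw [if_pos h5, if_pos h5]
        · rw [if_neg h5, if_neg h5]
          have h6 : i ∈ A := by
            by_contra h
            exact h5 (Finset.mem_sdiff.2 ⟨h4, h⟩)
          show (if i ∈ A ∩ A' then t i else P i) = t i
          rw [if_pos (Finset.mem_inter.2 ⟨h6, h4⟩)]
      · rw [if_neg h4, if_neg h4]
    have a3 : pr M P (gl (A' \ A) b (pr (A \ N) P t)) = pr M P (gl (A' \ A) b t) := by
      funext i
      unfold pr gl
      by_cases h4 : i ∈ M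
      · rw [if_pos h4, if_pos h4]
        by_cases h5 : i ∈ A' \ A
        · rw [if_pos h5, if_pos h5]
        · rw [if_neg h5, if_neg h5]
          have h6 := (hM i).1 h4
          have h7 : i ∈ A := by
            by_contra h
            exact h5 (Finset.mem_sdiff.2 ⟨h6.1.resolve_left h, h⟩)
          show (if i ∈ A \ N then t i else P i) = t i
          rw [if_pos (Finset.mem_sdiff.2 ⟨h7, h6.2⟩)]
      · rw [if_neg h4, if_neg h4]
    simp only [a1, a2, a3]
    ring
  have hx : nm A' P x = Real.sqrt (∑ b ∈ bx (A' \ A) P, ∑ u ∈ bx (A ∩ A') P,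
      x (gl (A' \ A) b u) ^ 2) := by
    unfold nm
    rw [sum_split (I := A' \ A) (J := A ∩ A') (fun i => by
      simp only [Finset.mem_inter, Finset.mem_sdiff]; tauto)
      (fun i hi h => (Finset.mem_sdiff.1 hi).2 (Finset.mem_inter.1 h).1)]
  have hy : nm M P y = Real.sqrt (∑ b ∈ bx (A' \ A) P, ∑ u ∈ bx (A \ N) P,
      y (gl (A' \ A) b u) ^ 2) := by
    unfold nm
    rw [sum_split (I := A' \ A) (J := A \ N) (fun i => by
      have h3 := hN i
      have h4 := hM i
      simp only [Finset.mem_sdiff]; tauto)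
      (fun i hi h => (Finset.mem_sdiff.1 hi).2 (Finset.mem_sdiff.1 h).1)]
  calc _ ≤ ∑ b ∈ bx (A' \ A) P, |∑ t ∈ bx A P, x (pr A' P (gl (A' \ A) b t)) *
      X (pr A P (gl (A' \ A) b t)) * y (pr M P (gl (A' \ A) b t))| :=
        Finset.abs_sum_le_sum_abs _ _
    _ ≤ ∑ b ∈ bx (A' \ A) P, κ * (Real.sqrt (∑ u ∈ bx (A ∩ A') P, x (gl (A' \ A) b u) ^ 2) *
        Real.sqrt (∑ u ∈ bx (A \ N) P, y (gl (A' \ A) b u) ^ 2)) := Finset.sum_le_sum key
    _ = κ * ∑ b ∈ bx (A' \ A) P, (Real.sqrt (∑ u ∈ bx (A ∩ A') P, x (gl (A' \ A) b u) ^ 2) *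
        Real.sqrt (∑ u ∈ bx (A \ N) P, y (gl (A' \ A) b u) ^ 2)) := by
        rw [Finset.mul_sum]
    _ ≤ κ * (nm A' P x * nm M P y) := by
        rw [hx, hy]
        refine mul_le_mul_of_nonneg_left (Real.sum_sqrt_mul_sqrt_le _
          (fun b => Finset.sum_nonneg fun _ _ => sq_nonneg _)
          (fun b => Finset.sum_nonneg fun _ _ => sq_nonneg _)) hκ

/-- the application of a tensor -/
def app (P : Fin d → ℕ) (A A' N M : Finset (Fin d)) (X x : (Fin d → ℕ) → ℝ) (a : Fin d → ℕ) : ℝ :=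
  ∑ c ∈ bx N P, x (pr A' P (gl M a c)) * X (pr A P (gl M a c))

theorem pr_gl {M : Finset (Fin d)} {a c : Fin d → ℕ} (ha : a ∈ bx M P) :
    pr M P (gl M a c) = a := by
  have h1 := mem_bx.1 ha
  funext i
  unfold pr gl
  by_cases h4 : i ∈ M
  · rw [if_pos h4, if_pos h4]
  · rw [if_neg h4]
    exact ((h1 i).2 h4).symm

theorem app_le {A A' N M : Finset (Fin d)} {X : (Fin d → ℕ) → ℝ} {κ : ℝ} (hX : FB P A X κ)
    (hκ : 0 ≤ κ) (hM : ∀ i, i ∈ M ↔ (i ∈ A ∨ i ∈ A') ∧ i ∉ N) (hN : ∀ i ∈ N, i ∈ A ∧ i ∈ A')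
    (h1 : (A ∩ A').Nonempty) (h2 : (A \ N).Nonempty) (x : (Fin d → ℕ) → ℝ) :
    nm M P (app P A A' N M X x) ≤ κ * nm A' P x := by
  have h3 := spect hX hκ hM hN h1 h2 x (app P A A' N M X x)
  rw [sum_split (I := M) (J := N) (fun i => by
      have h3 := hN i
      have h4 := hM i
      simp only [Finset.mem_union]; tauto) (fun i hi => ((hM i).1 hi).2)] at h3
  have e1 : ∑ a ∈ bx M P, ∑ c ∈ bx N P, x (pr A' P (gl M a c)) * X (pr A P (gl M a c)) *
      app P A A' N M X x (pr M P (gl M a c)) = nm M P (app P A A' N M X x) ^ 2 := by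
    unfold nm
    rw [Real.sq_sqrt (Finset.sum_nonneg fun _ _ => sq_nonneg _)]
    refine Finset.sum_congr rfl fun a ha => ?_
    have e0 : ∑ c ∈ bx N P, x (pr A' P (gl M a c)) * X (pr A P (gl M a c)) *
        app P A A' N M X x (pr M P (gl M a c)) =
        (∑ c ∈ bx N P, x (pr A' P (gl M a c)) * X (pr A P (gl M a c))) *
          app P A A' N M X x a := by
      rw [Finset.sum_mul]
      refine Finset.sum_congr rfl fun c _ => ?_
      rw [pr_gl ha]
    rw [e0, sq]
    rfl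
  rw [e1] at h3
  have h4 := (le_abs_self _).trans h3
  have h5 := nm_nonneg68 M P (app P A A' N M X x)
  have h6 := nm_nonneg68 A' P x
  rcases h5.eq_or_lt with h7 | h7
  · rw [← h7]
    exact mul_nonneg hκ h6
  · have h8 : nm M P (app P A A' N M X x) * nm M P (app P A A' N M X x) ≤
        (κ * nm A' P x) * nm M P (app P A A' N M X x) := by
      rw [← sq, mul_assoc]
      exact h4
    exact le_of_mul_le_mul_right h8 h7

end Cmp68

open Cmp68

theorem t_CMP : S_CMP := by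
  intro d P A B A' B' X Y κ μ hX hY hAB hBB hAA hun x z
  have hA : A.Nonempty := hAA.mono Finset.inter_subset_left
  have hB : B.Nonempty := hBB.mono Finset.inter_subset_left
  have hκ := kappa_nonneg hA hX
  have hμ := kappa_nonneg hB hY
  have hun' : ∀ i, ((i ∈ A' ∨ i ∈ B') ∨ (i ∈ A ∧ i ∈ B)) ↔ (i ∈ A ∨ i ∈ B) := by
    intro i
    have := Finset.ext_iff.1 hun i
    simpa only [Finset.mem_union, Finset.mem_inter] using this
  obtain ⟨N2, hN2⟩ : ∃ N2, N2 = (A ∩ A') \ (B ∪ B') := ⟨_, rfl⟩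
  obtain ⟨N1, hN1⟩ : ∃ N1, N1 = (B ∩ B') \ (A ∪ A') := ⟨_, rfl⟩
  obtain ⟨M, hM⟩ : ∃ M, M = (A ∪ A') \ N2 := ⟨_, rfl⟩
  have mN2 : ∀ i, i ∈ N2 ↔ (i ∈ A ∧ i ∈ A') ∧ ¬ (i ∈ B ∨ i ∈ B') := by
    intro i
    rw [hN2, Finset.mem_sdiff, Finset.mem_inter, Finset.mem_union]
  have mN1 : ∀ i, i ∈ N1 ↔ (i ∈ B ∧ i ∈ B') ∧ ¬ (i ∈ A ∨ i ∈ A') := by
    intro i
    rw [hN1, Finset.mem_sdiff, Finset.mem_inter, Finset.mem_union]
  have mM : ∀ i, i ∈ M ↔ (i ∈ A ∨ i ∈ A') ∧ i ∉ N2 := by
    intro i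
    rw [hM, Finset.mem_sdiff, Finset.mem_union]
  have mM' : ∀ i, i ∈ M ↔ (i ∈ B ∨ i ∈ B') ∧ i ∉ N1 := by
    intro i
    have h1 := hun' i
    rw [mM, mN1, mN2]
    tauto
  have h1 := app_le hX hκ mM (fun i hi => ((mN2 i).1 hi).1) hAA (by
    obtain ⟨i, hi⟩ := hAB
    have := Finset.mem_inter.1 hi
    exact ⟨i, Finset.mem_sdiff.2 ⟨this.1, fun h => ((mN2 i).1 h).2 (Or.inl this.2)⟩⟩) x
  have h2 := app_le hY hμ mM' (fun i hi => ((mN1 i).1 hi).1) hBB (by
    obtain ⟨i, hi⟩ := hAB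
    have := Finset.mem_inter.1 hi
    exact ⟨i, Finset.mem_sdiff.2 ⟨this.2, fun h => ((mN1 i).1 h).2 (Or.inl this.1)⟩⟩) z
  have e1 : ∑ s ∈ bx (A ∪ B) P, x (pr A' P s) * z (pr B' P s) * (X (pr A P s) * Y (pr B P s)) =
      ∑ a ∈ bx M P, app P A A' N2 M X x a * app P B B' N1 M Y z a := by
    rw [sum_split (I := M) (J := N2 ∪ N1) (fun i => by
      have h1 := hun' i
      have h3 := mM i
      have h4 := mN1 i
      have h5 := mN2 i
      simp only [Finset.mem_union]; tauto) (fun i hi => by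
      have h3 := mM i
      have h3' := mM' i
      simp only [Finset.mem_union]; tauto)]
    refine Finset.sum_congr rfl fun a _ => ?_
    rw [sum_split (I := N2) (J := N1) (fun i => Finset.mem_union) (fun i hi h => by
      have h4 := (mN1 i).1 h
      have h5 := (mN2 i).1 hi
      tauto)]
    unfold app
    rw [Finset.sum_mul_sum]
    refine Finset.sum_congr rfl fun c _ => Finset.sum_congr rfl fun e _ => ?_
    have b1 : pr A' P (gl M a (gl N2 c e)) = pr A' P (gl M a c) := by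
      funext i
      unfold pr gl
      by_cases h4 : i ∈ A'
      · rw [if_pos h4, if_pos h4]
        by_cases h5 : i ∈ M
        · rw [if_pos h5, if_pos h5]
        · rw [if_neg h5, if_neg h5]
          have h6 : i ∈ N2 := by
            by_contra h
            exact h5 ((mM i).2 ⟨Or.inr h4, h⟩)
          rw [if_pos h6]
      · rw [if_neg h4, if_neg h4]
    have b2 : pr A P (gl M a (gl N2 c e)) = pr A P (gl M a c) := by
      funext i
      unfold pr gl
      by_cases h4 : i ∈ A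
      · rw [if_pos h4, if_pos h4]
        by_cases h5 : i ∈ M
        · rw [if_pos h5, if_pos h5]
        · rw [if_neg h5, if_neg h5]
          have h6 : i ∈ N2 := by
            by_contra h
            exact h5 ((mM i).2 ⟨Or.inl h4, h⟩)
          rw [if_pos h6]
      · rw [if_neg h4, if_neg h4]
    have b3 : pr B' P (gl M a (gl N2 c e)) = pr B' P (gl M a e) := by
      funext i
      unfold pr gl
      by_cases h4 : i ∈ B'
      · rw [if_pos h4, if_pos h4]
        by_cases h5 : i ∈ M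
        · rw [if_pos h5, if_pos h5]
        · rw [if_neg h5, if_neg h5, if_neg fun h => ((mN2 i).1 h).2 (Or.inr h4)]
      · rw [if_neg h4, if_neg h4]
    have b4 : pr B P (gl M a (gl N2 c e)) = pr B P (gl M a e) := by
      funext i
      unfold pr gl
      by_cases h4 : i ∈ B
      · rw [if_pos h4, if_pos h4]
        by_cases h5 : i ∈ M
        · rw [if_pos h5, if_pos h5]
        · rw [if_neg h5, if_neg h5, if_neg fun h => ((mN2 i).1 h).2 (Or.inl h4)]
      · rw [if_neg h4, if_neg h4]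
    rw [b1, b2, b3, b4]
    ring
  rw [e1]
  calc |∑ a ∈ bx M P, app P A A' N2 M X x a * app P B B' N1 M Y z a| ≤
      ∑ a ∈ bx M P, |app P A A' N2 M X x a| * |app P B B' N1 M Y z a| := by
        refine (Finset.abs_sum_le_sum_abs _ _).trans (le_of_eq ?_)
        exact Finset.sum_congr rfl fun a _ => abs_mul _ _
    _ ≤ Real.sqrt (∑ a ∈ bx M P, |app P A A' N2 M X x a| ^ 2) *
        Real.sqrt (∑ a ∈ bx M P, |app P B B' N1 M Y z a| ^ 2) :=
        Real.sum_mul_le_sqrt_mul_sqrt _ _ _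
    _ = nm M P (app P A A' N2 M X x) * nm M P (app P B B' N1 M Y z) := by
        unfold nm
        simp only [sq_abs]
    _ ≤ (κ * nm A' P x) * (μ * nm B' P z) :=
        mul_le_mul h1 h2 (nm_nonneg68 _ _ _) (mul_nonneg hκ (nm_nonneg68 _ _ _))
    _ = κ * μ * (nm A' P x * nm B' P z) := by ring

end Pool.Agent.NH44.AD
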