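import Pool.Agent.NH44.AD.StmM
import Pool.Agent.NH44.AD.Wal

set_option autoImplicit false

/-!
# Project AD: the start kernel; decomposition of the matrix of a cumulant
-/

namespace Pool.Agent.NH44.AD

open Finset
open Pool.Agent.NH99.WZ (wal)

namespace DecAux

variable {d : ℕ}

lemma mem_box {P q : Fin d → ℕ} : q ∈ box P ↔ ∀ i, q i ≤ P i := by
  unfold box
  rw [Fintype.mem_piFinset]
  refine forall_congr' fun i => ?_
  rw [mem_range]
  exact Nat.lt_succ_iff

lemma mem_bx {A : Finset (Fin d)} {P q : Fin d → ℕ} :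
    q ∈ bx A P ↔ (∀ i ∈ A, q i ≤ P i) ∧ ∀ i, i ∉ A → q i = P i := by
  unfold bx
  rw [Fintype.mem_piFinset]
  constructor
  · intro h
    constructor
    · intro i hi
      have := h i
      rw [if_pos hi, mem_range] at this
      exact Nat.lt_succ_iff.1 this
    · intro i hi
      have := h i
      rw [if_neg hi, mem_singleton] at this
      exact this
  · rintro ⟨h1, h2⟩ i
    by_cases hi : i ∈ A
    · rw [if_pos hi, mem_range]
      exact Nat.lt_succ_iff.2 (h1 i hi)
    · rw [if_neg hi, mem_singleton]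
      exact h2 i hi

lemma mem_bz {W : Finset (Fin d)} {P z q : Fin d → ℕ} :
    q ∈ bz W P z ↔ (∀ i ∈ W, q i ≤ P i) ∧ ∀ i, i ∉ W → q i = z i := by
  unfold bz
  rw [Fintype.mem_piFinset]
  constructor
  · intro h
    constructor
    · intro i hi
      have := h i
      rw [if_pos hi, mem_range] at this
      exact Nat.lt_succ_iff.1 this
    · intro i hi
      have := h i
      rw [if_neg hi, mem_singleton] at this
      exact this
  · rintro ⟨h1, h2⟩ i
    by_cases hi : i ∈ W
    · rw [if_pos hi, mem_range]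
      exact Nat.lt_succ_iff.2 (h1 i hi)
    · rw [if_neg hi, mem_singleton]
      exact h2 i hi

lemma pr_mem {A : Finset (Fin d)} {P s : Fin d → ℕ} {i : Fin d} (hi : i ∈ A) :
    pr A P s i = s i := if_pos hi

lemma pr_notMem {A : Finset (Fin d)} {P s : Fin d → ℕ} {i : Fin d} (hi : i ∉ A) :
    pr A P s i = P i := if_neg hi

lemma pr_congr {A : Finset (Fin d)} {P s s' : Fin d → ℕ} (h : ∀ i ∈ A, s i = s' i) :
    pr A P s = pr A P s' := by
  funext i
  by_cases hi : i ∈ A
  · rw [pr_mem hi, pr_mem hi, h i hi]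
  · rw [pr_notMem hi, pr_notMem hi]

lemma pr_in {A : Finset (Fin d)} {P s : Fin d → ℕ} (h : ∀ i ∈ A, s i ≤ P i) : pr A P s ∈ bx A P := by
  rw [mem_bx]
  exact ⟨fun i hi => by rw [pr_mem hi]; exact h i hi, fun i hi => pr_notMem hi⟩

/-- Grouping by the coordinates in `I`. -/
lemma sum_group (I : Finset (Fin d)) (P : Fin d → ℕ) (H : (Fin d → ℕ) → ℝ) :
    ∑ q ∈ box P, H q = ∑ s ∈ bx I P, ∑ q ∈ bz Iᶜ P s, H q := by
  have hmap : ∀ q ∈ box P, pr I P q ∈ bx I P := fun q hq =>
    pr_in fun i _ => (mem_box.1 hq) i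
  rw [← sum_fiberwise_of_maps_to hmap]
  refine sum_congr rfl fun s hs => sum_congr ?_ fun _ _ => rfl
  rw [mem_bx] at hs
  ext q
  rw [mem_filter, mem_box, mem_bz]
  constructor
  · rintro ⟨h1, h2⟩
    refine ⟨fun i _ => h1 i, fun i hi => ?_⟩
    have hi' : i ∈ I := by simpa using hi
    rw [← h2, pr_mem hi']
  · rintro ⟨h1, h2⟩
    constructor
    · intro i
      by_cases hi : i ∈ I
      · rw [h2 i (by simpa using hi)]
        exact hs.1 i hi
      · exact h1 i (by simpa using hi)
    · funext i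
      by_cases hi : i ∈ I
      · rw [pr_mem hi, h2 i (by simpa using hi)]
      · rw [pr_notMem hi, hs.2 i hi]

/-- Separating one coordinate. -/
lemma sum_coord (Q : Fin d → ℕ) (k : Fin d) (H : (Fin d → ℕ) → ℝ) :
    ∑ q ∈ box Q, H q = ∑ q ∈ box (Function.update Q k 0), ∑ v ∈ range (Q k + 1),
      H (Function.update q k v) := by
  rw [← sum_product']
  refine sum_nbij' (fun q => (Function.update q k 0, q k)) (fun p => Function.update p.1 k p.2)
    ?_ ?_ ?_ ?_ ?_
  · intro q hq
    rw [mem_box] at hq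
    rw [mem_product, mem_box, mem_range]
    refine ⟨fun i => ?_, Nat.lt_succ_iff.2 (hq k)⟩
    by_cases hi : i = k
    · subst hi; simp
    · simp only [Function.update_of_ne hi]
      exact hq i
  · rintro ⟨q, v⟩ h
    rw [mem_product, mem_box, mem_range] at h
    rw [mem_box]
    intro i
    by_cases hi : i = k
    · subst hi
      simp only [Function.update_self]
      exact Nat.lt_succ_iff.1 h.2
    · have := h.1 i
      simp only [Function.update_of_ne hi] at this ⊢
      exact this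
  · intro q _
    simp
  · rintro ⟨q, v⟩ h
    rw [mem_product, mem_box] at h
    have h0 : q k = 0 := by
      have := h.1 k
      simp only [Function.update_self] at this
      omega
    refine Prod.ext ?_ ?_
    · funext i
      by_cases hi : i = k
      · subst hi; simp [h0]
      · simp [Function.update_of_ne hi]
    · simp
  · intro q _
    simp

/-- Summation by parts. -/
lemma parts (m p t : ℕ) (φ : ℕ → ℝ) (h0 : φ 0 = 0) :
    ∑ v ∈ range (p + 1), dw m p t v * φ v =
      ∑ v ∈ range (p + 1), if v < p then wal m t (v + 1) * (φ (v + 1) - φ v) else 0 := by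
  have h1 : ∑ v ∈ range (p + 1), dw m p t v * φ v =
      ∑ v ∈ range (p + 1), wal m t v * φ v - ∑ v ∈ range p, wal m t (v + 1) * φ v := by
    have h2 : ∑ v ∈ range (p + 1), (if v < p then wal m t (v + 1) else 0) * φ v =
        ∑ v ∈ range p, wal m t (v + 1) * φ v := by
      rw [sum_range_succ, if_neg (lt_irrefl p), zero_mul, add_zero]
      refine sum_congr rfl fun v hv => ?_
      rw [if_pos (mem_range.1 hv)]
    rw [← h2, ← sum_sub_distrib]
    refine sum_congr rfl fun v _ => ?_
    unfold dw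
    ring
  have h3 : ∑ v ∈ range (p + 1), (if v < p then wal m t (v + 1) * (φ (v + 1) - φ v) else 0) =
      ∑ v ∈ range p, wal m t (v + 1) * φ (v + 1) - ∑ v ∈ range p, wal m t (v + 1) * φ v := by
    rw [sum_range_succ, if_neg (lt_irrefl p), add_zero, ← sum_sub_distrib]
    refine sum_congr rfl fun v hv => ?_
    rw [if_pos (mem_range.1 hv)]
    ring
  rw [h1, h3, sum_range_succ' (fun v => wal m t v * φ v), h0, mul_zero, add_zero]

lemma wal_sq (m a i : ℕ) : wal m a i ^ 2 = 1 := by
  rcases Wal.wal_pm m a i with h | h <;> rw [h] <;> norm_num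

lemma prod_wal_sq (m : ℕ) (A : Finset (Fin d)) (θ s : Fin d → ℕ) :
    (∏ i ∈ A, wal m (θ i) (s i)) ^ 2 = 1 := by
  rw [← prod_pow]
  exact prod_eq_one fun i _ => wal_sq _ _ _

lemma sum_bx_le (A : Finset (Fin d)) (P Q : Fin d → ℕ) (hPQ : ∀ i, P i ≤ Q i)
    (f : (Fin d → ℕ) → ℝ) (hf : ∀ a, 0 ≤ f a) :
    ∑ a ∈ bx A P, f (pr A Q a) ≤ ∑ a ∈ bx A Q, f a := by
  have hinj : Set.InjOn (fun a => pr A Q a) (bx A P : Set (Fin d → ℕ)) := by
    intro a ha b hb hab
    rw [mem_coe, mem_bx] at ha hb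
    funext i
    by_cases hi : i ∈ A
    · have := congrFun hab i
      simp only [pr_mem hi] at this
      exact this
    · rw [ha.2 i hi, hb.2 i hi]
  rw [← sum_image (f := f) hinj]
  refine sum_le_sum_of_subset_of_nonneg ?_ fun a _ _ => hf a
  intro a ha
  rw [mem_image] at ha
  obtain ⟨b, hb, rfl⟩ := ha
  rw [mem_bx] at hb
  exact pr_in fun i hi => (hb.1 i hi).trans (hPQ i)

lemma sum_bx_le2 (B : Finset (Fin d)) (k : Fin d) (P Q : Fin d → ℕ) (hPQ : ∀ i, P i ≤ Q i)
    (f : (Fin d → ℕ) → ℕ → ℝ) (hf : ∀ a v, 0 ≤ f a v) :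
    ∑ b ∈ bx (insert k B) P, f (pr B Q b) (b k) ≤
      ∑ e ∈ bx B Q, ∑ v ∈ range (P k + 1), f e v := by
  have hinj : Set.InjOn (fun b : Fin d → ℕ => ((pr B Q b, b k) : (Fin d → ℕ) × ℕ))
      (bx (insert k B) P : Set (Fin d → ℕ)) := by
    intro a ha b hb hab
    rw [mem_coe, mem_bx] at ha hb
    simp only [Prod.mk.injEq] at hab
    funext i
    by_cases hk : i = k
    · rw [hk]; exact hab.2
    · by_cases hi : i ∈ B
      · have := congrFun hab.1 i
        simp only [pr_mem hi] at this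
        exact this
      · have hi' : i ∉ insert k B := by
          rw [mem_insert]
          push Not
          exact ⟨hk, hi⟩
        rw [ha.2 i hi', hb.2 i hi']
  rw [← sum_product']
  have h1 := sum_image (f := fun p : (Fin d → ℕ) × ℕ => f p.1 p.2) hinj
  rw [← h1]
  refine sum_le_sum_of_subset_of_nonneg ?_ fun a _ _ => hf _ _
  intro p hp
  rw [mem_image] at hp
  obtain ⟨b, hb, rfl⟩ := hp
  rw [mem_bx] at hb
  rw [mem_product, mem_range]
  refine ⟨pr_in fun i hi => (hb.1 i (mem_insert_of_mem hi)).trans (hPQ i), ?_⟩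
  exact Nat.lt_succ_iff.2 (hb.1 k (mem_insert_self _ _))

/-- The first form. -/
lemma form1 {m : ℕ} {P Q θ : Fin d → ℕ} {S A B W : Finset (Fin d)} {k : Fin d}
    {G : (Fin d → ℕ) → ℝ} {κ : ℝ} (hPQ : ∀ i, P i ≤ Q i) (hA : A.Nonempty)
    (hAB : A ∪ B = S) (hk : k ∉ S) (hW : W = (insert k S)ᶜ) (hκ : 0 ≤ κ)
    (hG : HB m P (insert k S) G κ) (θ' : Fin d → ℕ) (hθ' : θ' ∈ Th d m)
    (x : (Fin d → ℕ) → ℝ) (z : (Fin d → ℕ) → ℕ → ℝ) :
    |∑ q ∈ box P, ∑ a ∈ bx A Q, ∑ e ∈ bx B Q, x a * z e (q k) *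
      (ww m P W θ' q * G0 m Q A B θ k G q a e)| ≤
      κ * (n1 (bx A Q) x * n2 (bx B Q) (P k + 1) z) := by
  set I := insert k S with hI
  have hAI : A ⊆ I := fun i hi => mem_insert_of_mem (by rw [← hAB]; exact mem_union_left _ hi)
  have hBI : B ⊆ I := fun i hi => mem_insert_of_mem (by rw [← hAB]; exact mem_union_right _ hi)
  have hkI : k ∈ I := mem_insert_self _ _
  let α : ℕ → ℝ := fun v => if v < Q k then wal m (θ k) (v + 1) else 0
  have hα : ∀ v, α v ^ 2 ≤ 1 := by
    intro v
    change (if v < Q k then wal m (θ k) (v + 1) else 0) ^ 2 ≤ 1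
    split_ifs
    · rw [wal_sq]
    · norm_num
  -- the inner sums
  have h1 : ∀ q ∈ box P, ∑ a ∈ bx A Q, ∑ e ∈ bx B Q, x a * z e (q k) *
      (ww m P W θ' q * G0 m Q A B θ k G q a e) =
      x (pr A Q q) * z (pr B Q q) (q k) * (ww m P W θ' q * (α (q k) * G q)) := by
    intro q hq
    rw [mem_box] at hq
    have ha : pr A Q q ∈ bx A Q := pr_in fun i _ => (hq i).trans (hPQ i)
    have hb : pr B Q q ∈ bx B Q := pr_in fun i _ => (hq i).trans (hPQ i)
    rw [sum_eq_single_of_mem _ ha, sum_eq_single_of_mem _ hb]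
    · unfold G0
      change _ = x (pr A Q q) * z (pr B Q q) (q k) * (ww m P W θ' q *
        ((if q k < Q k then wal m (θ k) (q k + 1) else 0) * G q))
      by_cases hqk : q k < Q k
      · rw [if_pos ⟨rfl, rfl, hqk⟩, if_pos hqk]
      · rw [if_neg (fun h => hqk h.2.2), if_neg hqk, zero_mul]
    · intro e _ he
      unfold G0
      rw [if_neg (fun h => he h.2.1.symm), mul_zero, mul_zero]
    · intro a _ ha'
      refine sum_eq_zero fun e _ => ?_
      unfold G0
      rw [if_neg (fun h => ha' h.1.symm), mul_zero, mul_zero]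
  rw [sum_congr rfl h1, sum_group I P]
  -- the weights
  have hww : ∀ q, ww m P W θ' q = (∏ i ∈ Iᶜ, dw m (P i) (θ' i) (q i)) *
      ∏ i ∈ I, wal m (θ' i) (q i) := by
    intro q
    unfold ww
    rw [hW, prod_ite]
    congr 1
    · refine prod_congr ?_ fun _ _ => rfl
      ext i; simp
    · refine prod_congr ?_ fun _ _ => rfl
      ext i; simp
  let x' : (Fin d → ℕ) → ℝ := fun a => x (pr A Q a) * ∏ i ∈ A, wal m (θ' i) (a i)
  let z' : (Fin d → ℕ) → ℝ := fun b => z (pr B Q b) (b k) *
    (α (b k) * ∏ i ∈ I \ A, wal m (θ' i) (b i))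
  have h2 : ∀ s ∈ bx I P, ∑ q ∈ bz Iᶜ P s, x (pr A Q q) * z (pr B Q q) (q k) *
      (ww m P W θ' q * (α (q k) * G q)) =
      x' (pr A P s) * z' (pr (insert k B) P s) * TV m P Iᶜ θ' G s := by
    intro s _
    unfold TV
    rw [mul_sum]
    refine sum_congr rfl fun q hq => ?_
    rw [mem_bz] at hq
    have hqs : ∀ i ∈ I, q i = s i := fun i hi => hq.2 i (by simpa using hi)
    have e1 : pr A Q q = pr A Q s := pr_congr fun i hi => hqs i (hAI hi)
    have e2 : pr B Q q = pr B Q s := pr_congr fun i hi => hqs i (hBI hi)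
    have e3 : q k = s k := hqs k hkI
    have e4 : ∏ i ∈ I, wal m (θ' i) (q i) = (∏ i ∈ A, wal m (θ' i) (s i)) *
        ∏ i ∈ I \ A, wal m (θ' i) (s i) := by
      rw [prod_congr rfl fun i hi => by rw [hqs i hi], mul_comm, prod_sdiff hAI]
    have e5 : x' (pr A P s) = x (pr A Q s) * ∏ i ∈ A, wal m (θ' i) (s i) := by
      change x (pr A Q (pr A P s)) * ∏ i ∈ A, wal m (θ' i) (pr A P s i) = _
      rw [pr_congr (s' := s) fun i hi => pr_mem hi]
      congr 1
      exact prod_congr rfl fun i hi => by rw [pr_mem hi]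
    have e6 : z' (pr (insert k B) P s) = z (pr B Q s) (s k) *
        (α (s k) * ∏ i ∈ I \ A, wal m (θ' i) (s i)) := by
      change z (pr B Q (pr (insert k B) P s)) (pr (insert k B) P s k) *
        (α (pr (insert k B) P s k) * ∏ i ∈ I \ A, wal m (θ' i) (pr (insert k B) P s i)) = _
      rw [pr_congr (A := B) (s' := s) fun i hi => pr_mem (mem_insert_of_mem hi),
        pr_mem (mem_insert_self k B)]
      congr 2
      refine prod_congr rfl fun i hi => ?_
      rw [mem_sdiff] at hi
      have hi' : i ∈ insert k B := by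
        rcases mem_insert.1 hi.1 with h | h
        · rw [h]; exact mem_insert_self _ _
        · rw [← hAB, mem_union] at h
          rcases h with h | h
          · exact absurd h hi.2
          · exact mem_insert_of_mem h
      rw [pr_mem hi']
    rw [hww, e1, e2, e3, e4, e5, e6]
    ring
  rw [sum_congr rfl h2]
  have hU : A ∪ insert k B = I := by
    rw [hI, ← hAB, union_insert]
  have h3 := hG θ' hθ' A (insert k B) hA (insert_nonempty _ _) hU x' z'
  refine h3.trans (mul_le_mul_of_nonneg_left ?_ hκ)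
  refine mul_le_mul ?_ ?_ (Real.sqrt_nonneg _) (Real.sqrt_nonneg _)
  · refine Real.sqrt_le_sqrt ?_
    refine le_trans (le_of_eq ?_) (sum_bx_le A P Q hPQ (fun a => x a ^ 2) fun a => sq_nonneg _)
    refine sum_congr rfl fun a _ => ?_
    change (x (pr A Q a) * ∏ i ∈ A, wal m (θ' i) (a i)) ^ 2 = _
    rw [mul_pow, prod_wal_sq, mul_one]
  · refine Real.sqrt_le_sqrt ?_
    refine le_trans (sum_le_sum fun b _ => ?_)
      (sum_bx_le2 B k P Q hPQ (fun a v => z a v ^ 2) fun a v => sq_nonneg _)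
    change (z (pr B Q b) (b k) * (α (b k) * ∏ i ∈ I \ A, wal m (θ' i) (b i))) ^ 2 ≤ _
    rw [mul_pow, mul_pow, prod_wal_sq, mul_one]
    calc z (pr B Q b) (b k) ^ 2 * α (b k) ^ 2 ≤ z (pr B Q b) (b k) ^ 2 * 1 :=
          mul_le_mul_of_nonneg_left (hα _) (sq_nonneg _)
      _ = _ := mul_one _

lemma G0_swap (m : ℕ) (Q : Fin d → ℕ) (A B : Finset (Fin d)) (θ : Fin d → ℕ) (k : Fin d)
    (G : (Fin d → ℕ) → ℝ) (q a e : Fin d → ℕ) :
    G0 m Q A B θ k G q a e = G0 m Q B A θ k G q e a := by
  unfold G0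
  by_cases h : pr A Q q = a ∧ pr B Q q = e ∧ q k < Q k
  · rw [if_pos h, if_pos ⟨h.2.1, h.1, h.2.2⟩]
  · rw [if_neg h, if_neg (fun h' => h ⟨h'.2.1, h'.1, h'.2.2⟩)]

end DecAux

open DecAux in
/-- **The norm of the start kernel.** -/
theorem t_G0N : S_G0N := by
  intro d m P Q θ S A B W k G κ _ hPQ _ hA hB hAB hk hW hκ hG θ' hθ' x z
  refine ⟨form1 hPQ hA hAB hk hW hκ hG θ' hθ' x z, ?_⟩
  have h1 := form1 (θ := θ) (A := B) (B := A) hPQ hB (by rw [union_comm]; exact hAB) hk hW hκ hG
    θ' hθ' x z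
  refine le_trans (le_of_eq ?_) h1
  congr 1
  refine sum_congr rfl fun q _ => ?_
  rw [sum_comm]
  refine sum_congr rfl fun e _ => sum_congr rfl fun a _ => ?_
  rw [G0_swap]

open DecAux in
/-- **The matrix of a cumulant: seeds and non-linear part.** -/
theorem t_DEC (h1 : S_SDI) : S_DEC := by
  intro d m Q θ X b h S A B k K G p hU hk hAB hK hK0 a e
  have hkA : k ∉ A := fun hh => hk (by rw [← hAB]; exact mem_union_left _ hh)
  have hkB : k ∉ B := fun hh => hk (by rw [← hAB]; exact mem_union_right _ hh)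
  set W' : Finset (Fin d) := (insert k S)ᶜ with hW'
  have hkW : k ∉ W' := by simp [hW']
  have hSc : Sᶜ = insert k W' := by
    ext i
    simp only [hW', mem_compl, mem_insert]
    constructor
    · intro hi
      by_cases hik : i = k
      · exact Or.inl hik
      · exact Or.inr (by push Not; exact ⟨hik, hi⟩)
    · rintro (hi | hi)
      · rw [hi]; exact hk
      · exact fun hS => hi (Or.inr hS)
  have h2 := h1 d m Q θ X b h hU (W'.sort (· ≤ ·)) k (G0 m Q A B θ k G)
    (Finset.sort_nodup _ _) (by rw [Finset.mem_sort]; exact hkW) (by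
      intro q _ hq a e
      unfold G0
      rw [if_neg (fun hh => absurd hh.2.2 (not_lt.2 hq))]) a e
  rw [← h2, Finset.sort_toFinset]
  unfold RM HM
  rw [← sum_add_distrib, sum_coord Q k, sum_coord Q k]
  refine sum_congr rfl fun q hq => ?_
  have hq' : ∀ v ∈ range (Q k + 1), Function.update q k v ∈ box Q := by
    intro v hv
    rw [mem_box] at hq ⊢
    intro i
    by_cases hi : i = k
    · subst hi
      simp only [Function.update_self]
      exact Nat.lt_succ_iff.1 (mem_range.1 hv)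
    · have := hq i
      simp only [Function.update_of_ne hi] at this ⊢
      exact this
  have eA : ∀ v, pr A Q (Function.update q k v) = pr A Q q := fun v =>
    pr_congr fun i hi => Function.update_of_ne (ne_of_mem_of_not_mem hi hkA) _ _
  have eB : ∀ v, pr B Q (Function.update q k v) = pr B Q q := fun v =>
    pr_congr fun i hi => Function.update_of_ne (ne_of_mem_of_not_mem hi hkB) _ _
  have eW : ∀ v, ∏ i ∈ W', dw m (Q i) (θ i) (Function.update q k v i) =
      ∏ i ∈ W', dw m (Q i) (θ i) (q i) := fun v =>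
    prod_congr rfl fun i hi => by
      rw [Function.update_of_ne (ne_of_mem_of_not_mem hi hkW)]
  have eS : ∀ v, ∏ i ∈ Sᶜ, dw m (Q i) (θ i) (Function.update q k v i) =
      dw m (Q k) (θ k) v * ∏ i ∈ W', dw m (Q i) (θ i) (q i) := by
    intro v
    rw [hSc, prod_insert hkW, Function.update_self, eW]
  unfold G0
  simp only [← hW', eA, eB, eW, eS, Function.update_self]
  by_cases hab : pr A Q q = a ∧ pr B Q q = e
  · simp only [hab.1, hab.2, true_and, and_self, if_true]
    have h3 := parts m (Q k) (θ k) (fun v => K (Function.update q k v))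
      (hK0 _ (hq' 0 (mem_range.2 (Nat.succ_pos _))) (Function.update_self _ _ _))
    have h4 : ∑ v ∈ range (Q k + 1), dw m (Q k) (θ k) v *
        (∏ i ∈ W', dw m (Q i) (θ i) (q i)) * K (Function.update q k v) =
        (∏ i ∈ W', dw m (Q i) (θ i) (q i)) *
          ∑ v ∈ range (Q k + 1), dw m (Q k) (θ k) v * K (Function.update q k v) := by
      rw [mul_sum]
      exact sum_congr rfl fun v _ => by ring
    rw [h4, h3, mul_sum]
    refine sum_congr rfl fun v hv => ?_
    by_cases hvQ : v < Q k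
    · rw [if_pos hvQ, if_pos hvQ, if_pos hvQ]
      have h5 := hK (Function.update q k v) (hq' v hv) (by rw [Function.update_self]; exact hvQ)
      rw [Function.update_self, Function.update_idem] at h5
      rw [h5]
      ring
    · rw [if_neg hvQ, if_neg hvQ, if_neg hvQ]
      ring
  · have hab' : ∀ v, ¬ (pr A Q q = a ∧ pr B Q q = e ∧ v < Q k) := fun v hh => hab ⟨hh.1, hh.2.1⟩
    simp only [if_neg hab, if_neg (hab' _), mul_zero, add_zero]

end Pool.Agent.NH44.AD
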