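import Pool.Agent.NH44.AD.StmM

set_option autoImplicit false

/-!
# Project AD (AM-11): the deterministic bounds on a good box
-/

namespace Pool.Agent.NH44.AD

open Finset
open Pool.Agent.NH99.WZ (wal)
open Pool.Agent.NH43.AD (Ce ex lo DD RR KK be om ph gg ps top cz Cond Good Pregood Pre)

variable {d : ℕ}

theorem Det.mem_box {P s : Fin d → ℕ} : s ∈ box P ↔ ∀ i, s i ≤ P i := by
  unfold box
  rw [Fintype.mem_piFinset]
  simp only [mem_range, Nat.lt_succ_iff]

theorem Det.one_le_cd (d m : ℕ) : 1 ≤ cd d m := by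
  unfold cd
  apply one_le_pow₀
  have : (0 : ℝ) ≤ m := Nat.cast_nonneg m
  linarith

theorem Det.cz_le (d : ℕ) : cz d ≤ 1 / 2 := by
  unfold cz
  have h1 : (1 : ℝ) ≤ (2 * ((d : ℝ) + 1)) ^ (d + 1) := by
    apply one_le_pow₀
    have : (0 : ℝ) ≤ d := Nat.cast_nonneg d
    linarith
  rw [div_le_div_iff₀ (by positivity) (by norm_num)]
  linarith

theorem Det.FB_mono {P : Fin d → ℕ} {I : Finset (Fin d)} {T : (Fin d → ℕ) → ℝ} {κ κ' : ℝ}
    (h : FB P I T κ) (hκ : κ ≤ κ') : FB P I T κ' := by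
  intro A B hA hB hAB x z
  refine (h A B hA hB hAB x z).trans ?_
  apply mul_le_mul_of_nonneg_right hκ
  exact mul_nonneg (Real.sqrt_nonneg _) (Real.sqrt_nonneg _)

theorem t_DET (h1 : S_HBT) (h2 : S_PRD) (h3 : S_INV) (h4 : S_LOG) (h5 : S_TOPN)
    (hU : ∀ (d : ℕ) (X : Fin d → ℕ → ℝ) (y : Ce d → ℝ), 2 ≤ d →
      (∀ i v, X i v = 1 ∨ X i v = -1) → ∀ s : Ce d, DD y s ≠ 0 →
      KK X y univ s = (∏ i, X i (s i)) * y s) : S_DET := by
  intro d n m η X y ρ h P hd hX hy hy0 hP hnm hηd hη hsm hG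
  have hPm : ∀ i, P i < 2 ^ m := fun i => lt_of_le_of_lt (hP i) hnm
  have hcd := Det.one_le_cd d m
  have hcd0 : 0 < cd d m := by linarith
  obtain ⟨hη0, hη1⟩ := hη 1 le_rfl (by omega)
  have hh : 0 < h := lt_of_lt_of_le hη0 hη1
  have h2d : (1 : ℝ) ≤ 2 ^ d := one_le_pow₀ (by norm_num)
  have hsm' : 64 * (2 ^ d * (cd d m ^ 2 * h)) ≤ 1 := by
    rw [pow_add] at hsm
    linarith
  have hcdh : 2 ^ d * (cd d m * h) ≤ 1 / 64 := by
    have : 2 ^ d * (cd d m * h) * 1 ≤ 2 ^ d * (cd d m * h) * cd d m := by gcongr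
    nlinarith
  have hcdh1 : cd d m * h ≤ 1 / 64 := by
    have : 1 * (cd d m * h) ≤ 2 ^ d * (cd d m * h) := by gcongr
    linarith
  have hcdh0 : 0 ≤ cd d m * h := by positivity
  -- the cumulants
  have hK : ∀ S : Finset (Fin d), S.Nonempty → HB m P S (KK X y S) (η S.card) := by
    intro S hS
    by_cases hne : S = univ
    · subst hne
      obtain ⟨a1, a2, -⟩ := h1 d m P univ hS hPm
      have hF := h5 d n m P (fun s => (∏ i, X i (s i)) * y s) ρ hd hP (fun s => by
        rw [abs_mul, abs_prod]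
        have : ∏ i, |X i (s i)| = 1 := prod_eq_one fun i _ => by
          rcases hX i (s i) with h | h <;> rw [h] <;> norm_num
        rw [this, one_mul]
        exact hy s) (fun s hs => by rw [hy0 s hs, mul_zero])
      rw [card_univ, Fintype.card_fin]
      refine a1 _ _ _ (a2 _ _ _ (fun s hs => ?_) hF) hηd
      exact (hU d X y hd hX s (hG s (Det.mem_box.1 hs)).1.ne').symm
    · exact (hG P (fun _ => le_rfl)).2.2 S hS hne
  have hbe : ∀ k : Fin d, HB m P {k} (be X y k) h := by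
    intro k
    obtain ⟨a1, -⟩ := h1 d m P {k} (singleton_nonempty k) hPm
    have h6 := hK {k} (singleton_nonempty k)
    rw [card_singleton] at h6
    exact a1 _ _ _ h6 hη1
  have hbe2 : ∀ k : Fin d, ∀ s ∈ box P, |be X y k s| ≤ 1 / 2 := fun k s hs =>
    ((hG s (Det.mem_box.1 hs)).2.1 {k} (singleton_nonempty k)).trans (Det.cz_le d)
  have hgg : ∀ (k : Fin d) (S : Finset (Fin d)), S.Nonempty → k ∉ S →
      HB m P (insert k S) (gg X y k S) (3 * η (S.card + 1)) ∧ 3 * η (S.card + 1) ≤ 3 * h := by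
    intro k S hS hk
    have hc : (insert k S).card = S.card + 1 := card_insert_of_notMem hk
    have hle : S.card + 1 ≤ d := by
      rw [← hc]
      exact (card_le_univ _).trans (by rw [Fintype.card_fin])
    obtain ⟨b1, b2⟩ := hη (S.card + 1) (by omega) hle
    have h6 := hK (insert k S) (insert_nonempty k S)
    rw [hc] at h6
    refine ⟨h3 d m P (insert k S) k (KK X y (insert k S)) (be X y k) _ h hPm
      (mem_insert_self k S) b1 h6 (hbe k) ?_ (hbe2 k), by linarith⟩
    nlinarith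
  refine ⟨fun k S hS hk => (hgg k S hS hk).1, hbe, ?_⟩
  intro k S α θ hS hk hα hθ
  have hph : ∀ B : Finset (Fin d), B.Nonempty → k ∉ B →
      HB m P (insert k B) (fun s => ph X y k s B) (4 * h) := by
    intro B hB hkB
    obtain ⟨a1, a2, a3, a4, a5, -⟩ := h1 d m P (insert k B) (insert_nonempty k B) hPm
    obtain ⟨g1, g2⟩ := hgg k B hB hkB
    have g3 := a1 _ _ _ g1 g2
    have g4 := a5 _ _ k (X k) (mem_insert_self k B) (fun v => by
      rcases hX k v with h | h <;> rw [h] <;> norm_num) g3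
    have g5 := (h2 d m P {k} (insert k B) (be X y k) (gg X y k B) h (3 * h) hPm
      ⟨k, mem_inter.2 ⟨mem_singleton_self k, mem_insert_self k B⟩⟩ (hbe k) g3).1
    have hun : ({k} : Finset (Fin d)) ∪ insert k B = insert k B :=
      union_eq_right.2 (singleton_subset_iff.2 (mem_insert_self k B))
    rw [hun] at g5
    have g6 := a4 _ _ (-1) g5
    have g7 := a3 _ _ _ _ g4 g6
    refine a2 _ _ _ (fun s hs => ?_) (a1 _ _ (4 * h) g7 ?_)
    · have hB0 : B ≠ ∅ := hB.ne_empty
      have hb := abs_le.1 (hbe2 k s hs)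
      change X k (s k) * gg X y k B s + -1 * (be X y k s * gg X y k B s) = ph X y k s B
      unfold ph om gg
      rw [if_neg hB0]
      have hx2 : X k (s k) * X k (s k) = 1 := by
        rcases hX k (s k) with h | h <;> rw [h] <;> norm_num
      have e1 : 1 - be X y k s ^ 2 ≠ 0 := by nlinarith
      have e2 : 1 + X k (s k) * be X y k s ≠ 0 := by
        rcases hX k (s k) with h | h <;> rw [h] <;> intro h0 <;> linarith
      field_simp
      linear_combination (be X y k s * KK X y (insert k B) s) * hx2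
    · rw [abs_neg, abs_one, one_mul]
      nlinarith
  have hlog := (h4 d m P k (ph X y k) (4 * h) hPm (by positivity) (by
    rw [pow_succ]
    linarith) hph).2 S α θ hS hk hα hθ
  refine Det.FB_mono hlog ?_
  have : (0 : ℝ) ≤ 2 ^ d * (cd d m * h ^ 2) := by positivity
  rw [pow_succ, pow_add]
  nlinarith

end Pool.Agent.NH44.AD
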