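import Pool.Agent.NH44.AD.StmM
import Pool.Agent.NH44.AD.Wal

set_option autoImplicit false

/-!
# Project AD, AM-2: the decomposition lemma
-/

namespace Pool.Agent.NH44.AD

open Finset
open Pool.Agent.NH99.WZ (wal)

namespace Dl

/-- sums over three indices of a product -/
theorem sum3 {d m : ℕ} (f : Fin d → ℕ → ℕ → ℕ → ℝ) :
    ∑ θ₁ ∈ Th d m, ∑ θ₂ ∈ Th d m, ∑ θ₃ ∈ Th d m, ∏ i, f i (θ₁ i) (θ₂ i) (θ₃ i) =
      ∏ i, ∑ x ∈ range (2 ^ m), ∑ y ∈ range (2 ^ m), ∑ z ∈ range (2 ^ m), f i x y z := by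
  unfold Th
  rw [prod_univ_sum]
  refine sum_congr rfl fun θ₁ _ => ?_
  rw [prod_univ_sum]
  refine sum_congr rfl fun θ₂ _ => ?_
  rw [prod_univ_sum]

theorem s0 (m : ℕ) (A : ℝ) : ∑ z ∈ range (2 ^ m), (if z = 0 then A else 0) = A := by
  rw [sum_ite_eq' (range (2 ^ m)) 0 (fun _ => A), if_pos (mem_range.2 (Nat.two_pow_pos m))]

/-- the kernel of one coordinate -/
def ke (u v : Prop) [Decidable u] [Decidable v] (t c : ℕ → ℕ → ℝ) (x y z : ℕ) : ℝ :=
  if u then (if v then (if z = 0 then c x y else 0) else (if y = 0 then t x z else 0))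
  else (if v then (if x = 0 then t y z else 0) else
    (if x = 0 then (if y = 0 then (if z = 0 then 1 else 0) else 0) else 0))

theorem ke_abs (m : ℕ) (u v : Prop) [Decidable u] [Decidable v] (t c : ℕ → ℕ → ℝ)
    (ht : ∑ a ∈ range (2 ^ m), ∑ b ∈ range (2 ^ m), |t a b| ≤ (m : ℝ) + 1)
    (hc : ∑ a ∈ range (2 ^ m), ∑ b ∈ range (2 ^ m), |c a b| ≤ 2 * (m : ℝ) + 1) :
    ∑ x ∈ range (2 ^ m), ∑ y ∈ range (2 ^ m), ∑ z ∈ range (2 ^ m), |ke u v t c x y z| ≤
      3 * ((m : ℝ) + 2) := by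
  have hm : (0 : ℝ) ≤ m := Nat.cast_nonneg m
  unfold ke
  by_cases hu : u
  · by_cases hv : v
    · simp only [hu, hv, if_true]
      have e : ∀ x y z : ℕ, |if z = 0 then c x y else 0| = if z = 0 then |c x y| else 0 := by
        intro x y z
        split_ifs <;> simp
      simp only [e, s0]
      linarith
    · simp only [hu, hv, if_true, if_false]
      have e : ∀ x y : ℕ, ∑ z ∈ range (2 ^ m), |if y = 0 then t x z else 0| =
          if y = 0 then ∑ z ∈ range (2 ^ m), |t x z| else 0 := by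
        intro x y
        split_ifs <;> simp
      simp only [e, s0]
      linarith
  · by_cases hv : v
    · simp only [hu, hv, if_true, if_false]
      have e : ∀ x : ℕ, ∑ y ∈ range (2 ^ m), ∑ z ∈ range (2 ^ m), |if x = 0 then t y z else 0| =
          if x = 0 then ∑ y ∈ range (2 ^ m), ∑ z ∈ range (2 ^ m), |t y z| else 0 := by
        intro x
        split_ifs <;> simp
      simp only [e, s0]
      linarith
    · simp only [hu, hv, if_false]
      have e : ∀ x y z : ℕ, |if x = 0 then (if y = 0 then (if z = 0 then (1 : ℝ) else 0) else 0)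
          else 0| = if x = 0 then (if y = 0 then (if z = 0 then (1 : ℝ) else 0) else 0) else 0 := by
        intro x y z
        split_ifs <;> simp
      have e1 : ∀ x y : ℕ, ∑ z ∈ range (2 ^ m), (if x = 0 then (if y = 0 then
          (if z = 0 then (1 : ℝ) else 0) else 0) else 0) =
          if x = 0 then (if y = 0 then 1 else 0) else 0 := by
        intro x y
        split_ifs
        · exact s0 m 1
        · simp
        · simp
      have e2 : ∀ x : ℕ, ∑ y ∈ range (2 ^ m), (if x = 0 then (if y = 0 then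
          (1 : ℝ) else 0) else 0) = if x = 0 then 1 else 0 := by
        intro x
        split_ifs
        · exact s0 m 1
        · simp
      simp only [e, e1, e2, s0]
      linarith

/-- the sum of the kernel of one coordinate with weights -/
theorem ke_sum (m : ℕ) (u v : Prop) [Decidable u] [Decidable v] (t c : ℕ → ℕ → ℝ)
    (A B W : ℕ → ℝ) (hW : W 0 = 1) (hA : ¬ u → A 0 = 1) (hB : ¬ v → B 0 = 1) :
    ∑ x ∈ range (2 ^ m), ∑ y ∈ range (2 ^ m), ∑ z ∈ range (2 ^ m),
        ke u v t c x y z * (W z * (A x * B y)) =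
      if u then (if v then ∑ x ∈ range (2 ^ m), ∑ y ∈ range (2 ^ m), c x y * (A x * B y)
        else ∑ x ∈ range (2 ^ m), ∑ z ∈ range (2 ^ m), t x z * (A x * W z))
      else (if v then ∑ y ∈ range (2 ^ m), ∑ z ∈ range (2 ^ m), t y z * (B y * W z) else 1) := by
  unfold ke
  by_cases hu : u
  · by_cases hv : v
    · simp only [hu, hv, if_true]
      refine sum_congr rfl fun x _ => sum_congr rfl fun y _ => ?_
      have e : ∀ z : ℕ, (if z = 0 then c x y else 0) * (W z * (A x * B y)) =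
          if z = 0 then c x y * (A x * B y) else 0 := by
        intro z
        split_ifs with hz
        · rw [hz, hW]; ring
        · ring
      simp only [e, s0]
    · simp only [hu, hv, if_true, if_false]
      refine sum_congr rfl fun x _ => ?_
      have e : ∀ y : ℕ, ∑ z ∈ range (2 ^ m), (if y = 0 then t x z else 0) *
          (W z * (A x * B y)) = if y = 0 then ∑ z ∈ range (2 ^ m), t x z * (A x * W z) else 0 := by
        intro y
        split_ifs with hy
        · rw [hy, hB hv]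
          exact sum_congr rfl fun z _ => by ring
        · simp
      simp only [e, s0]
  · by_cases hv : v
    · simp only [hu, hv, if_true, if_false]
      have e : ∀ x : ℕ, ∑ y ∈ range (2 ^ m), ∑ z ∈ range (2 ^ m), (if x = 0 then t y z else 0) *
          (W z * (A x * B y)) =
          if x = 0 then ∑ y ∈ range (2 ^ m), ∑ z ∈ range (2 ^ m), t y z * (B y * W z) else 0 := by
        intro x
        split_ifs with hx
        · rw [hx, hA hu]
          exact sum_congr rfl fun y _ => sum_congr rfl fun z _ => by ring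
        · simp
      simp only [e, s0]
    · simp only [hu, hv, if_false]
      have e : ∀ x y z : ℕ, (if x = 0 then (if y = 0 then (if z = 0 then (1 : ℝ) else 0) else 0)
          else 0) * (W z * (A x * B y)) =
          if x = 0 then (if y = 0 then (if z = 0 then (1 : ℝ) else 0) else 0) else 0 := by
        intro x y z
        split_ifs with hx hy hz
        · rw [hx, hy, hz, hW, hA hu, hB hv]; ring
        · ring
        · ring
        · ring
      have e1 : ∀ x y : ℕ, ∑ z ∈ range (2 ^ m), (if x = 0 then (if y = 0 then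
          (if z = 0 then (1 : ℝ) else 0) else 0) else 0) =
          if x = 0 then (if y = 0 then 1 else 0) else 0 := by
        intro x y
        split_ifs
        · exact s0 m 1
        · simp
        · simp
      have e2 : ∀ x : ℕ, ∑ y ∈ range (2 ^ m), (if x = 0 then (if y = 0 then
          (1 : ℝ) else 0) else 0) = if x = 0 then 1 else 0 := by
        intro x
        split_ifs
        · exact s0 m 1
        · simp
      simp only [e, e1, e2, s0]

theorem mem_bz {d : ℕ} {W : Finset (Fin d)} {P z q : Fin d → ℕ} :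
    q ∈ bz W P z ↔ ∀ i, (i ∈ W → q i ≤ P i) ∧ (i ∉ W → q i = z i) := by
  unfold bz
  rw [Fintype.mem_piFinset]
  refine forall_congr' fun i => ?_
  by_cases hi : i ∈ W
  · simp [hi]
  · simp [hi]

theorem prod_mem {d : ℕ} (W : Finset (Fin d)) (f : Fin d → ℝ) :
    ∏ i ∈ W, f i = ∏ i, if i ∈ W then f i else 1 := by
  rw [prod_ite_mem, univ_inter]

end Dl

theorem t_DL (h1 : S_DWT) : S_DL := by
  intro d m P U V hP θ hθ
  obtain ⟨⟨t, ht1, ht2⟩, hc⟩ := h1 m
  have hθ' : ∀ i, θ i < 2 ^ m := fun i => mem_range.1 (Fintype.mem_piFinset.1 hθ i)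
  choose c hc1 hc2 using fun i => hc (θ i) (hθ' i)
  refine ⟨fun θ₁ θ₂ θ₃ => ∏ i, Dl.ke (i ∈ U) (i ∈ V) t (c i) (θ₁ i) (θ₂ i) (θ₃ i), ?_, ?_⟩
  · simp only [abs_prod]
    rw [Dl.sum3 fun i x y z => |Dl.ke (i ∈ U) (i ∈ V) t (c i) x y z|]
    unfold cd
    calc ∏ i : Fin d, ∑ x ∈ range (2 ^ m), ∑ y ∈ range (2 ^ m), ∑ z ∈ range (2 ^ m),
          |Dl.ke (i ∈ U) (i ∈ V) t (c i) x y z|
        ≤ ∏ _i : Fin d, (3 * ((m : ℝ) + 2)) := by
          refine prod_le_prod (fun i _ => ?_) (fun i _ => ?_)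
          · exact sum_nonneg fun _ _ => sum_nonneg fun _ _ => sum_nonneg fun _ _ => abs_nonneg _
          · exact Dl.ke_abs m _ _ t (c i) ht1 (hc1 i)
      _ = (3 * ((m : ℝ) + 2)) ^ d := by
          rw [prod_const, card_univ, Fintype.card_fin]
  · intro F G s hs
    have hs' : ∀ i, s i ≤ P i := fun i => by
      have := mem_range.1 (Fintype.mem_piFinset.1 hs i)
      omega
    -- the inner sums
    have key : ∀ q ∈ bz U P s, ∀ q' ∈ bz V P s,
        ∑ θ₁ ∈ Th d m, ∑ θ₂ ∈ Th d m, ∑ θ₃ ∈ Th d m,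
          (∏ i, Dl.ke (i ∈ U) (i ∈ V) t (c i) (θ₁ i) (θ₂ i) (θ₃ i)) * (ch m θ₃ s *
            ((∏ i ∈ U, dw m (P i) (θ₁ i) (q i)) * ∏ i ∈ V, dw m (P i) (θ₂ i) (q' i))) =
        if q = q' then ∏ i ∈ U ∩ V, dw m (P i) (θ i) (q i) else 0 := by
      intro q hq q' hq'
      rw [Dl.mem_bz] at hq hq'
      have e1 : ∀ θ₁ θ₂ θ₃ : Fin d → ℕ,
          (∏ i, Dl.ke (i ∈ U) (i ∈ V) t (c i) (θ₁ i) (θ₂ i) (θ₃ i)) * (ch m θ₃ s *
            ((∏ i ∈ U, dw m (P i) (θ₁ i) (q i)) * ∏ i ∈ V, dw m (P i) (θ₂ i) (q' i))) =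
          ∏ i, (Dl.ke (i ∈ U) (i ∈ V) t (c i) (θ₁ i) (θ₂ i) (θ₃ i) * (wal m (θ₃ i) (s i) *
            ((if i ∈ U then dw m (P i) (θ₁ i) (q i) else 1) *
              (if i ∈ V then dw m (P i) (θ₂ i) (q' i) else 1)))) := by
        intro θ₁ θ₂ θ₃
        rw [Dl.prod_mem U, Dl.prod_mem V, prod_mul_distrib, prod_mul_distrib, prod_mul_distrib]
        rfl
      simp only [e1]
      rw [Dl.sum3 fun i x y z => Dl.ke (i ∈ U) (i ∈ V) t (c i) x y z * (wal m z (s i) *
            ((if i ∈ U then dw m (P i) x (q i) else 1) *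
              (if i ∈ V then dw m (P i) y (q' i) else 1)))]
      have e2 : ∀ i, ∑ x ∈ range (2 ^ m), ∑ y ∈ range (2 ^ m), ∑ z ∈ range (2 ^ m),
          Dl.ke (i ∈ U) (i ∈ V) t (c i) x y z * (wal m z (s i) *
            ((if i ∈ U then dw m (P i) x (q i) else 1) *
              (if i ∈ V then dw m (P i) y (q' i) else 1))) =
          if q i = q' i then (if i ∈ U ∩ V then dw m (P i) (θ i) (q i) else 1) else 0 := by
        intro i
        rw [Dl.ke_sum m (i ∈ U) (i ∈ V) t (c i)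
          (fun x => if i ∈ U then dw m (P i) x (q i) else 1)
          (fun y => if i ∈ V then dw m (P i) y (q' i) else 1) (fun z => wal m z (s i))
          (Wal.wal_zero m (s i)) (fun hu => by simp only [hu, if_false])
          (fun hv => by simp only [hv, if_false])]
        by_cases hu : i ∈ U
        · by_cases hv : i ∈ V
          · simp only [hu, hv, if_true, mem_inter, and_self]
            exact hc2 i (P i) (q i) (q' i) (hP i) ((hq i).1 hu) ((hq' i).1 hv)
          · simp only [hu, hv, if_true, if_false, mem_inter, and_false]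
            rw [ht2 (P i) (s i) (q i) (hP i) (hs' i) ((hq i).1 hu), (hq' i).2 hv]
        · by_cases hv : i ∈ V
          · simp only [hu, hv, if_true, if_false, mem_inter, false_and]
            rw [ht2 (P i) (s i) (q' i) (hP i) (hs' i) ((hq' i).1 hv), (hq i).2 hu]
            by_cases h : q' i = s i
            · rw [if_pos h, if_pos h.symm]
            · rw [if_neg h, if_neg (Ne.symm h)]
          · simp only [hu, hv, if_false, mem_inter, false_and]
            rw [(hq i).2 hu, (hq' i).2 hv, if_pos rfl]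
      simp only [e2]
      by_cases hqq : q = q'
      · subst hqq
        rw [if_pos rfl, Dl.prod_mem (U ∩ V)]
        simp only [if_true]
      · rw [if_neg hqq]
        obtain ⟨i, hi⟩ := Function.ne_iff.1 hqq
        exact prod_eq_zero (mem_univ i) (if_neg hi)
    -- exchange
    have hR : ∑ θ₁ ∈ Th d m, ∑ θ₂ ∈ Th d m, ∑ θ₃ ∈ Th d m,
        (∏ i, Dl.ke (i ∈ U) (i ∈ V) t (c i) (θ₁ i) (θ₂ i) (θ₃ i)) * (ch m θ₃ s *
          (TV m P U θ₁ F s * TV m P V θ₂ G s)) =
        ∑ q ∈ bz U P s, ∑ q' ∈ bz V P s, (F q * G q') *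
          (if q = q' then ∏ i ∈ U ∩ V, dw m (P i) (θ i) (q i) else 0) := by
      have e3 : ∀ θ₁ θ₂ θ₃ : Fin d → ℕ,
          (∏ i, Dl.ke (i ∈ U) (i ∈ V) t (c i) (θ₁ i) (θ₂ i) (θ₃ i)) * (ch m θ₃ s *
            (TV m P U θ₁ F s * TV m P V θ₂ G s)) =
          ∑ q ∈ bz U P s, ∑ q' ∈ bz V P s, (F q * G q') *
            ((∏ i, Dl.ke (i ∈ U) (i ∈ V) t (c i) (θ₁ i) (θ₂ i) (θ₃ i)) * (ch m θ₃ s *
            ((∏ i ∈ U, dw m (P i) (θ₁ i) (q i)) * ∏ i ∈ V, dw m (P i) (θ₂ i) (q' i)))) := by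
        intro θ₁ θ₂ θ₃
        unfold TV
        rw [sum_mul_sum, mul_sum, mul_sum]
        refine sum_congr rfl fun q _ => ?_
        rw [mul_sum, mul_sum]
        refine sum_congr rfl fun q' _ => ?_
        ring
      simp only [e3]
      calc ∑ θ₁ ∈ Th d m, ∑ θ₂ ∈ Th d m, ∑ θ₃ ∈ Th d m, ∑ q ∈ bz U P s, ∑ q' ∈ bz V P s,
            (F q * G q') * ((∏ i, Dl.ke (i ∈ U) (i ∈ V) t (c i) (θ₁ i) (θ₂ i) (θ₃ i)) *
            (ch m θ₃ s * ((∏ i ∈ U, dw m (P i) (θ₁ i) (q i)) *
              ∏ i ∈ V, dw m (P i) (θ₂ i) (q' i))))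
          = ∑ θ₁ ∈ Th d m, ∑ θ₂ ∈ Th d m, ∑ q ∈ bz U P s, ∑ q' ∈ bz V P s, ∑ θ₃ ∈ Th d m,
            (F q * G q') * ((∏ i, Dl.ke (i ∈ U) (i ∈ V) t (c i) (θ₁ i) (θ₂ i) (θ₃ i)) *
            (ch m θ₃ s * ((∏ i ∈ U, dw m (P i) (θ₁ i) (q i)) *
              ∏ i ∈ V, dw m (P i) (θ₂ i) (q' i)))) := by
            refine sum_congr rfl fun θ₁ _ => sum_congr rfl fun θ₂ _ => ?_
            rw [sum_comm]
            exact sum_congr rfl fun q _ => sum_comm
        _ = ∑ θ₁ ∈ Th d m, ∑ q ∈ bz U P s, ∑ q' ∈ bz V P s, ∑ θ₂ ∈ Th d m, ∑ θ₃ ∈ Th d m,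
            (F q * G q') * ((∏ i, Dl.ke (i ∈ U) (i ∈ V) t (c i) (θ₁ i) (θ₂ i) (θ₃ i)) *
            (ch m θ₃ s * ((∏ i ∈ U, dw m (P i) (θ₁ i) (q i)) *
              ∏ i ∈ V, dw m (P i) (θ₂ i) (q' i)))) := by
            refine sum_congr rfl fun θ₁ _ => ?_
            rw [sum_comm]
            exact sum_congr rfl fun q _ => sum_comm
        _ = ∑ q ∈ bz U P s, ∑ q' ∈ bz V P s, ∑ θ₁ ∈ Th d m, ∑ θ₂ ∈ Th d m, ∑ θ₃ ∈ Th d m,
            (F q * G q') * ((∏ i, Dl.ke (i ∈ U) (i ∈ V) t (c i) (θ₁ i) (θ₂ i) (θ₃ i)) *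
            (ch m θ₃ s * ((∏ i ∈ U, dw m (P i) (θ₁ i) (q i)) *
              ∏ i ∈ V, dw m (P i) (θ₂ i) (q' i)))) := by
            rw [sum_comm]
            exact sum_congr rfl fun q _ => sum_comm
        _ = _ := by
            refine sum_congr rfl fun q hq => sum_congr rfl fun q' hq' => ?_
            rw [← key q hq q' hq', mul_sum]
            refine sum_congr rfl fun θ₁ _ => ?_
            rw [mul_sum]
            refine sum_congr rfl fun θ₂ _ => ?_
            rw [mul_sum]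
    rw [hR]
    unfold TV
    have hsub : bz (U ∩ V) P s = (bz U P s).filter (fun q => q ∈ bz V P s) := by
      ext q
      rw [mem_filter, Dl.mem_bz, Dl.mem_bz, Dl.mem_bz]
      constructor
      · intro h
        refine ⟨fun i => ⟨fun hu => ?_, fun hu => ?_⟩, fun i => ⟨fun hv => ?_, fun hv => ?_⟩⟩
        · by_cases hv : i ∈ V
          · exact (h i).1 (mem_inter.2 ⟨hu, hv⟩)
          · rw [(h i).2 (fun h' => hv (mem_inter.1 h').2)]
            exact hs' i
        · exact (h i).2 (fun h' => hu (mem_inter.1 h').1)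
        · by_cases hu : i ∈ U
          · exact (h i).1 (mem_inter.2 ⟨hu, hv⟩)
          · rw [(h i).2 (fun h' => hu (mem_inter.1 h').1)]
            exact hs' i
        · exact (h i).2 (fun h' => hv (mem_inter.1 h').2)
      · rintro ⟨h, h'⟩ i
        refine ⟨fun hi => (h i).1 (mem_inter.1 hi).1, fun hi => ?_⟩
        by_cases hu : i ∈ U
        · exact (h' i).2 (fun hv => hi (mem_inter.2 ⟨hu, hv⟩))
        · exact (h i).2 hu
    rw [hsub, sum_filter]
    refine sum_congr rfl fun q _ => ?_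
    have e4 : ∀ q' ∈ bz V P s, (F q * G q') *
        (if q = q' then ∏ i ∈ U ∩ V, dw m (P i) (θ i) (q i) else 0) =
        if q = q' then (∏ i ∈ U ∩ V, dw m (P i) (θ i) (q i)) * (F q' * G q') else 0 := by
      intro q' _
      split_ifs with h
      · rw [h]; ring
      · ring
    rw [sum_congr rfl e4, sum_ite_eq]

end Pool.Agent.NH44.AD
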