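import Pool.Agent.NH44.AD.StmM
import Pool.Agent.NH44.AD.Wal

/-!
# AM-1: the difference weights
-/

set_option autoImplicit false

namespace Pool.Agent.NH44.AD

open Finset
open Pool.Agent.NH99.WZ (wal)

namespace Dwt39

theorem Rep.swap {m : ℕ} {F : ℕ → ℕ → ℝ} {κ : ℝ} (h : Wal.Rep m F κ) :
    Wal.Rep m (fun i j => F j i) κ := by
  obtain ⟨c, hc, hF⟩ := h
  refine ⟨fun a b => c b a, ?_, ?_⟩
  · rw [sum_comm]
    exact hc
  · intro i j hi hj
    change F j i = _
    rw [hF j i hj hi, sum_comm]
    refine sum_congr rfl fun a _ => sum_congr rfl fun b _ => ?_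
    ring

theorem dw_sum {m : ℕ} {c F : ℕ → ℕ → ℝ} (hF : ∀ i j, i < 2 ^ m → j < 2 ^ m → F i j =
      ∑ a ∈ range (2 ^ m), ∑ b ∈ range (2 ^ m), c a b * (wal m a i * wal m b j))
    {p q s : ℕ} (hp : p < 2 ^ m) (hq : q ≤ p) (hs : s < 2 ^ m) :
    ∑ a ∈ range (2 ^ m), ∑ b ∈ range (2 ^ m), c a b * (dw m p a q * wal m b s) =
      F q s - (if q < p then F (q + 1) s else 0) := by
  unfold dw
  by_cases h : q < p
  · simp only [if_pos h]
    rw [hF q s (by omega) hs, hF (q + 1) s (by omega) hs, ← sum_sub_distrib]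
    refine sum_congr rfl fun a _ => ?_
    rw [← sum_sub_distrib]
    refine sum_congr rfl fun b _ => ?_
    ring
  · simp only [if_neg h, sub_zero]
    exact (hF q s (by omega) hs).symm

theorem dw_sum2 {m : ℕ} {c F : ℕ → ℕ → ℝ} (hF : ∀ i j, i < 2 ^ m → j < 2 ^ m → F i j =
      ∑ a ∈ range (2 ^ m), ∑ b ∈ range (2 ^ m), c a b * (wal m a i * wal m b j))
    {p i j : ℕ} (hp : p < 2 ^ m) (hi : i ≤ p) (hj : j ≤ p) :
    ∑ a ∈ range (2 ^ m), ∑ b ∈ range (2 ^ m), c a b * (dw m p a i * dw m p b j) =
      (F i j - (if i < p then F (i + 1) j else 0)) -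
        (if j < p then F i (j + 1) - (if i < p then F (i + 1) (j + 1) else 0) else 0) := by
  rw [← dw_sum hF hp hi (s := j) (by omega)]
  by_cases h : j < p
  · rw [if_pos h, ← dw_sum hF hp hi (s := j + 1) (by omega), ← sum_sub_distrib]
    refine sum_congr rfl fun a _ => ?_
    rw [← sum_sub_distrib]
    refine sum_congr rfl fun b _ => ?_
    have h1 : dw m p b j = wal m b j - wal m b (j + 1) := by
      unfold dw
      rw [if_pos h]
    rw [h1]
    ring
  · rw [if_neg h, sub_zero]
    refine sum_congr rfl fun a _ => sum_congr rfl fun b _ => ?_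
    have h1 : dw m p b j = wal m b j := by
      unfold dw
      rw [if_neg h, sub_zero]
    rw [h1]

theorem rep_max {m a : ℕ} (ha : a < 2 ^ m) :
    Wal.Rep m (fun i j => wal m a (max i j)) (2 * (m : ℝ) + 1) := by
  have h0 : 0 < 2 ^ m := Nat.two_pow_pos m
  have R := ((Wal.rep_le m).mulw h0 ha).add ((Rep.swap (Wal.rep_lt m)).mulw ha h0)
  refine R.congr ?_ (by linarith)
  intro i j _ _
  beta_reduce
  rw [Wal.wal_zero, Wal.wal_zero]
  by_cases h : i ≤ j
  · rw [max_eq_right h, if_pos h, if_neg (not_lt.2 h)]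
    ring
  · rw [max_eq_left (le_of_not_ge h), if_neg h, if_pos (not_le.1 h)]
    ring

end Dwt39

open Dwt39

/-- AM-1 -/
theorem t_DWT : S_DWT := by
  intro m
  refine ⟨?_, ?_⟩
  · obtain ⟨t, ht, hF⟩ := Wal.rep_le m
    refine ⟨t, ht, ?_⟩
    intro p s q hp hs hq
    rw [dw_sum hF hp hq (lt_of_le_of_lt hs hp)]
    beta_reduce
    by_cases h : q < p
    · rw [if_pos h]
      rcases lt_trichotomy q s with h1 | h1 | h1
      · rw [if_pos h1.le, if_pos (by omega), if_neg (by omega)]
        norm_num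
      · rw [if_pos h1.le, if_neg (by omega), if_pos h1]
        norm_num
      · rw [if_neg (by omega), if_neg (by omega), if_neg (by omega)]
        norm_num
    · rw [if_neg h, sub_zero]
      by_cases h1 : q = s
      · rw [if_pos h1.le, if_pos h1]
      · rw [if_neg (by omega), if_neg h1]
  · intro a ha
    obtain ⟨c, hc, hF⟩ := rep_max ha
    refine ⟨c, hc, ?_⟩
    intro p i j hp hi hj
    rw [dw_sum2 hF hp hi hj]
    beta_reduce
    rcases lt_trichotomy i j with h1 | h1 | h1
    · rw [if_neg (by omega : ¬ i = j), if_pos (by omega : i < p), if_pos (by omega : i < p),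
        max_eq_right h1.le, max_eq_right (by omega : i + 1 ≤ j), max_eq_right (by omega : i ≤ j + 1),
        max_eq_right (by omega : i + 1 ≤ j + 1)]
      simp
    · subst h1
      rw [if_pos rfl]
      unfold dw
      by_cases h : i < p
      · simp only [if_pos h]
        rw [max_self, max_self, max_eq_left (by omega : i ≤ i + 1),
          max_eq_right (by omega : i ≤ i + 1)]
        ring
      · simp only [if_neg h, max_self, sub_zero]
    · rw [if_neg (by omega : ¬ i = j), if_pos (by omega : j < p),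
        max_eq_left h1.le, max_eq_left (by omega : j ≤ i + 1), max_eq_left (by omega : j + 1 ≤ i),
        max_eq_left (by omega : j + 1 ≤ i + 1)]
      ring

end Pool.Agent.NH44.AD
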