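import Pool.Agent.NH44.AD.StmM
import Pool.Agent.NH44.AD.Wal

set_option autoImplicit false

/-! AM-3: elementary properties of the tensor norm. -/

namespace Pool.Agent.NH44.AD

open Finset
open Pool.Agent.NH99.WZ (wal)

namespace FBT

variable {d : ℕ}

theorem mem_bx {A : Finset (Fin d)} {P s : Fin d → ℕ} :
    s ∈ bx A P ↔ ∀ i, (i ∈ A → s i ≤ P i) ∧ (i ∉ A → s i = P i) := by
  unfold bx
  rw [Fintype.mem_piFinset]
  refine forall_congr' fun i => ?_
  by_cases h : i ∈ A
  · simp only [h, if_true, mem_range, true_imp_iff, not_true, false_imp_iff, and_true]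
    omega
  · simp [h]

theorem pr_mem {I : Finset (Fin d)} (A : Finset (Fin d)) {P s : Fin d → ℕ} (h : s ∈ bx I P) :
    pr A P s ∈ bx A P := by
  rw [mem_bx] at h ⊢
  intro i
  unfold pr
  refine ⟨fun hi => ?_, fun hi => ?_⟩
  · rw [if_pos hi]
    by_cases h2 : i ∈ I
    · exact (h i).1 h2
    · exact le_of_eq ((h i).2 h2)
  · rw [if_neg hi]

theorem pr_self {I : Finset (Fin d)} {P s : Fin d → ℕ} (h : s ∈ bx I P) : pr I P s = s := by
  rw [mem_bx] at h
  funext i
  unfold pr
  by_cases h2 : i ∈ I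
  · rw [if_pos h2]
  · rw [if_neg h2, (h i).2 h2]

theorem P_mem (I : Finset (Fin d)) (P : Fin d → ℕ) : P ∈ bx I P := by
  rw [mem_bx]
  exact fun i => ⟨fun _ => le_rfl, fun _ => rfl⟩

theorem nm_nonneg (A : Finset (Fin d)) (P : Fin d → ℕ) (x : (Fin d → ℕ) → ℝ) : 0 ≤ nm A P x :=
  Real.sqrt_nonneg _

theorem nm_mono (A : Finset (Fin d)) (P : Fin d → ℕ) {x y : (Fin d → ℕ) → ℝ}
    (h : ∀ a, |x a| ≤ |y a|) : nm A P x ≤ nm A P y := by
  unfold nm
  exact Real.sqrt_le_sqrt (sum_le_sum fun a _ => sq_le_sq.2 (h a))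

theorem le_nm (A : Finset (Fin d)) (P : Fin d → ℕ) (x : (Fin d → ℕ) → ℝ) {a : Fin d → ℕ}
    (ha : a ∈ bx A P) : |x a| ≤ nm A P x := by
  unfold nm
  rw [← Real.sqrt_sq_eq_abs]
  exact Real.sqrt_le_sqrt (single_le_sum (f := fun a => x a ^ 2) (fun b _ => sq_nonneg _) ha)

theorem nm_ind (A : Finset (Fin d)) (P : Fin d → ℕ) {s : Fin d → ℕ} (hs : s ∈ bx A P) :
    nm A P (fun a => if a = s then 1 else 0) = 1 := by
  unfold nm
  rw [sum_eq_single s]
  · simp
  · intro b _ hb
    simp [hb]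
  · intro h
    exact absurd hs h

theorem bnd {I : Finset (Fin d)} {P : Fin d → ℕ} (hI : I.Nonempty) {T : (Fin d → ℕ) → ℝ} {κ : ℝ}
    (h : FB P I T κ) : 0 ≤ κ ∧ ∀ s ∈ bx I P, |T s| ≤ κ := by
  have h1 : ∀ s ∈ bx I P, |T s| ≤ κ := by
    intro s hs
    have h2 := h I I hI hI (union_self I) (fun a => if a = s then 1 else 0)
      (fun a => if a = s then 1 else 0)
    rw [nm_ind I P hs, sum_eq_single s] at h2
    · rw [pr_self hs] at h2
      simpa using h2
    · intro b hb hbs
      rw [pr_self hb]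
      simp [hbs]
    · intro h3
      exact absurd hs h3
  exact ⟨(abs_nonneg _).trans (h1 P (P_mem I P)), h1⟩

theorem fb_mul {I : Finset (Fin d)} {P : Fin d → ℕ} (hI : I.Nonempty) {T : (Fin d → ℕ) → ℝ}
    {κ : ℝ} (h : FB P I T κ) (g : (Fin d → ℕ) → ℝ)
    (hg : ∀ A B : Finset (Fin d), A ∪ B = I → ∃ u v : (Fin d → ℕ) → ℝ, (∀ a, |u a| ≤ 1) ∧
      (∀ a, |v a| ≤ 1) ∧ ∀ s ∈ bx I P, g s = u (pr A P s) * v (pr B P s)) :
    FB P I (fun s => g s * T s) κ := by
  intro A B hA hB hAB x z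
  obtain ⟨u, v, hu, hv, huv⟩ := hg A B hAB
  have h1 := h A B hA hB hAB (fun a => u a * x a) (fun a => v a * z a)
  have h2 : ∑ s ∈ bx I P, x (pr A P s) * z (pr B P s) * (g s * T s) =
      ∑ s ∈ bx I P, (u (pr A P s) * x (pr A P s)) * (v (pr B P s) * z (pr B P s)) * T s := by
    refine sum_congr rfl fun s hs => ?_
    rw [huv s hs]
    ring
  rw [h2]
  refine h1.trans ?_
  have h3 : nm A P (fun a => u a * x a) ≤ nm A P x := by
    refine nm_mono A P fun a => ?_
    rw [abs_mul]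
    exact mul_le_of_le_one_left (abs_nonneg _) (hu a)
  have h4 : nm B P (fun a => v a * z a) ≤ nm B P z := by
    refine nm_mono B P fun a => ?_
    rw [abs_mul]
    exact mul_le_of_le_one_left (abs_nonneg _) (hv a)
  exact mul_le_mul_of_nonneg_left (mul_le_mul h3 h4 (nm_nonneg _ _ _) (nm_nonneg _ _ _))
    (bnd hI h).1

theorem abs_wal (m a i : ℕ) : |wal m a i| = 1 := by
  rcases Wal.wal_pm m a i with h | h <;> rw [h] <;> simp

end FBT

open FBT

theorem t_FBT : S_FBT := by
  intro d m P I hI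
  refine ⟨?_, ?_, ?_, ?_, ?_, ?_, ?_, ?_⟩
  · intro T κ κ' h hk A B hA hB hAB x z
    exact (h A B hA hB hAB x z).trans
      (mul_le_mul_of_nonneg_right hk (mul_nonneg (nm_nonneg _ _ _) (nm_nonneg _ _ _)))
  · intro T T' κ hT h A B hA hB hAB x z
    have h1 := h A B hA hB hAB x z
    rwa [sum_congr rfl fun s hs => by rw [hT s hs]] at h1
  · intro T T' κ κ' h h' A B hA hB hAB x z
    have h1 := h A B hA hB hAB x z
    have h2 := h' A B hA hB hAB x z
    have h3 : ∑ s ∈ bx I P, x (pr A P s) * z (pr B P s) * (T s + T' s) =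
        ∑ s ∈ bx I P, x (pr A P s) * z (pr B P s) * T s +
        ∑ s ∈ bx I P, x (pr A P s) * z (pr B P s) * T' s := by
      rw [← sum_add_distrib]
      exact sum_congr rfl fun s _ => by ring
    rw [h3, add_mul]
    exact (abs_add_le _ _).trans (add_le_add h1 h2)
  · intro ι J c T κ hκ h A B hA hB hAB x z
    have h3 : ∑ s ∈ bx I P, x (pr A P s) * z (pr B P s) * (∑ j ∈ J, c j * T j s) =
        ∑ j ∈ J, c j * ∑ s ∈ bx I P, x (pr A P s) * z (pr B P s) * T j s := by
      simp only [mul_sum]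
      rw [sum_comm]
      exact sum_congr rfl fun j _ => sum_congr rfl fun s _ => by ring
    rw [h3, mul_assoc, sum_mul]
    refine (abs_sum_le_sum_abs _ _).trans (sum_le_sum fun j hj => ?_)
    rw [abs_mul]
    exact mul_le_mul_of_nonneg_left (h j hj A B hA hB hAB x z) (abs_nonneg _)
  · intro T κ i α hi hα h
    refine fb_mul hI h (fun s => α (s i)) fun A B hAB => ?_
    rw [← hAB, mem_union] at hi
    by_cases hA : i ∈ A
    · refine ⟨fun a => α (a i), fun _ => 1, fun a => hα _, fun a => by simp, fun s _ => ?_⟩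
      simp [pr, hA]
    · have hB : i ∈ B := by tauto
      refine ⟨fun _ => 1, fun a => α (a i), fun a => by simp, fun a => hα _, fun s _ => ?_⟩
      simp [pr, hB]
  · intro T κ θ h
    refine fb_mul hI h (fun s => ch m θ s) fun A B hAB => ?_
    refine ⟨fun a => ∏ i ∈ A, wal m (θ i) (a i), fun a => ∏ i ∈ Aᶜ, wal m (θ i) (a i),
      fun a => ?_, fun a => ?_, fun s hs => ?_⟩
    · rw [abs_prod]
      exact le_of_eq (prod_eq_one fun i _ => abs_wal _ _ _)
    · rw [abs_prod]
      exact le_of_eq (prod_eq_one fun i _ => abs_wal _ _ _)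
    · unfold ch
      rw [← prod_mul_prod_compl A]
      congr 1
      · refine prod_congr rfl fun i hi => ?_
        simp [pr, hi]
      · refine prod_congr rfl fun i hi => ?_
        rw [mem_compl] at hi
        by_cases hB : i ∈ B
        · simp [pr, hB]
        · have h2 : i ∉ I := by
            rw [← hAB, mem_union]
            tauto
          rw [mem_bx] at hs
          simp only [pr, hB, if_false]
          rw [(hs i).2 h2]
  · intro T κ h
    exact bnd hI h
  · intro T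
    refine ⟨∑ s ∈ bx I P, |T s|, sum_nonneg fun s _ => abs_nonneg _, ?_⟩
    intro A B _ _ _ x z
    refine (abs_sum_le_sum_abs _ _).trans ?_
    rw [sum_mul]
    refine sum_le_sum fun s hs => ?_
    rw [abs_mul, abs_mul, mul_comm]
    exact mul_le_mul_of_nonneg_left (mul_le_mul (le_nm A P x (pr_mem A hs))
      (le_nm B P z (pr_mem B hs)) (abs_nonneg _) (nm_nonneg _ _ _)) (abs_nonneg _)

end Pool.Agent.NH44.AD
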