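import Pool.Agent.NH44.AD.StmM

/-!
# Elementary properties of the tensor norm (AM-3)
-/

set_option autoImplicit false

namespace Pool.Agent.NH44.AD

open Finset
open Pool.Agent.NH99.WZ (wal)

namespace Fbt

variable {d : ℕ}

theorem nm_nonneg (A : Finset (Fin d)) (P : Fin d → ℕ) (x : (Fin d → ℕ) → ℝ) : 0 ≤ nm A P x :=
  Real.sqrt_nonneg _

theorem mem_bx {A : Finset (Fin d)} {P s : Fin d → ℕ} :
    s ∈ bx A P ↔ (∀ i, s i ≤ P i) ∧ ∀ i, i ∉ A → s i = P i := by
  unfold bx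
  rw [Fintype.mem_piFinset]
  constructor
  · intro h
    refine ⟨fun i => ?_, fun i hi => ?_⟩
    · have := h i
      split_ifs at this with hA
      · exact Nat.lt_succ_iff.1 (mem_range.1 this)
      · exact (mem_singleton.1 this).le
    · have := h i
      rw [if_neg hi] at this
      exact mem_singleton.1 this
  · rintro ⟨h1, h2⟩ i
    split_ifs with hA
    · exact mem_range.2 (Nat.lt_succ_iff.2 (h1 i))
    · exact mem_singleton.2 (h2 i hA)

theorem mem_box {P s : Fin d → ℕ} : s ∈ box P ↔ ∀ i, s i ≤ P i := by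
  unfold box
  rw [Fintype.mem_piFinset]
  refine forall_congr' fun i => ?_
  rw [mem_range]
  omega

theorem self_mem_bx (A : Finset (Fin d)) (P : Fin d → ℕ) : P ∈ bx A P :=
  mem_bx.2 ⟨fun _ => le_rfl, fun _ _ => rfl⟩

theorem pr_mem {A : Finset (Fin d)} {P s : Fin d → ℕ} (hs : ∀ i ∈ A, s i ≤ P i) :
    pr A P s ∈ bx A P := by
  rw [mem_bx]
  refine ⟨fun i => ?_, fun i hi => ?_⟩
  · unfold pr
    split_ifs with h
    · exact hs i h
    · exact le_rfl
  · unfold pr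
    rw [if_neg hi]

theorem pr_self {I : Finset (Fin d)} {P s : Fin d → ℕ} (hs : s ∈ bx I P) : pr I P s = s := by
  rw [mem_bx] at hs
  funext i
  unfold pr
  split_ifs with h
  · rfl
  · exact (hs.2 i h).symm

theorem le_nm {A : Finset (Fin d)} {P : Fin d → ℕ} (x : (Fin d → ℕ) → ℝ) {a : Fin d → ℕ}
    (ha : a ∈ bx A P) : |x a| ≤ nm A P x := by
  unfold nm
  apply Real.le_sqrt_of_sq_le
  rw [sq_abs]
  exact single_le_sum (f := fun a => x a ^ 2) (fun _ _ => sq_nonneg _) ha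

theorem nm_mul_le {A : Finset (Fin d)} {P : Fin d → ℕ} {x φ : (Fin d → ℕ) → ℝ}
    (hφ : ∀ a ∈ bx A P, |φ a| ≤ 1) : nm A P (fun a => φ a * x a) ≤ nm A P x := by
  unfold nm
  refine Real.sqrt_le_sqrt (sum_le_sum fun a ha => ?_)
  have h1 : φ a ^ 2 ≤ 1 := by
    rw [← sq_abs]
    have := hφ a ha
    have h0 := abs_nonneg (φ a)
    nlinarith
  rw [mul_pow]
  nlinarith [sq_nonneg (x a)]

theorem mono {P : Fin d → ℕ} {I : Finset (Fin d)} {T : (Fin d → ℕ) → ℝ} {κ κ' : ℝ}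
    (h : FB P I T κ) (hk : κ ≤ κ') : FB P I T κ' := fun A B hA hB hAB x z =>
  (h A B hA hB hAB x z).trans (mul_le_mul_of_nonneg_right hk
    (mul_nonneg (nm_nonneg _ _ _) (nm_nonneg _ _ _)))

theorem congr' {P : Fin d → ℕ} {I : Finset (Fin d)} {T T' : (Fin d → ℕ) → ℝ} {κ : ℝ}
    (hT : ∀ s ∈ bx I P, T s = T' s) (h : FB P I T κ) : FB P I T' κ := by
  intro A B hA hB hAB x z
  have e : ∑ s ∈ bx I P, x (pr A P s) * z (pr B P s) * T' s =
      ∑ s ∈ bx I P, x (pr A P s) * z (pr B P s) * T s :=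
    sum_congr rfl fun s hs => by rw [hT s hs]
  rw [e]
  exact h A B hA hB hAB x z

theorem add {P : Fin d → ℕ} {I : Finset (Fin d)} {T T' : (Fin d → ℕ) → ℝ} {κ κ' : ℝ}
    (h : FB P I T κ) (h' : FB P I T' κ') : FB P I (fun s => T s + T' s) (κ + κ') := by
  intro A B hA hB hAB x z
  have e : ∑ s ∈ bx I P, x (pr A P s) * z (pr B P s) * (T s + T' s) =
      ∑ s ∈ bx I P, x (pr A P s) * z (pr B P s) * T s +
        ∑ s ∈ bx I P, x (pr A P s) * z (pr B P s) * T' s := by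
    rw [← sum_add_distrib]
    exact sum_congr rfl fun s _ => by ring
  rw [e, add_mul]
  exact (abs_add_le _ _).trans (add_le_add (h A B hA hB hAB x z) (h' A B hA hB hAB x z))

theorem lin {P : Fin d → ℕ} {I : Finset (Fin d)} {ι : Type} (J : Finset ι) (c : ι → ℝ)
    (T : ι → (Fin d → ℕ) → ℝ) {κ : ℝ} (h : ∀ j ∈ J, FB P I (T j) κ) :
    FB P I (fun s => ∑ j ∈ J, c j * T j s) ((∑ j ∈ J, |c j|) * κ) := by
  intro A B hA hB hAB x z
  have e : ∑ s ∈ bx I P, x (pr A P s) * z (pr B P s) * ∑ j ∈ J, c j * T j s =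
      ∑ j ∈ J, c j * ∑ s ∈ bx I P, x (pr A P s) * z (pr B P s) * T j s := by
    have e1 : ∀ s ∈ bx I P, x (pr A P s) * z (pr B P s) * ∑ j ∈ J, c j * T j s =
        ∑ j ∈ J, c j * (x (pr A P s) * z (pr B P s) * T j s) := by
      intro s _
      rw [mul_sum]
      exact sum_congr rfl fun j _ => by ring
    rw [sum_congr rfl e1, sum_comm]
    exact sum_congr rfl fun j _ => by rw [mul_sum]
  rw [e, mul_assoc, sum_mul]
  refine (abs_sum_le_sum_abs _ _).trans (sum_le_sum fun j hj => ?_)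
  rw [abs_mul]
  exact mul_le_mul_of_nonneg_left (h j hj A B hA hB hAB x z) (abs_nonneg _)

theorem bound {P : Fin d → ℕ} {I : Finset (Fin d)} (hI : I.Nonempty) {T : (Fin d → ℕ) → ℝ}
    {κ : ℝ} (h : FB P I T κ) {s : Fin d → ℕ} (hs : s ∈ bx I P) : |T s| ≤ κ := by
  classical
  have h1 := h I I hI hI (union_self I) (fun a => if a = s then 1 else 0)
    (fun a => if a = s then 1 else 0)
  have e1 : ∑ r ∈ bx I P, (if pr I P r = s then (1 : ℝ) else 0) *
      (if pr I P r = s then (1 : ℝ) else 0) * T r = T s := by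
    rw [sum_eq_single_of_mem s hs]
    · rw [pr_self hs]
      simp
    · intro r hr hne
      rw [pr_self hr, if_neg hne]
      ring
  have e2 : nm I P (fun a => if a = s then (1 : ℝ) else 0) = 1 := by
    unfold nm
    rw [sum_eq_single_of_mem s hs]
    · simp
    · intro r _ hne
      simp [hne]
  rw [e1, e2, mul_one, mul_one] at h1
  exact h1

theorem nonneg {P : Fin d → ℕ} {I : Finset (Fin d)} (hI : I.Nonempty) {T : (Fin d → ℕ) → ℝ}
    {κ : ℝ} (h : FB P I T κ) : 0 ≤ κ :=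
  (abs_nonneg _).trans (bound hI h (self_mem_bx I P))

/-- multiplication by products of functions of the two arguments -/
theorem mul_two {P : Fin d → ℕ} {I : Finset (Fin d)} (hI : I.Nonempty) {T g : (Fin d → ℕ) → ℝ}
    {κ : ℝ} (hg : ∀ A B : Finset (Fin d), A.Nonempty → B.Nonempty → A ∪ B = I →
      ∃ φ ψ : (Fin d → ℕ) → ℝ, (∀ a ∈ bx A P, |φ a| ≤ 1) ∧ (∀ a ∈ bx B P, |ψ a| ≤ 1) ∧
        ∀ s ∈ bx I P, g s = φ (pr A P s) * ψ (pr B P s))
    (h : FB P I T κ) : FB P I (fun s => g s * T s) κ := by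
  intro A B hA hB hAB x z
  obtain ⟨φ, ψ, hφ, hψ, hg⟩ := hg A B hA hB hAB
  have e : ∑ s ∈ bx I P, x (pr A P s) * z (pr B P s) * (g s * T s) =
      ∑ s ∈ bx I P, (φ (pr A P s) * x (pr A P s)) * (ψ (pr B P s) * z (pr B P s)) * T s :=
    sum_congr rfl fun s hs => by
      rw [hg s hs]
      ring
  rw [e]
  refine (h A B hA hB hAB (fun a => φ a * x a) (fun a => ψ a * z a)).trans ?_
  exact mul_le_mul_of_nonneg_left (mul_le_mul (nm_mul_le hφ) (nm_mul_le hψ) (nm_nonneg _ _ _)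
    (nm_nonneg _ _ _)) (nonneg hI h)

theorem mul_coord {P : Fin d → ℕ} {I : Finset (Fin d)} (hI : I.Nonempty) {T : (Fin d → ℕ) → ℝ}
    {κ : ℝ} {i : Fin d} {α : ℕ → ℝ} (hi : i ∈ I) (hα : ∀ v, |α v| ≤ 1)
    (h : FB P I T κ) : FB P I (fun s => α (s i) * T s) κ := by
  refine mul_two (g := fun s => α (s i)) hI ?_ h
  intro A B _ _ hAB
  rw [← hAB, mem_union] at hi
  rcases hi with hi | hi
  · refine ⟨fun a => α (a i), fun _ => 1, fun a _ => hα _, fun a _ => by norm_num,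
      fun s _ => ?_⟩
    simp [pr, hi]
  · refine ⟨fun _ => 1, fun a => α (a i), fun a _ => by norm_num, fun a _ => hα _,
      fun s _ => ?_⟩
    simp [pr, hi]

theorem abs_wal (m a i : ℕ) : |wal m a i| = 1 := by
  unfold wal
  rw [abs_prod]
  refine prod_eq_one fun k _ => ?_
  split_ifs <;> norm_num

theorem mul_ch {P : Fin d → ℕ} {I : Finset (Fin d)} (hI : I.Nonempty) {T : (Fin d → ℕ) → ℝ}
    {κ : ℝ} (m : ℕ) (θ : Fin d → ℕ) (h : FB P I T κ) : FB P I (fun s => ch m θ s * T s) κ := by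
  refine mul_two (g := ch m θ) hI ?_ h
  intro A B _ _ hAB
  refine ⟨fun a => ∏ i ∈ A, wal m (θ i) (a i), fun b => ∏ i ∈ Aᶜ, wal m (θ i) (b i),
    fun a _ => ?_, fun a _ => ?_, fun s hs => ?_⟩
  · rw [abs_prod]
    exact (prod_eq_one fun i _ => abs_wal _ _ _).le
  · rw [abs_prod]
    exact (prod_eq_one fun i _ => abs_wal _ _ _).le
  · unfold ch
    rw [← prod_mul_prod_compl A]
    rw [mem_bx] at hs
    refine congrArg₂ _ (prod_congr rfl fun i hi => ?_) (prod_congr rfl fun i hi => ?_)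
    · unfold pr
      rw [if_pos hi]
    · rw [mem_compl] at hi
      unfold pr
      split_ifs with hB
      · rfl
      · rw [hs.2 i]
        rw [← hAB, mem_union]
        exact fun h => h.elim hi hB

theorem exists_bound (P : Fin d → ℕ) (I : Finset (Fin d)) (T : (Fin d → ℕ) → ℝ) :
    ∃ κ : ℝ, 0 ≤ κ ∧ FB P I T κ := by
  refine ⟨∑ s ∈ bx I P, |T s|, sum_nonneg fun _ _ => abs_nonneg _, ?_⟩
  intro A B hA hB hAB x z
  refine (abs_sum_le_sum_abs _ _).trans ?_
  rw [sum_mul]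
  refine sum_le_sum fun s hs => ?_
  rw [abs_mul, abs_mul, mul_comm]
  have hs' := (mem_bx.1 hs).1
  refine mul_le_mul_of_nonneg_left ?_ (abs_nonneg _)
  exact mul_le_mul (le_nm x (pr_mem fun i _ => hs' i)) (le_nm z (pr_mem fun i _ => hs' i))
    (abs_nonneg _) (nm_nonneg _ _ _)

end Fbt

theorem t_FBT11 : S_FBT := by
  intro d m P I hI
  exact ⟨fun _ _ _ h hk => Fbt.mono h hk, fun _ _ _ hT h => Fbt.congr' hT h,
    fun _ _ _ _ h h' => Fbt.add h h', fun _ J c T _ _ h => Fbt.lin J c T h,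
    fun _ _ _ _ hi hα h => Fbt.mul_coord hI hi hα h, fun _ _ θ h => Fbt.mul_ch hI m θ h,
    fun _ _ h => ⟨Fbt.nonneg hI h, fun _ hs => Fbt.bound hI h hs⟩,
    fun T => Fbt.exists_bound P I T⟩

end Pool.Agent.NH44.AD
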