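import Pool.Agent.NH44.AD.StmM
import Pool.Agent.NH44.AD.Fbt11
import Pool.Agent.NH44.AD.Wal

/-!
# Elementary properties of the difference norm (AM-6)
-/

set_option autoImplicit false

namespace Pool.Agent.NH44.AD

open Finset
open Pool.Agent.NH99.WZ (wal)

namespace Hbt

variable {d : ℕ}

theorem mem_bz {W : Finset (Fin d)} {P z q : Fin d → ℕ} :
    q ∈ bz W P z ↔ (∀ i ∈ W, q i ≤ P i) ∧ ∀ i, i ∉ W → q i = z i := by
  unfold bz
  rw [Fintype.mem_piFinset]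
  constructor
  · intro h
    refine ⟨fun i hi => ?_, fun i hi => ?_⟩
    · have := h i
      rw [if_pos hi] at this
      exact Nat.lt_succ_iff.1 (mem_range.1 this)
    · have := h i
      rw [if_neg hi] at this
      exact mem_singleton.1 this
  · rintro ⟨h1, h2⟩ i
    split_ifs with hA
    · exact mem_range.2 (Nat.lt_succ_iff.2 (h1 i hA))
    · exact mem_singleton.2 (h2 i hA)

theorem bz_empty (P z : Fin d → ℕ) : bz ∅ P z = {z} := by
  ext q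
  rw [mem_bz, mem_singleton]
  constructor
  · rintro ⟨-, h⟩
    exact funext fun i => h i (by simp)
  · rintro rfl
    exact ⟨by simp, fun _ _ => rfl⟩

theorem TV_congr {m : ℕ} {P : Fin d → ℕ} {W : Finset (Fin d)} {θ : Fin d → ℕ}
    {F G : (Fin d → ℕ) → ℝ} {z : Fin d → ℕ} (h : ∀ q ∈ bz W P z, F q = G q) :
    TV m P W θ F z = TV m P W θ G z := by
  unfold TV
  exact sum_congr rfl fun q hq => by rw [h q hq]

theorem TV_add (m : ℕ) (P : Fin d → ℕ) (W : Finset (Fin d)) (θ : Fin d → ℕ)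
    (F G : (Fin d → ℕ) → ℝ) (z : Fin d → ℕ) :
    TV m P W θ (fun s => F s + G s) z = TV m P W θ F z + TV m P W θ G z := by
  unfold TV
  rw [← sum_add_distrib]
  exact sum_congr rfl fun q _ => by ring

theorem TV_smul (m : ℕ) (P : Fin d → ℕ) (W : Finset (Fin d)) (θ : Fin d → ℕ)
    (F : (Fin d → ℕ) → ℝ) (c : ℝ) (z : Fin d → ℕ) :
    TV m P W θ (fun s => c * F s) z = c * TV m P W θ F z := by
  unfold TV
  rw [mul_sum]
  exact sum_congr rfl fun q _ => by ring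

theorem TV_empty (m : ℕ) (P : Fin d → ℕ) (θ : Fin d → ℕ)
    (F : (Fin d → ℕ) → ℝ) (z : Fin d → ℕ) : TV m P ∅ θ F z = F z := by
  unfold TV
  rw [bz_empty, sum_singleton, prod_empty, one_mul]

theorem TV_coord (m : ℕ) (P : Fin d → ℕ) (W : Finset (Fin d)) (θ : Fin d → ℕ)
    (F : (Fin d → ℕ) → ℝ) (α : ℕ → ℝ) {i : Fin d} (hi : i ∉ W) (z : Fin d → ℕ) :
    TV m P W θ (fun s => α (s i) * F s) z = α (z i) * TV m P W θ F z := by
  unfold TV
  rw [mul_sum]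
  refine sum_congr rfl fun q hq => ?_
  have e := (mem_bz.1 hq).2 i hi
  change (∏ i ∈ W, dw m (P i) (θ i) (q i)) * (α (q i) * F q) = _
  rw [e]
  ring

theorem TV_pr (m : ℕ) (P : Fin d → ℕ) (I : Finset (Fin d)) (θ : Fin d → ℕ)
    (F : (Fin d → ℕ) → ℝ) (s : Fin d → ℕ) :
    TV m P Iᶜ θ F (pr I P s) = TV m P Iᶜ θ F s := by
  unfold TV
  refine sum_congr ?_ fun _ _ => rfl
  ext q
  rw [mem_bz, mem_bz]
  refine and_congr Iff.rfl (forall_congr' fun i => ?_)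
  refine imp_congr_right fun hi => ?_
  rw [mem_compl, not_not] at hi
  unfold pr
  rw [if_pos hi]

theorem zero_mem_Th (m : ℕ) : (fun _ => 0 : Fin d → ℕ) ∈ Th d m := by
  unfold Th
  rw [Fintype.mem_piFinset]
  intro i
  exact mem_range.2 (by positivity)

theorem abs_ch (m : ℕ) (θ s : Fin d → ℕ) : |ch m θ s| = 1 := by
  unfold ch
  rw [abs_prod]
  exact prod_eq_one fun i _ => Fbt.abs_wal _ _ _

theorem mono {m : ℕ} {P : Fin d → ℕ} {I : Finset (Fin d)} {F : (Fin d → ℕ) → ℝ} {κ κ' : ℝ}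
    (h : HB m P I F κ) (hk : κ ≤ κ') : HB m P I F κ' := fun θ hθ => Fbt.mono (h θ hθ) hk

theorem congr' {m : ℕ} {P : Fin d → ℕ} {I : Finset (Fin d)} {F G : (Fin d → ℕ) → ℝ} {κ : ℝ}
    (hF : ∀ s ∈ box P, F s = G s) (h : HB m P I F κ) : HB m P I G κ := by
  intro θ hθ
  refine Fbt.congr' (fun s hs => TV_congr fun q hq => hF q ?_) (h θ hθ)
  rw [Fbt.mem_box]
  intro i
  rw [mem_bz] at hq
  rw [Fbt.mem_bx] at hs
  by_cases hi : i ∈ Iᶜ
  · exact hq.1 i hi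
  · rw [hq.2 i hi]
    exact hs.1 i

theorem add {m : ℕ} {P : Fin d → ℕ} {I : Finset (Fin d)} {F G : (Fin d → ℕ) → ℝ} {κ κ' : ℝ}
    (h : HB m P I F κ) (h' : HB m P I G κ') : HB m P I (fun s => F s + G s) (κ + κ') := by
  intro θ hθ
  refine Fbt.congr' (fun s _ => ?_) (Fbt.add (h θ hθ) (h' θ hθ))
  rw [TV_add]

theorem smul {m : ℕ} {P : Fin d → ℕ} {I : Finset (Fin d)} {F : (Fin d → ℕ) → ℝ} {κ : ℝ} (c : ℝ)
    (h : HB m P I F κ) : HB m P I (fun s => c * F s) (|c| * κ) := by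
  intro θ hθ
  have h1 := Fbt.lin (univ : Finset Unit) (fun _ => c) (fun _ => TV m P Iᶜ θ F)
    (fun _ _ => h θ hθ)
  simp only [univ_unique, sum_singleton] at h1
  refine Fbt.congr' (fun s _ => ?_) h1
  rw [TV_smul]

theorem coord {m : ℕ} {P : Fin d → ℕ} {I : Finset (Fin d)} (hI : I.Nonempty)
    {F : (Fin d → ℕ) → ℝ} {κ : ℝ} {i : Fin d} {α : ℕ → ℝ} (hi : i ∈ I) (hα : ∀ v, |α v| ≤ 1)
    (h : HB m P I F κ) : HB m P I (fun s => α (s i) * F s) κ := by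
  intro θ hθ
  refine Fbt.congr' (fun s _ => ?_) (Fbt.mul_coord hI hi hα (h θ hθ))
  rw [TV_coord]
  rw [mem_compl, not_not]
  exact hi

theorem nonneg {m : ℕ} {P : Fin d → ℕ} {I : Finset (Fin d)} (hI : I.Nonempty)
    {F : (Fin d → ℕ) → ℝ} {κ : ℝ} (h : HB m P I F κ) : 0 ≤ κ :=
  Fbt.nonneg hI (h _ (zero_mem_Th m))

theorem TV_le {m : ℕ} {P : Fin d → ℕ} {I : Finset (Fin d)} (hI : I.Nonempty)
    {F : (Fin d → ℕ) → ℝ} {κ : ℝ} (h : HB m P I F κ) {θ : Fin d → ℕ} (hθ : θ ∈ Th d m)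
    {s : Fin d → ℕ} (hs : s ∈ box P) : |TV m P Iᶜ θ F s| ≤ κ := by
  rw [← TV_pr]
  exact Fbt.bound hI (h θ hθ) (Fbt.pr_mem fun i _ => Fbt.mem_box.1 hs i)

theorem value (hDL : S_DL) {m : ℕ} {P : Fin d → ℕ} {I : Finset (Fin d)} (hI : I.Nonempty)
    (hP : ∀ i, P i < 2 ^ m) {F : (Fin d → ℕ) → ℝ} {κ : ℝ} (h : HB m P I F κ)
    {s : Fin d → ℕ} (hs : s ∈ box P) : |F s| ≤ cd d m * κ := by
  obtain ⟨C, hC, hid⟩ := hDL d m P Iᶜ ∅ hP (fun _ => 0) (zero_mem_Th m)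
  have h1 := hid F (fun _ => 1) s hs
  rw [inter_empty, TV_empty, mul_one] at h1
  rw [h1]
  have hκ := nonneg hI h
  refine le_trans ?_ (mul_le_mul_of_nonneg_right hC hκ)
  refine (abs_sum_le_sum_abs _ _).trans ?_
  rw [sum_mul]
  refine sum_le_sum fun θ₁ hθ₁ => ?_
  refine (abs_sum_le_sum_abs _ _).trans ?_
  rw [sum_mul]
  refine sum_le_sum fun θ₂ _ => ?_
  refine (abs_sum_le_sum_abs _ _).trans ?_
  rw [sum_mul]
  refine sum_le_sum fun θ₃ _ => ?_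
  rw [TV_empty, mul_one, abs_mul, abs_mul, abs_ch, one_mul]
  exact mul_le_mul_of_nonneg_left (TV_le hI h hθ₁ hs) (abs_nonneg _)

theorem exists_bound (m : ℕ) (P : Fin d → ℕ) (I : Finset (Fin d)) (F : (Fin d → ℕ) → ℝ) :
    ∃ κ : ℝ, 0 ≤ κ ∧ HB m P I F κ := by
  choose κ hκ hκ' using fun θ : Fin d → ℕ => Fbt.exists_bound P I (TV m P Iᶜ θ F)
  refine ⟨∑ θ ∈ Th d m, κ θ, sum_nonneg fun θ _ => hκ θ, fun θ hθ => ?_⟩
  exact Fbt.mono (hκ' θ) (single_le_sum (f := κ) (fun θ _ => hκ θ) hθ)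

end Hbt

theorem t_HBT (h1 : S_DL) (_h2 : S_FBT) : S_HBT := by
  intro d m P I hI hP
  exact ⟨fun _ _ _ h hk => Hbt.mono h hk, fun _ _ _ hF h => Hbt.congr' hF h,
    fun _ _ _ _ h h' => Hbt.add h h', fun _ _ c h => Hbt.smul c h,
    fun _ _ _ _ hi hα h => Hbt.coord hI hi hα h,
    fun _ _ h => ⟨Hbt.nonneg hI h, fun _ hs => Hbt.value h1 hI hP h hs⟩,
    fun F => Hbt.exists_bound m P I F⟩

end Pool.Agent.NH44.AD
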