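import Pool.Agent.NH44.AD.StmM

set_option autoImplicit false

/-!
# Project AD (middle part), AM-8: division by `1 - b ^ 2`
-/

namespace Pool.Agent.NH44.AD

open Finset

/-- (AM-8) -/
theorem t_INV (h1 : S_HBT) (h2 : S_PRD) : S_INV := by
  classical
  intro d m P I k K b κ β hP hk hκ hK hb hβ hb2
  obtain ⟨mono, congr, add, -, -, pos, exs⟩ := h1 d m P I ⟨k, hk⟩ hP
  have hkI : {k} ∪ I = I := by
    ext i
    simp only [mem_union, mem_singleton]
    constructor
    · rintro (rfl | h)
      · exact hk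
      · exact h
    · exact Or.inr
  have hne : (({k} : Finset (Fin d)) ∩ I).Nonempty := ⟨k, by simp [hk]⟩
  set g : (Fin d → ℕ) → ℝ := fun s => K s / (1 - b s ^ 2) with hg
  have step : ∀ κ' : ℝ, HB m P I g κ' → HB m P I g (κ + κ' / 2) := by
    intro κ' h
    have hκ' := (pos g κ' h).1
    have a1 := (h2 d m P {k} I b g β κ' hP hne hb h).1
    rw [hkI] at a1
    have a2 := (h2 d m P {k} I b (fun q => b q * g q) β (cd d m * (β * κ')) hP hne hb a1).1
    rw [hkI] at a2
    have a3 := add K (fun q => b q * (b q * g q)) κ _ hK a2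
    have a4 : HB m P I g (κ + cd d m * (β * (cd d m * (β * κ')))) := by
      refine congr _ g _ (fun s hs => ?_) a3
      have hbs := hb2 s hs
      have hb4 : b s ^ 2 ≤ 1 / 4 := by
        rw [abs_le] at hbs
        nlinarith [hbs.1, hbs.2]
      have hne0 : (1 - b s ^ 2 : ℝ) ≠ 0 := by
        intro h0
        linarith
      rw [hg]
      field_simp
      ring
    refine mono g _ _ a4 ?_
    have : cd d m * (β * (cd d m * (β * κ'))) = (cd d m * β) ^ 2 * κ' := by ring
    rw [this]
    nlinarith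
  obtain ⟨κ0, hκ0, hg0⟩ := exs g
  have iter : ∀ j : ℕ, HB m P I g (2 * κ + κ0 / 2 ^ j) := by
    intro j
    induction j with
    | zero =>
      refine mono g _ _ hg0 ?_
      rw [pow_zero, div_one]
      linarith
    | succ j ih =>
      have := step _ ih
      refine mono g _ _ this (le_of_eq ?_)
      rw [pow_succ]
      field_simp
      ring
  obtain ⟨j, hj⟩ : ∃ j : ℕ, κ0 / 2 ^ j ≤ κ := by
    obtain ⟨j, hj⟩ := pow_unbounded_of_one_lt (κ0 / κ) (by norm_num : (1 : ℝ) < 2)
    refine ⟨j, ?_⟩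
    have hp : (0 : ℝ) < 2 ^ j := by positivity
    rw [div_lt_iff₀ hκ] at hj
    rw [div_le_iff₀ hp]
    linarith
  exact mono g _ _ (iter j) (by linarith)

end Pool.Agent.NH44.AD
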