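import Pool.Agent.NH44.AD.StmM
import Pool.Agent.NH44.AD.Fbt
import Pool.Agent.NH44.AD.Wal

/-!
# Elementary properties of the kernel norm (AM-12)
-/

set_option autoImplicit false

namespace Pool.Agent.NH44.AD

open Finset
open Pool.Agent.NH99.WZ (wal)

namespace Knt

variable {d : ℕ}

/-- the first bilinear form of the kernel norm -/
def b1 (m : ℕ) (P : Fin d → ℕ) (R C : Finset (Fin d → ℕ)) (τ : Fin d) (W : Finset (Fin d))
    (Γ : Kn d) (θ : Fin d → ℕ) (x : (Fin d → ℕ) → ℝ) (z : (Fin d → ℕ) → ℕ → ℝ) : ℝ :=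
  ∑ q ∈ box P, ∑ a ∈ R, ∑ e ∈ C, x a * z e (q τ) * (ww m P W θ q * Γ q a e)

/-- the second bilinear form of the kernel norm -/
def b2 (m : ℕ) (P : Fin d → ℕ) (R C : Finset (Fin d → ℕ)) (τ : Fin d) (W : Finset (Fin d))
    (Γ : Kn d) (θ : Fin d → ℕ) (x : (Fin d → ℕ) → ℝ) (z : (Fin d → ℕ) → ℕ → ℝ) : ℝ :=
  ∑ q ∈ box P, ∑ a ∈ R, ∑ e ∈ C, x e * z a (q τ) * (ww m P W θ q * Γ q a e)

variable {m : ℕ} {P : Fin d → ℕ} {R C : Finset (Fin d → ℕ)} {τ : Fin d} {W : Finset (Fin d)}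

theorem n1_nonneg (R : Finset (Fin d → ℕ)) (x : (Fin d → ℕ) → ℝ) : 0 ≤ n1 R x :=
  Real.sqrt_nonneg _

theorem n2_nonneg (R : Finset (Fin d → ℕ)) (V : ℕ) (z : (Fin d → ℕ) → ℕ → ℝ) : 0 ≤ n2 R V z :=
  Real.sqrt_nonneg _

theorem nn (R C : Finset (Fin d → ℕ)) (V : ℕ) (x : (Fin d → ℕ) → ℝ)
    (z : (Fin d → ℕ) → ℕ → ℝ) : 0 ≤ n1 R x * n2 C V z :=
  mul_nonneg (n1_nonneg _ _) (n2_nonneg _ _ _)

theorem mono {Γ : Kn d} {κ κ' : ℝ} (h : KN m P R C τ W Γ κ) (hk : κ ≤ κ') :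
    KN m P R C τ W Γ κ' := fun θ hθ x z =>
  ⟨(h θ hθ x z).1.trans (mul_le_mul_of_nonneg_right hk (nn _ _ _ _ _)),
    (h θ hθ x z).2.trans (mul_le_mul_of_nonneg_right hk (nn _ _ _ _ _))⟩

theorem congr' {Γ Γ' : Kn d} {κ : ℝ} (hG : ∀ q ∈ box P, ∀ a ∈ R, ∀ e ∈ C, Γ q a e = Γ' q a e)
    (h : KN m P R C τ W Γ κ) : KN m P R C τ W Γ' κ := by
  intro θ hθ x z
  have e1 : b1 m P R C τ W Γ' θ x z = b1 m P R C τ W Γ θ x z :=
    sum_congr rfl fun q hq => sum_congr rfl fun a ha => sum_congr rfl fun e he => by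
      rw [hG q hq a ha e he]
  have e2 : b2 m P R C τ W Γ' θ x z = b2 m P R C τ W Γ θ x z :=
    sum_congr rfl fun q hq => sum_congr rfl fun a ha => sum_congr rfl fun e he => by
      rw [hG q hq a ha e he]
  refine ⟨?_, ?_⟩
  · change |b1 m P R C τ W Γ' θ x z| ≤ _
    rw [e1]
    exact (h θ hθ x z).1
  · change |b2 m P R C τ W Γ' θ x z| ≤ _
    rw [e2]
    exact (h θ hθ x z).2

theorem zero {κ : ℝ} (hκ : 0 ≤ κ) : KN m P R C τ W (fun _ _ _ => 0) κ := by
  intro θ hθ x z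
  refine ⟨?_, ?_⟩
  · simp only [mul_zero, sum_const_zero, abs_zero]
    exact mul_nonneg hκ (nn _ _ _ _ _)
  · simp only [mul_zero, sum_const_zero, abs_zero]
    exact mul_nonneg hκ (nn _ _ _ _ _)

theorem add {Γ Γ' : Kn d} {κ κ' : ℝ} (h : KN m P R C τ W Γ κ) (h' : KN m P R C τ W Γ' κ') :
    KN m P R C τ W (fun q a e => Γ q a e + Γ' q a e) (κ + κ') := by
  intro θ hθ x z
  have e1 : b1 m P R C τ W (fun q a e => Γ q a e + Γ' q a e) θ x z =
      b1 m P R C τ W Γ θ x z + b1 m P R C τ W Γ' θ x z := by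
    unfold b1
    rw [← sum_add_distrib]
    refine sum_congr rfl fun q _ => ?_
    rw [← sum_add_distrib]
    refine sum_congr rfl fun a _ => ?_
    rw [← sum_add_distrib]
    exact sum_congr rfl fun e _ => by ring
  have e2 : b2 m P R C τ W (fun q a e => Γ q a e + Γ' q a e) θ x z =
      b2 m P R C τ W Γ θ x z + b2 m P R C τ W Γ' θ x z := by
    unfold b2
    rw [← sum_add_distrib]
    refine sum_congr rfl fun q _ => ?_
    rw [← sum_add_distrib]
    refine sum_congr rfl fun a _ => ?_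
    rw [← sum_add_distrib]
    exact sum_congr rfl fun e _ => by ring
  refine ⟨?_, ?_⟩
  · change |b1 m P R C τ W (fun q a e => Γ q a e + Γ' q a e) θ x z| ≤ _
    rw [e1, add_mul]
    exact (abs_add_le _ _).trans (add_le_add (h θ hθ x z).1 (h' θ hθ x z).1)
  · change |b2 m P R C τ W (fun q a e => Γ q a e + Γ' q a e) θ x z| ≤ _
    rw [e2, add_mul]
    exact (abs_add_le _ _).trans (add_le_add (h θ hθ x z).2 (h' θ hθ x z).2)

theorem neg {Γ : Kn d} {κ : ℝ} (h : KN m P R C τ W Γ κ) :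
    KN m P R C τ W (fun q a e => -Γ q a e) κ := by
  intro θ hθ x z
  have e1 : b1 m P R C τ W (fun q a e => -Γ q a e) θ x z = -b1 m P R C τ W Γ θ x z := by
    unfold b1
    rw [← sum_neg_distrib]
    refine sum_congr rfl fun q _ => ?_
    rw [← sum_neg_distrib]
    refine sum_congr rfl fun a _ => ?_
    rw [← sum_neg_distrib]
    exact sum_congr rfl fun e _ => by ring
  have e2 : b2 m P R C τ W (fun q a e => -Γ q a e) θ x z = -b2 m P R C τ W Γ θ x z := by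
    unfold b2
    rw [← sum_neg_distrib]
    refine sum_congr rfl fun q _ => ?_
    rw [← sum_neg_distrib]
    refine sum_congr rfl fun a _ => ?_
    rw [← sum_neg_distrib]
    exact sum_congr rfl fun e _ => by ring
  refine ⟨?_, ?_⟩
  · change |b1 m P R C τ W (fun q a e => -Γ q a e) θ x z| ≤ _
    rw [e1, abs_neg]
    exact (h θ hθ x z).1
  · change |b2 m P R C τ W (fun q a e => -Γ q a e) θ x z| ≤ _
    rw [e2, abs_neg]
    exact (h θ hθ x z).2

theorem sum {ι : Type} (J : Finset ι) (Γ : ι → Kn d) {κ : ℝ}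
    (h : ∀ j ∈ J, KN m P R C τ W (Γ j) κ) :
    KN m P R C τ W (fun q a e => ∑ j ∈ J, Γ j q a e) ((J.card : ℝ) * κ) := by
  classical
  induction J using Finset.induction_on with
  | empty =>
    simp only [sum_empty, card_empty, Nat.cast_zero, zero_mul]
    exact zero le_rfl
  | insert j J hj ih =>
    have h1 := add (ih fun i hi => h i (mem_insert_of_mem hi)) (h j (mem_insert_self _ _))
    have e : ((insert j J).card : ℝ) * κ = (J.card : ℝ) * κ + κ := by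
      rw [card_insert_of_notMem hj]
      push_cast
      ring
    rw [e]
    refine congr' (fun q _ a _ e _ => ?_) h1
    rw [sum_insert hj, add_comm]

theorem n2_mul_le {R : Finset (Fin d → ℕ)} {V : ℕ} {z : (Fin d → ℕ) → ℕ → ℝ} {α : ℕ → ℝ}
    (hα : ∀ v, |α v| ≤ 1) : n2 R V (fun a v => α v * z a v) ≤ n2 R V z := by
  unfold n2
  refine Real.sqrt_le_sqrt (sum_le_sum fun a _ => sum_le_sum fun v _ => ?_)
  have h1 : α v ^ 2 ≤ 1 := by
    rw [← sq_abs]
    have := hα v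
    have h0 := abs_nonneg (α v)
    nlinarith
  rw [mul_pow]
  nlinarith [sq_nonneg (z a v)]

theorem coord {Γ : Kn d} {κ : ℝ} {α : ℕ → ℝ} (hκ : 0 ≤ κ) (hα : ∀ v, |α v| ≤ 1)
    (h : KN m P R C τ W Γ κ) : KN m P R C τ W (fun q a e => α (q τ) * Γ q a e) κ := by
  intro θ hθ x z
  have e1 : b1 m P R C τ W (fun q a e => α (q τ) * Γ q a e) θ x z =
      b1 m P R C τ W Γ θ x (fun a v => α v * z a v) :=
    sum_congr rfl fun q _ => sum_congr rfl fun a _ => sum_congr rfl fun e _ => by ring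
  have e2 : b2 m P R C τ W (fun q a e => α (q τ) * Γ q a e) θ x z =
      b2 m P R C τ W Γ θ x (fun a v => α v * z a v) :=
    sum_congr rfl fun q _ => sum_congr rfl fun a _ => sum_congr rfl fun e _ => by ring
  have h1 := h θ hθ x (fun a v => α v * z a v)
  refine ⟨?_, ?_⟩
  · change |b1 m P R C τ W (fun q a e => α (q τ) * Γ q a e) θ x z| ≤ _
    rw [e1]
    exact h1.1.trans (mul_le_mul_of_nonneg_left (mul_le_mul_of_nonneg_left (n2_mul_le hα)
      (n1_nonneg _ _)) hκ)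
  · change |b2 m P R C τ W (fun q a e => α (q τ) * Γ q a e) θ x z| ≤ _
    rw [e2]
    exact h1.2.trans (mul_le_mul_of_nonneg_left (mul_le_mul_of_nonneg_left (n2_mul_le hα)
      (n1_nonneg _ _)) hκ)

theorem ww_empty (P θ q : Fin d → ℕ) : ww m P ∅ θ q = ch m θ q := by
  unfold ww ch
  refine prod_congr rfl fun i _ => ?_
  rw [if_neg (notMem_empty i)]

theorem ch_xor (θ θ' q : Fin d → ℕ) :
    ch m (fun i => θ i ^^^ θ' i) q = ch m θ q * ch m θ' q := by
  unfold ch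
  rw [← prod_mul_distrib]
  exact prod_congr rfl fun i _ => Wal.wal_xor _ _ _ _

theorem mem_Th {θ : Fin d → ℕ} : θ ∈ Th d m ↔ ∀ i, θ i < 2 ^ m := by
  unfold Th
  rw [Fintype.mem_piFinset]
  exact forall_congr' fun i => mem_range

theorem mul_ch {Γ : Kn d} {κ : ℝ} {θ' : Fin d → ℕ} (hθ' : θ' ∈ Th d m)
    (h : KN m P R C τ ∅ Γ κ) : KN m P R C τ ∅ (fun q a e => ch m θ' q * Γ q a e) κ := by
  intro θ hθ x z
  have hx : (fun i => θ i ^^^ θ' i) ∈ Th d m := by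
    rw [mem_Th] at hθ hθ' ⊢
    exact fun i => Nat.xor_lt_two_pow (hθ i) (hθ' i)
  have e1 : b1 m P R C τ ∅ (fun q a e => ch m θ' q * Γ q a e) θ x z =
      b1 m P R C τ ∅ Γ (fun i => θ i ^^^ θ' i) x z :=
    sum_congr rfl fun q _ => sum_congr rfl fun a _ => sum_congr rfl fun e _ => by
      rw [ww_empty, ww_empty, ch_xor]
      ring
  have e2 : b2 m P R C τ ∅ (fun q a e => ch m θ' q * Γ q a e) θ x z =
      b2 m P R C τ ∅ Γ (fun i => θ i ^^^ θ' i) x z :=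
    sum_congr rfl fun q _ => sum_congr rfl fun a _ => sum_congr rfl fun e _ => by
      rw [ww_empty, ww_empty, ch_xor]
      ring
  have h1 := h _ hx x z
  refine ⟨?_, ?_⟩
  · change |b1 m P R C τ ∅ (fun q a e => ch m θ' q * Γ q a e) θ x z| ≤ _
    rw [e1]
    exact h1.1
  · change |b2 m P R C τ ∅ (fun q a e => ch m θ' q * Γ q a e) θ x z| ≤ _
    rw [e2]
    exact h1.2

end Knt

theorem t_KNT : S_KNT := by
  intro d m P R C τ W
  refine ⟨fun _ _ _ h hk => Knt.mono h hk, fun _ _ _ hG h => Knt.congr' hG h,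
    fun _ hκ => Knt.zero hκ, fun _ _ _ _ h h' => Knt.add h h', fun _ _ h => Knt.neg h,
    fun _ J Γ _ _ h => Knt.sum J Γ h, fun _ _ _ hκ _ hα h => Knt.coord hκ hα h, ?_⟩
  intro Γ κ θ hκ hW hθ h
  subst hW
  exact Knt.mul_ch hθ h

end Pool.Agent.NH44.AD
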