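import Pool.Agent.NH44.AD.StmM
import Pool.Agent.NH44.AD.Wal

set_option autoImplicit false

/-!
# Project AD (every dimension), AM-14: the difference step
-/

namespace Pool.Agent.NH44.AD

open Finset
open Pool.Agent.NH99.WZ (wal)

variable {d : ℕ}

namespace Ks

lemma mem_box {P q : Fin d → ℕ} : q ∈ box P ↔ ∀ i, q i ≤ P i := by
  unfold box
  rw [Fintype.mem_piFinset]
  refine forall_congr' fun i => ?_
  rw [mem_range, Nat.lt_succ_iff]

lemma mem_Th {m : ℕ} {θ : Fin d → ℕ} : θ ∈ Th d m ↔ ∀ i, θ i < 2 ^ m := by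
  unfold Th
  rw [Fintype.mem_piFinset]
  exact forall_congr' fun i => mem_range

/-- shift of the coordinate `c` -/
lemma shift (P : Fin d → ℕ) (c : Fin d) (g G : (Fin d → ℕ) → ℝ) (φ : ℕ → ℝ)
    (hg : ∀ q v, g (Function.update q c v) = g q) :
    ∑ q ∈ box P, (if q c ≠ 0 then g q * (φ (q c) * G (Function.update q c (q c - 1))) else 0) =
      ∑ q ∈ box P, if q c < P c then g q * (φ (q c + 1) * G q) else 0 := by
  rw [← sum_filter, ← sum_filter]
  refine sum_nbij' (fun q => Function.update q c (q c - 1))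
    (fun q => Function.update q c (q c + 1)) ?_ ?_ ?_ ?_ ?_
  · intro q hq
    rw [mem_filter, mem_box] at hq ⊢
    obtain ⟨h1, h2⟩ := hq
    refine ⟨fun i => ?_, ?_⟩
    · by_cases hi : i = c
      · subst hi
        rw [Function.update_self]
        have := h1 i
        omega
      · rw [Function.update_of_ne hi]
        exact h1 i
    · rw [Function.update_self]
      have := h1 c
      omega
  · intro q hq
    rw [mem_filter, mem_box] at hq ⊢
    obtain ⟨h1, h2⟩ := hq
    refine ⟨fun i => ?_, ?_⟩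
    · by_cases hi : i = c
      · subst hi
        rw [Function.update_self]
        omega
      · rw [Function.update_of_ne hi]
        exact h1 i
    · rw [Function.update_self]
      omega
  · intro q hq
    rw [mem_filter] at hq
    have h : q c - 1 + 1 = q c := by
      have := hq.2
      omega
    rw [Function.update_self, Function.update_idem, h, Function.update_eq_self]
  · intro q hq
    rw [Function.update_self, Function.update_idem, Nat.add_sub_cancel, Function.update_eq_self]
  · intro q hq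
    rw [mem_filter] at hq
    have h : q c - 1 + 1 = q c := by
      have := hq.2
      omega
    rw [hg, Function.update_self, h]

/-- summation by parts in the direction `c` -/
lemma parts (P : Fin d → ℕ) (c : Fin d) (g G : (Fin d → ℕ) → ℝ) (φ : ℕ → ℝ)
    (hg : ∀ q v, g (Function.update q c v) = g q) :
    ∑ q ∈ box P, g q * (φ (q c) * (G q - if q c = 0 then 0 else
        G (Function.update q c (q c - 1)))) =
      ∑ q ∈ box P, g q * ((φ (q c) - if q c < P c then φ (q c + 1) else 0) * G q) := by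
  have h1 : ∀ q ∈ box P, g q * (φ (q c) * (G q - if q c = 0 then 0 else
        G (Function.update q c (q c - 1)))) = g q * (φ (q c) * G q) -
        (if q c ≠ 0 then g q * (φ (q c) * G (Function.update q c (q c - 1))) else 0) := by
    intro q _
    by_cases h : q c = 0
    · rw [if_pos h, if_neg (not_not.2 h)]
      ring
    · rw [if_neg h, if_pos h]
      ring
  have h2 : ∀ q ∈ box P, g q * ((φ (q c) - if q c < P c then φ (q c + 1) else 0) * G q) =
      g q * (φ (q c) * G q) - if q c < P c then g q * (φ (q c + 1) * G q) else 0 := by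
    intro q _
    split_ifs <;> ring
  rw [sum_congr rfl h1, sum_congr rfl h2, sum_sub_distrib, sum_sub_distrib,
    shift P c g G φ hg]

/-- the weights of the directions other than `c` -/
def wo (m : ℕ) (P : Fin d → ℕ) (W : Finset (Fin d)) (c : Fin d) (θ q : Fin d → ℕ) : ℝ :=
  ∏ i ∈ univ.erase c, if i ∈ W then dw m (P i) (θ i) (q i) else wal m (θ i) (q i)

lemma wo_update (m : ℕ) (P : Fin d → ℕ) (W : Finset (Fin d)) (c : Fin d) (θ q : Fin d → ℕ)
    (v : ℕ) : wo m P W c θ (Function.update q c v) = wo m P W c θ q := by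
  unfold wo
  refine prod_congr rfl fun i hi => ?_
  rw [Function.update_of_ne (ne_of_mem_erase hi)]

lemma ww_erase (m : ℕ) (P : Fin d → ℕ) (W : Finset (Fin d)) (c : Fin d) (θ q : Fin d → ℕ) :
    ww m P (W.erase c) θ q = wal m (θ c) (q c) * wo m P W c θ q := by
  unfold ww wo
  rw [← mul_prod_erase univ _ (mem_univ c), if_neg (notMem_erase c W)]
  congr 1
  refine prod_congr rfl fun i hi => ?_
  have h : i ∈ W.erase c ↔ i ∈ W := by
    rw [mem_erase]
    exact ⟨fun h => h.2, fun h => ⟨ne_of_mem_erase hi, h⟩⟩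
  by_cases hW : i ∈ W
  · rw [if_pos hW, if_pos (h.2 hW)]
  · rw [if_neg hW, if_neg (fun h' => hW (h.1 h'))]

lemma ww_mem (m : ℕ) (P : Fin d → ℕ) (W : Finset (Fin d)) (c : Fin d) (hc : c ∈ W)
    (θ q : Fin d → ℕ) (b : ℕ) :
    ww m P W (Function.update θ c b) q = dw m (P c) b (q c) * wo m P W c θ q := by
  unfold ww wo
  rw [← mul_prod_erase univ _ (mem_univ c), if_pos hc, Function.update_self]
  congr 1
  refine prod_congr rfl fun i hi => ?_
  rw [Function.update_of_ne (ne_of_mem_erase hi)]

lemma key (m : ℕ) (P : Fin d → ℕ) (W : Finset (Fin d)) (c : Fin d) (hc : c ∈ W) (Γ : Kn d)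
    (θ θ' : Fin d → ℕ) (f : (Fin d → ℕ) → ℝ) (hf : ∀ q v, f (Function.update q c v) = f q)
    (a e : Fin d → ℕ) :
    ∑ q ∈ box P, f q * (ww m P (W.erase c) θ' q * (wal m (θ c) (q c) * kd c Γ q a e)) =
      ∑ q ∈ box P, f q * (ww m P W (Function.update θ' c (θ' c ^^^ θ c)) q * Γ q a e) := by
  have h := parts P c (fun q => f q * wo m P W c θ' q) (fun q => Γ q a e)
    (fun v => wal m (θ' c ^^^ θ c) v) (fun q v => by rw [hf, wo_update])
  refine Eq.trans (sum_congr rfl fun q _ => ?_) (h.trans (sum_congr rfl fun q _ => ?_))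
  · rw [ww_erase, Wal.wal_xor]
    unfold kd
    ring
  · rw [ww_mem m P W c hc]
    unfold dw
    ring

lemma swap (B R C : Finset (Fin d → ℕ)) (F : (Fin d → ℕ) → (Fin d → ℕ) → (Fin d → ℕ) → ℝ) :
    ∑ q ∈ B, ∑ a ∈ R, ∑ e ∈ C, F q a e = ∑ a ∈ R, ∑ e ∈ C, ∑ q ∈ B, F q a e := by
  rw [sum_comm]
  exact sum_congr rfl fun a _ => sum_comm

end Ks

open Ks in
/-- AM-14: the difference step -/
theorem t_KS : S_KS := by
  intro d m P R C c τ W Γ θ κ hP hc hτ hκ hθ hK θ' hθ' x z
  have hcτ : τ ≠ c := fun h => hτ (h ▸ hc)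
  have hθ'' : Function.update θ' c (θ' c ^^^ θ c) ∈ Th d m := by
    rw [mem_Th] at hθ hθ' ⊢
    intro i
    by_cases hi : i = c
    · subst hi
      rw [Function.update_self]
      exact Nat.xor_lt_two_pow (hθ' i) (hθ i)
    · rw [Function.update_of_ne hi]
      exact hθ' i
  obtain ⟨h1, h2⟩ := hK _ hθ'' x z
  constructor
  · rw [swap] at h1 ⊢
    have h3 : ∀ a ∈ R, ∑ e ∈ C, ∑ q ∈ box P, x a * z e (q τ) *
        (ww m P (W.erase c) θ' q * (wal m (θ c) (q c) * kd c Γ q a e)) =
        ∑ e ∈ C, ∑ q ∈ box P, x a * z e (q τ) *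
        (ww m P W (Function.update θ' c (θ' c ^^^ θ c)) q * Γ q a e) := fun a _ =>
      sum_congr rfl fun e _ => key m P W c hc Γ θ θ' (fun q => x a * z e (q τ))
        (fun q v => by rw [Function.update_of_ne hcτ]) a e
    rw [sum_congr rfl h3]
    exact h1
  · rw [swap] at h2 ⊢
    have h3 : ∀ a ∈ R, ∑ e ∈ C, ∑ q ∈ box P, x e * z a (q τ) *
        (ww m P (W.erase c) θ' q * (wal m (θ c) (q c) * kd c Γ q a e)) =
        ∑ e ∈ C, ∑ q ∈ box P, x e * z a (q τ) *
        (ww m P W (Function.update θ' c (θ' c ^^^ θ c)) q * Γ q a e) := fun a _ =>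
      sum_congr rfl fun e _ => key m P W c hc Γ θ θ' (fun q => x e * z a (q τ))
        (fun q v => by rw [Function.update_of_ne hcτ]) a e
    rw [sum_congr rfl h3]
    exact h2

end Pool.Agent.NH44.AD
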