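import Pool.Agent.NH44.AD.StmM
import Pool.Agent.NH44.AD.Wal

/-!
# Project AD (every dimension): kernel norm and stacks, flattenings as matrices, non-linear part
-/

set_option autoImplicit false

namespace Pool.Agent.NH44.AD

open Finset
open Pool.Agent.NH99.WZ (wal)

namespace KSBp

variable {d : ℕ}

theorem mem_box {P q : Fin d → ℕ} : q ∈ box P ↔ ∀ i, q i ≤ P i := by
  unfold box
  rw [Fintype.mem_piFinset]
  refine forall_congr' fun i => ?_
  rw [mem_range, Nat.lt_succ_iff]

theorem mem_bx {A : Finset (Fin d)} {P q : Fin d → ℕ} :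
    q ∈ bx A P ↔ ∀ i, (i ∈ A → q i ≤ P i) ∧ (i ∉ A → q i = P i) := by
  unfold bx
  rw [Fintype.mem_piFinset]
  refine forall_congr' fun i => ?_
  by_cases hi : i ∈ A
  · simp [hi]
  · simp [hi]

theorem mem_bz {W : Finset (Fin d)} {P z q : Fin d → ℕ} :
    q ∈ bz W P z ↔ ∀ i, (i ∈ W → q i ≤ P i) ∧ (i ∉ W → q i = z i) := by
  unfold bz
  rw [Fintype.mem_piFinset]
  refine forall_congr' fun i => ?_
  by_cases hi : i ∈ W
  · simp [hi]
  · simp [hi]

theorem pr_in {A : Finset (Fin d)} {P s : Fin d → ℕ} {i : Fin d} (h : i ∈ A) :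
    pr A P s i = s i := if_pos h

theorem pr_out {A : Finset (Fin d)} {P s : Fin d → ℕ} {i : Fin d} (h : i ∉ A) :
    pr A P s i = P i := if_neg h

theorem box_update {Q : Fin d → ℕ} {τ : Fin d} (h : 1 ≤ Q τ) :
    box (Function.update Q τ (Q τ - 1)) = (box Q).filter (fun q => q τ < Q τ) := by
  ext q
  rw [mem_filter, mem_box, mem_box]
  constructor
  · intro hq
    have h1 := hq τ
    rw [Function.update_self] at h1
    refine ⟨fun i => ?_, by omega⟩
    by_cases hi : i = τ
    · subst hi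
      omega
    · have h2 := hq i
      rwa [Function.update_of_ne hi] at h2
  · rintro ⟨hq, hτ⟩ i
    by_cases hi : i = τ
    · subst hi
      rw [Function.update_self]
      omega
    · rw [Function.update_of_ne hi]
      exact hq i

theorem hh_sum {Q : Fin d → ℕ} {τ : Fin d} (h : 1 ≤ Q τ) (R C : Finset (Fin d → ℕ)) (Γ : Kn d)
    (w : ℕ → (Fin d → ℕ) → (Fin d → ℕ) → ℝ) :
    ∑ v ∈ range (Q τ), ∑ a ∈ R, ∑ e ∈ C, w v a e * HH Q τ Γ v a e =
      ∑ q ∈ box (Function.update Q τ (Q τ - 1)), ∑ a ∈ R, ∑ e ∈ C, w (q τ) a e * Γ q a e := by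
  have h1 : ∀ v, ∑ a ∈ R, ∑ e ∈ C, w v a e * HH Q τ Γ v a e =
      ∑ q ∈ box Q, if q τ = v then ∑ a ∈ R, ∑ e ∈ C, w (q τ) a e * Γ q a e else 0 := by
    intro v
    unfold HH
    simp only [mul_sum]
    calc ∑ a ∈ R, ∑ e ∈ C, ∑ q ∈ box Q, w v a e * (if q τ = v then Γ q a e else 0)
        = ∑ a ∈ R, ∑ q ∈ box Q, ∑ e ∈ C, w v a e * (if q τ = v then Γ q a e else 0) :=
          Finset.sum_congr rfl fun a _ => Finset.sum_comm
      _ = ∑ q ∈ box Q, ∑ a ∈ R, ∑ e ∈ C, w v a e * (if q τ = v then Γ q a e else 0) :=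
          Finset.sum_comm
      _ = _ := by
        refine Finset.sum_congr rfl fun q _ => ?_
        split_ifs with hq
        · rw [hq]
        · simp
  rw [Finset.sum_congr rfl fun v _ => h1 v, Finset.sum_comm, box_update h, Finset.sum_filter]
  refine Finset.sum_congr rfl fun q _ => ?_
  rw [Finset.sum_ite_eq]
  simp only [mem_range]

theorem sum_fib (S : Finset (Fin d)) (P : Fin d → ℕ) (f : (Fin d → ℕ) → ℝ) :
    ∑ s ∈ bx S P, ∑ q ∈ bz Sᶜ P s, f q = ∑ q ∈ box P, f q := by
  rw [← Finset.sum_fiberwise_of_maps_to (s := box P) (t := bx S P) (g := pr S P) ?_ f]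
  · refine Finset.sum_congr rfl fun s hs => ?_
    refine Finset.sum_congr ?_ fun _ _ => rfl
    ext q
    rw [mem_filter, mem_box, mem_bz]
    rw [mem_bx] at hs
    constructor
    · intro hq
      refine ⟨fun i => ?_, ?_⟩
      · by_cases hi : i ∈ S
        · rw [(hq i).2 (by simpa using hi)]
          exact (hs i).1 hi
        · exact (hq i).1 (by simpa using hi)
      · funext i
        by_cases hi : i ∈ S
        · rw [pr_in hi]
          exact (hq i).2 (by simpa using hi)
        · rw [pr_out hi]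
          exact ((hs i).2 hi).symm
    · rintro ⟨hq, rfl⟩ i
      refine ⟨fun _ => hq i, fun hi => ?_⟩
      rw [mem_compl, not_not] at hi
      rw [pr_in hi]
  · intro q hq
    rw [mem_bx]
    rw [mem_box] at hq
    intro i
    refine ⟨fun hi => ?_, fun hi => ?_⟩
    · rw [pr_in hi]
      exact hq i
    · rw [pr_out hi]

theorem sum_fib' (S : Finset (Fin d)) (P s : Fin d → ℕ) {k : Fin d} (hk : k ∉ S)
    (f : (Fin d → ℕ) → ℝ) : ∑ q ∈ bz Sᶜ P s, f q =
      ∑ v ∈ range (P k + 1), ∑ q ∈ bz (insert k S)ᶜ P (Function.update s k v), f q := by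
  rw [← Finset.sum_fiberwise_of_maps_to (s := bz Sᶜ P s) (t := range (P k + 1))
    (g := fun q => q k) ?_ f]
  · refine Finset.sum_congr rfl fun v hv => ?_
    refine Finset.sum_congr ?_ fun _ _ => rfl
    ext q
    rw [mem_filter, mem_bz, mem_bz]
    rw [mem_range, Nat.lt_succ_iff] at hv
    constructor
    · rintro ⟨hq, hqk⟩ i
      refine ⟨fun hi => ?_, fun hi => ?_⟩
      · rw [mem_compl, mem_insert, not_or] at hi
        exact (hq i).1 (by simpa using hi.2)
      · rw [mem_compl, not_not, mem_insert] at hi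
        by_cases hik : i = k
        · subst hik
          rw [Function.update_self]
          exact hqk
        · rw [Function.update_of_ne hik]
          exact (hq i).2 (by simpa using hi.resolve_left hik)
    · intro hq
      have hqk : q k = v := by
        have := (hq k).2 (by simp)
        rwa [Function.update_self] at this
      refine ⟨fun i => ⟨fun hi => ?_, fun hi => ?_⟩, hqk⟩
      · by_cases hik : i = k
        · subst hik
          rw [hqk]
          exact hv
        · refine (hq i).1 ?_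
          rw [mem_compl] at hi
          rw [mem_compl, mem_insert, not_or]
          exact ⟨hik, hi⟩
      · rw [mem_compl, not_not] at hi
        have hik : i ≠ k := fun h => hk (h ▸ hi)
        have := (hq i).2 (by simp [hi])
        rwa [Function.update_of_ne hik] at this
  · intro q hq
    rw [mem_bz] at hq
    rw [mem_range, Nat.lt_succ_iff]
    exact (hq k).1 (by simpa using hk)

theorem pr_mem {A : Finset (Fin d)} {Q q : Fin d → ℕ} (hq : q ∈ box Q) : pr A Q q ∈ bx A Q := by
  rw [mem_bx]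
  rw [mem_box] at hq
  intro i
  refine ⟨fun hi => ?_, fun hi => ?_⟩
  · rw [pr_in hi]
    exact hq i
  · rw [pr_out hi]

theorem mat_sum (A B : Finset (Fin d)) (Q : Fin d → ℕ) (c : (Fin d → ℕ) → Prop) [DecidablePred c]
    (g x z : (Fin d → ℕ) → ℝ) :
    ∑ a ∈ bx A Q, ∑ e ∈ bx B Q, x a * z e *
      (∑ q ∈ box Q, if pr A Q q = a ∧ pr B Q q = e ∧ c q then g q else 0) =
      ∑ q ∈ box Q, if c q then x (pr A Q q) * z (pr B Q q) * g q else 0 := by
  simp only [mul_sum]
  rw [Finset.sum_congr rfl fun a _ => Finset.sum_comm, Finset.sum_comm]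
  refine Finset.sum_congr rfl fun q hq => ?_
  rw [Finset.sum_eq_single (pr A Q q), Finset.sum_eq_single (pr B Q q)]
  · by_cases hc : c q
    · simp [hc]
    · simp [hc]
  · intro e _ he
    rw [if_neg, mul_zero]
    rintro ⟨-, h, -⟩
    exact he h.symm
  · intro h
    exact absurd (pr_mem hq) h
  · intro a _ ha
    refine Finset.sum_eq_zero fun e _ => ?_
    rw [if_neg, mul_zero]
    rintro ⟨h, -, -⟩
    exact ha h.symm
  · intro h
    exact absurd (pr_mem hq) h

theorem nm_eq {A : Finset (Fin d)} {P Q : Fin d → ℕ} (h : ∀ i ∈ A, P i = Q i)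
    (x : (Fin d → ℕ) → ℝ) : nm A P (fun a => x (pr A Q a)) = n1 (bx A Q) x := by
  unfold nm n1
  congr 1
  refine Finset.sum_nbij' (pr A Q) (pr A P) ?_ ?_ ?_ ?_ ?_
  · intro a ha
    rw [mem_bx] at ha
    rw [mem_bx]
    intro i
    refine ⟨fun hi => ?_, fun hi => ?_⟩
    · rw [pr_in hi, ← h i hi]
      exact (ha i).1 hi
    · rw [pr_out hi]
  · intro a ha
    rw [mem_bx] at ha
    rw [mem_bx]
    intro i
    refine ⟨fun hi => ?_, fun hi => ?_⟩
    · rw [pr_in hi, h i hi]
      exact (ha i).1 hi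
    · rw [pr_out hi]
  · intro a ha
    rw [mem_bx] at ha
    funext i
    by_cases hi : i ∈ A
    · rw [pr_in hi, pr_in hi]
    · rw [pr_out hi, (ha i).2 hi]
  · intro a ha
    rw [mem_bx] at ha
    funext i
    by_cases hi : i ∈ A
    · rw [pr_in hi, pr_in hi]
    · rw [pr_out hi, (ha i).2 hi]
  · intro a _
    rfl

end KSBp

open KSBp

/-- AM-20 -/
theorem t_KSB : S_KSB := by
  intro d m P Q R C τ Γ κ hQ hP hK x z
  have h0 : (fun _ => 0 : Fin d → ℕ) ∈ Th d m := by
    unfold Th
    rw [Fintype.mem_piFinset]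
    intro i
    rw [mem_range]
    positivity
  have hw : ∀ q : Fin d → ℕ, ww m P ∅ (fun _ => 0) q = 1 := by
    intro q
    unfold ww
    refine Finset.prod_eq_one fun i _ => ?_
    rw [if_neg (notMem_empty i)]
    exact Wal.wal_zero m (q i)
  obtain ⟨h1, h2⟩ := hK _ h0 x z
  have hPτ : P τ + 1 = Q τ := by
    rw [hP, Function.update_self]
    omega
  rw [hPτ] at h1 h2
  simp only [hw, one_mul] at h1 h2
  constructor
  · rw [hh_sum hQ R C Γ (fun v a e => x a * z e v), ← hP]
    exact h1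
  · rw [hh_sum hQ R C Γ (fun v a e => x e * z a v), ← hP]
    exact h2

/-- AM-24 -/
theorem t_HMF : S_HMF := by
  intro d m Q θ S A B F _ _ hAB x z
  have hA : ∀ i ∈ A, i ∈ S := fun i hi => hAB ▸ mem_union_left _ hi
  have hB : ∀ i ∈ B, i ∈ S := fun i hi => hAB ▸ mem_union_right _ hi
  have h1 := mat_sum A B Q (fun _ => True)
    (fun q => (∏ i ∈ Sᶜ, dw m (Q i) (θ i) (q i)) * F q) x z
  simp only [and_true, if_true] at h1
  unfold HM
  rw [h1, ← sum_fib S Q]
  refine Finset.sum_congr rfl fun s _ => ?_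
  unfold TV
  rw [mul_sum]
  refine Finset.sum_congr rfl fun q hq => ?_
  rw [mem_bz] at hq
  have h2 : ∀ i ∈ S, q i = s i := fun i hi => (hq i).2 (by simpa using hi)
  have h3 : pr A Q s = pr A Q q := by
    funext i
    by_cases hi : i ∈ A
    · rw [pr_in hi, pr_in hi, h2 i (hA i hi)]
    · rw [pr_out hi, pr_out hi]
  have h4 : pr B Q s = pr B Q q := by
    funext i
    by_cases hi : i ∈ B
    · rw [pr_in hi, pr_in hi, h2 i (hB i hi)]
    · rw [pr_out hi, pr_out hi]
  rw [h3, h4]

/-- AM-25 -/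
theorem t_RMN : S_RMN := by
  intro d m P Q θ S A B k p κ hA hB hAB hk hκ hP hF x z
  have hAS : ∀ i ∈ A, i ∈ S := fun i hi => hAB ▸ mem_union_left _ hi
  have hBS : ∀ i ∈ B, i ∈ S := fun i hi => hAB ▸ mem_union_right _ hi
  rcases Nat.eq_zero_or_pos (Q k) with h0 | h0
  · have h1 : ∀ a e, RM m Q S A B θ k p a e = 0 := by
      intro a e
      unfold RM
      refine Finset.sum_eq_zero fun q _ => ?_
      rw [if_neg]
      rintro ⟨-, -, h⟩
      omega
    simp only [h1, mul_zero, Finset.sum_const_zero, abs_zero]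
    exact mul_nonneg hκ (mul_nonneg (Real.sqrt_nonneg _) (Real.sqrt_nonneg _))
  have hP' := hP h0
  have hPi : ∀ i, i ≠ k → P i = Q i := fun i hi => by rw [hP', Function.update_of_ne hi]
  have hkA : ∀ i ∈ A, i ≠ k := fun i hi h => hk (h ▸ hAS i hi)
  have hkB : ∀ i ∈ B, i ≠ k := fun i hi h => hk (h ▸ hBS i hi)
  have h1 := mat_sum A B Q (fun q => q k < Q k)
    (fun q => (∏ i ∈ (insert k S)ᶜ, dw m (Q i) (θ i) (q i)) * (wal m (θ k) (q k + 1) * p q)) x z
  unfold RM
  rw [h1, ← Finset.sum_filter, ← box_update h0, ← hP', ← sum_fib S P]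
  have h2 := hF h0 A B hA hB hAB (fun a => x (pr A Q a)) (fun b => z (pr B Q b))
  rw [nm_eq (fun i hi => hPi i (hkA i hi)), nm_eq (fun i hi => hPi i (hkB i hi))] at h2
  refine le_trans (le_of_eq ?_) h2
  congr 1
  refine Finset.sum_congr rfl fun s _ => ?_
  rw [sum_fib' S P s hk, mul_sum]
  refine Finset.sum_congr rfl fun v _ => ?_
  unfold TV
  rw [mul_sum, mul_sum]
  refine Finset.sum_congr rfl fun q hq => ?_
  rw [mem_bz] at hq
  have hqk : q k = v := by
    have := (hq k).2 (by simp)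
    rwa [Function.update_self] at this
  have h3 : ∀ i ∈ S, q i = s i := by
    intro i hi
    have hik : i ≠ k := fun h => hk (h ▸ hi)
    have := (hq i).2 (by simp [hi])
    rwa [Function.update_of_ne hik] at this
  have h4 : pr A Q (pr A P s) = pr A Q q := by
    funext i
    by_cases hi : i ∈ A
    · rw [pr_in hi, pr_in hi, pr_in hi, h3 i (hAS i hi)]
    · rw [pr_out hi, pr_out hi]
  have h5 : pr B Q (pr B P s) = pr B Q q := by
    funext i
    by_cases hi : i ∈ B
    · rw [pr_in hi, pr_in hi, pr_in hi, h3 i (hBS i hi)]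
    · rw [pr_out hi, pr_out hi]
  have h6 : ∏ i ∈ (insert k S)ᶜ, dw m (P i) (θ i) (q i) =
      ∏ i ∈ (insert k S)ᶜ, dw m (Q i) (θ i) (q i) := by
    refine Finset.prod_congr rfl fun i hi => ?_
    rw [hPi i]
    rintro rfl
    simp at hi
  rw [h4, h5, h6, hqk]
  ring

end Pool.Agent.NH44.AD
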