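import Pool.Agent.NH44.AD.StmM

set_option autoImplicit false

/-!
# AM-5: common index, and contraction
-/

namespace Pool.Agent.NH44.AD

open Finset

namespace L12K

variable {d : ℕ}

theorem mem_bx {A : Finset (Fin d)} {P s : Fin d → ℕ} :
    s ∈ bx A P ↔ (∀ i ∈ A, s i < P i + 1) ∧ ∀ i, i ∉ A → s i = P i := by
  unfold bx
  rw [Fintype.mem_piFinset]
  constructor
  · intro h
    refine ⟨fun i hi => ?_, fun i hi => ?_⟩
    · have := h i
      rw [if_pos hi] at this
      exact mem_range.mp this
    · have := h i
      rw [if_neg hi] at this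
      exact mem_singleton.mp this
  · rintro ⟨h1, h2⟩ i
    by_cases hi : i ∈ A
    · rw [if_pos hi]
      exact mem_range.mpr (h1 i hi)
    · rw [if_neg hi]
      exact mem_singleton.mpr (h2 i hi)

/-- the cells with one more free coordinate -/
theorem sum_erase (I : Finset (Fin d)) (P : Fin d → ℕ) (k : Fin d) (hk : k ∈ I)
    (f : (Fin d → ℕ) → ℝ) :
    ∑ s ∈ bx (I.erase k) P, ∑ v ∈ range (P k + 1), f (Function.update s k v) =
      ∑ s ∈ bx I P, f s := by
  rw [← Finset.sum_product']
  refine Finset.sum_nbij' (fun x => Function.update x.1 k x.2)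
    (fun s => (Function.update s k (P k), s k)) ?_ ?_ ?_ ?_ ?_
  · rintro ⟨s, v⟩ hx
    rw [mem_product] at hx
    obtain ⟨h1, h2⟩ := hx
    rw [mem_bx] at h1 ⊢
    refine ⟨fun i hi => ?_, fun i hi => ?_⟩
    · by_cases hik : i = k
      · rw [hik]
        simp only [Function.update_self]
        exact mem_range.mp h2
      · simp only [Function.update_of_ne hik]
        exact h1.1 i (mem_erase.mpr ⟨hik, hi⟩)
    · have hik : i ≠ k := fun h => hi (h ▸ hk)
      simp only [Function.update_of_ne hik]
      exact h1.2 i (fun h => hi (mem_of_mem_erase h))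
  · intro s hs
    rw [mem_bx] at hs
    rw [mem_product]
    refine ⟨mem_bx.mpr ⟨fun i hi => ?_, fun i hi => ?_⟩, mem_range.mpr (hs.1 k hk)⟩
    · have hik : i ≠ k := ne_of_mem_erase hi
      simp only [Function.update_of_ne hik]
      exact hs.1 i (mem_of_mem_erase hi)
    · by_cases hik : i = k
      · rw [hik]
        simp only [Function.update_self]
      · simp only [Function.update_of_ne hik]
        exact hs.2 i (fun h => hi (mem_erase.mpr ⟨hik, h⟩))
  · rintro ⟨s, v⟩ hx
    rw [mem_product] at hx
    have h1 := (mem_bx.mp hx.1).2 k (notMem_erase k I)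
    simp only [Function.update_idem, Function.update_self, Prod.mk.injEq, and_true]
    rw [← h1, Function.update_eq_self]
  · intro s _
    simp only [Function.update_idem, Function.update_eq_self]
  · intro x _
    rfl

theorem pr_update {A : Finset (Fin d)} {P s : Fin d → ℕ} {k : Fin d} (hk : k ∉ A) (v : ℕ) :
    pr A P (Function.update s k v) = pr A P s := by
  funext i
  unfold pr
  by_cases hi : i ∈ A
  · have hik : i ≠ k := fun h => hk (h ▸ hi)
    rw [if_pos hi, if_pos hi, Function.update_of_ne hik]
  · rw [if_neg hi, if_neg hi]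

/-- the composition inequality in all the cases -/
theorem comp (h1 : S_CMP) (P : Fin d → ℕ) (A B A' B' : Finset (Fin d))
    (X Y : (Fin d → ℕ) → ℝ) (κ μ : ℝ) (hX : FB P A X κ) (hY : FB P B Y μ)
    (hAB : (A ∩ B).Nonempty) (hun : A' ∪ B' ∪ (A ∩ B) = A ∪ B)
    (hc : ((B ∩ B').Nonempty ∧ (A ∩ A').Nonempty) ∨ ((A ∩ B').Nonempty ∧ (B ∩ A').Nonempty))
    (x z : (Fin d → ℕ) → ℝ) :
    |∑ s ∈ bx (A ∪ B) P, x (pr A' P s) * z (pr B' P s) * (X (pr A P s) * Y (pr B P s))| ≤
      κ * μ * (nm A' P x * nm B' P z) := by
  rcases hc with ⟨h2, h3⟩ | ⟨h2, h3⟩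
  · exact h1 d P A B A' B' X Y κ μ hX hY hAB h2 h3 hun x z
  · have h4 := h1 d P B A A' B' Y X μ κ hY hX (by rwa [inter_comm]) h2 h3
      (by rw [inter_comm B A, union_comm B A]; exact hun) x z
    rw [union_comm B A, mul_comm μ κ] at h4
    refine le_trans (le_of_eq ?_) h4
    congr 1
    refine Finset.sum_congr rfl fun s _ => ?_
    rw [mul_comm (X (pr A P s))]

end L12K

open L12K in
theorem t_L12 (h1 : S_CMP) (h2 : S_FBT) : S_L12 := by
  intro d P A B X Y κ μ hX hY hAB
  refine ⟨?_, ?_⟩
  · intro A' B' hA' hB' hun x z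
    refine comp h1 P A B A' B' X Y κ μ hX hY hAB ?_ ?_ x z
    · rw [hun]
      exact union_eq_left.mpr (inter_subset_left.trans subset_union_left)
    · by_cases hBB : (B ∩ B').Nonempty
      · by_cases hAA : (A ∩ A').Nonempty
        · exact Or.inl ⟨hBB, hAA⟩
        · right
          rw [not_nonempty_iff_eq_empty] at hAA
          obtain ⟨a, ha⟩ := hA'
          obtain ⟨c, hc⟩ := hAB
          have hcA := (mem_inter.mp hc).1
          constructor
          · refine ⟨c, mem_inter.mpr ⟨hcA, ?_⟩⟩
            have h3 : c ∈ A' ∪ B' := by rw [hun]; exact mem_union_left _ hcA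
            rcases mem_union.mp h3 with h4 | h4
            · exact absurd (mem_inter.mpr ⟨hcA, h4⟩) (by rw [hAA]; exact notMem_empty _)
            · exact h4
          · refine ⟨a, mem_inter.mpr ⟨?_, ha⟩⟩
            have h3 : a ∈ A ∪ B := by rw [← hun]; exact mem_union_left _ ha
            rcases mem_union.mp h3 with h4 | h4
            · exact absurd (mem_inter.mpr ⟨h4, ha⟩) (by rw [hAA]; exact notMem_empty _)
            · exact h4
      · right
        rw [not_nonempty_iff_eq_empty] at hBB
        obtain ⟨b, hb⟩ := hB'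
        obtain ⟨c, hc⟩ := hAB
        have hcB := (mem_inter.mp hc).2
        constructor
        · refine ⟨b, mem_inter.mpr ⟨?_, hb⟩⟩
          have h3 : b ∈ A ∪ B := by rw [← hun]; exact mem_union_right _ hb
          rcases mem_union.mp h3 with h4 | h4
          · exact h4
          · exact absurd (mem_inter.mpr ⟨h4, hb⟩) (by rw [hBB]; exact notMem_empty _)
        · refine ⟨c, mem_inter.mpr ⟨hcB, ?_⟩⟩
          have h3 : c ∈ A' ∪ B' := by rw [hun]; exact mem_union_right _ hcB
          rcases mem_union.mp h3 with h4 | h4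
          · exact h4
          · exact absurd (mem_inter.mpr ⟨hcB, h4⟩) (by rw [hBB]; exact notMem_empty _)
  · intro k α hk hAk hBk hα A' B' hA' hB' hun x z
    have hkA : k ∈ A := (mem_inter.mp hk).1
    have hkB : k ∈ B := (mem_inter.mp hk).2
    have hk' : k ∉ A' ∪ B' := by rw [hun]; exact notMem_erase k _
    have hkA' : k ∉ A' := fun h => hk' (mem_union_left _ h)
    have hkB' : k ∉ B' := fun h => hk' (mem_union_right _ h)
    have hX' : FB P A (fun s => α (s k) * X s) κ :=
      (h2 d 0 P A ⟨k, hkA⟩).2.2.2.2.1 X κ k α hkA hα hX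
    have hsum : ∑ s ∈ bx ((A ∪ B).erase k) P, x (pr A' P s) * z (pr B' P s) *
        (∑ v ∈ range (P k + 1), α v *
          (X (pr A P (Function.update s k v)) * Y (pr B P (Function.update s k v)))) =
        ∑ s ∈ bx (A ∪ B) P, x (pr A' P s) * z (pr B' P s) *
          ((fun s => α (s k) * X s) (pr A P s) * Y (pr B P s)) := by
      rw [← sum_erase (A ∪ B) P k (mem_union_left _ hkA)]
      refine Finset.sum_congr rfl fun s _ => ?_
      rw [Finset.mul_sum]
      refine Finset.sum_congr rfl fun v _ => ?_
      have h3 : pr A P (Function.update s k v) k = v := by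
        unfold pr
        rw [if_pos hkA, Function.update_self]
      rw [pr_update hkA', pr_update hkB']
      show _ = x (pr A' P s) * z (pr B' P s) *
        (α (pr A P (Function.update s k v) k) * X (pr A P (Function.update s k v)) *
          Y (pr B P (Function.update s k v)))
      rw [h3]
      ring
    rw [hsum]
    refine comp h1 P A B A' B' (fun s => α (s k) * X s) Y κ μ hX' hY hAB ?_ ?_ x z
    · rw [hun]
      ext i
      simp only [mem_union, mem_erase, mem_inter]
      constructor
      · rintro (⟨-, h⟩ | ⟨h, -⟩)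
        · exact h
        · exact Or.inl h
      · intro h
        by_cases hik : i = k
        · rw [hik]
          exact Or.inr ⟨hkA, hkB⟩
        · exact Or.inl ⟨hik, h⟩
    · by_cases hBB : (B ∩ B').Nonempty
      · by_cases hAA : (A ∩ A').Nonempty
        · exact Or.inl ⟨hBB, hAA⟩
        · right
          rw [not_nonempty_iff_eq_empty] at hAA
          obtain ⟨a, ha⟩ := hA'
          obtain ⟨c, hc⟩ := hAk
          have hcA := mem_of_mem_erase hc
          constructor
          · refine ⟨c, mem_inter.mpr ⟨hcA, ?_⟩⟩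
            have h3 : c ∈ A' ∪ B' := by
              rw [hun]
              exact mem_erase.mpr ⟨ne_of_mem_erase hc, mem_union_left _ hcA⟩
            rcases mem_union.mp h3 with h4 | h4
            · exact absurd (mem_inter.mpr ⟨hcA, h4⟩) (by rw [hAA]; exact notMem_empty _)
            · exact h4
          · refine ⟨a, mem_inter.mpr ⟨?_, ha⟩⟩
            have h3 : a ∈ (A ∪ B).erase k := by rw [← hun]; exact mem_union_left _ ha
            rcases mem_union.mp (mem_of_mem_erase h3) with h4 | h4
            · exact absurd (mem_inter.mpr ⟨h4, ha⟩) (by rw [hAA]; exact notMem_empty _)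
            · exact h4
      · right
        rw [not_nonempty_iff_eq_empty] at hBB
        obtain ⟨b, hb⟩ := hB'
        obtain ⟨c, hc⟩ := hBk
        have hcB := mem_of_mem_erase hc
        constructor
        · refine ⟨b, mem_inter.mpr ⟨?_, hb⟩⟩
          have h3 : b ∈ (A ∪ B).erase k := by rw [← hun]; exact mem_union_right _ hb
          rcases mem_union.mp (mem_of_mem_erase h3) with h4 | h4
          · exact h4
          · exact absurd (mem_inter.mpr ⟨h4, hb⟩) (by rw [hBB]; exact notMem_empty _)
        · refine ⟨c, mem_inter.mpr ⟨hcB, ?_⟩⟩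
          have h3 : c ∈ A' ∪ B' := by
            rw [hun]
            exact mem_erase.mpr ⟨ne_of_mem_erase hc, mem_union_right _ hcB⟩
          rcases mem_union.mp h3 with h4 | h4
          · exact h4
          · exact absurd (mem_inter.mpr ⟨hcB, h4⟩) (by rw [hBB]; exact notMem_empty _)

end Pool.Agent.NH44.AD
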