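import Pool.Agent.NH44.AD.StmM

set_option autoImplicit false

/-!
# Project AD, AM-9: the logarithm in the difference norm
-/

namespace Pool.Agent.NH44.AD

open Finset
open Pool.Agent.NH99.WZ (wal)
open Pool.Agent.NH43.AD (lo)

namespace Log

variable {d : ℕ}

/-- the sets in the recursion of the logarithm -/
def JJ (S : Finset (Fin d)) (h : S.Nonempty) : Finset (Finset (Fin d)) :=
  S.powerset.filter (fun B => S.min' h ∈ B ∧ B ⊂ S)

lemma lo_eq (g : Finset (Fin d) → ℝ) (S : Finset (Fin d)) (h : S.Nonempty) :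
    lo g S = g S - ∑ B ∈ JJ S h, lo g B * g (S \ B) := by
  rw [lo, dif_pos h, JJ, Finset.sum_filter]
  rfl

lemma mem_JJ {S : Finset (Fin d)} {h : S.Nonempty} {B : Finset (Fin d)} (hB : B ∈ JJ S h) :
    B.Nonempty ∧ B ⊂ S ∧ (S \ B).Nonempty ∧ B ∪ (S \ B) = S := by
  unfold JJ at hB
  rw [mem_filter] at hB
  obtain ⟨_, h1, h2⟩ := hB
  refine ⟨⟨_, h1⟩, h2, ?_, ?_⟩
  · obtain ⟨x, hx, hxB⟩ := Finset.exists_of_ssubset h2
    exact ⟨x, mem_sdiff.2 ⟨hx, hxB⟩⟩
  · exact Finset.union_sdiff_of_subset h2.subset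

lemma card_JJ (S : Finset (Fin d)) (h : S.Nonempty) : ((JJ S h).card : ℝ) ≤ 2 ^ d := by
  have h1 : (JJ S h).card ≤ 2 ^ d := by
    calc (JJ S h).card ≤ S.powerset.card := card_filter_le _ _
      _ = 2 ^ S.card := card_powerset S
      _ ≤ 2 ^ d := by
          apply Nat.pow_le_pow_right (by norm_num)
          have := card_le_univ S
          rwa [Fintype.card_fin] at this
  exact_mod_cast h1

lemma TV_sum (m : ℕ) (P : Fin d → ℕ) (W : Finset (Fin d)) (θ : Fin d → ℕ) {ι : Type}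
    (J : Finset ι) (c : ι → ℝ) (F : ι → (Fin d → ℕ) → ℝ) (z : Fin d → ℕ) :
    TV m P W θ (fun q => ∑ j ∈ J, c j * F j q) z = ∑ j ∈ J, c j * TV m P W θ (F j) z := by
  unfold TV
  simp_rw [Finset.mul_sum]
  rw [Finset.sum_comm]
  refine Finset.sum_congr rfl fun j _ => Finset.sum_congr rfl fun q _ => ?_
  ring

lemma TV_add (m : ℕ) (P : Fin d → ℕ) (W : Finset (Fin d)) (θ : Fin d → ℕ)
    (F G : (Fin d → ℕ) → ℝ) (z : Fin d → ℕ) :
    TV m P W θ (fun q => F q + G q) z = TV m P W θ F z + TV m P W θ G z := by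
  unfold TV
  rw [← Finset.sum_add_distrib]
  refine Finset.sum_congr rfl fun q _ => ?_
  ring

lemma cd_nonneg (d m : ℕ) : 0 ≤ cd d m := by unfold cd; positivity

lemma ins_union (k : Fin d) (B C : Finset (Fin d)) : insert k B ∪ insert k C = insert k (B ∪ C) := by
  ext x
  simp only [mem_union, mem_insert]
  tauto

end Log

open Log in
theorem t_LOG (h1 : S_FBT) (_h2 : S_HBT) (h3 : S_PRD) : S_LOG := by
  intro d m P k φ κ hP hκ hsm hφ
  have hcd := cd_nonneg d m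
  have hμ : 0 ≤ cd d m * (2 * κ * κ) := by positivity
  have key : ∀ n : ℕ, ∀ B : Finset (Fin d), B.card = n → B.Nonempty → k ∉ B →
      HB m P (insert k B) (fun s => lo (φ s) B) (2 * κ) := by
    intro n
    induction n using Nat.strong_induction_on with
    | _ n ih =>
      intro B0 hn hB0 hk0
      intro θ hθ
      have hI : (insert k B0).Nonempty := insert_nonempty _ _
      have e1 : (fun s => lo (φ s) B0) =
          (fun s => φ s B0 + ∑ B ∈ JJ B0 hB0, (-1 : ℝ) * (lo (φ s) B * φ s (B0 \ B))) := by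
        funext s
        rw [lo_eq (φ s) B0 hB0, ← Finset.mul_sum]
        ring
      rw [e1]
      have e2 : TV m P (insert k B0)ᶜ θ
          (fun s => φ s B0 + ∑ B ∈ JJ B0 hB0, (-1 : ℝ) * (lo (φ s) B * φ s (B0 \ B))) =
          (fun z => TV m P (insert k B0)ᶜ θ (fun s => φ s B0) z +
            ∑ B ∈ JJ B0 hB0, (-1 : ℝ) * TV m P (insert k B0)ᶜ θ (fun s => lo (φ s) B * φ s (B0 \ B)) z) := by
        funext z
        rw [TV_add m P _ θ (fun s => φ s B0), TV_sum m P _ θ (JJ B0 hB0) (fun _ => (-1 : ℝ))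
          (fun B s => lo (φ s) B * φ s (B0 \ B))]
      rw [e2]
      have e3 : ∀ B ∈ JJ B0 hB0, FB P (insert k B0)
          (TV m P (insert k B0)ᶜ θ (fun s => lo (φ s) B * φ s (B0 \ B))) (cd d m * (2 * κ * κ)) := by
        intro B hB
        obtain ⟨f1, f2, f3, f4⟩ := mem_JJ hB
        have g1 : k ∉ B := fun h => hk0 (f2.subset h)
        have g2 : k ∉ B0 \ B := fun h => hk0 (mem_sdiff.1 h).1
        have g3 := ih B.card (by rw [← hn]; exact card_lt_card f2) B rfl f1 g1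
        have g4 := hφ (B0 \ B) f3 g2
        have g5 := (h3 d m P (insert k B) (insert k (B0 \ B)) _ _ (2 * κ) κ hP
          ⟨k, mem_inter.2 ⟨mem_insert_self _ _, mem_insert_self _ _⟩⟩ g3 g4).1
        rw [ins_union, f4] at g5
        exact g5 θ hθ
      have e4 := (h1 d m P (insert k B0) hI).2.2.2.1 (Finset (Fin d)) (JJ B0 hB0) (fun _ => (-1 : ℝ))
        (fun B => TV m P (insert k B0)ᶜ θ (fun s => lo (φ s) B * φ s (B0 \ B))) (cd d m * (2 * κ * κ)) hμ e3
      have e5 := (h1 d m P (insert k B0) hI).2.2.1 _ _ _ _ (hφ B0 hB0 hk0 θ hθ) e4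
      refine (h1 d m P (insert k B0) hI).1 _ _ _ e5 ?_
      have e6 : (∑ _B ∈ JJ B0 hB0, |(-1 : ℝ)|) = ((JJ B0 hB0).card : ℝ) := by
        rw [Finset.sum_const, nsmul_eq_mul, abs_neg, abs_one, mul_one]
      rw [e6]
      have e7 : ((JJ B0 hB0).card : ℝ) * (cd d m * (2 * κ * κ)) ≤ 2 ^ d * (cd d m * (2 * κ * κ)) :=
        mul_le_mul_of_nonneg_right (card_JJ B0 hB0) hμ
      have e8 : 2 ^ d * (cd d m * (2 * κ * κ)) = (2 ^ (d + 1) * (cd d m * κ)) * κ := by
        rw [pow_succ]; ring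
      have e9 : (2 ^ (d + 1) * (cd d m * κ)) * κ ≤ 1 * κ := mul_le_mul_of_nonneg_right hsm hκ
      linarith
  refine ⟨fun B hB hk => key B.card B rfl hB hk, ?_⟩
  intro S α θ hS hk hα hθ
  have e1 : (fun q => lo (φ q) S - φ q S) =
      (fun q => ∑ B ∈ JJ S hS, (-1 : ℝ) * (lo (φ q) B * φ q (S \ B))) := by
    funext q
    rw [lo_eq (φ q) S hS, ← Finset.mul_sum]
    ring
  rw [e1]
  have e2 : (fun s => ∑ v ∈ range (P k + 1), α v *
      TV m P (insert k S)ᶜ θ (fun q => ∑ B ∈ JJ S hS, (-1 : ℝ) * (lo (φ q) B * φ q (S \ B)))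
        (Function.update s k v)) =
      (fun s => ∑ B ∈ JJ S hS, (-1 : ℝ) * ∑ v ∈ range (P k + 1), α v *
        TV m P (insert k S)ᶜ θ (fun q => lo (φ q) B * φ q (S \ B)) (Function.update s k v)) := by
    funext s
    simp_rw [TV_sum m P _ θ (JJ S hS) (fun _ => (-1 : ℝ)) (fun B s => lo (φ s) B * φ s (S \ B)),
      Finset.mul_sum]
    rw [Finset.sum_comm]
    refine Finset.sum_congr rfl fun B _ => Finset.sum_congr rfl fun v _ => ?_
    ring
  rw [e2]
  have e3 : ∀ B ∈ JJ S hS, FB P S (fun s => ∑ v ∈ range (P k + 1), α v *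
        TV m P (insert k S)ᶜ θ (fun q => lo (φ q) B * φ q (S \ B)) (Function.update s k v))
          (cd d m * (2 * κ * κ)) := by
    intro B hB
    obtain ⟨f1, f2, f3, f4⟩ := mem_JJ hB
    have g1 : k ∉ B := fun h => hk (f2.subset h)
    have g2 : k ∉ S \ B := fun h => hk (mem_sdiff.1 h).1
    have g3 := key B.card B rfl f1 g1
    have g4 := hφ (S \ B) f3 g2
    have g5 := (h3 d m P (insert k B) (insert k (S \ B)) _ _ (2 * κ) κ hP
      ⟨k, mem_inter.2 ⟨mem_insert_self _ _, mem_insert_self _ _⟩⟩ g3 g4).2 k α θ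
      (mem_inter.2 ⟨mem_insert_self _ _, mem_insert_self _ _⟩)
      (by rw [erase_insert g1]; exact f1) (by rw [erase_insert g2]; exact f3) hα hθ
    rw [ins_union, f4, erase_insert hk] at g5
    exact g5
  have e4 := (h1 d m P S hS).2.2.2.1 (Finset (Fin d)) (JJ S hS) (fun _ => (-1 : ℝ))
    (fun B s => ∑ v ∈ range (P k + 1), α v *
        TV m P (insert k S)ᶜ θ (fun q => lo (φ q) B * φ q (S \ B)) (Function.update s k v))
    (cd d m * (2 * κ * κ)) hμ e3
  refine (h1 d m P S hS).1 _ _ _ e4 ?_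
  have e6 : (∑ _B ∈ JJ S hS, |(-1 : ℝ)|) = ((JJ S hS).card : ℝ) := by
    rw [Finset.sum_const, nsmul_eq_mul, abs_neg, abs_one, mul_one]
  rw [e6]
  have e7 : ((JJ S hS).card : ℝ) * (cd d m * (2 * κ * κ)) ≤ 2 ^ d * (cd d m * (2 * κ * κ)) :=
    mul_le_mul_of_nonneg_right (card_JJ S hS) hμ
  have e8 : 2 ^ d * (cd d m * (2 * κ * κ)) = 2 ^ (d + 1) * (cd d m * κ ^ 2) := by
    rw [pow_succ]; ring
  linarith

end Pool.Agent.NH44.AD
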