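import Pool.Agent.NH44.AD.StmM
import Pool.Agent.NH44.AD.Wal

set_option autoImplicit false

/-! Products and contractions in the difference norm (AM-7). -/

namespace Pool.Agent.NH44.AD

namespace Prd

open Finset
open Pool.Agent.NH99.WZ (wal)

variable {d : ℕ}

theorem TV_pr (m : ℕ) (P : Fin d → ℕ) (A : Finset (Fin d)) (θ : Fin d → ℕ)
    (F : (Fin d → ℕ) → ℝ) (s : Fin d → ℕ) : TV m P Aᶜ θ F (pr A P s) = TV m P Aᶜ θ F s := by
  unfold TV
  have h : bz Aᶜ P (pr A P s) = bz Aᶜ P s := by
    unfold bz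
    congr 1
    funext i
    by_cases hi : i ∈ A
    · have h' : i ∉ Aᶜ := by simpa using hi
      rw [if_neg h', if_neg h', pr, if_pos hi]
    · have h' : i ∈ Aᶜ := by simpa using hi
      rw [if_pos h', if_pos h']
  rw [h]

theorem bx_le {I : Finset (Fin d)} {P s : Fin d → ℕ} (hs : s ∈ bx I P) (i : Fin d) :
    s i < P i + 1 := by
  have h := Fintype.mem_piFinset.1 hs i
  split_ifs at h with hi
  · exact mem_range.1 h
  · rw [mem_singleton.1 h]
    exact Nat.lt_succ_self _

theorem bx_sub {I : Finset (Fin d)} {P s : Fin d → ℕ} (hs : s ∈ bx I P) : s ∈ box P :=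
  Fintype.mem_piFinset.2 fun i => mem_range.2 (bx_le hs i)

theorem upd_mem {I : Finset (Fin d)} {P s : Fin d → ℕ} (hs : s ∈ bx I P) (k : Fin d) (v : ℕ)
    (hv : v < P k + 1) : Function.update s k v ∈ box P := by
  refine Fintype.mem_piFinset.2 fun i => mem_range.2 ?_
  by_cases hik : i = k
  · subst hik
    rw [Function.update_self]
    exact hv
  · rw [Function.update_of_ne hik]
    exact bx_le hs i

theorem ch_upd (m : ℕ) (θ s : Fin d → ℕ) (k : Fin d) (v : ℕ) :
    ch m θ (Function.update s k v) = wal m (θ k) v * ch m (Function.update θ k 0) s := by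
  unfold ch
  rw [← mul_prod_erase univ (fun i => wal m (θ i) (Function.update s k v i)) (mem_univ k),
    ← mul_prod_erase univ (fun i => wal m (Function.update θ k 0 i) (s i)) (mem_univ k)]
  rw [Function.update_self, Function.update_self, Wal.wal_zero, one_mul]
  congr 1
  refine prod_congr rfl fun i hi => ?_
  have hik : i ≠ k := ne_of_mem_erase hi
  rw [Function.update_of_ne hik, Function.update_of_ne hik]

end Prd

open Finset Prd
open Pool.Agent.NH99.WZ (wal)

theorem t_PRD (h1 : S_DL) (h2 : S_FBT) (h3 : S_L12) : S_PRD := by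
  intro d m P A B F G κ μ hP hAB hF hG
  have hA : A.Nonempty := hAB.mono inter_subset_left
  have hB : B.Nonempty := hAB.mono inter_subset_right
  have hC : (A ∪ B)ᶜ = Aᶜ ∩ Bᶜ := compl_union A B
  have hz : (fun _ => 0 : Fin d → ℕ) ∈ Th d m :=
    Fintype.mem_piFinset.2 fun _ => mem_range.2 (Nat.two_pow_pos m)
  have hκ : 0 ≤ κ := ((h2 d m P A hA).2.2.2.2.2.2.1 _ _ (hF _ hz)).1
  have hμ : 0 ≤ μ := ((h2 d m P B hB).2.2.2.2.2.2.1 _ _ (hG _ hz)).1
  have hκμ : 0 ≤ κ * μ := mul_nonneg hκ hμ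
  refine ⟨?_, ?_⟩
  · intro θ hθ
    obtain ⟨C, hCs, hC'⟩ := h1 d m P Aᶜ Bᶜ hP θ hθ
    have hU : (A ∪ B).Nonempty := hA.mono subset_union_left
    obtain ⟨f1, f2, -, f4, -, f6, -, -⟩ := h2 d m P (A ∪ B) hU
    have key := f4 ((Fin d → ℕ) × (Fin d → ℕ) × (Fin d → ℕ)) (Th d m ×ˢ Th d m ×ˢ Th d m)
      (fun j => C j.1 j.2.1 j.2.2)
      (fun j s => ch m j.2.2 s *
        (TV m P Aᶜ j.1 F (pr A P s) * TV m P Bᶜ j.2.1 G (pr B P s))) (κ * μ) hκμ
      (by
        intro j hj
        rw [mem_product, mem_product] at hj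
        exact f6 _ _ _ ((h3 d P A B _ _ κ μ (hF _ hj.1) (hG _ hj.2.1) hAB).1))
    refine f2 _ _ _ ?_ (f1 _ _ _ key ?_)
    · intro s hs
      rw [hC, hC' F G s (bx_sub hs)]
      simp only [sum_product, TV_pr]
    · refine mul_le_mul_of_nonneg_right ?_ hκμ
      simpa only [sum_product] using hCs
  · intro k α θ hk hAk hBk hα hθ
    obtain ⟨C, hCs, hC'⟩ := h1 d m P Aᶜ Bᶜ hP θ hθ
    have hU : ((A ∪ B).erase k).Nonempty := hAk.mono (erase_subset_erase k subset_union_left)
    obtain ⟨f1, f2, -, f4, -, f6, -, -⟩ := h2 d m P ((A ∪ B).erase k) hU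
    have key := f4 ((Fin d → ℕ) × (Fin d → ℕ) × (Fin d → ℕ)) (Th d m ×ˢ Th d m ×ˢ Th d m)
      (fun j => C j.1 j.2.1 j.2.2)
      (fun j s => ch m (Function.update j.2.2 k 0) s *
        ∑ v ∈ range (P k + 1), (α v * wal m (j.2.2 k) v) *
          (TV m P Aᶜ j.1 F (pr A P (Function.update s k v)) *
            TV m P Bᶜ j.2.1 G (pr B P (Function.update s k v)))) (κ * μ) hκμ
      (by
        intro j hj
        rw [mem_product, mem_product] at hj
        refine f6 _ _ _ ((h3 d P A B _ _ κ μ (hF _ hj.1) (hG _ hj.2.1) hAB).2 k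
          (fun v => α v * wal m (j.2.2 k) v) hk hAk hBk ?_)
        intro v
        have hw : |wal m (j.2.2 k) v| = 1 := by
          rcases Wal.wal_pm m (j.2.2 k) v with h | h
          · rw [h, abs_one]
          · rw [h, abs_neg, abs_one]
        rw [abs_mul, hw, mul_one]
        exact hα v)
    refine f2 _ _ _ ?_ (f1 _ _ _ key ?_)
    · intro s hs
      have e : ∀ v ∈ range (P k + 1),
          α v * TV m P (A ∪ B)ᶜ θ (fun q => F q * G q) (Function.update s k v) =
            ∑ j ∈ Th d m ×ˢ Th d m ×ˢ Th d m, C j.1 j.2.1 j.2.2 *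
              (ch m (Function.update j.2.2 k 0) s * ((α v * wal m (j.2.2 k) v) *
                (TV m P Aᶜ j.1 F (pr A P (Function.update s k v)) *
                  TV m P Bᶜ j.2.1 G (pr B P (Function.update s k v))))) := by
        intro v hv
        rw [hC, hC' F G _ (upd_mem hs k v (mem_range.1 hv)), mul_sum]
        simp only [sum_product]
        refine sum_congr rfl fun θ₁ _ => ?_
        rw [mul_sum]
        refine sum_congr rfl fun θ₂ _ => ?_
        rw [mul_sum]
        refine sum_congr rfl fun θ₃ _ => ?_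
        rw [ch_upd, TV_pr, TV_pr]
        ring
      rw [sum_congr rfl e, sum_comm]
      refine sum_congr rfl fun j _ => ?_
      rw [← mul_sum, ← mul_sum]
    · refine mul_le_mul_of_nonneg_right ?_ hκμ
      simpa only [sum_product] using hCs

end Pool.Agent.NH44.AD
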