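import Pool.Agent.NH44.AD.StmM
import Pool.Agent.NH44.AD.Wal

set_option autoImplicit false

/-! # AM-21: the remainder -/

namespace Pool.Agent.NH44.AD

namespace Rem

open Finset
open Pool.Agent.NH99.WZ (wal)

variable {d : ℕ}

theorem mem_box {P q : Fin d → ℕ} : q ∈ box P ↔ ∀ i, q i < P i + 1 := by
  unfold box
  rw [Fintype.mem_piFinset]
  simp only [mem_range]

theorem zero_mem_Th (m : ℕ) : (fun _ => 0 : Fin d → ℕ) ∈ Th d m := by
  unfold Th
  rw [Fintype.mem_piFinset]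
  intro i
  rw [mem_range]
  positivity

theorem ch_zero (m : ℕ) (q : Fin d → ℕ) : ch m (fun _ => 0) q = 1 := by
  unfold ch
  exact prod_eq_one fun i _ => Wal.wal_zero m _

theorem ww_empty (m : ℕ) (P θ q : Fin d → ℕ) : ww m P ∅ θ q = ch m θ q := by
  unfold ww ch
  refine prod_congr rfl fun i _ => ?_
  rw [if_neg (notMem_empty i)]

theorem n1_nonneg (R : Finset (Fin d → ℕ)) (x : (Fin d → ℕ) → ℝ) : 0 ≤ n1 R x := Real.sqrt_nonneg _

/-- the linear functional -/
def gq (R C : Finset (Fin d → ℕ)) (x z : (Fin d → ℕ) → ℝ) (Γ : Kn d) (q : Fin d → ℕ) : ℝ :=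
  ∑ a ∈ R, ∑ e ∈ C, x a * z e * Γ q a e

theorem core {m : ℕ} {P : Fin d → ℕ} {R C : Finset (Fin d → ℕ)} {τ : Fin d} {Γ : Kn d} {κ : ℝ}
    (hKN : KN m P R C τ ∅ Γ κ) (hκ : 0 ≤ κ) {θ : Fin d → ℕ} (hθ : θ ∈ Th d m) (t : ℕ → ℝ) {β : ℝ}
    (hβ : 0 ≤ β) (ht : ∀ v < P τ + 1, |t v| ≤ β) (x z : (Fin d → ℕ) → ℝ) :
    |∑ q ∈ box P, (ch m θ q * t (q τ)) * gq R C x z Γ q| ≤
      β * (Real.sqrt ((P τ : ℝ) + 1) * (κ * (n1 R x * n1 C z))) := by
  have h1 := (hKN θ hθ x (fun e v => z e * t v)).1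
  have h2 : ∑ q ∈ box P, ∑ a ∈ R, ∑ e ∈ C, x a * (z e * t (q τ)) * (ww m P ∅ θ q * Γ q a e) =
      ∑ q ∈ box P, (ch m θ q * t (q τ)) * gq R C x z Γ q := by
    refine sum_congr rfl fun q _ => ?_
    unfold gq
    rw [mul_sum]
    refine sum_congr rfl fun a _ => ?_
    rw [mul_sum]
    refine sum_congr rfl fun e _ => ?_
    rw [ww_empty]
    ring
  rw [h2] at h1
  refine h1.trans ?_
  have h3 : n2 C (P τ + 1) (fun e v => z e * t v) ≤ β * (Real.sqrt ((P τ : ℝ) + 1) * n1 C z) := by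
    unfold n2 n1
    have h4 : β * (Real.sqrt ((P τ : ℝ) + 1) * Real.sqrt (∑ a ∈ C, z a ^ 2)) =
        Real.sqrt (β ^ 2 * (((P τ : ℝ) + 1) * ∑ a ∈ C, z a ^ 2)) := by
      rw [Real.sqrt_mul (sq_nonneg β), Real.sqrt_sq hβ, Real.sqrt_mul (by positivity)]
    rw [h4]
    apply Real.sqrt_le_sqrt
    have h5 : ∀ a ∈ C, ∑ v ∈ range (P τ + 1), (z a * t v) ^ 2 ≤
        β ^ 2 * (((P τ : ℝ) + 1) * z a ^ 2) := by
      intro a _
      have h6 : ∀ v ∈ range (P τ + 1), (z a * t v) ^ 2 ≤ β ^ 2 * z a ^ 2 := by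
        intro v hv
        rw [mul_pow, mul_comm]
        refine mul_le_mul_of_nonneg_right ?_ (sq_nonneg _)
        rw [← sq_abs (t v)]
        exact pow_le_pow_left₀ (abs_nonneg _) (ht v (mem_range.1 hv)) 2
      refine (sum_le_sum h6).trans (le_of_eq ?_)
      rw [sum_const, card_range, nsmul_eq_mul]
      push_cast
      ring
    refine (sum_le_sum h5).trans (le_of_eq ?_)
    rw [← mul_sum, ← mul_sum]
  calc κ * (n1 R x * n2 C (P τ + 1) (fun e v => z e * t v))
      ≤ κ * (n1 R x * (β * (Real.sqrt ((P τ : ℝ) + 1) * n1 C z))) :=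
        mul_le_mul_of_nonneg_left (mul_le_mul_of_nonneg_left h3 (n1_nonneg R x)) hκ
    _ = β * (Real.sqrt ((P τ : ℝ) + 1) * (κ * (n1 R x * n1 C z))) := by ring

theorem bz_empty (P z : Fin d → ℕ) : bz ∅ P z = {z} := by
  ext q
  unfold bz
  rw [Fintype.mem_piFinset, mem_singleton]
  constructor
  · intro h
    funext i
    have h1 := h i
    rw [if_neg (notMem_empty i), mem_singleton] at h1
    exact h1
  · rintro rfl i
    rw [if_neg (notMem_empty i), mem_singleton]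

theorem TV_empty (m : ℕ) (P θ : Fin d → ℕ) (F : (Fin d → ℕ) → ℝ) (z : Fin d → ℕ) :
    TV m P ∅ θ F z = F z := by
  unfold TV
  rw [bz_empty, sum_singleton, prod_empty, one_mul]

/-- the difference transform depends on the free coordinates only -/
theorem TV_compl (m : ℕ) (P θ : Fin d → ℕ) (F : (Fin d → ℕ) → ℝ) (τ : Fin d) (z : Fin d → ℕ) :
    TV m P {τ}ᶜ θ F z = TV m P {τ}ᶜ θ F (Function.update P τ (z τ)) := by
  have h : bz {τ}ᶜ P z = bz {τ}ᶜ P (Function.update P τ (z τ)) := by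
    unfold bz
    congr 1
    funext i
    by_cases hi : i = τ
    · subst hi
      rw [Function.update_self]
    · rw [if_pos (by simp [hi]), if_pos (by simp [hi])]
  unfold TV
  rw [h]

/-- the pointwise bound -/
theorem TV_bound {m : ℕ} {P : Fin d → ℕ} {τ : Fin d} {F : (Fin d → ℕ) → ℝ} {β : ℝ}
    (h : HB m P {τ} F β) {θ : Fin d → ℕ} (hθ : θ ∈ Th d m) {v : ℕ} (hv : v < P τ + 1) :
    |TV m P {τ}ᶜ θ F (Function.update P τ v)| ≤ β := by
  classical
  have hne : ({τ} : Finset (Fin d)).Nonempty := singleton_nonempty τ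
  have h1 := h θ hθ {τ} {τ} hne hne (union_self _)
    (fun q => if q = Function.update P τ v then 1 else 0)
    (fun q => if q = Function.update P τ v then 1 else 0)
  have hmem : Function.update P τ v ∈ bx {τ} P := by
    unfold bx
    rw [Fintype.mem_piFinset]
    intro i
    by_cases hi : i = τ
    · subst hi
      rw [if_pos (mem_singleton_self i), Function.update_self, mem_range]
      exact hv
    · rw [if_neg (by simp [hi]), Function.update_of_ne hi, mem_singleton]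
  have hpr : ∀ s ∈ bx {τ} P, pr {τ} P s = s := by
    intro s hs
    unfold bx at hs
    rw [Fintype.mem_piFinset] at hs
    funext i
    unfold pr
    by_cases hi : i ∈ ({τ} : Finset (Fin d))
    · rw [if_pos hi]
    · have h2 := hs i
      rw [if_neg hi, mem_singleton] at h2
      rw [if_neg hi, h2]
  have hnm : nm {τ} P (fun q => if q = Function.update P τ v then (1 : ℝ) else 0) = 1 := by
    unfold nm
    rw [sum_eq_single (Function.update P τ v)]
    · simp
    · intro q _ hq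
      simp [hq]
    · intro h2
      exact absurd hmem h2
  rw [hnm, mul_one, mul_one] at h1
  have h3 : ∑ s ∈ bx {τ} P, (if pr {τ} P s = Function.update P τ v then (1 : ℝ) else 0) *
      (if pr {τ} P s = Function.update P τ v then (1 : ℝ) else 0) * TV m P {τ}ᶜ θ F s =
      TV m P {τ}ᶜ θ F (Function.update P τ v) := by
    rw [sum_eq_single (Function.update P τ v)]
    · rw [hpr _ hmem, if_pos rfl, one_mul, one_mul]
    · intro q hq hq'
      rw [hpr _ hq, if_neg hq', zero_mul, zero_mul]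
    · intro h2
      exact absurd hmem h2
  rw [h3] at h1
  exact h1

/-- one type -/
theorem one_type (h1 : S_DL) {m n : ℕ} {Q : Fin d → ℕ} {R C : Finset (Fin d → ℕ)}
    {X : Fin d → ℕ → ℝ} {b : Fin d → (Fin d → ℕ) → ℝ} {Γ : Fin d → Kn d} {κ β : ℝ}
    (hX : ∀ i v, X i v = 1 ∨ X i v = -1) (hQ : ∀ i, Q i ≤ n) (hn : n < 2 ^ m) (hκ : 0 ≤ κ)
    (hβ : 0 ≤ β) (hΓ : ∀ τ, 1 ≤ Q τ →
      KN m (Function.update Q τ (Q τ - 1)) R C τ ∅ (Γ τ) κ ∧
      HB m (Function.update Q τ (Q τ - 1)) {τ} (b τ) β) (x z : (Fin d → ℕ) → ℝ) (τ : Fin d) :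
    |∑ q ∈ box Q, if q τ < Q τ then inn X b τ q * gq R C x z (Γ τ) q else 0| ≤
      Real.sqrt (n + 1) * ((1 + cd d m * β) * κ) * (n1 R x * n1 C z) := by
  have hnn : 0 ≤ n1 R x * n1 C z := mul_nonneg (n1_nonneg R x) (n1_nonneg C z)
  have hcd : 0 ≤ cd d m := by
    unfold cd
    positivity
  by_cases hQτ : 1 ≤ Q τ
  · obtain ⟨hKN, hHB⟩ := hΓ τ hQτ
    set P := Function.update Q τ (Q τ - 1) with hP
    have hPτ : P τ = Q τ - 1 := by rw [hP, Function.update_self]
    have hPi : ∀ i, i ≠ τ → P i = Q i := fun i hi => by rw [hP, Function.update_of_ne hi]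
    have hPn : ∀ i, P i < 2 ^ m := by
      intro i
      by_cases hi : i = τ
      · subst hi
        rw [hPτ]
        have := hQ i
        omega
      · rw [hPi i hi]
        exact lt_of_le_of_lt (hQ i) hn
    have hbox : (box Q).filter (fun q => q τ < Q τ) = box P := by
      ext q
      rw [mem_filter, mem_box, mem_box]
      constructor
      · rintro ⟨h2, h3⟩ i
        by_cases hi : i = τ
        · subst hi
          rw [hPτ]
          omega
        · rw [hPi i hi]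
          exact h2 i
      · intro h2
        have h3 := h2 τ
        rw [hPτ] at h3
        refine ⟨fun i => ?_, by omega⟩
        by_cases hi : i = τ
        · subst hi
          omega
        · have h4 := h2 i
          rw [hPi i hi] at h4
          exact h4
    rw [← sum_filter, hbox]
    -- the decomposition of the bias
    obtain ⟨Cc, hC1, hC2⟩ := h1 d m P {τ}ᶜ ∅ hPn (fun _ => 0) (zero_mem_Th m)
    have hb : ∀ q ∈ box P, b τ q = ∑ θ₁ ∈ Th d m, ∑ θ₂ ∈ Th d m, ∑ θ₃ ∈ Th d m,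
        Cc θ₁ θ₂ θ₃ * (ch m θ₃ q * TV m P {τ}ᶜ θ₁ (b τ) (Function.update P τ (q τ))) := by
      intro q hq
      have h2 := hC2 (b τ) (fun _ => 1) q hq
      rw [inter_empty, TV_empty] at h2
      rw [mul_one] at h2
      rw [h2]
      refine sum_congr rfl fun θ₁ _ => sum_congr rfl fun θ₂ _ => sum_congr rfl fun θ₃ _ => ?_
      rw [TV_empty, mul_one, ← TV_compl]
    have hA : |∑ q ∈ box P, (ch m (fun _ => 0) q * X τ (q τ)) * gq R C x z (Γ τ) q| ≤
        1 * (Real.sqrt ((P τ : ℝ) + 1) * (κ * (n1 R x * n1 C z))) := by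
      refine core hKN hκ (zero_mem_Th m) (X τ) zero_le_one (fun v _ => ?_) x z
      rcases hX τ v with h2 | h2 <;> rw [h2] <;> norm_num
    have hB : |∑ q ∈ box P, b τ q * gq R C x z (Γ τ) q| ≤
        cd d m * (β * (Real.sqrt ((P τ : ℝ) + 1) * (κ * (n1 R x * n1 C z)))) := by
      have h2 : ∑ q ∈ box P, b τ q * gq R C x z (Γ τ) q =
          ∑ θ₁ ∈ Th d m, ∑ θ₂ ∈ Th d m, ∑ θ₃ ∈ Th d m, Cc θ₁ θ₂ θ₃ * ∑ q ∈ box P,
            (ch m θ₃ q * TV m P {τ}ᶜ θ₁ (b τ) (Function.update P τ (q τ))) *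
              gq R C x z (Γ τ) q := by
        rw [sum_congr rfl fun q hq => by rw [hb q hq]]
        simp only [sum_mul, mul_sum]
        rw [sum_comm]
        refine sum_congr rfl fun θ₁ _ => ?_
        rw [sum_comm]
        refine sum_congr rfl fun θ₂ _ => ?_
        rw [sum_comm]
        refine sum_congr rfl fun θ₃ _ => sum_congr rfl fun q _ => ?_
        ring
      rw [h2]
      set K := β * (Real.sqrt ((P τ : ℝ) + 1) * (κ * (n1 R x * n1 C z))) with hK
      have hK0 : 0 ≤ K := by positivity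
      have h3 : ∀ θ₁ ∈ Th d m, ∀ θ₂ ∈ Th d m, ∀ θ₃ ∈ Th d m, |Cc θ₁ θ₂ θ₃ * ∑ q ∈ box P,
            (ch m θ₃ q * TV m P {τ}ᶜ θ₁ (b τ) (Function.update P τ (q τ))) *
              gq R C x z (Γ τ) q| ≤ |Cc θ₁ θ₂ θ₃| * K := by
        intro θ₁ hθ₁ θ₂ _ θ₃ hθ₃
        rw [abs_mul]
        refine mul_le_mul_of_nonneg_left ?_ (abs_nonneg _)
        exact core hKN hκ hθ₃ (fun v => TV m P {τ}ᶜ θ₁ (b τ) (Function.update P τ v)) hβ
          (fun v hv => TV_bound hHB hθ₁ hv) x z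
      calc _ ≤ ∑ θ₁ ∈ Th d m, ∑ θ₂ ∈ Th d m, ∑ θ₃ ∈ Th d m, |Cc θ₁ θ₂ θ₃| * K := by
            refine (abs_sum_le_sum_abs _ _).trans (sum_le_sum fun θ₁ hθ₁ => ?_)
            refine (abs_sum_le_sum_abs _ _).trans (sum_le_sum fun θ₂ hθ₂ => ?_)
            exact (abs_sum_le_sum_abs _ _).trans
              (sum_le_sum fun θ₃ hθ₃ => h3 θ₁ hθ₁ θ₂ hθ₂ θ₃ hθ₃)
        _ = (∑ θ₁ ∈ Th d m, ∑ θ₂ ∈ Th d m, ∑ θ₃ ∈ Th d m, |Cc θ₁ θ₂ θ₃|) * K := by
            simp only [sum_mul]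
        _ ≤ cd d m * K := mul_le_mul_of_nonneg_right hC1 hK0
    have hsplit : ∑ q ∈ box P, inn X b τ q * gq R C x z (Γ τ) q =
        ∑ q ∈ box P, (ch m (fun _ => 0) q * X τ (q τ)) * gq R C x z (Γ τ) q -
          ∑ q ∈ box P, b τ q * gq R C x z (Γ τ) q := by
      rw [← sum_sub_distrib]
      refine sum_congr rfl fun q _ => ?_
      rw [ch_zero]
      unfold inn
      ring
    rw [hsplit]
    refine (abs_sub _ _).trans ((add_le_add hA hB).trans ?_)
    have hsq : Real.sqrt ((P τ : ℝ) + 1) ≤ Real.sqrt (n + 1) := by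
      apply Real.sqrt_le_sqrt
      have h2 : (P τ : ℝ) ≤ n := by
        have h3 : P τ ≤ n := by
          rw [hPτ]
          have := hQ τ
          omega
        exact_mod_cast h3
      linarith
    have h0 : 0 ≤ (1 + cd d m * β) * κ * (n1 R x * n1 C z) := by positivity
    calc 1 * (Real.sqrt ((P τ : ℝ) + 1) * (κ * (n1 R x * n1 C z))) +
          cd d m * (β * (Real.sqrt ((P τ : ℝ) + 1) * (κ * (n1 R x * n1 C z))))
        = Real.sqrt ((P τ : ℝ) + 1) * ((1 + cd d m * β) * κ * (n1 R x * n1 C z)) := by ring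
      _ ≤ Real.sqrt (n + 1) * ((1 + cd d m * β) * κ * (n1 R x * n1 C z)) :=
          mul_le_mul_of_nonneg_right hsq h0
      _ = Real.sqrt (n + 1) * ((1 + cd d m * β) * κ) * (n1 R x * n1 C z) := by ring
  · have h0 : ∑ q ∈ box Q, (if q τ < Q τ then inn X b τ q * gq R C x z (Γ τ) q else 0) = 0 := by
      refine sum_eq_zero fun q _ => ?_
      rw [if_neg (by omega)]
    rw [h0, abs_zero]
    positivity

end Rem

open Finset Rem in
theorem t_REM (h1 : S_DL) (_h2 : S_KNT) : S_REM := by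
  intro d m n Q R C X b Γ κ β hX hQ hn hκ hβ hΓ x z
  have e1 : ∑ a ∈ R, ∑ e ∈ C, x a * z e * LL X b Q Γ a e =
      ∑ τ, ∑ q ∈ box Q, if q τ < Q τ then inn X b τ q * gq R C x z (Γ τ) q else 0 := by
    unfold LL
    simp only [mul_sum]
    calc ∑ a ∈ R, ∑ e ∈ C, ∑ τ, ∑ q ∈ box Q,
          x a * z e * (if q τ < Q τ then Γ τ q a e * inn X b τ q else 0)
        = ∑ a ∈ R, ∑ τ, ∑ e ∈ C, ∑ q ∈ box Q,
          x a * z e * (if q τ < Q τ then Γ τ q a e * inn X b τ q else 0) :=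
          sum_congr rfl fun a _ => sum_comm
      _ = ∑ τ, ∑ a ∈ R, ∑ e ∈ C, ∑ q ∈ box Q,
          x a * z e * (if q τ < Q τ then Γ τ q a e * inn X b τ q else 0) := sum_comm
      _ = ∑ τ, ∑ a ∈ R, ∑ q ∈ box Q, ∑ e ∈ C,
          x a * z e * (if q τ < Q τ then Γ τ q a e * inn X b τ q else 0) :=
          sum_congr rfl fun τ _ => sum_congr rfl fun a _ => sum_comm
      _ = ∑ τ, ∑ q ∈ box Q, ∑ a ∈ R, ∑ e ∈ C,
          x a * z e * (if q τ < Q τ then Γ τ q a e * inn X b τ q else 0) :=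
          sum_congr rfl fun τ _ => sum_comm
      _ = _ := by
          refine sum_congr rfl fun τ _ => sum_congr rfl fun q _ => ?_
          by_cases h : q τ < Q τ
          · simp only [if_pos h]
            unfold gq
            rw [mul_sum]
            refine sum_congr rfl fun a _ => ?_
            rw [mul_sum]
            refine sum_congr rfl fun e _ => ?_
            ring
          · simp only [if_neg h, mul_zero, sum_const_zero]
  rw [e1]
  refine (abs_sum_le_sum_abs _ _).trans ?_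
  refine (sum_le_sum fun τ _ => one_type h1 hX hQ hn hκ hβ hΓ x z τ).trans (le_of_eq ?_)
  rw [sum_const, card_univ, Fintype.card_fin, nsmul_eq_mul]
  ring

end Pool.Agent.NH44.AD
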