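import Pool.Agent.NH44.AD.StmM

set_option autoImplicit false

/-!
# Project AD: the identity for the seeds
-/

namespace Pool.Agent.NH44.AD

open Finset
open Pool.Agent.NH99.WZ (wal)

namespace Sdi

variable {d : ℕ}

theorem mem_box {Q q : Fin d → ℕ} : q ∈ box Q ↔ ∀ i, q i ≤ Q i := by
  unfold box
  simp [Nat.lt_succ_iff]

/-- shift of the coordinate `c` -/
theorem shift (Q : Fin d → ℕ) (c : Fin d) (F : (Fin d → ℕ) → ℝ) :
    ∑ q ∈ box Q, (if q c = 0 then 0 else F (Function.update q c (q c - 1))) =
      ∑ q ∈ box Q, if q c < Q c then F q else 0 := by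
  have e1 : ∑ q ∈ box Q, (if q c = 0 then 0 else F (Function.update q c (q c - 1))) =
      ∑ q ∈ (box Q).filter (fun q => q c ≠ 0), F (Function.update q c (q c - 1)) := by
    rw [sum_filter]
    refine sum_congr rfl fun q _ => ?_
    by_cases h : q c = 0 <;> simp [h]
  rw [e1, ← sum_filter]
  refine sum_bij' (fun q _ => Function.update q c (q c - 1))
    (fun q _ => Function.update q c (q c + 1)) ?_ ?_ ?_ ?_ ?_
  · intro q hq
    rw [mem_filter, mem_box] at hq ⊢
    have h0 := hq.1 c
    have h1 := hq.2
    refine ⟨fun i => ?_, ?_⟩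
    · by_cases h : i = c
      · subst h; rw [Function.update_self]; omega
      · rw [Function.update_of_ne h]; exact hq.1 i
    · rw [Function.update_self]; omega
  · intro q hq
    rw [mem_filter, mem_box] at hq ⊢
    refine ⟨fun i => ?_, ?_⟩
    · by_cases h : i = c
      · subst h; rw [Function.update_self]; exact hq.2
      · rw [Function.update_of_ne h]; exact hq.1 i
    · rw [Function.update_self]; omega
  · intro q hq
    rw [mem_filter] at hq
    have h1 := hq.2
    simp only [Function.update_self, Function.update_idem]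
    rw [Nat.sub_add_cancel (Nat.one_le_iff_ne_zero.2 h1), Function.update_eq_self]
  · intro q _
    simp only [Function.update_self, Function.update_idem, Nat.add_sub_cancel,
      Function.update_eq_self]
  · intro q _
    rfl

theorem LL_sub (X : Fin d → ℕ → ℝ) (b : Fin d → (Fin d → ℕ) → ℝ) (Q : Fin d → ℕ)
    (Γ Γ' : Fin d → Kn d) (a e : Fin d → ℕ) :
    LL X b Q (fun τ q a e => Γ τ q a e - Γ' τ q a e) a e = LL X b Q Γ a e - LL X b Q Γ' a e := by
  unfold LL
  rw [← sum_sub_distrib]
  refine sum_congr rfl fun τ _ => ?_
  rw [← sum_sub_distrib]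
  refine sum_congr rfl fun q _ => ?_
  split_ifs
  · ring
  · ring

end Sdi

open Sdi

theorem t_SDI : S_SDI := by
  intro d m Q θ X b h hU W
  induction W with
  | nil =>
    intro k Γ _ _ hΓ a e
    simp only [List.toFinset_nil, prod_empty, one_mul]
    unfold LL sd
    rw [sum_eq_single k]
    · refine sum_congr rfl fun q hq => ?_
      by_cases hk : q k < Q k
      · rw [if_pos hk, if_pos rfl]; ring
      · rw [if_neg hk, hΓ q hq (not_lt.1 hk), mul_zero]
    · intro τ _ hτ
      refine sum_eq_zero fun q _ => ?_
      rw [if_neg hτ, zero_mul, ite_self]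
    · intro hk
      exact absurd (mem_univ k) hk
  | cons c W ih =>
    intro k Γ hW hk hΓ a e
    rw [List.nodup_cons] at hW
    rw [List.mem_cons, not_or] at hk
    have hkc : k ≠ c := hk.1
    have hck : c ≠ k := fun e => hkc e.symm
    -- the two kernels
    set Γ1 : Kn d := fun q a e => wal m (θ c) (q c) * kd c Γ q a e with hΓ1
    set Γ2 : Kn d := fun q a e => if q c < Q c then
          wal m (θ c) (q c + 1) * h c k q * Γ q a e else 0 with hΓ2
    have hupd : ∀ q ∈ box Q, Function.update q c (q c - 1) ∈ box Q := by
      intro q hq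
      rw [mem_box] at hq ⊢
      intro i
      by_cases h : i = c
      · subst h; rw [Function.update_self]; have := hq i; omega
      · rw [Function.update_of_ne h]; exact hq i
    have i1 := ih k Γ1 hW.2 hk.2 (by
      intro q hq hqk a e
      have h1 := hΓ q hq hqk a e
      have h2 := hΓ (Function.update q c (q c - 1)) (hupd q hq)
        (by rw [Function.update_of_ne hkc]; exact hqk) a e
      simp only [hΓ1, kd, h1, h2, ite_self, sub_zero, mul_zero]) a e
    have i2 := ih c Γ2 hW.2 hW.1 (by
      intro q hq hqc a e
      simp only [hΓ2]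
      rw [if_neg (not_lt.2 hqc)]) a e
    have hsd : LL X b Q (sd m h Q θ (c :: W) k Γ) a e =
        LL X b Q (sd m h Q θ W k Γ1) a e - LL X b Q (sd m h Q θ W c Γ2) a e := by
      rw [← LL_sub]
      rfl
    rw [hsd, ← i1, ← i2, ← sum_sub_distrib]
    set R : (Fin d → ℕ) → ℝ := fun q => ∏ i ∈ W.toFinset, dw m (Q i) (θ i) (q i) with hR
    have hRu : ∀ q v, R (Function.update q c v) = R q := by
      intro q v
      simp only [hR]
      refine prod_congr rfl fun i hi => ?_
      rw [Function.update_of_ne]
      rintro rfl
      exact hW.1 (List.mem_toFinset.1 hi)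
    have hprod : ∀ q : Fin d → ℕ, ∏ i ∈ (c :: W).toFinset, dw m (Q i) (θ i) (q i) =
        dw m (Q c) (θ c) (q c) * R q := by
      intro q
      rw [List.toFinset_cons, prod_insert (fun hc => hW.1 (List.mem_toFinset.1 hc))]
    -- first shift
    have s1 := shift Q c fun q => wal m (θ c) (q c + 1) * R q * (inn X b k q * Γ q a e)
    have s2 := shift Q c fun q => R q * (inn X b c q *
      (wal m (θ c) (q c + 1) * h c k q * Γ q a e))
    have l1 : ∑ q ∈ box Q, (∏ i ∈ (c :: W).toFinset, dw m (Q i) (θ i) (q i)) *
        (inn X b k q * Γ q a e) =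
        ∑ q ∈ box Q, wal m (θ c) (q c) * R q * (inn X b k q * Γ q a e) -
        ∑ q ∈ box Q, (if q c < Q c then wal m (θ c) (q c + 1) * R q * (inn X b k q * Γ q a e)
          else 0) := by
      rw [← sum_sub_distrib]
      refine sum_congr rfl fun q _ => ?_
      rw [hprod, dw]
      split_ifs <;> ring
    have l2 : ∑ q ∈ box Q, (R q * (inn X b k q * Γ1 q a e) - R q * (inn X b c q * Γ2 q a e)) =
        ∑ q ∈ box Q, R q * (inn X b k q * Γ1 q a e) -
        ∑ q ∈ box Q, (if q c < Q c then R q * (inn X b c q *
          (wal m (θ c) (q c + 1) * h c k q * Γ q a e)) else 0) := by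
      rw [← sum_sub_distrib]
      refine sum_congr rfl fun q _ => ?_
      simp only [hΓ2]
      split_ifs <;> ring
    rw [l1, l2, ← s1, ← s2, ← sum_sub_distrib, ← sum_sub_distrib]
    refine sum_congr rfl fun q hq => ?_
    by_cases h0 : q c = 0
    · simp only [hΓ1, kd, if_pos h0]
      ring
    · rw [if_neg h0, if_neg h0, hRu, Function.update_self]
      simp only [hΓ1, kd, if_neg h0]
      rw [Nat.sub_add_cancel (Nat.one_le_iff_ne_zero.2 h0)]
      set q' := Function.update q c (q c - 1) with hq'
      have hq'b : q' ∈ box Q := hupd q hq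
      have hq'k : q' k = q k := by rw [hq', Function.update_of_ne hkc]
      have hq'c : q' c = q c - 1 := by rw [hq', Function.update_self]
      have hqc : q c ≤ Q c := mem_box.1 hq c
      have hback : Function.update q' c (q' c + 1) = q := by
        rw [hq'c, Nat.sub_add_cancel (Nat.one_le_iff_ne_zero.2 h0), hq', Function.update_idem,
          Function.update_eq_self]
      rcases Nat.lt_or_ge (q k) (Q k) with h1 | h1
      · have hu := hU k c hkc q' hq'b (by rw [hq'c]; omega) (by rw [hq'k]; exact h1)
        rw [hback] at hu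
        have hin : inn X b k q = inn X b k q' - inn X b c q' * h c k q' := by
          unfold inn at hu ⊢
          rw [hu, hq'k]
          ring
        rw [hin]
        ring
      · have hz : Γ q' a e = 0 := hΓ q' hq'b (by rw [hq'k]; exact h1) a e
        rw [hz]
        ring

end Pool.Agent.NH44.AD
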