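import Pool.Agent.NH44.AD.StmM
import Pool.Agent.NH44.AD.Wal

set_option autoImplicit false

/-! Project AD, AM-15: the norm of the seeds. -/

namespace Pool.Agent.NH44.AD

open Finset
open Pool.Agent.NH99.WZ (wal)

theorem Sdn.abs_wal (m a i : ℕ) : |wal m a i| ≤ 1 := by
  rcases Wal.wal_pm m a i with h | h
  · rw [h, abs_one]
  · rw [h, abs_neg, abs_one]

theorem t_SDN (h1 : S_KNT) (h2 : S_ST) (h3 : S_KS) : S_SDN := by
  intro d m P Q θ R C h γ hP hPQ hθ hγ hcd hh W
  induction W with
  | nil =>
    intro k Γ κ _ _ hκ hΓ τ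
    rw [List.length_nil, pow_zero, one_mul]
    by_cases hτ : τ = k
    · subst hτ
      have e : sd m h Q θ [] τ Γ τ = Γ := by
        funext q a e
        exact if_pos rfl
      rw [e]
      exact hΓ
    · have e : sd m h Q θ [] k Γ τ = fun _ _ _ => 0 := by
        funext q a e
        exact if_neg hτ
      rw [e]
      exact (h1 d m P R C τ ∅).2.2.1 κ hκ
  | cons c W ih =>
    intro k Γ κ hnd hk hκ hΓ τ
    rw [List.nodup_cons] at hnd
    rw [List.mem_cons, not_or] at hk
    rw [List.toFinset_cons] at hΓ
    have hcW : c ∉ W.toFinset := by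
      rw [List.mem_toFinset]
      exact hnd.1
    have hkW : k ∉ insert c W.toFinset := by
      rw [Finset.mem_insert, List.mem_toFinset, not_or]
      exact hk
    have hin : c ∈ insert c W.toFinset := Finset.mem_insert_self _ _
    have a1 := h3 d m P R C c k (insert c W.toFinset) Γ θ κ hP hin hkW hκ hθ hΓ
    rw [Finset.erase_insert hcW] at a1
    have a2 := h2 d m P R C c k (insert c W.toFinset) Γ (h c k)
      (fun v => if v < Q c then wal m (θ c) (v + 1) else 0) γ κ hP (Ne.symm hk.1) hin hkW hκ hγ
      (fun v => by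
        split_ifs
        · exact Sdn.abs_wal _ _ _
        · rw [abs_zero]
          exact zero_le_one) (hh c k (Ne.symm hk.1)) hΓ
    rw [Finset.erase_insert hcW] at a2
    have a3 : cd d m * (γ * κ) ≤ κ := by
      have := mul_le_mul_of_nonneg_right hcd hκ
      linarith [mul_assoc (cd d m) γ κ]
    have a4 := (h1 d m P R C c W.toFinset).1 _ _ _ a2 a3
    have e2 : (fun (q a e : Fin d → ℕ) => (if q c < Q c then wal m (θ c) (q c + 1) else 0) *
        h c k q * Γ q a e) = fun q a e => if q c < Q c then
          wal m (θ c) (q c + 1) * h c k q * Γ q a e else 0 := by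
      funext q a e
      split_ifs
      · rfl
      · ring
    have a5 : KN m P R C c W.toFinset (fun q a e => if q c < Q c then
          wal m (θ c) (q c + 1) * h c k q * Γ q a e else 0) κ := by
      rw [← e2]
      exact a4
    have b1 := ih k _ κ hnd.2 hk.2 hκ a1 τ
    have b2 := ih c _ κ hnd.2 hnd.1 hκ a5 τ
    have b3 := (h1 d m P R C τ ∅).2.2.2.2.1 _ _ b2
    have b4 := (h1 d m P R C τ ∅).2.2.2.1 _ _ _ _ b1 b3
    have e3 : 2 ^ (c :: W).length * κ = 2 ^ W.length * κ + 2 ^ W.length * κ := by
      rw [List.length_cons, pow_succ]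
      ring
    rw [e3]
    exact b4

end Pool.Agent.NH44.AD
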