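import Pool.Agent.NH44.AD.StmM
import Pool.Agent.NH44.AD.Wal

set_option autoImplicit false

/-!
# Project AD (AM-13): one step changes the type of a kernel
-/

namespace Pool.Agent.NH44.AD

open Finset
open Pool.Agent.NH99.WZ (wal)

variable {d : ℕ}

namespace St

theorem mem_box {P s : Fin d → ℕ} : s ∈ box P ↔ ∀ i, s i ≤ P i := by
  unfold box
  rw [Fintype.mem_piFinset]
  simp only [mem_range, Nat.lt_succ_iff]

theorem mem_bz {W : Finset (Fin d)} {P z q : Fin d → ℕ} :
    q ∈ bz W P z ↔ ∀ i, if i ∈ W then q i ≤ P i else q i = z i := by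
  unfold bz
  rw [Fintype.mem_piFinset]
  refine forall_congr' fun i => ?_
  split_ifs with h
  · rw [mem_range, Nat.lt_succ_iff]
  · rw [mem_singleton]

theorem mem_bx {A : Finset (Fin d)} {P s : Fin d → ℕ} :
    s ∈ bx A P ↔ ∀ i, if i ∈ A then s i ≤ P i else s i = P i := by
  unfold bx
  rw [Fintype.mem_piFinset]
  refine forall_congr' fun i => ?_
  split_ifs with h
  · rw [mem_range, Nat.lt_succ_iff]
  · rw [mem_singleton]

theorem bz_congr {W : Finset (Fin d)} {P z z' : Fin d → ℕ} (h : ∀ i, i ∉ W → z i = z' i) :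
    bz W P z = bz W P z' := by
  unfold bz
  congr 1
  funext i
  split_ifs with hi
  · rfl
  · rw [h i hi]

theorem TV_congr {m : ℕ} {P : Fin d → ℕ} {W : Finset (Fin d)} {θ : Fin d → ℕ}
    {F : (Fin d → ℕ) → ℝ} {z z' : Fin d → ℕ} (h : ∀ i, i ∉ W → z i = z' i) :
    TV m P W θ F z = TV m P W θ F z' := by
  unfold TV
  rw [bz_congr h]

theorem TV_congr' {m : ℕ} {P : Fin d → ℕ} {W : Finset (Fin d)} {θ θ' : Fin d → ℕ}
    {F : (Fin d → ℕ) → ℝ} {z : Fin d → ℕ} (h : ∀ i, i ∈ W → θ i = θ' i) :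
    TV m P W θ F z = TV m P W θ' F z := by
  unfold TV
  refine sum_congr rfl fun q _ => ?_
  congr 1
  exact prod_congr rfl fun i hi => by rw [h i hi]

theorem TV_smul {m : ℕ} {P : Fin d → ℕ} {W : Finset (Fin d)} {θ : Fin d → ℕ}
    {F : (Fin d → ℕ) → ℝ} {z : Fin d → ℕ} (a : ℝ) :
    TV m P W θ (fun q => a * F q) z = a * TV m P W θ F z := by
  unfold TV
  rw [mul_sum]
  exact sum_congr rfl fun q _ => by ring

theorem TV_sum {m : ℕ} {P : Fin d → ℕ} {W : Finset (Fin d)} {θ : Fin d → ℕ} {ι : Type}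
    {J : Finset ι} {w : ι → ℝ} {F : ι → (Fin d → ℕ) → ℝ} {z : Fin d → ℕ} :
    ∑ j ∈ J, w j * TV m P W θ (F j) z = TV m P W θ (fun q => ∑ j ∈ J, w j * F j q) z := by
  unfold TV
  simp only [mul_sum]
  rw [sum_comm]
  refine sum_congr rfl fun q _ => sum_congr rfl fun j _ => by ring

theorem ww_eq (m : ℕ) (P : Fin d → ℕ) (W : Finset (Fin d)) (θ q : Fin d → ℕ) :
    ww m P W θ q = (∏ i ∈ W, dw m (P i) (θ i) (q i)) * ∏ i ∈ Wᶜ, wal m (θ i) (q i) := by
  unfold ww
  rw [← prod_mul_prod_compl W]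
  congr 1
  · exact prod_congr rfl fun i hi => if_pos hi
  · exact prod_congr rfl fun i hi => if_neg (mem_compl.1 hi)

/-- grouping -/
theorem grp (m : ℕ) (P : Fin d → ℕ) (W : Finset (Fin d)) (θ : Fin d → ℕ)
    (H : (Fin d → ℕ) → (Fin d → ℕ) → ℝ) :
    ∑ q ∈ box P, ww m P W θ q * H (pr Wᶜ P q) q =
      ∑ s ∈ bx Wᶜ P, (∏ i ∈ Wᶜ, wal m (θ i) (s i)) * TV m P W θ (H s) s := by
  rw [← Finset.sum_fiberwise_of_maps_to (s := box P) (t := bx Wᶜ P) (g := pr Wᶜ P) (by
    intro q hq
    rw [mem_box] at hq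
    rw [mem_bx]
    intro i
    unfold pr
    split_ifs with h
    · exact hq i
    · rfl)]
  refine sum_congr rfl fun s hs => ?_
  rw [mem_bx] at hs
  have h1 : (box P).filter (fun q => pr Wᶜ P q = s) = bz W P s := by
    ext q
    rw [mem_filter, mem_box, mem_bz]
    constructor
    · rintro ⟨h1, h2⟩ i
      split_ifs with hi
      · exact h1 i
      · rw [← h2]
        unfold pr
        rw [if_pos (mem_compl.2 hi)]
    · intro h
      constructor
      · intro i
        have h2 := h i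
        have h3 := hs i
        split_ifs at h2 with hi
        · exact h2
        · rw [if_pos (mem_compl.2 hi)] at h3
          rw [h2]
          exact h3
      · funext i
        have h2 := h i
        have h3 := hs i
        unfold pr
        by_cases hi : i ∈ W
        · rw [if_neg (fun h => mem_compl.1 h hi)] at h3 ⊢
          exact h3.symm
        · rw [if_pos (mem_compl.2 hi)]
          rw [if_neg hi] at h2
          exact h2
  rw [h1]
  unfold TV
  rw [mul_sum]
  refine sum_congr rfl fun q hq => ?_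
  rw [← h1, mem_filter] at hq
  rw [hq.2, ww_eq]
  have h2 : ∏ i ∈ Wᶜ, wal m (θ i) (q i) = ∏ i ∈ Wᶜ, wal m (θ i) (s i) := by
    refine prod_congr rfl fun i hi => ?_
    rw [← hq.2]
    unfold pr
    rw [if_pos hi]
  rw [h2]
  ring

/-- adding one coordinate -/
theorem split_c {P : Fin d → ℕ} {W : Finset (Fin d)} {c : Fin d} (hc : c ∈ W)
    (K : (Fin d → ℕ) → ℝ) :
    ∑ s ∈ bx (W.erase c)ᶜ P, K s =
      ∑ t ∈ bx Wᶜ P, ∑ v ∈ range (P c + 1), K (Function.update t c v) := by
  have hm : ∀ i, i ≠ c → (i ∈ (W.erase c)ᶜ ↔ i ∈ Wᶜ) := fun i hi => by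
    rw [mem_compl, mem_compl, mem_erase, not_and]
    exact ⟨fun h => h hi, fun h _ => h⟩
  have hmc : c ∈ (W.erase c)ᶜ := mem_compl.2 (notMem_erase c W)
  have hcW : c ∉ Wᶜ := fun h => mem_compl.1 h hc
  rw [← sum_product']
  refine sum_nbij' (fun s => (Function.update s c (P c), s c))
    (fun p => Function.update p.1 c p.2) ?_ ?_ ?_ ?_ ?_
  · intro s hs
    rw [mem_bx] at hs
    rw [mem_product, mem_bx, mem_range, Nat.lt_succ_iff]
    constructor
    · intro i
      change if i ∈ Wᶜ then Function.update s c (P c) i ≤ P i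
        else Function.update s c (P c) i = P i
      have h1 := hs i
      by_cases hic : i = c
      · subst hic
        rw [if_neg hcW, Function.update_self]
      · rw [if_congr (hm i hic) rfl rfl] at h1
        rw [Function.update_of_ne hic]
        exact h1
    · have h1 := hs c
      rw [if_pos hmc] at h1
      exact h1
  · rintro ⟨t, v⟩ hp
    rw [mem_product, mem_bx, mem_range, Nat.lt_succ_iff] at hp
    rw [mem_bx]
    intro i
    have h1 := hp.1 i
    by_cases hic : i = c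
    · subst hic
      rw [if_pos hmc, Function.update_self]
      exact hp.2
    · rw [if_congr (hm i hic) rfl rfl, Function.update_of_ne hic]
      exact h1
  · intro s hs
    simp
  · rintro ⟨t, v⟩ hp
    rw [mem_product, mem_bx] at hp
    have h1 := hp.1 c
    rw [if_neg hcW] at h1
    simp only [Function.update_idem, Function.update_self, Prod.mk.injEq, and_true]
    rw [← h1, Function.update_eq_self]
  · intro s hs
    simp

/-- one coordinate -/
theorem sum_one {P : Fin d → ℕ} (c : Fin d) (K : (Fin d → ℕ) → ℝ) :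
    ∑ s ∈ bx {c} P, K s = ∑ v ∈ range (P c + 1), K (Function.update P c v) := by
  refine sum_nbij' (fun s => s c) (fun v => Function.update P c v) ?_ ?_ ?_ ?_ ?_
  · intro s hs
    rw [mem_bx] at hs
    have h1 := hs c
    rw [mem_range, Nat.lt_succ_iff]
    simpa using h1
  · intro v hv
    rw [mem_range, Nat.lt_succ_iff] at hv
    rw [mem_bx]
    intro i
    by_cases hi : i = c
    · subst hi
      simpa using hv
    · simp [hi]
  · intro s hs
    rw [mem_bx] at hs
    funext i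
    by_cases hi : i = c
    · subst hi
      simp
    · have h1 := hs i
      simp only [mem_singleton, hi, if_false] at h1
      rw [Function.update_of_ne hi, h1]
  · intro v _
    simp
  · intro s hs
    rw [mem_bx] at hs
    congr 1
    funext i
    by_cases hi : i = c
    · subst hi
      simp
    · have h1 := hs i
      simp only [mem_singleton, hi, if_false] at h1
      rw [Function.update_of_ne hi, h1]

/-- two coordinates -/
theorem sum_two {P : Fin d → ℕ} {c τ : Fin d} (hct : c ≠ τ) (K : (Fin d → ℕ) → ℝ) :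
    ∑ s ∈ bx {c, τ} P, K s = ∑ v ∈ range (P c + 1), ∑ u ∈ range (P τ + 1),
      K (Function.update (Function.update P c v) τ u) := by
  rw [← sum_product']
  refine sum_nbij' (fun s => (s c, s τ))
    (fun p => Function.update (Function.update P c p.1) τ p.2) ?_ ?_ ?_ ?_ ?_
  · intro s hs
    rw [mem_bx] at hs
    have h1 := hs c
    have h2 := hs τ
    rw [mem_product, mem_range, mem_range, Nat.lt_succ_iff, Nat.lt_succ_iff]
    constructor
    · simpa using h1
    · simpa using h2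
  · rintro ⟨v, u⟩ hp
    rw [mem_product, mem_range, mem_range, Nat.lt_succ_iff, Nat.lt_succ_iff] at hp
    rw [mem_bx]
    intro i
    by_cases hi : i = τ
    · subst hi
      simpa using hp.2
    · by_cases hi' : i = c
      · subst hi'
        simpa [hi] using hp.1
      · simp [hi, hi']
  · intro s hs
    rw [mem_bx] at hs
    funext i
    by_cases hi : i = τ
    · subst hi
      simp
    · by_cases hi' : i = c
      · subst hi'
        simp [hi]
      · have h1 := hs i
        simp only [mem_insert, mem_singleton, hi, hi', or_self, if_false] at h1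
        simp [hi, hi', h1]
  · rintro ⟨v, u⟩ _
    simp [hct]
  · intro s hs
    rw [mem_bx] at hs
    congr 1
    funext i
    by_cases hi : i = τ
    · subst hi
      simp
    · by_cases hi' : i = c
      · subst hi'
        simp [hi]
      · have h1 := hs i
        simp only [mem_insert, mem_singleton, hi, hi', or_self, if_false] at h1
        simp [hi, hi', h1]

theorem abs_wal (m a i : ℕ) : |wal m a i| = 1 := by
  rcases Wal.wal_pm m a i with h | h <;> rw [h] <;> norm_num

/-- the bilinear form of the kernel at a cell -/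
def Lx (R C : Finset (Fin d → ℕ)) (x y : (Fin d → ℕ) → ℝ) (Γ : Kn d) (q : Fin d → ℕ) : ℝ :=
  ∑ a ∈ R, ∑ e ∈ C, x a * y e * Γ q a e

/-- one half of the norm of a kernel -/
def KN1 (m : ℕ) (P : Fin d → ℕ) (R C : Finset (Fin d → ℕ)) (τ : Fin d) (W : Finset (Fin d))
    (Γ : Kn d) (κ : ℝ) : Prop :=
  ∀ θ ∈ Th d m, ∀ (x : (Fin d → ℕ) → ℝ) (z : (Fin d → ℕ) → ℕ → ℝ),
    |∑ q ∈ box P, ww m P W θ q * Lx R C x (fun e => z e (q τ)) Γ q| ≤
      κ * (n1 R x * n2 C (P τ + 1) z)

theorem form_eq {R C : Finset (Fin d → ℕ)} (x y : (Fin d → ℕ) → ℝ) (Γ : Kn d) (q : Fin d → ℕ)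
    (w : ℝ) : ∑ a ∈ R, ∑ e ∈ C, x a * y e * (w * Γ q a e) = w * Lx R C x y Γ q := by
  unfold Lx
  rw [mul_sum]
  refine sum_congr rfl fun a _ => ?_
  rw [mul_sum]
  exact sum_congr rfl fun e _ => by ring

theorem KN_iff {m : ℕ} {P : Fin d → ℕ} {R C : Finset (Fin d → ℕ)} {τ : Fin d}
    {W : Finset (Fin d)} {Γ : Kn d} {κ : ℝ} :
    KN m P R C τ W Γ κ ↔ KN1 m P R C τ W Γ κ ∧ KN1 m P C R τ W (fun q a e => Γ q e a) κ := by
  have e1 : ∀ (θ : Fin d → ℕ) (x : (Fin d → ℕ) → ℝ) (z : (Fin d → ℕ) → ℕ → ℝ),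
      ∑ q ∈ box P, ∑ a ∈ R, ∑ e ∈ C, x a * z e (q τ) * (ww m P W θ q * Γ q a e) =
        ∑ q ∈ box P, ww m P W θ q * Lx R C x (fun e => z e (q τ)) Γ q := fun θ x z =>
    sum_congr rfl fun q _ => form_eq x (fun e => z e (q τ)) Γ q _
  have e2 : ∀ (θ : Fin d → ℕ) (x : (Fin d → ℕ) → ℝ) (z : (Fin d → ℕ) → ℕ → ℝ),
      ∑ q ∈ box P, ∑ a ∈ R, ∑ e ∈ C, x e * z a (q τ) * (ww m P W θ q * Γ q a e) =
        ∑ q ∈ box P, ww m P W θ q * Lx C R x (fun e => z e (q τ)) (fun q a e => Γ q e a) q := by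
    intro θ x z
    refine sum_congr rfl fun q _ => ?_
    rw [sum_comm]
    exact form_eq x (fun e => z e (q τ)) (fun q a e => Γ q e a) q _
  constructor
  · intro h
    constructor
    · intro θ hθ x z
      rw [← e1]
      exact (h θ hθ x z).1
    · intro θ hθ x z
      rw [← e2]
      exact (h θ hθ x z).2
  · rintro ⟨h1, h2⟩ θ hθ x z
    rw [e1, e2]
    exact ⟨h1 θ hθ x z, h2 θ hθ x z⟩

/-- multiplication of a vector by the matrix of a tensor of norm `γ` -/
theorem mat_bound {P : Fin d → ℕ} {c τ : Fin d} (hct : c ≠ τ) {T : (Fin d → ℕ) → ℝ} {γ : ℝ}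
    (h : FB P {c, τ} T γ) (w : ℕ → ℝ) :
    ∑ u ∈ range (P τ + 1), (∑ v ∈ range (P c + 1),
      w v * T (Function.update (Function.update P c v) τ u)) ^ 2 ≤
      γ ^ 2 * ∑ v ∈ range (P c + 1), w v ^ 2 := by
  set Z : ℕ → ℝ := fun u => ∑ v ∈ range (P c + 1),
    w v * T (Function.update (Function.update P c v) τ u) with hZ
  have h1 := h {c} {τ} (singleton_nonempty c) (singleton_nonempty τ)
    (by ext i; simp) (fun s => w (s c)) (fun s => Z (s τ))
  have e1 : ∑ s ∈ bx {c, τ} P, w (pr {c} P s c) * Z (pr {τ} P s τ) * T s =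
      ∑ u ∈ range (P τ + 1), Z u ^ 2 := by
    rw [sum_two hct, sum_comm]
    refine sum_congr rfl fun u _ => ?_
    have h2 : ∀ v, w (pr {c} P (Function.update (Function.update P c v) τ u) c) *
        Z (pr {τ} P (Function.update (Function.update P c v) τ u) τ) *
        T (Function.update (Function.update P c v) τ u) =
        Z u * (w v * T (Function.update (Function.update P c v) τ u)) := by
      intro v
      unfold pr
      rw [if_pos (mem_singleton_self c), if_pos (mem_singleton_self τ), Function.update_self,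
        Function.update_of_ne hct, Function.update_self]
      ring
    simp only [h2]
    rw [← mul_sum, sq]
  have e2 : nm {c} P (fun s => w (s c)) = Real.sqrt (∑ v ∈ range (P c + 1), w v ^ 2) := by
    unfold nm
    rw [sum_one]
    simp only [Function.update_self]
  have e3 : nm {τ} P (fun s => Z (s τ)) = Real.sqrt (∑ u ∈ range (P τ + 1), Z u ^ 2) := by
    unfold nm
    rw [sum_one]
    simp only [Function.update_self]
  rw [e1, e2, e3] at h1
  set a : ℝ := Real.sqrt (∑ v ∈ range (P c + 1), w v ^ 2) with ha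
  set b : ℝ := Real.sqrt (∑ u ∈ range (P τ + 1), Z u ^ 2) with hb
  have hb2 : b ^ 2 = ∑ u ∈ range (P τ + 1), Z u ^ 2 :=
    Real.sq_sqrt (sum_nonneg fun u _ => sq_nonneg _)
  have ha2 : a ^ 2 = ∑ v ∈ range (P c + 1), w v ^ 2 :=
    Real.sq_sqrt (sum_nonneg fun u _ => sq_nonneg _)
  have hb0 : 0 ≤ b := Real.sqrt_nonneg _
  have ha0 : 0 ≤ a := Real.sqrt_nonneg _
  rw [← hb2, ← ha2]
  rw [← hb2] at h1
  have h3 : b ^ 2 ≤ γ * (a * b) := (le_abs_self _).trans h1
  rcases hb0.eq_or_lt with h0 | h0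
  · have h5 : 0 ≤ γ ^ 2 * a ^ 2 := by positivity
    rw [← h0]
    simpa using h5
  · have h4 : b ≤ γ * a := by
      have : b * b ≤ (γ * a) * b := by nlinarith
      exact le_of_mul_le_mul_right this h0
    calc b ^ 2 ≤ (γ * a) ^ 2 := pow_le_pow_left₀ hb0 h4 2
      _ = γ ^ 2 * a ^ 2 := by ring

theorem one (h1 : S_DL) {m : ℕ} {P : Fin d → ℕ} {R C : Finset (Fin d → ℕ)} {c τ : Fin d}
    {W : Finset (Fin d)} {Γ : Kn d} {g : (Fin d → ℕ) → ℝ} {α : ℕ → ℝ} {γ κ : ℝ}
    (hP : ∀ i, P i < 2 ^ m) (hct : c ≠ τ) (hcW : c ∈ W) (hτW : τ ∉ W) (hκ : 0 ≤ κ) (hγ : 0 ≤ γ)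
    (hα : ∀ v, |α v| ≤ 1) (hg : HB m P {c, τ} g γ) (hΓ : KN1 m P R C τ W Γ κ) :
    KN1 m P R C c (W.erase c) (fun q a e => α (q c) * g q * Γ q a e)
      (cd d m * (γ * κ)) := by
  intro θ hθ x z
  obtain ⟨K, hK1, hK2⟩ := h1 d m P {c, τ}ᶜ W hP θ hθ
  have hUV : ({c, τ} : Finset (Fin d))ᶜ ∩ W = W.erase c := by
    ext i
    rw [mem_inter, mem_compl, mem_insert, mem_singleton, mem_erase]
    constructor
    · rintro ⟨h2, h3⟩
      exact ⟨fun h => h2 (Or.inl h), h3⟩
    · rintro ⟨h2, h3⟩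
      refine ⟨?_, h3⟩
      rintro (h4 | h4)
      · exact h2 h4
      · exact hτW (h4 ▸ h3)
  rw [hUV] at hK2
  have hcW' : c ∈ (W.erase c)ᶜ := mem_compl.2 (notMem_erase c W)
  have hcWc : c ∉ Wᶜ := fun h => mem_compl.1 h hcW
  have hτWc : τ ∈ Wᶜ := mem_compl.2 hτW
  -- abbreviations
  set G : ℕ → (Fin d → ℕ) → ℝ := fun v q => Lx R C x (fun e => z e v) Γ q with hG
  set Tt : (Fin d → ℕ) → (Fin d → ℕ) → (Fin d → ℕ) → ℝ := fun θ₁ θ₂ θ₃ =>
    ∑ s ∈ bx (W.erase c)ᶜ P, (∏ i ∈ (W.erase c)ᶜ, wal m (θ i) (s i)) * (α (s c) *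
      (ch m θ₃ s * (TV m P {c, τ}ᶜ θ₁ g s * TV m P W θ₂ (G (s c)) s))) with hTt
  -- the decomposition
  have hdec : ∑ q ∈ box P, ww m P (W.erase c) θ q *
      Lx R C x (fun e => z e (q c)) (fun q a e => α (q c) * g q * Γ q a e) q =
      ∑ θ₁ ∈ Th d m, ∑ θ₂ ∈ Th d m, ∑ θ₃ ∈ Th d m, K θ₁ θ₂ θ₃ * Tt θ₁ θ₂ θ₃ := by
    have a1 : ∀ q, Lx R C x (fun e => z e (q c)) (fun q a e => α (q c) * g q * Γ q a e) q =
        α (pr (W.erase c)ᶜ P q c) * (g q * G (pr (W.erase c)ᶜ P q c) q) := by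
      intro q
      have h2 : pr (W.erase c)ᶜ P q c = q c := by
        unfold pr
        rw [if_pos hcW']
      rw [h2, hG]
      have h3 := form_eq (R := R) (C := C) x (fun e => z e (q c)) Γ q (α (q c) * g q)
      unfold Lx at h3 ⊢
      rw [h3]
      ring
    simp only [a1]
    rw [grp m P (W.erase c) θ (fun s q => α (s c) * (g q * G (s c) q))]
    have a2 : ∀ s ∈ bx (W.erase c)ᶜ P, (∏ i ∈ (W.erase c)ᶜ, wal m (θ i) (s i)) *
        TV m P (W.erase c) θ (fun q => α (s c) * (g q * G (s c) q)) s =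
        ∑ θ₁ ∈ Th d m, ∑ θ₂ ∈ Th d m, ∑ θ₃ ∈ Th d m, K θ₁ θ₂ θ₃ *
          ((∏ i ∈ (W.erase c)ᶜ, wal m (θ i) (s i)) * (α (s c) *
            (ch m θ₃ s * (TV m P {c, τ}ᶜ θ₁ g s * TV m P W θ₂ (G (s c)) s)))) := by
      intro s hs
      have hsb : s ∈ box P := by
        rw [mem_bx] at hs
        rw [mem_box]
        intro i
        have h2 := hs i
        split_ifs at h2
        · exact h2
        · exact h2.le
      rw [TV_smul, hK2 g (G (s c)) s hsb]
      simp only [mul_sum]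
      refine sum_congr rfl fun θ₁ _ => sum_congr rfl fun θ₂ _ => sum_congr rfl fun θ₃ _ => ?_
      ring
    rw [sum_congr rfl a2, sum_comm]
    refine sum_congr rfl fun θ₁ _ => ?_
    rw [sum_comm]
    refine sum_congr rfl fun θ₂ _ => ?_
    rw [sum_comm]
    refine sum_congr rfl fun θ₃ _ => ?_
    rw [hTt, mul_sum]
  rw [hdec]
  -- the bound for one term
  have hT : ∀ θ₁ ∈ Th d m, ∀ θ₂ ∈ Th d m, ∀ θ₃ ∈ Th d m,
      |Tt θ₁ θ₂ θ₃| ≤ γ * κ * (n1 R x * n2 C (P c + 1) z) := by
    intro θ₁ hθ₁ θ₂ hθ₂ θ₃ hθ₃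
    set ĝ : ℕ → ℕ → ℝ := fun v u =>
      TV m P {c, τ}ᶜ θ₁ g (Function.update (Function.update P c v) τ u) with hĝ
    set w : ℕ → ℝ := fun v => wal m (θ c) v * wal m (θ₃ c) v * α v with hw
    set Z : (Fin d → ℕ) → ℕ → ℝ := fun e u => ∑ v ∈ range (P c + 1), w v * z e v * ĝ v u with hZ
    set θ' : Fin d → ℕ := fun i => if i ∈ W then θ₂ i else θ i ^^^ θ₃ i with hθ'
    set σ : ℝ := ∏ i ∈ W.erase c, wal m (θ₃ i) (P i) with hσ
    have hσ1 : |σ| = 1 := by
      rw [hσ, abs_prod]
      exact prod_eq_one fun i _ => abs_wal _ _ _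
    have hθ'Th : θ' ∈ Th d m := by
      unfold Th at hθ hθ₂ hθ₃ ⊢
      rw [Fintype.mem_piFinset] at hθ hθ₂ hθ₃ ⊢
      intro i
      rw [mem_range, hθ']
      dsimp only
      split_ifs
      · exact mem_range.1 (hθ₂ i)
      · exact Nat.xor_lt_two_pow (mem_range.1 (hθ i)) (mem_range.1 (hθ₃ i))
    have hTe : Tt θ₁ θ₂ θ₃ = σ * ∑ q ∈ box P, ww m P W θ' q *
        Lx R C x (fun e => Z e (q τ)) Γ q := by
      have b1 : ∀ q, Lx R C x (fun e => Z e (q τ)) Γ q =
          Lx R C x (fun e => Z e (pr Wᶜ P q τ)) Γ q := by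
        intro q
        have h2 : pr Wᶜ P q τ = q τ := by
          unfold pr
          rw [if_pos hτWc]
        rw [h2]
      simp only [b1]
      rw [grp m P W θ' (fun s q => Lx R C x (fun e => Z e (s τ)) Γ q), mul_sum]
      change ∑ s ∈ bx (W.erase c)ᶜ P, (∏ i ∈ (W.erase c)ᶜ, wal m (θ i) (s i)) * (α (s c) *
        (ch m θ₃ s * (TV m P {c, τ}ᶜ θ₁ g s * TV m P W θ₂ (G (s c)) s))) = _
      rw [split_c hcW]
      refine sum_congr rfl fun t ht => ?_
      rw [mem_bx] at ht
      have b2 : ∀ v, (∏ i ∈ (W.erase c)ᶜ, wal m (θ i) (Function.update t c v i)) =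
          wal m (θ c) v * ∏ i ∈ Wᶜ, wal m (θ i) (t i) := by
        intro v
        have h2 : (W.erase c)ᶜ = insert c Wᶜ := by
          ext i
          rw [mem_compl, mem_erase, mem_insert, mem_compl]
          tauto
        rw [h2, prod_insert hcWc, Function.update_self]
        congr 1
        refine prod_congr rfl fun i hi => ?_
        have h3 : i ≠ c := fun h => hcWc (h ▸ hi)
        rw [Function.update_of_ne h3]
      have b3 : ∀ v, ch m θ₃ (Function.update t c v) =
          wal m (θ₃ c) v * ((∏ i ∈ Wᶜ, wal m (θ₃ i) (t i)) * σ) := by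
        intro v
        unfold ch
        have h2 : (univ : Finset (Fin d)) = insert c (Wᶜ ∪ W.erase c) := by
          ext i
          rw [mem_insert, mem_union, mem_compl, mem_erase]
          simp only [mem_univ, true_iff]
          tauto
        have h3 : Disjoint Wᶜ (W.erase c) :=
          disjoint_left.2 fun i hi hi' => mem_compl.1 hi (mem_of_mem_erase hi')
        have h4 : c ∉ Wᶜ ∪ W.erase c := by
          rw [mem_union]
          rintro (h | h)
          · exact hcWc h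
          · exact notMem_erase c W h
        rw [h2, prod_insert h4, Function.update_self, prod_union h3, hσ]
        congr 2
        · refine prod_congr rfl fun i hi => ?_
          have h6 : i ≠ c := fun h => hcWc (h ▸ hi)
          rw [Function.update_of_ne h6]
        · refine prod_congr rfl fun i hi => ?_
          rw [Function.update_of_ne (ne_of_mem_erase hi)]
          have h5 := ht i
          rw [if_neg (fun h => mem_compl.1 h (mem_of_mem_erase hi))] at h5
          rw [h5]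
      have b4 : ∀ v, TV m P {c, τ}ᶜ θ₁ g (Function.update t c v) = ĝ v (t τ) := by
        intro v
        refine TV_congr fun i hi => ?_
        rw [mem_compl, not_not, mem_insert, mem_singleton] at hi
        rcases hi with hi | hi
        · subst hi
          rw [Function.update_self, Function.update_of_ne hct, Function.update_self]
        · subst hi
          rw [Function.update_of_ne hct.symm, Function.update_self]
      have b5 : ∀ v, TV m P W θ₂ (G v) (Function.update t c v) = TV m P W θ₂ (G v) t := by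
        intro v
        refine TV_congr fun i hi => ?_
        have h6 : i ≠ c := fun h => hi (h ▸ hcW)
        rw [Function.update_of_ne h6]
      have b6 : ∏ i ∈ Wᶜ, wal m (θ' i) (t i) =
          (∏ i ∈ Wᶜ, wal m (θ i) (t i)) * ∏ i ∈ Wᶜ, wal m (θ₃ i) (t i) := by
        rw [← prod_mul_distrib]
        refine prod_congr rfl fun i hi => ?_
        rw [hθ']
        dsimp only
        rw [if_neg (mem_compl.1 hi), Wal.wal_xor]
      have b7 : TV m P W θ' (fun q => Lx R C x (fun e => Z e (t τ)) Γ q) t =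
          ∑ v ∈ range (P c + 1), (w v * ĝ v (t τ)) * TV m P W θ₂ (G v) t := by
        rw [TV_sum (J := range (P c + 1)) (w := fun v => w v * ĝ v (t τ)) (F := G),
          TV_congr' (θ := θ') (θ' := θ₂) (fun i hi => by rw [hθ']; exact if_pos hi)]
        congr 1
        funext q
        rw [hG]
        unfold Lx
        simp only [mul_sum]
        rw [sum_comm (s := range (P c + 1)) (t := R)]
        refine sum_congr rfl fun a _ => ?_
        rw [sum_comm (s := range (P c + 1)) (t := C)]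
        refine sum_congr rfl fun e _ => ?_
        rw [hZ]
        dsimp only
        rw [mul_sum, sum_mul]
        refine sum_congr rfl fun v _ => ?_
        ring
      simp only [b2, b3, b4, Function.update_self, b5]
      rw [b6, b7, mul_sum, mul_sum]
      refine sum_congr rfl fun v _ => ?_
      rw [hw]
      ring
    rw [hTe, abs_mul, hσ1, one_mul]
    refine (hΓ θ' hθ'Th x Z).trans ?_
    have hZn : n2 C (P τ + 1) Z ≤ γ * n2 C (P c + 1) z := by
      unfold n2
      have e1 : γ * Real.sqrt (∑ a ∈ C, ∑ v ∈ range (P c + 1), z a v ^ 2) =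
          Real.sqrt (γ ^ 2 * ∑ a ∈ C, ∑ v ∈ range (P c + 1), z a v ^ 2) := by
        rw [Real.sqrt_mul (sq_nonneg γ), Real.sqrt_sq hγ]
      rw [e1]
      apply Real.sqrt_le_sqrt
      rw [mul_sum]
      refine sum_le_sum fun e _ => ?_
      refine (mat_bound hct (hg θ₁ hθ₁) (fun v => w v * z e v)).trans ?_
      apply mul_le_mul_of_nonneg_left _ (sq_nonneg γ)
      refine sum_le_sum fun v _ => ?_
      rw [mul_pow]
      have h2 : w v ^ 2 ≤ 1 := by
        rw [sq_le_one_iff_abs_le_one, hw]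
        dsimp only
        rw [abs_mul, abs_mul, abs_wal, abs_wal, one_mul, one_mul]
        exact hα v
      nlinarith [sq_nonneg (z e v)]
    have hn : 0 ≤ n1 R x := Real.sqrt_nonneg _
    calc κ * (n1 R x * n2 C (P τ + 1) Z) ≤ κ * (n1 R x * (γ * n2 C (P c + 1) z)) := by gcongr
      _ = γ * κ * (n1 R x * n2 C (P c + 1) z) := by ring
  have hB0 : 0 ≤ γ * κ * (n1 R x * n2 C (P c + 1) z) :=
    mul_nonneg (mul_nonneg hγ hκ) (mul_nonneg (Real.sqrt_nonneg _) (Real.sqrt_nonneg _))
  calc |∑ θ₁ ∈ Th d m, ∑ θ₂ ∈ Th d m, ∑ θ₃ ∈ Th d m, K θ₁ θ₂ θ₃ * Tt θ₁ θ₂ θ₃|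
      ≤ ∑ θ₁ ∈ Th d m, ∑ θ₂ ∈ Th d m, ∑ θ₃ ∈ Th d m,
        |K θ₁ θ₂ θ₃| * (γ * κ * (n1 R x * n2 C (P c + 1) z)) := by
        refine (abs_sum_le_sum_abs _ _).trans (sum_le_sum fun θ₁ h₁ => ?_)
        refine (abs_sum_le_sum_abs _ _).trans (sum_le_sum fun θ₂ h₂ => ?_)
        refine (abs_sum_le_sum_abs _ _).trans (sum_le_sum fun θ₃ h₃ => ?_)
        rw [abs_mul]
        exact mul_le_mul_of_nonneg_left (hT θ₁ h₁ θ₂ h₂ θ₃ h₃) (abs_nonneg _)
    _ = (∑ θ₁ ∈ Th d m, ∑ θ₂ ∈ Th d m, ∑ θ₃ ∈ Th d m, |K θ₁ θ₂ θ₃|) *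
        (γ * κ * (n1 R x * n2 C (P c + 1) z)) := by
        simp only [sum_mul]
    _ ≤ cd d m * (γ * κ * (n1 R x * n2 C (P c + 1) z)) := mul_le_mul_of_nonneg_right hK1 hB0
    _ = cd d m * (γ * κ) * (n1 R x * n2 C (P c + 1) z) := by ring

end St

/-- AM-13 -/
theorem t_ST (h1 : S_DL) : S_ST := by
  intro d m P R C c τ W Γ g α γ κ hP hct hcW hτW hκ hγ hα hg hΓ
  rw [St.KN_iff] at hΓ ⊢
  exact ⟨St.one h1 hP hct hcW hτW hκ hγ hα hg hΓ.1,
    St.one h1 hP hct hcW hτW hκ hγ hα hg hΓ.2⟩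

end Pool.Agent.NH44.AD
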