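import Pool.Agent.NH44.AD.StmM

set_option autoImplicit false

/-!
# AM-10: the top cumulants
-/

namespace Pool.Agent.NH44.AD

open Finset
open Pool.Agent.NH99.WZ (wal)

namespace TopnH89

variable {d : ℕ}

theorem TV_univ (m : ℕ) (P θ : Fin d → ℕ) (F : (Fin d → ℕ) → ℝ) (z : Fin d → ℕ) :
    TV m P (univ : Finset (Fin d))ᶜ θ F z = F z := by
  unfold TV bz
  rw [compl_univ]
  have h : (Fintype.piFinset (fun i => if i ∈ (∅ : Finset (Fin d)) then range (P i + 1)
      else {z i})) = {z} := by
    ext q
    simp only [Fintype.mem_piFinset, Finset.notMem_empty, if_false, mem_singleton]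
    exact ⟨fun h => funext h, fun h i => congrFun h i⟩
  rw [h, sum_singleton, prod_empty, one_mul]

theorem mem_bx {A : Finset (Fin d)} {P s : Fin d → ℕ} :
    s ∈ bx A P ↔ ∀ i, (i ∈ A → s i ≤ P i) ∧ (i ∉ A → s i = P i) := by
  unfold bx
  rw [Fintype.mem_piFinset]
  refine forall_congr' fun i => ?_
  by_cases h : i ∈ A
  · simp only [h, if_true, mem_range, Nat.lt_succ_iff, not_true_eq_false, false_imp_iff,
      and_true, true_imp_iff]
  · simp only [h, if_false, mem_singleton, false_imp_iff, true_and, not_false_eq_true,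
      true_imp_iff]

theorem fib {P : Fin d → ℕ} {n : ℕ} (hP : ∀ i, P i ≤ n) (A : Finset (Fin d)) (a : Fin d → ℕ) :
    (((bx univ P).filter (fun s => ∑ i, s i = n)).filter (fun s => pr A P s = a)).card ≤
      (n + 1) ^ (d - A.card - 1) := by
  classical
  by_cases hA : A = univ
  · subst hA
    have h1 : (((bx univ P).filter (fun s => ∑ i, s i = n)).filter (fun s => pr univ P s = a)) ⊆
        {a} := by
      intro s hs
      have h2 := (mem_filter.1 hs).2
      rw [mem_singleton, ← h2]
      funext i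
      unfold pr
      rw [if_pos (mem_univ i)]
    refine (card_le_card h1).trans ?_
    rw [card_singleton]
    exact Nat.one_le_pow _ _ (Nat.succ_pos n)
  · obtain ⟨j, hj⟩ : ∃ j, j ∉ A := by
      by_contra hcon
      push Not at hcon
      exact hA (eq_univ_iff_forall.2 hcon)
    have hJ : (univ \ insert j A).card = d - A.card - 1 := by
      rw [card_sdiff_of_subset (subset_univ _), card_univ, Fintype.card_fin,
        card_insert_of_notMem hj]
      omega
    have hT : (Fintype.piFinset (fun i : Fin d => if i ∈ (univ \ insert j A) then range (n + 1)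
        else ({0} : Finset ℕ))).card = (n + 1) ^ (univ \ insert j A).card := by
      rw [Fintype.card_piFinset]
      have h1 : ∀ i ∈ (univ : Finset (Fin d)), (if i ∈ (univ \ insert j A) then range (n + 1)
          else ({0} : Finset ℕ)).card = if i ∈ (univ \ insert j A) then n + 1 else 1 := by
        intro i _
        split_ifs
        · rw [card_range]
        · rw [card_singleton]
      rw [prod_congr rfl h1, Finset.prod_ite_mem, univ_inter, prod_const]
    rw [← hJ, ← hT]
    refine card_le_card_of_injOn (fun s i => if i ∈ (univ \ insert j A) then s i else 0) ?_ ?_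
    · intro s hs
      have hs1 := (mem_filter.1 (mem_filter.1 (mem_coe.1 hs)).1).1
      rw [mem_coe, Fintype.mem_piFinset]
      intro i
      dsimp only
      split_ifs with h
      · rw [mem_range, Nat.lt_succ_iff]
        exact ((mem_bx.1 hs1 i).1 (mem_univ i)).trans (hP i)
      · exact mem_singleton_self 0
    · intro s hs s' hs' hss
      obtain ⟨h1, h2⟩ := mem_filter.1 (mem_coe.1 hs)
      obtain ⟨h1', h2'⟩ := mem_filter.1 (mem_coe.1 hs')
      have h3 := (mem_filter.1 h1).2
      have h3' := (mem_filter.1 h1').2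
      have hne : ∀ i, i ≠ j → s i = s' i := by
        intro i hi
        by_cases hiA : i ∈ A
        · have h4 : pr A P s i = pr A P s' i := by rw [h2, h2']
          unfold pr at h4
          rwa [if_pos hiA, if_pos hiA] at h4
        · have h4 := congrFun hss i
          have h5 : i ∈ (univ \ insert j A) := by
            rw [mem_sdiff, mem_insert]
            exact ⟨mem_univ i, fun h => h.elim hi hiA⟩
          dsimp only at h4
          rwa [if_pos h5, if_pos h5] at h4
      funext i
      by_cases hi : i = j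
      · subst hi
        have h4 := Finset.add_sum_erase univ s (mem_univ i)
        have h5 := Finset.add_sum_erase univ s' (mem_univ i)
        have h6 : ∑ x ∈ univ.erase i, s x = ∑ x ∈ univ.erase i, s' x :=
          sum_congr rfl fun x hx => hne x (mem_erase.1 hx).1
        omega
      · exact hne i hi

theorem pr_mem {A : Finset (Fin d)} {P s : Fin d → ℕ} (hs : s ∈ bx univ P) : pr A P s ∈ bx A P := by
  rw [mem_bx] at hs ⊢
  intro i
  unfold pr
  constructor
  · intro h
    rw [if_pos h]
    exact (hs i).1 (mem_univ i)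
  · intro h
    rw [if_neg h]

theorem sum_le {P : Fin d → ℕ} {n : ℕ} (hP : ∀ i, P i ≤ n) (A : Finset (Fin d))
    (x : (Fin d → ℕ) → ℝ) :
    ∑ s ∈ (bx univ P).filter (fun s => ∑ i, s i = n), x (pr A P s) ^ 2 ≤
      ((n : ℝ) + 1) ^ (d - A.card - 1) * nm A P x ^ 2 := by
  unfold nm
  rw [Real.sq_sqrt (sum_nonneg fun _ _ => sq_nonneg _), mul_sum,
    ← Finset.sum_fiberwise_of_maps_to (s := (bx univ P).filter (fun s => ∑ i, s i = n))
      (t := bx A P) (g := pr A P) (fun s hs => pr_mem (mem_filter.1 hs).1)]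
  refine sum_le_sum fun a _ => ?_
  have h1 : ∑ s ∈ ((bx univ P).filter (fun s => ∑ i, s i = n)).filter (fun s => pr A P s = a),
      x (pr A P s) ^ 2 = ∑ s ∈ ((bx univ P).filter (fun s => ∑ i, s i = n)).filter
        (fun s => pr A P s = a), x a ^ 2 :=
    sum_congr rfl fun s hs => by rw [(mem_filter.1 hs).2]
  rw [h1, sum_const, nsmul_eq_mul]
  refine mul_le_mul_of_nonneg_right ?_ (sq_nonneg _)
  have h2 := fib hP A a
  have h3 : ((((((bx univ P).filter (fun s => ∑ i, s i = n)).filter
      (fun s => pr A P s = a)).card : ℕ)) : ℝ) ≤ (((n + 1) ^ (d - A.card - 1) : ℕ) : ℝ) :=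
    Nat.cast_le.2 h2
  push_cast at h3
  exact h3

end TopnH89

open TopnH89 in
theorem t_TOPN : S_TOPN := by
  intro d n m P F ρ hd hP hF hF0 θ _ A B hA hB hAB x z
  have hρ : 0 ≤ ρ := (abs_nonneg _).trans (hF P)
  have hn1 : (1 : ℝ) ≤ (n : ℝ) + 1 := by
    have : (0 : ℝ) ≤ n := Nat.cast_nonneg n
    linarith
  have hn0 : (0 : ℝ) ≤ (n : ℝ) + 1 := by linarith
  set S := (bx univ P).filter (fun s : Fin d → ℕ => ∑ i, s i = n) with hS
  have h1 : |∑ s ∈ bx univ P, x (pr A P s) * z (pr B P s) * TV m P univᶜ θ F s| ≤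
      ρ * ∑ s ∈ S, |x (pr A P s)| * |z (pr B P s)| := by
    have e1 : ∑ s ∈ bx univ P, x (pr A P s) * z (pr B P s) * TV m P univᶜ θ F s =
        ∑ s ∈ S, x (pr A P s) * z (pr B P s) * F s := by
      rw [hS, Finset.sum_filter]
      refine sum_congr rfl fun s _ => ?_
      rw [TV_univ]
      split_ifs with h
      · rfl
      · rw [hF0 s h, mul_zero]
    rw [e1, mul_sum]
    refine (abs_sum_le_sum_abs _ _).trans (sum_le_sum fun s _ => ?_)
    rw [abs_mul, abs_mul, mul_comm ρ]
    exact mul_le_mul_of_nonneg_left (hF s) (by positivity)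
  have h2 : (∑ s ∈ S, |x (pr A P s)| * |z (pr B P s)|) ^ 2 ≤
      (((n : ℝ) + 1) ^ (((d : ℝ) - 2) / 2) * (nm A P x * nm B P z)) ^ 2 := by
    have e1 : (((n : ℝ) + 1) ^ (((d : ℝ) - 2) / 2)) ^ 2 = ((n : ℝ) + 1) ^ (d - 2) := by
      rw [← Real.rpow_natCast, ← Real.rpow_mul hn0, ← Real.rpow_natCast]
      congr 1
      rw [Nat.cast_sub hd]
      push_cast
      ring
    refine (Finset.sum_mul_sq_le_sq_mul_sq S _ _).trans ?_
    simp only [sq_abs]
    have hA1 := sum_le hP A x
    have hB1 := sum_le hP B z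
    refine (mul_le_mul hA1 hB1 (sum_nonneg fun _ _ => sq_nonneg _) (by positivity)).trans ?_
    rw [mul_pow, e1, mul_pow]
    have e2 : ((n : ℝ) + 1) ^ (d - A.card - 1) * nm A P x ^ 2 *
        (((n : ℝ) + 1) ^ (d - B.card - 1) * nm B P z ^ 2) =
        ((n : ℝ) + 1) ^ ((d - A.card - 1) + (d - B.card - 1)) * (nm A P x ^ 2 * nm B P z ^ 2) := by
      rw [pow_add]
      ring
    rw [e2]
    refine mul_le_mul_of_nonneg_right (pow_le_pow_right₀ hn1 ?_) (by positivity)
    have c1 : 1 ≤ A.card := hA.card_pos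
    have c2 : 1 ≤ B.card := hB.card_pos
    have c3 : d ≤ A.card + B.card := by
      have h3 := card_union_le A B
      rw [hAB, card_univ, Fintype.card_fin] at h3
      exact h3
    omega
  have hb0 : 0 ≤ ((n : ℝ) + 1) ^ (((d : ℝ) - 2) / 2) * (nm A P x * nm B P z) :=
    mul_nonneg (Real.rpow_nonneg hn0 _) (mul_nonneg (Real.sqrt_nonneg _) (Real.sqrt_nonneg _))
  have h3 := (le_abs_self _).trans (abs_le_of_sq_le_sq h2 hb0)
  refine h1.trans ?_
  rw [mul_assoc]
  exact mul_le_mul_of_nonneg_left h3 hρ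

end Pool.Agent.NH44.AD
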