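import Pool.Agent.NH44.AD.Chi
import Pool.Agent.NH44.AD.Chn
import Pool.Agent.NH44.AD.Cmp
import Pool.Agent.NH44.AD.Dec
import Pool.Agent.NH44.AD.Det
import Pool.Agent.NH44.AD.Dl
import Pool.Agent.NH44.AD.Dwt
import Pool.Agent.NH44.AD.Fbt
import Pool.Agent.NH44.AD.Hbt
import Pool.Agent.NH44.AD.Inv
import Pool.Agent.NH44.AD.Knt
import Pool.Agent.NH44.AD.Ks
import Pool.Agent.NH44.AD.Ksb
import Pool.Agent.NH44.AD.L12
import Pool.Agent.NH44.AD.Log
import Pool.Agent.NH44.AD.Pdc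
import Pool.Agent.NH44.AD.Prd
import Pool.Agent.NH44.AD.Rem
import Pool.Agent.NH44.AD.Sdi
import Pool.Agent.NH44.AD.Sdn
import Pool.Agent.NH44.AD.St
import Pool.Agent.NH44.AD.Topn

set_option autoImplicit false

/-!
# Project AD: the middle part without hypotheses
-/

namespace Pool.Agent.NH44.AD

open Finset
open Pool.Agent.NH43.AD (Ce DD KK)

theorem all_DWT : S_DWT := t_DWT
theorem all_DL : S_DL := t_DL all_DWT
theorem all_FBT : S_FBT := t_FBT
theorem all_CMP : S_CMP := t_CMP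
theorem all_L12 : S_L12 := t_L12 all_CMP all_FBT
theorem all_HBT : S_HBT := t_HBT all_DL all_FBT
theorem all_PRD : S_PRD := t_PRD all_DL all_FBT all_L12
theorem all_INV : S_INV := t_INV all_HBT all_PRD
theorem all_LOG : S_LOG := t_LOG all_FBT all_HBT all_PRD
theorem all_TOPN : S_TOPN := t_TOPN

/-- the deterministic bounds; the hypothesis is part of `S_LAW` -/
theorem all_DET (hU : ∀ (d : ℕ) (X : Fin d → ℕ → ℝ) (y : Ce d → ℝ), 2 ≤ d →
      (∀ i v, X i v = 1 ∨ X i v = -1) → ∀ s : Ce d, DD y s ≠ 0 →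
      KK X y univ s = (∏ i, X i (s i)) * y s) : S_DET :=
  t_DET all_HBT all_PRD all_INV all_LOG all_TOPN hU

theorem all_KNT : S_KNT := t_KNT
theorem all_ST : S_ST := t_ST all_DL
theorem all_KS : S_KS := t_KS
theorem all_SDN : S_SDN := t_SDN all_KNT all_ST all_KS
theorem all_SDI : S_SDI := t_SDI
theorem all_PDC : S_PDC := t_PDC
theorem all_CHI : S_CHI := t_CHI
theorem all_CHN : S_CHN := t_CHN all_KNT all_ST
theorem all_KSB : S_KSB := t_KSB
theorem all_HMF : S_HMF := t_HMF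
theorem all_RMN : S_RMN := t_RMN
theorem all_REM : S_REM := t_REM all_DL all_KNT
theorem all_G0N : S_G0N := t_G0N
theorem all_DEC : S_DEC := t_DEC all_SDI

end Pool.Agent.NH44.AD
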