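import Pool.Agent.NH44.AD.StmM

set_option autoImplicit false

/-!
# AM-18: the chain identity
-/

namespace Pool.Agent.NH44.AD

open Finset
open Pool.Agent.NH99.WZ (wal)

namespace ChiH89

variable {d : ℕ}

/-- the cell on the path in the step `c` -/
def rr (Q : Fin d → ℕ) (τ c : Fin d) (w : ℕ) (q : Fin d → ℕ) : Fin d → ℕ := fun i =>
  if i = c then w else if i = τ then q i else if i < c then Q i else q i

/-- the cell after `j` steps of the path -/
def pp (Q : Fin d → ℕ) (τ : Fin d) (q : Fin d → ℕ) (j : ℕ) : Fin d → ℕ := fun i =>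
  if (i : ℕ) < j ∧ i ≠ τ then Q i else q i

theorem mem_box {Q q : Fin d → ℕ} : q ∈ box Q ↔ ∀ i, q i ≤ Q i := by
  unfold box
  simp only [Fintype.mem_piFinset, mem_range, Nat.lt_succ_iff]

theorem pp_zero (Q : Fin d → ℕ) (τ : Fin d) (q : Fin d → ℕ) : pp Q τ q 0 = q := by
  funext i
  unfold pp
  rw [if_neg]
  rintro ⟨h, -⟩
  exact Nat.not_lt_zero _ h

theorem pp_last (Q : Fin d → ℕ) (τ : Fin d) (q : Fin d → ℕ) :
    pp Q τ q d = Function.update Q τ (q τ) := by
  funext i
  unfold pp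
  by_cases h : i = τ
  · subst h
    rw [if_neg (fun h => h.2 rfl), Function.update_self]
  · rw [if_pos ⟨i.2, h⟩, Function.update_of_ne h]

theorem pp_same (Q : Fin d → ℕ) (τ : Fin d) (q : Fin d → ℕ) :
    pp Q τ q ((τ : ℕ) + 1) = pp Q τ q (τ : ℕ) := by
  funext i
  unfold pp
  by_cases h : i = τ
  · subst h
    rw [if_neg (fun h => h.2 rfl), if_neg (fun h => h.2 rfl)]
  · have h1 : ((i : ℕ) < (τ : ℕ) + 1 ∧ i ≠ τ) ↔ ((i : ℕ) < (τ : ℕ) ∧ i ≠ τ) := by
      constructor
      · rintro ⟨h2, h3⟩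
        refine ⟨lt_of_le_of_ne (Nat.lt_succ_iff.1 h2) (fun h4 => h3 (Fin.ext h4)), h3⟩
      · rintro ⟨h2, h3⟩
        exact ⟨Nat.lt_succ_of_lt h2, h3⟩
    simp only [h1]

theorem pp_start (Q : Fin d → ℕ) (τ c : Fin d) (hc : c ≠ τ) (q : Fin d → ℕ) :
    pp Q τ q (c : ℕ) = rr Q τ c (q c) q := by
  funext i
  unfold pp rr
  by_cases h : i = c
  · subst h
    rw [if_neg (fun h => lt_irrefl _ h.1), if_pos rfl]
  · rw [if_neg h]
    by_cases h2 : i = τ
    · rw [if_neg (fun h3 => h3.2 h2), if_pos h2]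
    · rw [if_neg h2]
      by_cases h3 : i < c
      · rw [if_pos h3, if_pos ⟨h3, h2⟩]
      · rw [if_neg h3, if_neg (fun h4 => h3 h4.1)]

theorem pp_end (Q : Fin d → ℕ) (τ c : Fin d) (hc : c ≠ τ) (q : Fin d → ℕ) :
    pp Q τ q ((c : ℕ) + 1) = rr Q τ c (Q c) q := by
  funext i
  unfold pp rr
  by_cases h : i = c
  · subst h
    rw [if_pos ⟨Nat.lt_succ_self _, hc⟩, if_pos rfl]
  · rw [if_neg h]
    by_cases h2 : i = τ
    · rw [if_neg (fun h3 => h3.2 h2), if_pos h2]
    · rw [if_neg h2]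
      by_cases h3 : i < c
      · rw [if_pos h3, if_pos ⟨Nat.lt_succ_of_lt h3, h2⟩]
      · rw [if_neg h3, if_neg]
        rintro ⟨h4, -⟩
        exact h3 (lt_of_le_of_ne (Nat.lt_succ_iff.1 h4) h)

theorem rr_box {Q : Fin d → ℕ} {τ c : Fin d} {w : ℕ} {q : Fin d → ℕ} (hq : q ∈ box Q)
    (hw : w ≤ Q c) : rr Q τ c w q ∈ box Q := by
  rw [mem_box] at hq ⊢
  intro i
  unfold rr
  split_ifs with h1 h2 h3
  · subst h1
    exact hw
  · exact hq i
  · exact le_rfl
  · exact hq i

theorem rr_c (Q : Fin d → ℕ) (τ c : Fin d) (w : ℕ) (q : Fin d → ℕ) : rr Q τ c w q c = w := by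
  unfold rr
  rw [if_pos rfl]

theorem rr_τ (Q : Fin d → ℕ) {τ c : Fin d} (hc : c ≠ τ) (w : ℕ) (q : Fin d → ℕ) :
    rr Q τ c w q τ = q τ := by
  unfold rr
  rw [if_neg (fun h => hc h.symm), if_pos rfl]

theorem rr_update (Q : Fin d → ℕ) (τ c : Fin d) (w : ℕ) (q : Fin d → ℕ) :
    Function.update (rr Q τ c w q) c (rr Q τ c w q c + 1) = rr Q τ c (w + 1) q := by
  funext i
  by_cases h : i = c
  · subst h
    rw [Function.update_self, rr_c, rr_c]
  · rw [Function.update_of_ne h]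
    unfold rr
    rw [if_neg h, if_neg h]

theorem tel (f : ℕ → ℝ) {m n : ℕ} (h : m ≤ n) : ∑ w ∈ Ico m n, (f (w + 1) - f w) = f n - f m := by
  induction n, h using Nat.le_induction with
  | base => simp
  | succ n hn ih =>
    rw [Finset.sum_Ico_succ_top hn, ih]
    ring

theorem step {Q : Fin d → ℕ} {X : Fin d → ℕ → ℝ} {b : Fin d → (Fin d → ℕ) → ℝ}
    {h : Fin d → Fin d → (Fin d → ℕ) → ℝ} (hU : U1 X b h Q) {τ : Fin d} {q : Fin d → ℕ}
    (hq : q ∈ box Q) (hτ : q τ < Q τ) (c : Fin d) :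
    b τ (pp Q τ q ((c : ℕ) + 1)) - b τ (pp Q τ q (c : ℕ)) =
      if τ = c then 0 else ∑ w ∈ Ico (q c) (Q c),
        inn X b c (rr Q τ c w q) * h c τ (rr Q τ c w q) := by
  by_cases hc : τ = c
  · subst hc
    rw [if_pos rfl, pp_same, sub_self]
  · have hc' : c ≠ τ := fun h => hc h.symm
    rw [if_neg hc, pp_start Q τ c hc', pp_end Q τ c hc', ← tel (fun w => b τ (rr Q τ c w q))
      (mem_box.1 hq c)]
    refine sum_congr rfl fun w hw => ?_
    obtain ⟨-, hw2⟩ := mem_Ico.1 hw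
    have h1 := hU τ c hc (rr Q τ c w q) (rr_box hq hw2.le) (by rw [rr_c]; exact hw2)
      (by rw [rr_τ Q hc']; exact hτ)
    rw [rr_update] at h1
    rw [h1]
    ring

theorem path {Q : Fin d → ℕ} {X : Fin d → ℕ → ℝ} {b : Fin d → (Fin d → ℕ) → ℝ}
    {h : Fin d → Fin d → (Fin d → ℕ) → ℝ} (hU : U1 X b h Q) {τ : Fin d} {q : Fin d → ℕ}
    (hq : q ∈ box Q) (hτ : q τ < Q τ) :
    b τ (Function.update Q τ (q τ)) - b τ q =
      ∑ c : Fin d, if τ = c then 0 else ∑ w ∈ Ico (q c) (Q c),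
        inn X b c (rr Q τ c w q) * h c τ (rr Q τ c w q) := by
  have h1 : ∑ c : Fin d, (b τ (pp Q τ q ((c : ℕ) + 1)) - b τ (pp Q τ q (c : ℕ))) =
      b τ (Function.update Q τ (q τ)) - b τ q := by
    rw [← Finset.sum_range (fun j => b τ (pp Q τ q (j + 1)) - b τ (pp Q τ q j)),
      Finset.sum_range_sub (fun j => b τ (pp Q τ q j)), pp_last, pp_zero]
  rw [← h1]
  exact sum_congr rfl fun c _ => step hU hq hτ c

/-- the condition in the definition of the chain operator -/
def Cnd (Q : Fin d → ℕ) (τ c : Fin d) (r s : Fin d → ℕ) : Prop :=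
  (r c < Q c ∧ r τ < Q τ ∧ ∀ i, i < c → i ≠ τ → r i = Q i) ∧
    (s τ = r τ ∧ s c ≤ r c ∧ ∀ i, c < i → i ≠ τ → s i = r i)

open Classical in
theorem sum_r (Q : Fin d → ℕ) {τ c : Fin d} (hc : τ ≠ c) {s : Fin d → ℕ} (hs : s ∈ box Q)
    (G : (Fin d → ℕ) → ℝ) :
    ∑ r ∈ box Q, (if Cnd Q τ c r s then G r else 0) =
      if s τ < Q τ then ∑ w ∈ Ico (s c) (Q c), G (rr Q τ c w s) else 0 := by
  have hc' : c ≠ τ := fun h => hc h.symm
  rw [← Finset.sum_filter]
  by_cases hτ : s τ < Q τ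
  · rw [if_pos hτ]
    refine Finset.sum_bij' (fun r _ => r c) (fun w _ => rr Q τ c w s) ?_ ?_ ?_ ?_ ?_
    · intro r hr
      obtain ⟨-, h1, h2⟩ := mem_filter.1 hr
      exact mem_Ico.2 ⟨h2.2.1, h1.1⟩
    · intro w hw
      obtain ⟨hw1, hw2⟩ := mem_Ico.1 hw
      refine mem_filter.2 ⟨rr_box hs hw2.le, ⟨?_, ?_, ?_⟩, ?_, ?_, ?_⟩
      · rw [rr_c]; exact hw2
      · rw [rr_τ Q hc']; exact hτ
      · intro i hi hiτ
        unfold rr
        rw [if_neg hi.ne, if_neg hiτ, if_pos hi]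
      · rw [rr_τ Q hc']
      · rw [rr_c]; exact hw1
      · intro i hi hiτ
        unfold rr
        rw [if_neg hi.ne', if_neg hiτ, if_neg (not_lt.2 hi.le)]
    · intro r hr
      obtain ⟨-, h1, h2⟩ := mem_filter.1 hr
      funext i
      show rr Q τ c (r c) s i = r i
      unfold rr
      by_cases h3 : i = c
      · subst h3
        rw [if_pos rfl]
      · rw [if_neg h3]
        by_cases h4 : i = τ
        · rw [if_pos h4, h4]
          exact h2.1
        · rw [if_neg h4]
          by_cases h5 : i < c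
          · rw [if_pos h5]
            exact (h1.2.2 i h5 h4).symm
          · rw [if_neg h5]
            exact h2.2.2 i (lt_of_le_of_ne (not_lt.1 h5) (fun h => h3 h.symm)) h4
    · intro w hw
      exact rr_c Q τ c w s
    · intro r hr
      obtain ⟨-, h1, h2⟩ := mem_filter.1 hr
      congr 1
      funext i
      unfold rr
      by_cases h3 : i = c
      · subst h3
        rw [if_pos rfl]
      · rw [if_neg h3]
        by_cases h4 : i = τ
        · rw [if_pos h4, h4]
          exact h2.1.symm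
        · rw [if_neg h4]
          by_cases h5 : i < c
          · rw [if_pos h5]
            exact h1.2.2 i h5 h4
          · rw [if_neg h5]
            exact (h2.2.2 i (lt_of_le_of_ne (not_lt.1 h5) (fun h => h3 h.symm)) h4).symm
  · rw [if_neg hτ]
    refine Finset.sum_eq_zero fun r hr => ?_
    obtain ⟨-, h1, h2⟩ := mem_filter.1 hr
    exact absurd (h2.1 ▸ h1.2.1) hτ

theorem pair (Q : Fin d → ℕ) (X : Fin d → ℕ → ℝ) (b : Fin d → (Fin d → ℕ) → ℝ)
    (h : Fin d → Fin d → (Fin d → ℕ) → ℝ) (Γ : Kn d) (a e : Fin d → ℕ) {τ c : Fin d}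
    (hc : τ ≠ c) :
    ∑ r ∈ box Q, (if r c < Q c then ch1 h Q c τ Γ r a e * inn X b c r else 0) =
      ∑ q ∈ box Q, if q τ < Q τ then Γ q a e * ∑ w ∈ Ico (q c) (Q c),
        inn X b c (rr Q τ c w q) * h c τ (rr Q τ c w q) else 0 := by
  classical
  have h1 : ∀ r ∈ box Q, (if r c < Q c then ch1 h Q c τ Γ r a e * inn X b c r else 0) =
      ∑ s ∈ box Q, if Cnd Q τ c r s then Γ s a e * (inn X b c r * h c τ r) else 0 := by
    intro r _
    unfold ch1 Cnd
    by_cases h2 : r c < Q c ∧ r τ < Q τ ∧ ∀ i, i < c → i ≠ τ → r i = Q i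
    · rw [if_pos h2.1, if_pos h2, mul_sum, sum_mul]
      refine sum_congr rfl fun s _ => ?_
      by_cases h3 : s τ = r τ ∧ s c ≤ r c ∧ ∀ i, c < i → i ≠ τ → s i = r i
      · rw [if_pos h3, if_pos ⟨h2, h3⟩]
        ring
      · rw [if_neg h3, if_neg (fun h => h3 h.2)]
        ring
    · rw [if_neg h2, zero_mul, ite_self]
      refine (sum_eq_zero fun s _ => ?_).symm
      rw [if_neg (fun h => h2 h.1)]
  rw [sum_congr rfl h1, sum_comm]
  refine sum_congr rfl fun s hs => ?_
  rw [sum_r Q hc hs (fun r => Γ s a e * (inn X b c r * h c τ r))]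
  split_ifs
  · rw [mul_sum]
  · rfl

theorem first (Q : Fin d → ℕ) (X : Fin d → ℕ → ℝ) (b : Fin d → (Fin d → ℕ) → ℝ)
    (Γ : Kn d) (a e : Fin d → ℕ) (τ : Fin d) :
    MM X b Q τ Γ a e = ∑ q ∈ box Q, if q τ < Q τ then
      Γ q a e * inn X b τ (Function.update Q τ (q τ)) else 0 := by
  unfold MM HH
  simp only [mul_sum]
  rw [sum_comm]
  refine sum_congr rfl fun q _ => ?_
  have h1 : ∀ v ∈ range (Q τ), inn X b τ (Function.update Q τ v) * (if q τ = v then Γ q a e else 0) =
      if q τ = v then Γ q a e * inn X b τ (Function.update Q τ v) else 0 := by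
    intro v _
    split_ifs
    · ring
    · ring
  rw [sum_congr rfl h1, Finset.sum_ite_eq]
  simp only [mem_range]

end ChiH89

open ChiH89 in
theorem t_CHI : S_CHI := by
  intro d Q X b h hU Γ a e
  have hAC : LL X b Q (AC h Q Γ) a e = ∑ τ, ∑ q ∈ box Q, if q τ < Q τ then
      Γ τ q a e * (b τ (Function.update Q τ (q τ)) - b τ q) else 0 := by
    have h1 : LL X b Q (AC h Q Γ) a e = ∑ c, ∑ τ, if τ = c then 0 else
        ∑ r ∈ box Q, (if r c < Q c then ch1 h Q c τ (Γ τ) r a e * inn X b c r else 0) := by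
      unfold LL AC
      refine sum_congr rfl fun c _ => ?_
      have h2 : ∀ r ∈ box Q, (if r c < Q c then (∑ τ, if τ = c then 0 else
          ch1 h Q c τ (Γ τ) r a e) * inn X b c r else 0) = ∑ τ, if τ = c then 0 else
            (if r c < Q c then ch1 h Q c τ (Γ τ) r a e * inn X b c r else 0) := by
        intro r _
        by_cases h3 : r c < Q c
        · rw [if_pos h3, sum_mul]
          refine sum_congr rfl fun τ _ => ?_
          by_cases h4 : τ = c
          · rw [if_pos h4, if_pos h4, zero_mul]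
          · rw [if_neg h4, if_neg h4, if_pos h3]
        · rw [if_neg h3]
          refine (sum_eq_zero fun τ _ => ?_).symm
          rw [if_neg h3, ite_self]
      rw [sum_congr rfl h2, sum_comm]
      refine sum_congr rfl fun τ _ => ?_
      by_cases h4 : τ = c
      · simp only [if_pos h4, sum_const_zero]
      · simp only [if_neg h4]
    rw [h1, sum_comm]
    refine sum_congr rfl fun τ _ => ?_
    have h5 : ∀ q ∈ box Q, (if q τ < Q τ then
        Γ τ q a e * (b τ (Function.update Q τ (q τ)) - b τ q) else 0) =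
        ∑ c : Fin d, if τ = c then 0 else (if q τ < Q τ then Γ τ q a e * ∑ w ∈ Ico (q c) (Q c),
          inn X b c (rr Q τ c w q) * h c τ (rr Q τ c w q) else 0) := by
      intro q hq
      by_cases h6 : q τ < Q τ
      · rw [if_pos h6, path hU hq h6, mul_sum]
        refine sum_congr rfl fun c _ => ?_
        by_cases h7 : τ = c
        · rw [if_pos h7, if_pos h7, mul_zero]
        · rw [if_neg h7, if_neg h7, if_pos h6]
      · rw [if_neg h6]
        refine (sum_eq_zero fun c _ => ?_).symm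
        rw [if_neg h6, ite_self]
    rw [sum_congr rfl h5, sum_comm]
    refine sum_congr rfl fun c _ => ?_
    by_cases h7 : τ = c
    · simp only [if_pos h7, sum_const_zero]
    · simp only [if_neg h7]
      exact pair Q X b h (Γ τ) a e h7
  rw [hAC, ← sum_add_distrib]
  unfold LL
  refine sum_congr rfl fun τ _ => ?_
  rw [first, ← sum_add_distrib]
  refine sum_congr rfl fun q _ => ?_
  split_ifs with h8
  · unfold inn
    rw [Function.update_self]
    ring
  · rw [add_zero]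

end Pool.Agent.NH44.AD
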