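import Pool.Agent.NH44.AD.Nrm

set_option autoImplicit false

/-!
# Project AD (every dimension): kernels, innovations, seeds and chains (definitions)

`X i v` signs, `b i s` bias of the digit `X i (s i)` given the digits below `s`, `h c τ s` the
coefficient of the innovation of the coordinate `c` in the increment of `b τ` in the direction `c`.
All families are abstract; in the application they are cut off outside of the good cells, so that the
seeds and the chains are predictable.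
-/

namespace Pool.Agent.NH44.AD

open Finset
open Pool.Agent.NH99.WZ (wal)

variable {d : ℕ}

/-- kernels: cell, row, column -/
abbrev Kn (d : ℕ) : Type := (Fin d → ℕ) → (Fin d → ℕ) → (Fin d → ℕ) → ℝ

/-- the constant of the product lemma -/
noncomputable def cd (d m : ℕ) : ℝ := (3 * ((m : ℝ) + 2)) ^ d

/-- Euclidean norms over finite sets -/
noncomputable def n1 (R : Finset (Fin d → ℕ)) (x : (Fin d → ℕ) → ℝ) : ℝ :=
  Real.sqrt (∑ a ∈ R, x a ^ 2)

/-- Euclidean norms over finite sets times `range V` -/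
noncomputable def n2 (R : Finset (Fin d → ℕ)) (V : ℕ) (z : (Fin d → ℕ) → ℕ → ℝ) : ℝ :=
  Real.sqrt (∑ a ∈ R, ∑ v ∈ range V, z a v ^ 2)

/-- operator norm of the matrix with rows `R` and columns `C` -/
def MO (R C : Finset (Fin d → ℕ)) (M : (Fin d → ℕ) → (Fin d → ℕ) → ℝ) (κ : ℝ) : Prop :=
  ∀ x z : (Fin d → ℕ) → ℝ, |∑ a ∈ R, ∑ e ∈ C, x a * z e * M a e| ≤ κ * (n1 R x * n1 C z)

/-- stacks of matrices `M v`, `v < V`: row stack and column stack have norm at most `ν` -/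
def SB (R C : Finset (Fin d → ℕ)) (V : ℕ) (M : ℕ → (Fin d → ℕ) → (Fin d → ℕ) → ℝ) (ν : ℝ) : Prop :=
  ∀ (x : (Fin d → ℕ) → ℝ) (z : (Fin d → ℕ) → ℕ → ℝ),
    |∑ v ∈ range V, ∑ a ∈ R, ∑ e ∈ C, x a * z e v * M v a e| ≤ ν * (n1 R x * n2 C V z) ∧
    |∑ v ∈ range V, ∑ a ∈ R, ∑ e ∈ C, x e * z a v * M v a e| ≤ ν * (n1 C x * n2 R V z)

/-- weights: difference weights in the directions `W`, Walsh functions in the other directions -/
def ww (m : ℕ) (P : Fin d → ℕ) (W : Finset (Fin d)) (θ q : Fin d → ℕ) : ℝ :=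
  ∏ i, if i ∈ W then dw m (P i) (θ i) (q i) else wal m (θ i) (q i)

/-- the norm of a kernel of type `τ` with differences in the directions `W` in the box `P` -/
def KN (m : ℕ) (P : Fin d → ℕ) (R C : Finset (Fin d → ℕ)) (τ : Fin d) (W : Finset (Fin d))
    (Γ : Kn d) (κ : ℝ) : Prop :=
  ∀ θ ∈ Th d m, ∀ (x : (Fin d → ℕ) → ℝ) (z : (Fin d → ℕ) → ℕ → ℝ),
    |∑ q ∈ box P, ∑ a ∈ R, ∑ e ∈ C, x a * z e (q τ) * (ww m P W θ q * Γ q a e)| ≤
      κ * (n1 R x * n2 C (P τ + 1) z) ∧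
    |∑ q ∈ box P, ∑ a ∈ R, ∑ e ∈ C, x e * z a (q τ) * (ww m P W θ q * Γ q a e)| ≤
      κ * (n1 C x * n2 R (P τ + 1) z)

/-- innovations -/
def inn (X : Fin d → ℕ → ℝ) (b : Fin d → (Fin d → ℕ) → ℝ) (τ : Fin d) (s : Fin d → ℕ) : ℝ :=
  X τ (s τ) - b τ s

/-- the sum of the innovations with the coefficients `Γ` -/
def LL (X : Fin d → ℕ → ℝ) (b : Fin d → (Fin d → ℕ) → ℝ) (Q : Fin d → ℕ) (Γ : Fin d → Kn d)
    (a e : Fin d → ℕ) : ℝ :=
  ∑ τ, ∑ q ∈ box Q, if q τ < Q τ then Γ τ q a e * inn X b τ q else 0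

/-- the matrices of the fresh part -/
def HH (Q : Fin d → ℕ) (τ : Fin d) (Γ : Kn d) (v : ℕ) (a e : Fin d → ℕ) : ℝ :=
  ∑ q ∈ box Q, if q τ = v then Γ q a e else 0

/-- the fresh part of type `τ` -/
def MM (X : Fin d → ℕ → ℝ) (b : Fin d → (Fin d → ℕ) → ℝ) (Q : Fin d → ℕ) (τ : Fin d) (Γ : Kn d)
    (a e : Fin d → ℕ) : ℝ :=
  ∑ v ∈ range (Q τ), inn X b τ (Function.update Q τ v) * HH Q τ Γ v a e

/-- one step of the chain, from type `τ` to type `c` -/
def ch1 (h : Fin d → Fin d → (Fin d → ℕ) → ℝ) (Q : Fin d → ℕ) (c τ : Fin d) (Γ : Kn d) : Kn d :=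
  fun r a e => if r c < Q c ∧ r τ < Q τ ∧ ∀ i, i < c → i ≠ τ → r i = Q i then
    h c τ r * ∑ s ∈ box Q, (if s τ = r τ ∧ s c ≤ r c ∧ ∀ i, c < i → i ≠ τ → s i = r i then
      Γ s a e else 0) else 0

/-- the chain operator -/
def AC (h : Fin d → Fin d → (Fin d → ℕ) → ℝ) (Q : Fin d → ℕ) (Γ : Fin d → Kn d) : Fin d → Kn d :=
  fun c r a e => ∑ τ, if τ = c then 0 else ch1 h Q c τ (Γ τ) r a e

/-- backward difference of a kernel -/
def kd (c : Fin d) (Γ : Kn d) : Kn d :=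
  fun q a e => Γ q a e - if q c = 0 then 0 else Γ (Function.update q c (q c - 1)) a e

/-- the seeds: the directions of the list are processed one after the other -/
def sd (m : ℕ) (h : Fin d → Fin d → (Fin d → ℕ) → ℝ) (Q θ : Fin d → ℕ) :
    List (Fin d) → Fin d → Kn d → Fin d → Kn d
  | [], k, Γ => fun τ q a e => if τ = k then Γ q a e else 0
  | c :: W, k, Γ => fun τ q a e =>
      sd m h Q θ W k (fun q a e => wal m (θ c) (q c) * kd c Γ q a e) τ q a e -
        sd m h Q θ W c (fun q a e => if q c < Q c then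
          wal m (θ c) (q c + 1) * h c k q * Γ q a e else 0) τ q a e

/-- the matrix of the difference transform of `F` (tensor coordinates `S = A ∪ B`) -/
def HM (m : ℕ) (Q : Fin d → ℕ) (S A B : Finset (Fin d)) (θ : Fin d → ℕ) (F : (Fin d → ℕ) → ℝ)
    (a e : Fin d → ℕ) : ℝ :=
  ∑ q ∈ box Q, if pr A Q q = a ∧ pr B Q q = e then
    (∏ i ∈ Sᶜ, dw m (Q i) (θ i) (q i)) * F q else 0

/-- the start kernel of the seeds (type `k`) -/
def G0 (m : ℕ) (Q : Fin d → ℕ) (A B : Finset (Fin d)) (θ : Fin d → ℕ) (k : Fin d)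
    (G : (Fin d → ℕ) → ℝ) : Kn d :=
  fun q a e => if pr A Q q = a ∧ pr B Q q = e ∧ q k < Q k then
    wal m (θ k) (q k + 1) * G q else 0

/-- the matrix of the non-linear part -/
def RM (m : ℕ) (Q : Fin d → ℕ) (S A B : Finset (Fin d)) (θ : Fin d → ℕ) (k : Fin d)
    (p : (Fin d → ℕ) → ℝ) (a e : Fin d → ℕ) : ℝ :=
  ∑ q ∈ box Q, if pr A Q q = a ∧ pr B Q q = e ∧ q k < Q k then
    (∏ i ∈ (insert k S)ᶜ, dw m (Q i) (θ i) (q i)) * (wal m (θ k) (q k + 1) * p q) else 0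

/-- the biases satisfy the evolution equation in the box `Q` -/
def U1 (X : Fin d → ℕ → ℝ) (b : Fin d → (Fin d → ℕ) → ℝ) (h : Fin d → Fin d → (Fin d → ℕ) → ℝ)
    (Q : Fin d → ℕ) : Prop :=
  ∀ i c : Fin d, i ≠ c → ∀ q ∈ box Q, q c < Q c → q i < Q i →
    b i (Function.update q c (q c + 1)) = b i q + inn X b c q * h c i q

end Pool.Agent.NH44.AD
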