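import Pool.Agent.NH99.WZ.Defs

set_option autoImplicit false

/-!
# Project AD (every dimension): twisted difference sums and flattening norms

Cells are functions `Fin d → ℕ`.  All difference sums are sums over the whole box `q ≤ P` with product
weights: `∑ q ≤ p, dw m p a q * F q = ∑ q ≤ p, wal m a q * (F q - F (q - 1))` (with `F (-1) = 0`).
-/

namespace Pool.Agent.NH44.AD

open Finset
open Pool.Agent.NH99.WZ (wal)

variable {d : ℕ}

/-- the weights of the difference sums up to `p` -/
def dw (m p a q : ℕ) : ℝ := wal m a q - if q < p then wal m a (q + 1) else 0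

/-- the cell with the coordinates of `s` in `A`, of `P` elsewhere -/
def pr (A : Finset (Fin d)) (P s : Fin d → ℕ) : Fin d → ℕ := fun i => if i ∈ A then s i else P i

/-- the cells below `P` with the coordinates of `P` outside `A` -/
def bx (A : Finset (Fin d)) (P : Fin d → ℕ) : Finset (Fin d → ℕ) :=
  Fintype.piFinset (fun i => if i ∈ A then range (P i + 1) else {P i})

/-- the cells below `P` -/
def box (P : Fin d → ℕ) : Finset (Fin d → ℕ) := Fintype.piFinset (fun i => range (P i + 1))

/-- the cells with coordinates at most `P i` for `i ∈ W`, the other coordinates are those of `z` -/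
def bz (W : Finset (Fin d)) (P z : Fin d → ℕ) : Finset (Fin d → ℕ) :=
  Fintype.piFinset (fun i => if i ∈ W then range (P i + 1) else {z i})

/-- the indices of the Walsh functions -/
def Th (d m : ℕ) : Finset (Fin d → ℕ) := Fintype.piFinset (fun _ => range (2 ^ m))

/-- product of Walsh functions -/
def ch (m : ℕ) (θ s : Fin d → ℕ) : ℝ := ∏ i, wal m (θ i) (s i)

/-- the difference transform in the coordinates `W` -/
def TV (m : ℕ) (P : Fin d → ℕ) (W : Finset (Fin d)) (θ : Fin d → ℕ) (F : (Fin d → ℕ) → ℝ)
    (z : Fin d → ℕ) : ℝ :=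
  ∑ q ∈ bz W P z, (∏ i ∈ W, dw m (P i) (θ i) (q i)) * F q

/-- Euclidean norm of a function of the coordinates in `A` -/
noncomputable def nm (A : Finset (Fin d)) (P : Fin d → ℕ) (x : (Fin d → ℕ) → ℝ) : ℝ :=
  Real.sqrt (∑ a ∈ bx A P, x a ^ 2)

/-- The tensor norm: the tensor `T` over the coordinates `I` in the box `P` has all its flattening
norms at most `κ`.  Overlapping sets `A`, `B` are allowed; for one element sets `I` this is the sup
norm. -/
def FB (P : Fin d → ℕ) (I : Finset (Fin d)) (T : (Fin d → ℕ) → ℝ) (κ : ℝ) : Prop :=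
  ∀ A B : Finset (Fin d), A.Nonempty → B.Nonempty → A ∪ B = I → ∀ x z : (Fin d → ℕ) → ℝ,
    |∑ s ∈ bx I P, x (pr A P s) * z (pr B P s) * T s| ≤ κ * (nm A P x * nm B P z)

/-- The difference norm of a function `F` of cells with the tensor coordinates `I`. -/
def HB (m : ℕ) (P : Fin d → ℕ) (I : Finset (Fin d)) (F : (Fin d → ℕ) → ℝ) (κ : ℝ) : Prop :=
  ∀ θ ∈ Th d m, FB P I (TV m P Iᶜ θ F) κ

end Pool.Agent.NH44.AD
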