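import Pool.Agent.NH44.AD.StmQ
import Pool.Agent.NH43.AD.Pfa

set_option autoImplicit false

/-!
# Project AD: choice of the parameters up to powers of `ln ln`, and assembly (AQ-1, AQ-2)
-/

namespace Pool.Agent.NH44.AD

open Finset
open Pool.Agent.H397R2.SD (E)
open Pool.Agent.NH43.AD (Ce mm PF Hyp yx Xx Pregood KK DD S_DTM S_TUP S_UNI)

namespace NUMQx

theorem mm_pow (n : ℕ) : n + 2 ≤ 2 ^ mm n := by
  unfold mm
  have := Nat.lt_pow_succ_log_self (b := 2) (by norm_num) (n + 2)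
  calc n + 2 ≤ 2 ^ (Nat.log 2 (n + 2)).succ := this.le
    _ ≤ 2 ^ (Nat.log 2 (n + 2) + 2) := Nat.pow_le_pow_right (by norm_num) (by omega)

theorem exp_bound (x : ℕ) : Real.exp (-(x : ℝ)) ≤ 1 / 2 ^ x := by
  rw [Real.exp_neg, one_div]
  apply inv_anti₀ (by positivity)
  have h1 : (2 : ℝ) ≤ Real.exp 1 := by
    have := Real.exp_one_gt_d9
    linarith
  calc (2 : ℝ) ^ x ≤ Real.exp 1 ^ x := pow_le_pow_left₀ (by norm_num) h1 x
    _ = Real.exp x := by rw [← Real.exp_nat_mul, mul_one]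

theorem pow_aux (t : ℕ) (ht : 2 ≤ t) : (3 * t + 1) * t ≤ 2 ^ (3 * t) := by
  have h1 : t ≤ 2 ^ t := Nat.lt_two_pow_self.le
  have h2 : 4 ≤ 2 ^ t := by
    calc 4 = 2 ^ 2 := rfl
      _ ≤ 2 ^ t := Nat.pow_le_pow_right (by norm_num) ht
  have h3 : 2 ^ (3 * t) = 2 ^ t * 2 ^ t * 2 ^ t := by
    rw [← pow_add, ← pow_add]
    congr 1
    ring
  rw [h3]
  calc (3 * t + 1) * t ≤ (4 * t) * t := Nat.mul_le_mul_right _ (by omega)
    _ ≤ 2 ^ t * 2 ^ t * 2 ^ t := by
        apply Nat.mul_le_mul _ h1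
        exact Nat.mul_le_mul h2 h1

end NUMQx

open NUMQx in
theorem t_NUMQ : S_NUMQ := by
  intro d C₀ K hd hK
  set W : ℕ := 5 * d + C₀ + 5 with hW
  set t : ℕ := 4 * W * d * K + 2 * K + 2 * d + 1 with ht
  have ht2 : 2 ≤ t := by rw [ht]; omega
  have hte : K + 2 * d - 1 ≤ t := by rw [ht]; omega
  set A : ℕ := 2 ^ (3 * t) with hA
  have htA : t ≤ A := by
    calc t ≤ 2 ^ t := Nat.lt_two_pow_self.le
      _ ≤ 2 ^ (3 * t) := Nat.pow_le_pow_right (by norm_num) (by omega)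
  have hA2K : 2 * K ≤ A := by refine le_trans ?_ htA; rw [ht]; omega
  have hA1 : 1 ≤ A := by omega
  refine ⟨A, hA1, fun n δ hδ hsm0 => ?_⟩
  have hmp := mm_pow n
  set m : ℕ := mm n with hm
  have hm1 : 1 ≤ m := by rw [hm]; unfold mm; omega
  set L : ℝ := (m : ℝ) + 1 with hL
  have hL1 : 1 ≤ L := by rw [hL]; linarith [(Nat.cast_nonneg m : (0 : ℝ) ≤ m)]
  have hL0 : 0 < L := by linarith
  have hmL : (m : ℝ) ≤ L := by rw [hL]; linarith
  have hAr : (1 : ℝ) ≤ A := by exact_mod_cast hA1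
  have hKr : (1 : ℝ) ≤ K := by exact_mod_cast hK
  have h2KA : 2 * (K : ℝ) ≤ A := by exact_mod_cast hA2K
  set B : ℝ := (A : ℝ) * L with hB
  have hB1 : 1 ≤ B := by rw [hB]; nlinarith
  have hB0 : 0 < B := by linarith
  have hLB : L ≤ B := by rw [hB]; nlinarith
  have hAB : (A : ℝ) ≤ B := by rw [hB]; nlinarith
  have hL2 : (2 : ℝ) ≤ L := by
    have : (1 : ℝ) ≤ m := by exact_mod_cast hm1
    rw [hL]
    linarith
  have hsmall : δ * B ^ t ≤ 1 := by
    refine le_trans (mul_le_mul_of_nonneg_left ?_ hδ.le) hsm0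
    have h1 : B ≤ L ^ (3 * t + 1) := by
      rw [hB, hA, pow_succ]
      push_cast
      exact mul_le_mul_of_nonneg_right (pow_le_pow_left₀ (by norm_num) hL2 _) hL0.le
    calc B ^ t ≤ (L ^ (3 * t + 1)) ^ t := pow_le_pow_left₀ hB0.le h1 t
      _ = L ^ ((3 * t + 1) * t) := (pow_mul _ _ _).symm
      _ ≤ L ^ A := pow_le_pow_right₀ hL1 (pow_aux t ht2)
  have heta : ∀ k, etQ d A n δ k = δ * B ^ (d - k) := fun k => rfl
  have hN1 : (1 : ℝ) ≤ (n : ℝ) + 1 := by linarith [(Nat.cast_nonneg n : (0 : ℝ) ≤ n)]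
  have hN0 : (0 : ℝ) < (n : ℝ) + 1 := by linarith
  have hN2 : (n : ℝ) + 1 ≤ 2 ^ m := by
    have : ((n + 2 : ℕ) : ℝ) ≤ ((2 ^ m : ℕ) : ℝ) := by exact_mod_cast hmp
    push_cast at this
    linarith
  -- the number `h`
  set h : ℝ := etQ d A n δ 1 with hh
  have hh1 : h = δ * B ^ (d - 1) := heta 1
  have hh0 : 0 < h := by rw [hh1]; positivity
  have hKL : 2 * ((K : ℝ) * L ^ K) ≤ B ^ (K + 1) := by
    rw [pow_succ]
    have h1 : L ^ K ≤ B ^ K := pow_le_pow_left₀ hL0.le hLB K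
    have h2 : (0 : ℝ) < L ^ K := by positivity
    calc 2 * ((K : ℝ) * L ^ K) = L ^ K * (2 * K) := by ring
      _ ≤ B ^ K * B := by
          apply mul_le_mul h1 (h2KA.trans hAB) (by positivity) (by positivity)
  have hθ : 2 * ((K : ℝ) * L ^ K * h) ≤ 1 := by
    calc 2 * ((K : ℝ) * L ^ K * h) = δ * (2 * ((K : ℝ) * L ^ K) * B ^ (d - 1)) := by
          rw [hh1]; ring
      _ ≤ δ * (B ^ (K + 1) * B ^ (d - 1)) := by gcongr
      _ = δ * B ^ (K + 1 + (d - 1)) := by rw [pow_add B (K + 1)]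
      _ ≤ δ * B ^ t := by
          apply mul_le_mul_of_nonneg_left _ hδ.le
          exact pow_le_pow_right₀ hB1 (by omega)
      _ ≤ 1 := hsmall
  set θ : ℝ := (K : ℝ) * L ^ K * h with hθd
  have hθ0 : 0 ≤ θ := by rw [hθd]; positivity
  have hθ2 : θ ≤ 1 / 2 := by linarith
  have hgeo : ∑ j ∈ range m, θ ^ j ≤ 2 := by
    have h1 : (∑ j ∈ range m, θ ^ j) * (1 - θ) = 1 - θ ^ m := by
      have := geom_sum_mul θ m
      linarith
    have h2 : 0 ≤ θ ^ m := by positivity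
    have h3 : 0 ≤ ∑ j ∈ range m, θ ^ j := sum_nonneg fun j _ => by positivity
    nlinarith
  have hθm : ((n : ℝ) + 1) * θ ^ m ≤ 1 := by
    calc ((n : ℝ) + 1) * θ ^ m ≤ 2 ^ m * (1 / 2) ^ m := by
          apply mul_le_mul hN2 (pow_le_pow_left₀ hθ0 hθ2 m) (by positivity) (by positivity)
      _ = 1 := by rw [← mul_pow]; norm_num
  refine ⟨hmp, ?_, ?_, ?_, by linarith, m, 2 * W * L, by positivity, ?_, ?_⟩
  · unfold rhQ
    exact mul_pos (Real.rpow_pos_of_pos hN0 _) hδ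
  · rw [heta, Nat.sub_self, pow_zero, mul_one]
    unfold rhQ
    rw [mul_right_comm, ← Real.rpow_add hN0, neg_add_cancel, Real.rpow_zero, one_mul]
  · intro k hk1 hk2
    rw [heta, hh1]
    refine ⟨by positivity, ?_⟩
    apply mul_le_mul_of_nonneg_left _ hδ.le
    exact pow_le_pow_right₀ hB1 (by omega)
  · intro k hk1 hk2
    have he1 : etQ d A n δ k = etQ d A n δ (k + 1) * B := by
      rw [heta, heta, mul_assoc, ← pow_succ]
      congr 2
      omega
    have he0 : δ ≤ etQ d A n δ (k + 1) := by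
      rw [heta]
      calc δ = δ * 1 := (mul_one δ).symm
        _ ≤ δ * B ^ (d - (k + 1)) := by
            apply mul_le_mul_of_nonneg_left _ hδ.le
            exact one_le_pow₀ hB1
    set z : ℝ := etQ d A n δ (k + 1) with hz
    have hz0 : 0 < z := lt_of_lt_of_le hδ he0
    have t1 : 2 * (W : ℝ) * L * (d * ∑ j ∈ range m, K * z * θ ^ j) ≤ z * (4 * W * d * K * L) := by
      rw [← mul_sum]
      calc 2 * (W : ℝ) * L * (d * (K * z * ∑ j ∈ range m, θ ^ j))
          ≤ 2 * (W : ℝ) * L * (d * (K * z * 2)) := by gcongr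
        _ = z * (4 * W * d * K * L) := by ring
    have t2 : K * ((n : ℝ) + 1) * z * θ ^ m ≤ z * K := by
      calc K * ((n : ℝ) + 1) * z * θ ^ m = z * K * (((n : ℝ) + 1) * θ ^ m) := by ring
        _ ≤ z * K * 1 := by
            apply mul_le_mul_of_nonneg_left hθm (by positivity)
        _ = z * K := mul_one _
    have t3 : K * L ^ K * h ^ 2 ≤ z * 1 := by
      rw [mul_one]
      refine le_trans ?_ he0
      calc (K : ℝ) * L ^ K * h ^ 2 = δ * (δ * ((K : ℝ) * L ^ K * (B ^ (d - 1) * B ^ (d - 1)))) := by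
            rw [hh1]; ring
        _ ≤ δ * (δ * (B ^ (K + 1) * (B ^ (d - 1) * B ^ (d - 1)))) := by
            have : (K : ℝ) * L ^ K ≤ B ^ (K + 1) := by
              have : 0 ≤ (K : ℝ) * L ^ K := by positivity
              linarith
            gcongr
        _ = δ * (δ * B ^ (K + 1 + ((d - 1) + (d - 1)))) := by
            rw [pow_add B (K + 1), pow_add B (d - 1)]
        _ ≤ δ * (δ * B ^ t) := by
            apply mul_le_mul_of_nonneg_left _ hδ.le
            apply mul_le_mul_of_nonneg_left _ hδ.le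
            exact pow_le_pow_right₀ hB1 (by omega)
        _ ≤ δ * 1 := mul_le_mul_of_nonneg_left hsmall hδ.le
        _ = δ := mul_one δ
    rw [he1]
    have hfin : 4 * (W : ℝ) * d * K * L + K + 1 ≤ B := by
      have h1 : (4 : ℝ) * W * d * K + 2 * K + 2 * d + 1 ≤ A := by exact_mod_cast htA
      have h1' : ((4 : ℝ) * W * d * K + 2 * K + 2 * d + 1) * L ≤ B := by
        rw [hB]
        exact mul_le_mul_of_nonneg_right h1 hL0.le
      refine le_trans ?_ h1'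
      have h2 : (0 : ℝ) ≤ d := Nat.cast_nonneg d
      nlinarith [mul_nonneg (by linarith : (0 : ℝ) ≤ K) (by linarith : (0 : ℝ) ≤ L - 1),
        mul_nonneg h2 hL0.le]
    calc 2 * (W : ℝ) * L * (d * ∑ j ∈ range m, K * z * θ ^ j) + K * ((n : ℝ) + 1) * z * θ ^ m +
          K * L ^ K * h ^ 2 ≤ z * (4 * W * d * K * L) + z * K + z * 1 := by linarith
      _ = z * (4 * (W : ℝ) * d * K * L + K + 1) := by ring
      _ ≤ z * B := mul_le_mul_of_nonneg_left hfin hz0.le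
  · have hexp : Real.exp (-((2 * W * L) ^ 2 / 2)) ≤ 1 / 2 ^ (W * m) := by
      refine le_trans (Real.exp_le_exp.2 ?_) (exp_bound (W * m))
      push_cast
      have hW1 : (1 : ℝ) ≤ W := by exact_mod_cast (by rw [hW]; omega : 1 ≤ W)
      have h1 : (W : ℝ) * m ≤ W * L := by gcongr
      have h2 : (W : ℝ) * L ≤ (W * L) ^ 2 := by
        have : 1 ≤ (W : ℝ) * L := by nlinarith
        nlinarith
      have h3 : 0 ≤ ((W : ℝ) * L) ^ 2 := by positivity
      have h4 : ((2 : ℝ) * W * L) ^ 2 / 2 = 2 * (W * L) ^ 2 := by ring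
      rw [h4]
      linarith
    have hd2 : (d : ℝ) ≤ 2 ^ (d * m) := by
      have : d ≤ 2 ^ (d * m) := by
        calc d ≤ d * m := Nat.le_mul_of_pos_right d hm1
          _ ≤ 2 ^ (d * m) := Nat.lt_two_pow_self.le
      exact_mod_cast this
    have hm2 : (m : ℝ) ≤ 2 ^ m := by
      have : m ≤ 2 ^ m := Nat.lt_two_pow_self.le
      exact_mod_cast this
    have h4d : (4 : ℝ) ^ d ≤ 2 ^ (2 * d * m) := by
      have h1 : (4 : ℝ) ^ d = 2 ^ (2 * d) := by rw [pow_mul]; norm_num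
      rw [h1]
      exact pow_le_pow_right₀ (by norm_num) (Nat.le_mul_of_pos_right _ hm1)
    have h2md : ((2 : ℝ) ^ m) ^ d = 2 ^ (m * d) := (pow_mul _ _ _).symm
    have hcard : 4 * (((n : ℝ) + 1) ^ d + ((n : ℝ) + 1) ^ d + 1) ≤ 2 ^ (4 * m) * 2 ^ (m * d) := by
      have h1 : ((n : ℝ) + 1) ^ d ≤ 2 ^ (m * d) := by
        rw [pow_mul]
        exact pow_le_pow_left₀ hN0.le hN2 d
      have h2 : (1 : ℝ) ≤ 2 ^ (m * d) := one_le_pow₀ (by norm_num)
      have h3 : (16 : ℝ) ≤ 2 ^ (4 * m) := by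
        calc (16 : ℝ) = 2 ^ (4 * 1) := by norm_num
          _ ≤ 2 ^ (4 * m) := pow_le_pow_right₀ (by norm_num) (by omega)
      calc 4 * (((n : ℝ) + 1) ^ d + ((n : ℝ) + 1) ^ d + 1) ≤ 16 * 2 ^ (m * d) := by linarith
        _ ≤ _ := by gcongr
    have hNC : ((n : ℝ) + 1) ^ C₀ ≤ 2 ^ (m * C₀) := by
      rw [pow_mul]
      exact pow_le_pow_left₀ hN0.le hN2 C₀
    rw [le_div_iff₀ (by positivity)]
    calc 4 ^ d * (2 ^ m) ^ d * ((d : ℝ) * m *
        (4 * (((n : ℝ) + 1) ^ d + ((n : ℝ) + 1) ^ d + 1) *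
          Real.exp (-((2 * W * L) ^ 2 / 2)))) * ((n : ℝ) + 1) ^ C₀
        ≤ 2 ^ (2 * d * m) * 2 ^ (m * d) * (2 ^ (d * m) * 2 ^ m *
          (2 ^ (4 * m) * 2 ^ (m * d) * (1 / 2 ^ (W * m)))) * 2 ^ (m * C₀) := by
          rw [← h2md]
          rw [← h2md] at hcard
          gcongr
      _ = 2 ^ (2 * d * m + m * d + d * m + m + 4 * m + m * d + m * C₀) / 2 ^ (W * m) := by
          simp only [pow_add]
          ring
      _ ≤ 1 := by
          rw [div_le_one (by positivity)]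
          apply pow_le_pow_right₀ (by norm_num)
          rw [hW]
          nlinarith

theorem t_PFAQ : S_PFAQ := by
  classical
  intro hD hT hU hN d C₀ hd
  obtain ⟨K, hK1, hK⟩ := hD d hd
  obtain ⟨A, hA1, hA⟩ := hN d C₀ K hd hK1
  refine ⟨A, hA1, fun n δ hδ hsmall Ω _ _ T X f hyp Q hQ => ?_⟩
  obtain ⟨hm, hrh, hrho, het, hsm, J, lam, hlam, hsum, hfin⟩ := hA n δ hδ hsmall
  generalize mm n = m at *
  generalize etQ d A n δ = η at *
  generalize rhQ d n δ = ρ at *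
  have hK0 : (0 : ℝ) < K := by exact_mod_cast hK1
  have hh0 : 0 < η 1 := (het 1 le_rfl (by omega)).1
  have hy : ∀ x r, |yx ρ f x r| ≤ ρ := by
    intro x r
    unfold yx
    rw [abs_mul, abs_of_pos hrh]
    have := hyp.le r x
    nlinarith [abs_nonneg (f r x)]
  have hy0 : ∀ x (r : Ce d), ∑ i, r i ≠ n → yx ρ f x r = 0 := by
    intro x r hr
    unfold yx
    rw [hyp.zero r x hr, mul_zero]
  have det := fun x => hK n m η ρ (η 1) (Xx X x) (yx ρ f x) hm (fun i v => hyp.sgn i v x) (hy x)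
    (hy0 x) hrh hrho het hsm Q hQ
  refine (hU d n m η Ω X f ρ (by omega) Q
    ((d : ℝ) * J * (4 * (((n : ℝ) + 1) ^ d + ((n : ℝ) + 1) ^ d + 1) * Real.exp (-(lam ^ 2 / 2))))
    (by positivity) (fun x hx => ⟨(det x hx).1, (det x hx).2.1⟩) ?_).trans hfin
  intro S A B θ hA hB hAB hS hθ
  obtain ⟨k, hk⟩ : ∃ k, k ∉ S := by
    by_contra hcon
    push Not at hcon
    exact hS (eq_univ_iff_forall.2 hcon)
  have hS1 : 1 ≤ S.card := by
    obtain ⟨i, hi⟩ := hA
    refine card_pos.2 ⟨i, ?_⟩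
    rw [← hAB]
    exact mem_union_left _ hi
  have hS2 : S.card < d := by
    have := card_lt_univ_of_notMem hk
    rwa [Fintype.card_fin] at this
  have hη1 : 0 < η (S.card + 1) := (het _ (by omega) (by omega)).1
  have h1 := hT d n m J η Ω T X f ρ (by omega) hyp Q S A B θ k
    (fun j => K * η (S.card + 1) * (K * ((m : ℝ) + 1) ^ K * η 1) ^ j)
    (K * ((n : ℝ) + 1) * η (S.card + 1) * (K * ((m : ℝ) + 1) ^ K * η 1) ^ J)
    (K * ((m : ℝ) + 1) ^ K * η 1 ^ 2) lam hQ hlam (fun j => by positivity)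
    (fun x hx => ⟨(det x hx).1, (det x hx).2.2 S A B θ k J hA hB hAB hk hθ⟩)
  have h2 := hsum S.card hS1 hS2
  refine (Pool.Agent.NH43.AD.PFAx.E_mono fun x => ?_).trans (h1.trans ?_)
  · by_cases hg : Pregood m η (Xx X x) (yx ρ f x) Q
    · have hpos := (det x hg).1
      by_cases hM : MO (bx A Q) (bx B Q) (HM m Q S A B θ (KK (Xx X x) (yx ρ f x) S)) (η S.card)
      · rw [if_neg (fun h => h.2 hM)]
        split_ifs
        · exact hpos.le
        · exact le_rfl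
      · rw [if_pos ⟨hg, hM⟩, if_pos ⟨hg, fun h => hM (Pool.Agent.NH43.AD.PFAx.MO_mono h2 h)⟩]
    · rw [if_neg (fun h => hg h.1), if_neg (fun h => hg h.1)]
  · have hcA := Pool.Agent.NH43.AD.PFAx.bx_card A Q hQ
    have hcB := Pool.Agent.NH43.AD.PFAx.bx_card B Q hQ
    have he := Real.exp_pos (-(lam ^ 2 / 2))
    refine mul_le_mul_of_nonneg_left ?_ (by positivity)
    refine mul_le_mul_of_nonneg_right ?_ he.le
    linarith

end Pool.Agent.NH44.AD
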