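import Pool.Agent.NH44.AD.StmM

set_option autoImplicit false

/-!
# Project AD, AM-17: predictability of the seeds and of the chains
-/

namespace Pool.Agent.NH44.AD

open Finset
open Pool.Agent.NH99.WZ (wal)
open Pool.Agent.NH43.AD (Pre)

namespace PdcAux

variable {d : ℕ} {Ω : Type}

theorem pre_mono {α : Type} {T : Fin d → ℕ → Ω → Ω} {q q' : Fin d → ℕ} {g : Ω → α}
    (hq : ∀ i, q' i ≤ q i) (h : Pre T q' g) : Pre T q g :=
  fun i v hv x => h i v (le_trans (hq i) hv) x

theorem mem_box_iff {P q : Fin d → ℕ} : q ∈ box P ↔ ∀ i, q i ≤ P i := by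
  simp [box]

theorem sd_pre (m : ℕ) (T : Fin d → ℕ → Ω → Ω) (Q θ : Fin d → ℕ)
    (h : Ω → Fin d → Fin d → (Fin d → ℕ) → ℝ)
    (hh : ∀ c τ, ∀ q ∈ box Q, Pre T q (fun x => h x c τ q)) (W : List (Fin d)) :
    ∀ (k : Fin d) (Γ : Ω → Kn d),
    (∀ q ∈ box Q, ∀ a e, Pre T q (fun x => Γ x q a e)) →
    ∀ τ, ∀ q ∈ box Q, ∀ a e, Pre T q (fun x => sd m (h x) Q θ W k (Γ x) τ q a e) := by
  induction W with
  | nil =>
    intro k Γ hΓ τ q hq a e i v hv x
    show (if τ = k then Γ (T i v x) q a e else 0) = (if τ = k then Γ x q a e else 0)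
    have := hΓ q hq a e i v hv x
    simp only at this
    rw [this]
  | cons c W ih =>
    intro k Γ hΓ τ q hq a e i v hv x
    have h1 := ih k (fun x q a e => wal m (θ c) (q c) * kd c (Γ x) q a e) (by
      intro q hq a e i v hv x
      have e1 := hΓ q hq a e i v hv x
      have hq' : Function.update q c (q c - 1) ∈ box Q := by
        rw [mem_box_iff] at hq ⊢
        intro j
        by_cases hj : j = c
        · subst hj
          rw [Function.update_self]
          exact le_trans (Nat.sub_le _ _) (hq j)
        · rw [Function.update_of_ne hj]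
          exact hq j
      have e2 := pre_mono (q := q) (q' := Function.update q c (q c - 1)) (by
        intro j
        by_cases hj : j = c
        · subst hj
          rw [Function.update_self]
          exact Nat.sub_le _ _
        · rw [Function.update_of_ne hj]) (hΓ _ hq' a e) i v hv x
      simp only at e1 e2
      simp only [kd]
      rw [e1, e2]) τ q hq a e i v hv x
    have h2 := ih c (fun x q a e => if q c < Q c then
          wal m (θ c) (q c + 1) * h x c k q * Γ x q a e else 0) (by
      intro q hq a e i v hv x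
      have e1 := hΓ q hq a e i v hv x
      have e2 := hh c k q hq i v hv x
      simp only at e1 e2
      simp only
      rw [e1, e2]) τ q hq a e i v hv x
    simp only at h1 h2
    simp only [sd]
    rw [h1, h2]

theorem ch1_pre (T : Fin d → ℕ → Ω → Ω) (Q : Fin d → ℕ)
    (h : Ω → Fin d → Fin d → (Fin d → ℕ) → ℝ)
    (hh : ∀ c τ, ∀ q ∈ box Q, Pre T q (fun x => h x c τ q)) (c τ : Fin d)
    (Γ : Ω → Kn d) (hΓ : ∀ q ∈ box Q, ∀ a e, Pre T q (fun x => Γ x q a e)) :
    ∀ q ∈ box Q, ∀ a e, Pre T q (fun x => ch1 (h x) Q c τ (Γ x) q a e) := by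
  intro q hq a e i v hv x
  simp only [ch1]
  split_ifs with hc
  · have e2 := hh c τ q hq i v hv x
    simp only at e2
    rw [e2]
    congr 1
    refine Finset.sum_congr rfl ?_
    intro s hs
    split_ifs with hs'
    · have hsq : ∀ j, s j ≤ q j := by
        intro j
        by_cases hj : j = τ
        · rw [hj, hs'.1]
        · rcases lt_trichotomy j c with hlt | heq | hgt
          · rw [hc.2.2 j hlt hj]
            exact mem_box_iff.1 hs j
          · rw [heq]
            exact hs'.2.1
          · exact le_of_eq (hs'.2.2 j hgt hj)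
      have e1 := pre_mono hsq (hΓ s hs a e) i v hv x
      simpa using e1
    · rfl
  · rfl

end PdcAux

open PdcAux in
/-- AM-17: predictability of the seeds and of the chains -/
theorem t_PDC : S_PDC := by
  intro d m Ω T Q θ h hh
  refine ⟨fun W k Γ hΓ => sd_pre m T Q θ h hh W k Γ hΓ, ?_⟩
  intro Γ hΓ τ q hq a e i v hv x
  simp only [AC]
  refine Finset.sum_congr rfl ?_
  intro c _
  split_ifs with hc
  · rfl
  · exact ch1_pre T Q h hh τ c (fun x => Γ x c) (hΓ c) q hq a e i v hv x

end Pool.Agent.NH44.AD
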