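import Pool.Agent.NH44.AD.Ker
import Pool.Agent.NH43.AD.Defs

set_option autoImplicit false

/-!
# Project AD (every dimension): the middle part, statements

Every statement is a proposition `S_...`; complete proofs are in the specs of the jobs `AM-..`.
-/

namespace Pool.Agent.NH44.AD

open Finset
open Pool.Agent.NH99.WZ (wal)
open Pool.Agent.NH43.AD (Ce ex lo DD RR KK be om ph gg ps top cz Cond Good Pregood Pre)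

/-! ### Walsh functions -/

/-- AM-1: the weights `dw` -/
def S_DWT : Prop := ∀ m : ℕ,
  (∃ t : ℕ → ℕ → ℝ, ∑ a ∈ range (2 ^ m), ∑ b ∈ range (2 ^ m), |t a b| ≤ (m : ℝ) + 1 ∧
    ∀ p s q : ℕ, p < 2 ^ m → s ≤ p → q ≤ p →
      ∑ a ∈ range (2 ^ m), ∑ b ∈ range (2 ^ m), t a b * (dw m p a q * wal m b s) =
        if q = s then (1 : ℝ) else 0) ∧
  (∀ a < 2 ^ m, ∃ c : ℕ → ℕ → ℝ,
    ∑ b ∈ range (2 ^ m), ∑ b' ∈ range (2 ^ m), |c b b'| ≤ 2 * (m : ℝ) + 1 ∧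
    ∀ p i j : ℕ, p < 2 ^ m → i ≤ p → j ≤ p →
      ∑ b ∈ range (2 ^ m), ∑ b' ∈ range (2 ^ m), c b b' * (dw m p b i * dw m p b' j) =
        if i = j then dw m p a i else 0)

/-- AM-2: the decomposition lemma -/
def S_DL : Prop := ∀ (d m : ℕ) (P : Fin d → ℕ) (U V : Finset (Fin d)), (∀ i, P i < 2 ^ m) →
  ∀ θ ∈ Th d m, ∃ C : (Fin d → ℕ) → (Fin d → ℕ) → (Fin d → ℕ) → ℝ,
    (∑ θ₁ ∈ Th d m, ∑ θ₂ ∈ Th d m, ∑ θ₃ ∈ Th d m, |C θ₁ θ₂ θ₃| ≤ cd d m) ∧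
    ∀ (F G : (Fin d → ℕ) → ℝ), ∀ s ∈ box P,
      TV m P (U ∩ V) θ (fun q => F q * G q) s =
        ∑ θ₁ ∈ Th d m, ∑ θ₂ ∈ Th d m, ∑ θ₃ ∈ Th d m,
          C θ₁ θ₂ θ₃ * (ch m θ₃ s * (TV m P U θ₁ F s * TV m P V θ₂ G s))

/-! ### Tensors -/

/-- AM-3: elementary properties of the tensor norm -/
def S_FBT : Prop := ∀ (d m : ℕ) (P : Fin d → ℕ) (I : Finset (Fin d)), I.Nonempty →
  (∀ (T : (Fin d → ℕ) → ℝ) (κ κ' : ℝ), FB P I T κ → κ ≤ κ' → FB P I T κ') ∧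
  (∀ (T T' : (Fin d → ℕ) → ℝ) (κ : ℝ), (∀ s ∈ bx I P, T s = T' s) → FB P I T κ → FB P I T' κ) ∧
  (∀ (T T' : (Fin d → ℕ) → ℝ) (κ κ' : ℝ), FB P I T κ → FB P I T' κ' →
    FB P I (fun s => T s + T' s) (κ + κ')) ∧
  (∀ (ι : Type) (J : Finset ι) (c : ι → ℝ) (T : ι → (Fin d → ℕ) → ℝ) (κ : ℝ), 0 ≤ κ →
    (∀ j ∈ J, FB P I (T j) κ) → FB P I (fun s => ∑ j ∈ J, c j * T j s) ((∑ j ∈ J, |c j|) * κ)) ∧
  (∀ (T : (Fin d → ℕ) → ℝ) (κ : ℝ) (i : Fin d) (α : ℕ → ℝ), i ∈ I → (∀ v, |α v| ≤ 1) →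
    FB P I T κ → FB P I (fun s => α (s i) * T s) κ) ∧
  (∀ (T : (Fin d → ℕ) → ℝ) (κ : ℝ) (θ : Fin d → ℕ), FB P I T κ →
    FB P I (fun s => ch m θ s * T s) κ) ∧
  (∀ (T : (Fin d → ℕ) → ℝ) (κ : ℝ), FB P I T κ → 0 ≤ κ ∧ ∀ s ∈ bx I P, |T s| ≤ κ) ∧
  (∀ T : (Fin d → ℕ) → ℝ, ∃ κ : ℝ, 0 ≤ κ ∧ FB P I T κ)

/-- AM-4: the composition inequality -/
def S_CMP : Prop := ∀ (d : ℕ) (P : Fin d → ℕ) (A B A' B' : Finset (Fin d))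
  (X Y : (Fin d → ℕ) → ℝ) (κ μ : ℝ), FB P A X κ → FB P B Y μ → (A ∩ B).Nonempty →
  (B ∩ B').Nonempty → (A ∩ A').Nonempty → A' ∪ B' ∪ (A ∩ B) = A ∪ B →
  ∀ x z : (Fin d → ℕ) → ℝ,
    |∑ s ∈ bx (A ∪ B) P, x (pr A' P s) * z (pr B' P s) * (X (pr A P s) * Y (pr B P s))| ≤
      κ * μ * (nm A' P x * nm B' P z)

/-- AM-5: common index, and contraction -/
def S_L12 : Prop := ∀ (d : ℕ) (P : Fin d → ℕ) (A B : Finset (Fin d))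
  (X Y : (Fin d → ℕ) → ℝ) (κ μ : ℝ), FB P A X κ → FB P B Y μ → (A ∩ B).Nonempty →
  FB P (A ∪ B) (fun s => X (pr A P s) * Y (pr B P s)) (κ * μ) ∧
  (∀ (k : Fin d) (α : ℕ → ℝ), k ∈ A ∩ B → (A.erase k).Nonempty → (B.erase k).Nonempty →
    (∀ v, |α v| ≤ 1) →
    FB P ((A ∪ B).erase k) (fun s => ∑ v ∈ range (P k + 1), α v *
      (X (pr A P (Function.update s k v)) * Y (pr B P (Function.update s k v)))) (κ * μ))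

/-! ### The difference norm -/

/-- AM-6: elementary properties of the difference norm -/
def S_HBT : Prop := ∀ (d m : ℕ) (P : Fin d → ℕ) (I : Finset (Fin d)), I.Nonempty →
  (∀ i, P i < 2 ^ m) →
  (∀ (F : (Fin d → ℕ) → ℝ) (κ κ' : ℝ), HB m P I F κ → κ ≤ κ' → HB m P I F κ') ∧
  (∀ (F G : (Fin d → ℕ) → ℝ) (κ : ℝ), (∀ s ∈ box P, F s = G s) → HB m P I F κ → HB m P I G κ) ∧
  (∀ (F G : (Fin d → ℕ) → ℝ) (κ κ' : ℝ), HB m P I F κ → HB m P I G κ' →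
    HB m P I (fun s => F s + G s) (κ + κ')) ∧
  (∀ (F : (Fin d → ℕ) → ℝ) (κ c : ℝ), HB m P I F κ → HB m P I (fun s => c * F s) (|c| * κ)) ∧
  (∀ (F : (Fin d → ℕ) → ℝ) (κ : ℝ) (i : Fin d) (α : ℕ → ℝ), i ∈ I → (∀ v, |α v| ≤ 1) →
    HB m P I F κ → HB m P I (fun s => α (s i) * F s) κ) ∧
  (∀ (F : (Fin d → ℕ) → ℝ) (κ : ℝ), HB m P I F κ → 0 ≤ κ ∧ ∀ s ∈ box P, |F s| ≤ cd d m * κ) ∧
  (∀ F : (Fin d → ℕ) → ℝ, ∃ κ : ℝ, 0 ≤ κ ∧ HB m P I F κ)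

/-- AM-7: products -/
def S_PRD : Prop := ∀ (d m : ℕ) (P : Fin d → ℕ) (A B : Finset (Fin d)) (F G : (Fin d → ℕ) → ℝ)
  (κ μ : ℝ), (∀ i, P i < 2 ^ m) → (A ∩ B).Nonempty → HB m P A F κ → HB m P B G μ →
    HB m P (A ∪ B) (fun q => F q * G q) (cd d m * (κ * μ)) ∧
    ∀ (k : Fin d) (α : ℕ → ℝ) (θ : Fin d → ℕ), k ∈ A ∩ B → (A.erase k).Nonempty →
      (B.erase k).Nonempty → (∀ v, |α v| ≤ 1) → θ ∈ Th d m →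
      FB P ((A ∪ B).erase k) (fun s => ∑ v ∈ range (P k + 1), α v *
        TV m P (A ∪ B)ᶜ θ (fun q => F q * G q) (Function.update s k v)) (cd d m * (κ * μ))

/-- AM-8: division by `1 - b ^ 2` -/
def S_INV : Prop := ∀ (d m : ℕ) (P : Fin d → ℕ) (I : Finset (Fin d)) (k : Fin d)
  (K b : (Fin d → ℕ) → ℝ) (κ β : ℝ), (∀ i, P i < 2 ^ m) → k ∈ I → 0 < κ → HB m P I K κ →
  HB m P {k} b β → 2 * (cd d m * β) ^ 2 ≤ 1 → (∀ s ∈ box P, |b s| ≤ 1 / 2) →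
    HB m P I (fun s => K s / (1 - b s ^ 2)) (3 * κ)

/-- AM-9: the logarithm -/
def S_LOG : Prop := ∀ (d m : ℕ) (P : Fin d → ℕ) (k : Fin d)
  (φ : (Fin d → ℕ) → Finset (Fin d) → ℝ) (κ : ℝ), (∀ i, P i < 2 ^ m) → 0 ≤ κ →
  2 ^ (d + 1) * (cd d m * κ) ≤ 1 →
  (∀ B : Finset (Fin d), B.Nonempty → k ∉ B → HB m P (insert k B) (fun s => φ s B) κ) →
  (∀ B : Finset (Fin d), B.Nonempty → k ∉ B → HB m P (insert k B) (fun s => lo (φ s) B) (2 * κ)) ∧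
  (∀ (S : Finset (Fin d)) (α : ℕ → ℝ) (θ : Fin d → ℕ), S.Nonempty → k ∉ S → (∀ v, |α v| ≤ 1) →
    θ ∈ Th d m → FB P S (fun s => ∑ v ∈ range (P k + 1), α v *
      TV m P (insert k S)ᶜ θ (fun q => lo (φ q) S - φ q S) (Function.update s k v))
        (2 ^ (d + 1) * (cd d m * κ ^ 2)))

/-- AM-10: the top cumulants -/
def S_TOPN : Prop := ∀ (d n m : ℕ) (P : Fin d → ℕ) (F : (Fin d → ℕ) → ℝ) (ρ : ℝ), 2 ≤ d →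
  (∀ i, P i ≤ n) → (∀ s, |F s| ≤ ρ) → (∀ s, ∑ i, s i ≠ n → F s = 0) →
    HB m P univ F (ρ * ((n : ℝ) + 1) ^ (((d : ℝ) - 2) / 2))

/-- AM-11: the deterministic bounds on a good box -/
def S_DET : Prop := ∀ (d n m : ℕ) (η : ℕ → ℝ) (X : Fin d → ℕ → ℝ) (y : Ce d → ℝ) (ρ h : ℝ)
  (P : Ce d), 2 ≤ d → (∀ i v, X i v = 1 ∨ X i v = -1) → (∀ r, |y r| ≤ ρ) →
  (∀ r : Ce d, ∑ i, r i ≠ n → y r = 0) → (∀ i, P i ≤ n) → n < 2 ^ m →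
  ρ * ((n : ℝ) + 1) ^ (((d : ℝ) - 2) / 2) ≤ η d → (∀ j, 1 ≤ j → j ≤ d → 0 < η j ∧ η j ≤ h) →
  2 ^ (d + 6) * (cd d m ^ 2 * h) ≤ 1 → Good m η X y P →
  (∀ (k : Fin d) (S : Finset (Fin d)), S.Nonempty → k ∉ S →
    HB m P (insert k S) (gg X y k S) (3 * η (S.card + 1))) ∧
  (∀ k : Fin d, HB m P {k} (be X y k) h) ∧
  (∀ (k : Fin d) (S : Finset (Fin d)) (α : ℕ → ℝ) (θ : Fin d → ℕ), S.Nonempty → k ∉ S →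
    (∀ v, |α v| ≤ 1) → θ ∈ Th d m → FB P S (fun s => ∑ v ∈ range (P k + 1), α v *
      TV m P (insert k S)ᶜ θ (ps X y k S) (Function.update s k v))
        (2 ^ (d + 6) * (cd d m * h ^ 2)))

/-! ### Kernels -/

/-- AM-12: elementary properties of the kernel norm -/
def S_KNT : Prop := ∀ (d m : ℕ) (P : Fin d → ℕ) (R C : Finset (Fin d → ℕ)) (τ : Fin d)
  (W : Finset (Fin d)),
  (∀ (Γ : Kn d) (κ κ' : ℝ), KN m P R C τ W Γ κ → κ ≤ κ' → KN m P R C τ W Γ κ') ∧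
  (∀ (Γ Γ' : Kn d) (κ : ℝ), (∀ q ∈ box P, ∀ a ∈ R, ∀ e ∈ C, Γ q a e = Γ' q a e) →
    KN m P R C τ W Γ κ → KN m P R C τ W Γ' κ) ∧
  (∀ κ : ℝ, 0 ≤ κ → KN m P R C τ W (fun _ _ _ => 0) κ) ∧
  (∀ (Γ Γ' : Kn d) (κ κ' : ℝ), KN m P R C τ W Γ κ → KN m P R C τ W Γ' κ' →
    KN m P R C τ W (fun q a e => Γ q a e + Γ' q a e) (κ + κ')) ∧
  (∀ (Γ : Kn d) (κ : ℝ), KN m P R C τ W Γ κ → KN m P R C τ W (fun q a e => -Γ q a e) κ) ∧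
  (∀ (ι : Type) (J : Finset ι) (Γ : ι → Kn d) (κ : ℝ), 0 ≤ κ →
    (∀ j ∈ J, KN m P R C τ W (Γ j) κ) →
    KN m P R C τ W (fun q a e => ∑ j ∈ J, Γ j q a e) ((J.card : ℝ) * κ)) ∧
  (∀ (Γ : Kn d) (κ : ℝ) (α : ℕ → ℝ), 0 ≤ κ → τ ∉ W → (∀ v, |α v| ≤ 1) → KN m P R C τ W Γ κ →
    KN m P R C τ W (fun q a e => α (q τ) * Γ q a e) κ) ∧
  (∀ (Γ : Kn d) (κ : ℝ) (θ : Fin d → ℕ), 0 ≤ κ → W = ∅ → θ ∈ Th d m → KN m P R C τ W Γ κ →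
    KN m P R C τ W (fun q a e => ch m θ q * Γ q a e) κ)

/-- AM-13: one step: multiplication by `g` changes the type from `τ` to `c` -/
def S_ST : Prop := ∀ (d m : ℕ) (P : Fin d → ℕ) (R C : Finset (Fin d → ℕ)) (c τ : Fin d)
  (W : Finset (Fin d)) (Γ : Kn d) (g : (Fin d → ℕ) → ℝ) (α : ℕ → ℝ) (γ κ : ℝ),
  (∀ i, P i < 2 ^ m) → c ≠ τ → c ∈ W → τ ∉ W → 0 ≤ κ → 0 ≤ γ → (∀ v, |α v| ≤ 1) →
  HB m P {c, τ} g γ → KN m P R C τ W Γ κ →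
    KN m P R C c (W.erase c) (fun q a e => α (q c) * g q * Γ q a e) (cd d m * (γ * κ))

/-- AM-14: the difference step -/
def S_KS : Prop := ∀ (d m : ℕ) (P : Fin d → ℕ) (R C : Finset (Fin d → ℕ)) (c τ : Fin d)
  (W : Finset (Fin d)) (Γ : Kn d) (θ : Fin d → ℕ) (κ : ℝ),
  (∀ i, P i < 2 ^ m) → c ∈ W → τ ∉ W → 0 ≤ κ → θ ∈ Th d m → KN m P R C τ W Γ κ →
    KN m P R C τ (W.erase c) (fun q a e => wal m (θ c) (q c) * kd c Γ q a e) κ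

/-- AM-15: the norm of the seeds -/
def S_SDN : Prop := ∀ (d m : ℕ) (P Q θ : Fin d → ℕ)
  (R C : Finset (Fin d → ℕ)) (h : Fin d → Fin d → (Fin d → ℕ) → ℝ) (γ : ℝ),
  (∀ i, P i < 2 ^ m) → (∀ i, P i ≤ Q i) → θ ∈ Th d m → 0 ≤ γ → cd d m * γ ≤ 1 →
  (∀ c τ, c ≠ τ → HB m P {c, τ} (h c τ) γ) →
  ∀ (W : List (Fin d)) (k : Fin d) (Γ : Kn d) (κ : ℝ), W.Nodup → k ∉ W → 0 ≤ κ →
    KN m P R C k W.toFinset Γ κ →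
    ∀ τ, KN m P R C τ ∅ (sd m h Q θ W k Γ τ) (2 ^ W.length * κ)

/-- AM-16: the identity for the seeds -/
def S_SDI : Prop := ∀ (d m : ℕ) (Q θ : Fin d → ℕ) (X : Fin d → ℕ → ℝ)
  (b : Fin d → (Fin d → ℕ) → ℝ) (h : Fin d → Fin d → (Fin d → ℕ) → ℝ), U1 X b h Q →
  ∀ (W : List (Fin d)) (k : Fin d) (Γ : Kn d), W.Nodup → k ∉ W →
    (∀ q ∈ box Q, Q k ≤ q k → ∀ a e, Γ q a e = 0) → ∀ a e : Fin d → ℕ,
    ∑ q ∈ box Q, (∏ i ∈ W.toFinset, dw m (Q i) (θ i) (q i)) * (inn X b k q * Γ q a e) =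
      LL X b Q (sd m h Q θ W k Γ) a e

/-- AM-17: predictability of the seeds and of the chains -/
def S_PDC : Prop := ∀ (d m : ℕ) (Ω : Type) (T : Fin d → ℕ → Ω → Ω) (Q θ : Fin d → ℕ)
  (h : Ω → Fin d → Fin d → (Fin d → ℕ) → ℝ),
  (∀ c τ, ∀ q ∈ box Q, Pre T q (fun x => h x c τ q)) →
  (∀ (W : List (Fin d)) (k : Fin d) (Γ : Ω → Kn d),
    (∀ q ∈ box Q, ∀ a e, Pre T q (fun x => Γ x q a e)) →
    ∀ τ, ∀ q ∈ box Q, ∀ a e, Pre T q (fun x => sd m (h x) Q θ W k (Γ x) τ q a e)) ∧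
  (∀ Γ : Ω → Fin d → Kn d,
    (∀ τ, ∀ q ∈ box Q, ∀ a e, Pre T q (fun x => Γ x τ q a e)) →
    ∀ τ, ∀ q ∈ box Q, ∀ a e, Pre T q (fun x => AC (h x) Q (Γ x) τ q a e))

/-- AM-18: the chain identity -/
def S_CHI : Prop := ∀ (d : ℕ) (Q : Fin d → ℕ) (X : Fin d → ℕ → ℝ)
  (b : Fin d → (Fin d → ℕ) → ℝ) (h : Fin d → Fin d → (Fin d → ℕ) → ℝ), U1 X b h Q →
  ∀ (Γ : Fin d → Kn d) (a e : Fin d → ℕ),
    LL X b Q Γ a e = ∑ τ, MM X b Q τ (Γ τ) a e + LL X b Q (AC h Q Γ) a e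

/-- AM-19: the norm of one step of the chain -/
def S_CHN : Prop := ∀ (d m : ℕ) (P Q : Fin d → ℕ) (R C : Finset (Fin d → ℕ))
  (h : Fin d → Fin d → (Fin d → ℕ) → ℝ) (γ : ℝ),
  (∀ i, P i < 2 ^ m) → (∀ i, P i ≤ Q i) → 0 ≤ γ →
  (∀ c τ, c ≠ τ → HB m P {c, τ} (h c τ) γ) →
  ∀ (Γ : Fin d → Kn d) (κ : ℝ), 0 ≤ κ → (∀ τ, KN m P R C τ ∅ (Γ τ) κ) →
    ∀ τ, KN m P R C τ ∅ (AC h Q Γ τ) (d * (cd d m * γ) * κ)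

/-- AM-20: kernel norm and stacks -/
def S_KSB : Prop := ∀ (d m : ℕ) (P Q : Fin d → ℕ) (R C : Finset (Fin d → ℕ)) (τ : Fin d)
  (Γ : Kn d) (κ : ℝ), 1 ≤ Q τ → P = Function.update Q τ (Q τ - 1) → KN m P R C τ ∅ Γ κ →
    SB R C (Q τ) (HH Q τ Γ) κ

/-- AM-21: the remainder -/
def S_REM : Prop := ∀ (d m n : ℕ) (Q : Fin d → ℕ) (R C : Finset (Fin d → ℕ))
  (X : Fin d → ℕ → ℝ) (b : Fin d → (Fin d → ℕ) → ℝ) (Γ : Fin d → Kn d) (κ β : ℝ),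
  (∀ i v, X i v = 1 ∨ X i v = -1) → (∀ i, Q i ≤ n) → n < 2 ^ m → 0 ≤ κ → 0 ≤ β →
  (∀ τ, 1 ≤ Q τ → KN m (Function.update Q τ (Q τ - 1)) R C τ ∅ (Γ τ) κ ∧
    HB m (Function.update Q τ (Q τ - 1)) {τ} (b τ) β) →
    MO R C (LL X b Q Γ) (d * (Real.sqrt (n + 1) * ((1 + cd d m * β) * κ)))

/-- AM-22: the norm of the start kernel -/
def S_G0N : Prop := ∀ (d m : ℕ) (P Q θ : Fin d → ℕ) (S A B W : Finset (Fin d)) (k : Fin d)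
  (G : (Fin d → ℕ) → ℝ) (κ : ℝ), (∀ i, P i < 2 ^ m) → (∀ i, P i ≤ Q i) → θ ∈ Th d m →
  A.Nonempty → B.Nonempty → A ∪ B = S → k ∉ S → W = (insert k S)ᶜ → 0 ≤ κ →
  HB m P (insert k S) G κ → KN m P (bx A Q) (bx B Q) k W (G0 m Q A B θ k G) κ

/-- AM-23: the matrix of a cumulant: seeds and non-linear part -/
def S_DEC : Prop := ∀ (d m : ℕ) (Q θ : Fin d → ℕ) (X : Fin d → ℕ → ℝ)
  (b : Fin d → (Fin d → ℕ) → ℝ) (h : Fin d → Fin d → (Fin d → ℕ) → ℝ)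
  (S A B : Finset (Fin d)) (k : Fin d) (K G p : (Fin d → ℕ) → ℝ), U1 X b h Q → k ∉ S →
  A ∪ B = S →
  (∀ q ∈ box Q, q k < Q k →
    K (Function.update q k (q k + 1)) = K q + inn X b k q * G q + p q) →
  (∀ q ∈ box Q, q k = 0 → K q = 0) → ∀ a e : Fin d → ℕ,
    HM m Q S A B θ K a e =
      LL X b Q (sd m h Q θ ((insert k S)ᶜ.sort (· ≤ ·)) k (G0 m Q A B θ k G)) a e +
        RM m Q S A B θ k p a e

/-- AM-24: flattenings as matrices -/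
def S_HMF : Prop := ∀ (d m : ℕ) (Q θ : Fin d → ℕ) (S A B : Finset (Fin d)) (F : (Fin d → ℕ) → ℝ),
  A.Nonempty → B.Nonempty → A ∪ B = S → ∀ x z : (Fin d → ℕ) → ℝ,
    ∑ s ∈ bx S Q, x (pr A Q s) * z (pr B Q s) * TV m Q Sᶜ θ F s =
      ∑ a ∈ bx A Q, ∑ e ∈ bx B Q, x a * z e * HM m Q S A B θ F a e

/-- AM-25: the norm of the non-linear part -/
def S_RMN : Prop := ∀ (d m : ℕ) (P Q θ : Fin d → ℕ) (S A B : Finset (Fin d)) (k : Fin d)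
  (p : (Fin d → ℕ) → ℝ) (κ : ℝ), A.Nonempty → B.Nonempty → A ∪ B = S → k ∉ S → 0 ≤ κ →
  (1 ≤ Q k → P = Function.update Q k (Q k - 1)) →
  (1 ≤ Q k → FB P S (fun s => ∑ v ∈ range (P k + 1), wal m (θ k) (v + 1) *
    TV m P (insert k S)ᶜ θ p (Function.update s k v)) κ) →
    MO (bx A Q) (bx B Q) (RM m Q S A B θ k p) κ

end Pool.Agent.NH44.AD
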