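import Pool.Agent.NH43.AD.StmP

set_option autoImplicit false

/-!
# Project AD: the version without loss of a power of the logarithm, statements

The same proof with an arbitrary size `dl` of the top cumulants, `dl * (mm n + 1) ^ A ≤ 1`.
-/

namespace Pool.Agent.NH44.AD

open Finset MeasureTheory
open Pool.Agent.H397R2.SD (E)
open Pool.Agent.W776.GD (Om flp rad fE empt)
open Pool.Agent.TH973.SD (discw locD)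
open Pool.Agent.NH43.AD (Ce mm PF Hyp S_DTM S_TUP S_UNI S_L1 S_PAIR S_HYP)

/-- the size of the births -/
noncomputable def rhQ (d n : ℕ) (dl : ℝ) : ℝ := ((n : ℝ) + 1) ^ (-(((d : ℝ) - 2) / 2)) * dl

/-- the bounds for the cumulants of order `k` -/
noncomputable def etQ (d A n : ℕ) (dl : ℝ) (k : ℕ) : ℝ :=
  dl * ((A : ℝ) * ((mm n : ℝ) + 1)) ^ (d - k)

/-- AQ-1: choice of the parameters -/
def S_NUMQ : Prop := ∀ d C₀ K : ℕ, 3 ≤ d → 1 ≤ K → ∃ A : ℕ, 1 ≤ A ∧ ∀ (n : ℕ) (dl : ℝ), 0 < dl →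
    dl * ((mm n : ℝ) + 1) ^ A ≤ 1 →
    n + 2 ≤ 2 ^ mm n ∧ 0 < rhQ d n dl ∧
    rhQ d n dl * ((n : ℝ) + 1) ^ (((d : ℝ) - 2) / 2) ≤ etQ d A n dl d ∧
    (∀ k, 1 ≤ k → k ≤ d → 0 < etQ d A n dl k ∧ etQ d A n dl k ≤ etQ d A n dl 1) ∧
    (K : ℝ) * ((mm n : ℝ) + 1) ^ K * etQ d A n dl 1 ≤ 1 ∧
    ∃ (J : ℕ) (lam : ℝ), 0 ≤ lam ∧
      (∀ k, 1 ≤ k → k < d →
        lam * (d * ∑ j ∈ range J, K * etQ d A n dl (k + 1) *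
            (K * ((mm n : ℝ) + 1) ^ K * etQ d A n dl 1) ^ j) +
          K * ((n : ℝ) + 1) * etQ d A n dl (k + 1) *
            (K * ((mm n : ℝ) + 1) ^ K * etQ d A n dl 1) ^ J +
          K * ((mm n : ℝ) + 1) ^ K * etQ d A n dl 1 ^ 2 ≤ etQ d A n dl k) ∧
      4 ^ d * (2 ^ mm n) ^ d * ((d : ℝ) * J *
        (4 * (((n : ℝ) + 1) ^ d + ((n : ℝ) + 1) ^ d + 1) * Real.exp (-(lam ^ 2 / 2)))) ≤
          1 / ((n : ℝ) + 1) ^ C₀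

/-- the first bad cells have small probability -/
def S_PFQ : Prop := ∀ d C₀ : ℕ, 3 ≤ d → ∃ A : ℕ, 1 ≤ A ∧ ∀ (n : ℕ) (dl : ℝ), 0 < dl →
  dl * ((mm n : ℝ) + 1) ^ A ≤ 1 →
  ∀ (Ω : Type) [Fintype Ω] [Nonempty Ω] (T : Fin d → ℕ → Ω → Ω) (X : Fin d → ℕ → Ω → ℝ)
    (f : Ce d → Ω → ℝ), Hyp n T X f → ∀ q : Ce d, (∀ i, q i ≤ n) →
      PF (mm n) (etQ d A n dl) (rhQ d n dl) X f q ≤ 1 / ((n : ℝ) + 1) ^ C₀

/-- AQ-2: assembly -/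
def S_PFAQ : Prop := S_DTM → S_TUP → S_UNI → S_NUMQ → S_PFQ

/-- the main statement on the grid -/
def S_GRIDQ : Prop := ∀ d : ℕ, 3 ≤ d → ∃ c : ℝ, 0 < c ∧ ∃ A n₀ : ℕ, ∀ n : ℕ, n₀ ≤ n →
  ∀ (ι : Type) (P : Finset ι) (w : ι → ℝ) (V : ℝ) (o : ι → Fin d → ℕ) (u : Fin d → ℝ),
    2 * P.card ≤ 2 ^ n → (2 : ℝ) ^ n ≤ 4 * V → V ≤ 2 ^ n →
    ∃ x : Om d n, c * ((n : ℝ) + 1) ^ ((d : ℝ) / 2) / ((mm n : ℝ) + 1) ^ A ≤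
      |discw P w V o u x|

/-- AQ-3: the grid statement -/
def S_GRIDPQ : Prop := S_PFQ → S_L1 → S_PAIR → S_HYP → S_GRIDQ

/-- the final statement -/
def S_FINQ : Prop := ∀ d : ℕ, 3 ≤ d → ∃ c : ℝ, 0 < c ∧ ∃ A : ℕ, ∀ m : ℕ, 3 ≤ m →
  ∀ (lam : Fin m → ℝ) (ξ : Fin m → Fin d → ℝ), (∀ μ, ξ μ ∈ Set.Icc (0 : Fin d → ℝ) 1) →
    ENNReal.ofReal (c * (Real.log m) ^ ((d : ℝ) / 2) / (m * (1 + Real.log (Real.log m)) ^ A)) ≤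
      eLpNorm (locD lam ξ) ⊤ (volume.restrict (Set.Icc (0 : Fin d → ℝ) 1))

/-- AQ-4: from the grid to the cube -/
def S_GFINQ : Prop := S_GRIDQ → S_FINQ

end Pool.Agent.NH44.AD
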